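import Pool.Agent.H335PN.Stmts

set_option autoImplicit false

namespace Pool.Agent.H335PN

open Pool.Agent.Helper777.Prof

open scoped commutatorElement

namespace BASaux

/-- the integral Heisenberg group -/
@[ext] structure Hei where
  a : ℤ
  b : ℤ
  c : ℤ

namespace Hei

instance : Mul Hei := ⟨fun p q => ⟨p.a + q.a, p.b + q.b, p.c + q.c + p.a * q.b⟩⟩
instance : One Hei := ⟨⟨0, 0, 0⟩⟩
instance : Inv Hei := ⟨fun p => ⟨-p.a, -p.b, -p.c + p.a * p.b⟩⟩

theorem mul_a (p q : Hei) : (p * q).a = p.a + q.a := rfl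
theorem mul_b (p q : Hei) : (p * q).b = p.b + q.b := rfl
theorem mul_c (p q : Hei) : (p * q).c = p.c + q.c + p.a * q.b := rfl
theorem one_a : (1 : Hei).a = 0 := rfl
theorem one_b : (1 : Hei).b = 0 := rfl
theorem one_c : (1 : Hei).c = 0 := rfl
theorem inv_a (p : Hei) : (p⁻¹).a = -p.a := rfl
theorem inv_b (p : Hei) : (p⁻¹).b = -p.b := rfl
theorem inv_c (p : Hei) : (p⁻¹).c = -p.c + p.a * p.b := rfl

instance : Group Hei := Group.ofLeftAxioms
  (by
    intro p q r
    ext
    · simp only [mul_a]; ring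
    · simp only [mul_b]; ring
    · simp only [mul_c, mul_a, mul_b]; ring)
  (by
    intro p
    ext
    · simp only [mul_a, one_a]; ring
    · simp only [mul_b, one_b]; ring
    · simp only [mul_c, one_c, one_a]; ring)
  (by
    intro p
    ext
    · simp only [mul_a, inv_a, one_a]; ring
    · simp only [mul_b, inv_b, one_b]; ring
    · simp only [mul_c, inv_c, inv_a, one_c]; ring)

/-- first coordinate -/
def Ea : Hei →* Multiplicative ℤ where
  toFun p := Multiplicative.ofAdd p.a
  map_one' := rfl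
  map_mul' _ _ := rfl

/-- second coordinate -/
def Eb : Hei →* Multiplicative ℤ where
  toFun p := Multiplicative.ofAdd p.b
  map_one' := rfl
  map_mul' _ _ := rfl

theorem comm_eq (p q : Hei) : p * q * p⁻¹ * q⁻¹ = ⟨0, 0, p.a * q.b - p.b * q.a⟩ := by
  ext
  · simp only [mul_a, inv_a]; ring
  · simp only [mul_b, inv_b]; ring
  · simp only [mul_c, mul_a, inv_a, inv_b, inv_c]; ring

end Hei

/-- the map to the Heisenberg group -/
def h : FreeGroup (Fin 2) →* Hei := FreeGroup.lift ![⟨1, 0, 0⟩, ⟨0, 1, 0⟩]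

theorem h_x : h (FreeGroup.of 0) = ⟨1, 0, 0⟩ := by simp [h]
theorem h_y : h (FreeGroup.of 1) = ⟨0, 1, 0⟩ := by simp [h]

theorem ab_of_comm (w : FreeGroup (Fin 2)) (hw : w ∈ commutator (FreeGroup (Fin 2))) :
    (h w).a = 0 ∧ (h w).b = 0 := by
  have h1 : w ∈ (Hei.Ea.comp h).ker := Abelianization.commutator_subset_ker _ hw
  have h2 : w ∈ (Hei.Eb.comp h).ker := Abelianization.commutator_subset_ker _ hw
  rw [MonoidHom.mem_ker] at h1 h2
  exact ⟨h1, h2⟩

theorem h_of_comm2 (w : FreeGroup (Fin 2))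
    (hw : w ∈ ⁅commutator (FreeGroup (Fin 2)), commutator (FreeGroup (Fin 2))⁆) : h w = 1 := by
  have : ⁅commutator (FreeGroup (Fin 2)), commutator (FreeGroup (Fin 2))⁆ ≤ h.ker := by
    rw [Subgroup.commutator_le]
    intro p hp q hq
    rw [MonoidHom.mem_ker, commutatorElement_def, map_mul, map_mul, map_mul, map_inv, map_inv,
      Hei.comm_eq]
    have h1 := ab_of_comm p hp
    rw [h1.1, h1.2]
    ext
    · rfl
    · rfl
    · simp [Hei.one_c]
  exact (MonoidHom.mem_ker).1 (this hw)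

/-- the class in the abelianization in terms of the exponent sums -/
def g : FreeGroup (Fin 2) →* Abelianization (FreeGroup (Fin 2)) where
  toFun w := (Abelianization.of (FreeGroup.of 0)) ^ (h w).a *
    (Abelianization.of (FreeGroup.of 1)) ^ (h w).b
  map_one' := by simp [Hei.one_a, Hei.one_b]
  map_mul' u v := by
    rw [map_mul, Hei.mul_a, Hei.mul_b, zpow_add, zpow_add]
    exact mul_mul_mul_comm _ _ _ _

theorem g_eq : g = Abelianization.of := by
  apply FreeGroup.ext_hom
  intro i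
  fin_cases i
  · simp [g, h_x]
  · simp [g, h_y]

theorem comm_of_ab (w : FreeGroup (Fin 2)) (ha : (h w).a = 0) (hb : (h w).b = 0) :
    w ∈ commutator (FreeGroup (Fin 2)) := by
  have h1 : g w = 1 := by
    have h2 : g w = (Abelianization.of (FreeGroup.of (0 : Fin 2))) ^ (h w).a *
      (Abelianization.of (FreeGroup.of (1 : Fin 2))) ^ (h w).b := rfl
    rw [h2, ha, hb]
    simp
  rw [g_eq] at h1
  exact (QuotientGroup.eq_one_iff w).1 h1

theorem lcs_le {G : Type} [Group G] (N : Subgroup G) [N.Normal] (c : ℕ) (hc : 1 ≤ c) :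
    lcs N c ≤ ⁅N, N⁆ := by
  induction c with
  | zero => omega
  | succ k ih =>
    rcases Nat.eq_zero_or_pos k with rfl | hk
    · exact le_rfl
    · exact (Subgroup.commutator_le_left (lcs N k) N).trans (ih hk)

theorem commutator_le_of_mem (K : Subgroup (FreeGroup (Fin 2))) [K.Normal]
    (ht : FreeGroup.of 0 * FreeGroup.of 1 * (FreeGroup.of 0)⁻¹ * (FreeGroup.of 1)⁻¹ ∈ K) :
    commutator (FreeGroup (Fin 2)) ≤ K := by
  have hxy : Commute (QuotientGroup.mk' K (FreeGroup.of 0)) (QuotientGroup.mk' K (FreeGroup.of 1)) := by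
    have h1 : QuotientGroup.mk' K
        (FreeGroup.of 0 * FreeGroup.of 1 * (FreeGroup.of 0)⁻¹ * (FreeGroup.of 1)⁻¹) = 1 :=
      (QuotientGroup.eq_one_iff _).2 ht
    rw [map_mul, map_mul, map_mul, map_inv, map_inv] at h1
    rw [commute_iff_eq]
    have h2 := mul_inv_eq_one.1 h1
    exact mul_inv_eq_iff_eq_mul.1 h2
  have hgen : ∀ i j : Fin 2, Commute (QuotientGroup.mk' K (FreeGroup.of i))
      (QuotientGroup.mk' K (FreeGroup.of j)) := by
    intro i j
    fin_cases i <;> fin_cases j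
    · exact Commute.refl _
    · exact hxy
    · exact hxy.symm
    · exact Commute.refl _
  have h1 : ∀ (i : Fin 2) (w : FreeGroup (Fin 2)),
      Commute (QuotientGroup.mk' K (FreeGroup.of i)) (QuotientGroup.mk' K w) := by
    intro i w
    induction w using FreeGroup.induction_on with
    | C1 => rw [map_one]; exact Commute.one_right _
    | of j => exact hgen i j
    | inv_of j hj => rw [map_inv]; exact hj.inv_right
    | mul u v hu hv => rw [map_mul]; exact hu.mul_right hv
  have h2 : ∀ (u w : FreeGroup (Fin 2)),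
      Commute (QuotientGroup.mk' K u) (QuotientGroup.mk' K w) := by
    intro u w
    induction u using FreeGroup.induction_on with
    | C1 => rw [map_one]; exact Commute.one_left _
    | of j => exact h1 j w
    | inv_of j hj => rw [map_inv]; exact hj.inv_left
    | mul u v hu hv => rw [map_mul]; exact hu.mul_left hv
  rw [commutator_def, Subgroup.commutator_le]
  intro u _ w _
  rw [← QuotientGroup.eq_one_iff]
  change QuotientGroup.mk' K ⁅u, w⁆ = 1
  rw [map_commutatorElement]
  exact commutatorElement_eq_one_iff_commute.2 (h2 u w)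

end BASaux

open BASaux in
-- BEGIN TARGET
theorem t_BAS (h1 : S_NLP) : S_BAS := by
  intro c α hc ht
  have ht' := lcs_le (commutator (FreeGroup (Fin 2))) c hc ht
  -- α preserves the commutator subgroup
  have hα : ∀ w ∈ commutator (FreeGroup (Fin 2)), α w ∈ commutator (FreeGroup (Fin 2)) := by
    intro w hw
    have h2 : w ∈ ((Abelianization.of).comp α).ker := Abelianization.commutator_subset_ker _ hw
    rw [MonoidHom.mem_ker] at h2
    exact (QuotientGroup.eq_one_iff (α w)).1 h2
  -- the determinant is one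
  have hdet : (h (α (FreeGroup.of 0))).a * (h (α (FreeGroup.of 1))).b -
      (h (α (FreeGroup.of 0))).b * (h (α (FreeGroup.of 1))).a = 1 := by
    have h2 := h_of_comm2 _ ht'
    rw [map_mul, map_inv, mul_inv_eq_one] at h2
    simp only [map_mul, map_inv] at h2
    rw [Hei.comm_eq, Hei.comm_eq, h_x, h_y] at h2
    have h3 := congrArg Hei.c h2
    simpa using h3
  -- surjectivity modulo the commutator subgroup
  have hsurj : SurjMod (commutator (FreeGroup (Fin 2))) α := by
    intro w
    set P := h (α (FreeGroup.of 0)) with hP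
    set Q := h (α (FreeGroup.of 1)) with hQ
    refine ⟨(FreeGroup.of 0) ^ ((h w).a * Q.b - (h w).b * Q.a) *
      (FreeGroup.of 1) ^ (P.a * (h w).b - P.b * (h w).a), ?_⟩
    apply comm_of_ab
    · have h2 : Hei.Ea (h (α ((FreeGroup.of 0) ^ ((h w).a * Q.b - (h w).b * Q.a) *
          (FreeGroup.of 1) ^ (P.a * (h w).b - P.b * (h w).a)) * w⁻¹)) =
          (Hei.Ea P) ^ ((h w).a * Q.b - (h w).b * Q.a) *
          (Hei.Ea Q) ^ (P.a * (h w).b - P.b * (h w).a) * (Hei.Ea (h w))⁻¹ := by
        simp only [map_mul, map_zpow, map_inv]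
        rfl
      have h3 := congrArg Multiplicative.toAdd h2
      rw [toAdd_mul, toAdd_mul, toAdd_zpow, toAdd_zpow, toAdd_inv] at h3
      change (h (α ((FreeGroup.of 0) ^ ((h w).a * Q.b - (h w).b * Q.a) *
          (FreeGroup.of 1) ^ (P.a * (h w).b - P.b * (h w).a)) * w⁻¹)).a =
          ((h w).a * Q.b - (h w).b * Q.a) • P.a + (P.a * (h w).b - P.b * (h w).a) • Q.a +
            -(h w).a at h3
      rw [h3, smul_eq_mul, smul_eq_mul]
      linear_combination (h w).a * hdet
    · have h2 : Hei.Eb (h (α ((FreeGroup.of 0) ^ ((h w).a * Q.b - (h w).b * Q.a) *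
          (FreeGroup.of 1) ^ (P.a * (h w).b - P.b * (h w).a)) * w⁻¹)) =
          (Hei.Eb P) ^ ((h w).a * Q.b - (h w).b * Q.a) *
          (Hei.Eb Q) ^ (P.a * (h w).b - P.b * (h w).a) * (Hei.Eb (h w))⁻¹ := by
        simp only [map_mul, map_zpow, map_inv]
        rfl
      have h3 := congrArg Multiplicative.toAdd h2
      rw [toAdd_mul, toAdd_mul, toAdd_zpow, toAdd_zpow, toAdd_inv] at h3
      change (h (α ((FreeGroup.of 0) ^ ((h w).a * Q.b - (h w).b * Q.a) *
          (FreeGroup.of 1) ^ (P.a * (h w).b - P.b * (h w).a)) * w⁻¹)).b =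
          ((h w).a * Q.b - (h w).b * Q.a) • P.b + (P.a * (h w).b - P.b * (h w).a) • Q.b +
            -(h w).b at h3
      rw [h3, smul_eq_mul, smul_eq_mul]
      linear_combination (h w).b * hdet
  -- the subgroup of the elements which are reached
  set N := commutator (FreeGroup (Fin 2)) with hN
  have hmk : ∀ u v : FreeGroup (Fin 2), u * v⁻¹ ∈ ⁅N, N⁆ ↔
      QuotientGroup.mk' ⁅N, N⁆ u = QuotientGroup.mk' ⁅N, N⁆ v := by
    intro u v
    rw [← mul_inv_eq_one, ← map_inv, ← map_mul]
    exact (QuotientGroup.eq_one_iff (u * v⁻¹)).symm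
  let K : Subgroup (FreeGroup (Fin 2)) :=
    { carrier := {w | w ∈ N ∧ ∃ v ∈ N, QuotientGroup.mk' ⁅N, N⁆ (α v) = QuotientGroup.mk' ⁅N, N⁆ w}
      mul_mem' := by
        rintro w w' ⟨hw, v, hv, e⟩ ⟨hw', v', hv', e'⟩
        exact ⟨mul_mem hw hw', v * v', mul_mem hv hv', by rw [map_mul, map_mul, e, e', map_mul]⟩
      one_mem' := ⟨one_mem _, 1, one_mem _, by rw [map_one]⟩
      inv_mem' := by
        rintro w ⟨hw, v, hv, e⟩
        exact ⟨inv_mem hw, v⁻¹, inv_mem hv, by rw [map_inv, map_inv, e, map_inv]⟩ }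
  have hKn : K.Normal := by
    constructor
    rintro w ⟨hw, v, hv, e⟩ p
    obtain ⟨q, hq⟩ := hsurj p
    have hpw : p * w * p⁻¹ ∈ N := (inferInstance : N.Normal).conj_mem w hw p
    refine ⟨hpw, q * v * q⁻¹, (inferInstance : N.Normal).conj_mem v hv q, ?_⟩
    have hcm : QuotientGroup.mk' ⁅N, N⁆ ⁅α q * p⁻¹, p * w * p⁻¹⁆ = 1 :=
      (QuotientGroup.eq_one_iff _).2 (Subgroup.commutator_mem_commutator hq hpw)
    rw [commutatorElement_def] at hcm
    simp only [map_mul, map_inv] at hcm ⊢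
    rw [e]
    rw [mul_inv_eq_one] at hcm
    rw [← hcm]
    group
  have htK : FreeGroup.of 0 * FreeGroup.of 1 * (FreeGroup.of 0)⁻¹ * (FreeGroup.of 1)⁻¹ ∈ K := by
    have ht0 : FreeGroup.of 0 * FreeGroup.of 1 * (FreeGroup.of 0)⁻¹ * (FreeGroup.of 1)⁻¹ ∈ N := by
      apply comm_of_ab
      · simp only [map_mul, map_inv]
        rw [Hei.comm_eq]
      · simp only [map_mul, map_inv]
        rw [Hei.comm_eq]
    exact ⟨ht0, _, ht0, (hmk _ _).1 ht'⟩
  have hle := commutator_le_of_mem K htK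
  refine h1 (FreeGroup (Fin 2)) N α hα ?_ hsurj c
  intro w hw
  obtain ⟨_, v, hv, e⟩ := hle hw
  exact ⟨v, hv, (hmk _ _).2 e⟩
-- END TARGET

end Pool.Agent.H335PN
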