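import Pool.Agent.H335PN.Stmts
import Pool.Agent.Helper777.Prof.P_magnus_ker
import Pool.Agent.Helper777.Prof.P_mag_comm
import Pool.Agent.Helper777.Prof.P_k2inj

set_option autoImplicit false

namespace Pool.Agent.H335PN

open Pool.Agent.Helper777.Prof

namespace TCENaux

theorem lcs_succ_le {G : Type} [Group G] (N : Subgroup G) [hN : N.Normal] (k : ℕ) :
    lcs N (k + 1) ≤ lcs N k := by
  show ⁅lcs N k, N⁆ ≤ lcs N k
  exact Subgroup.commutator_le_left (lcs N k) N

theorem lcs_anti {G : Type} [Group G] (N : Subgroup G) [hN : N.Normal] (k m : ℕ) :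
    lcs N (k + m) ≤ lcs N k := by
  induction m with
  | zero => exact le_refl _
  | succ m ih => exact le_trans (lcs_succ_le N (k + m)) ih

theorem lcs_anti' {G : Type} [Group G] (N : Subgroup G) [hN : N.Normal] {k m : ℕ} (h : k ≤ m) :
    lcs N m ≤ lcs N k := by
  obtain ⟨j, rfl⟩ := Nat.exists_eq_add_of_le h
  exact lcs_anti N k j

theorem lcs_map {G H : Type} [Group G] [Group H] (f : G →* H) (k : ℕ) (x : G)
    (hx : x ∈ lcs (⊤ : Subgroup G) k) : f x ∈ lcs (⊤ : Subgroup H) k := by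
  have key : ∀ k, Subgroup.map f (lcs (⊤ : Subgroup G) k) ≤ lcs (⊤ : Subgroup H) k := by
    intro k
    induction k with
    | zero => exact le_top
    | succ k ih =>
      show Subgroup.map f ⁅lcs (⊤ : Subgroup G) k, (⊤ : Subgroup G)⁆ ≤
        ⁅lcs (⊤ : Subgroup H) k, (⊤ : Subgroup H)⁆
      rw [Subgroup.map_commutator]
      exact Subgroup.commutator_mono ih le_top
  exact key k (Subgroup.mem_map_of_mem f hx)

theorem sh_right {Γ ι : Type} [Group Γ] (π : FreeGroup ι →* Γ) (w : FreeGroup ι) :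
    (sh π w).right = π w := by
  have h : (SemidirectProduct.rightHom : FreeGroup (Γ × ι) ⋊[act Γ ι] Γ →* Γ).comp (sh π) = π := by
    ext i
    simp [sh]
  exact DFunLike.congr_fun h w

theorem rep_supp {X : Type} [DecidableEq X] (w : FreeGroup X) :
    ∃ S : Finset X, ∀ (c : ℕ) (L : Fin c → X), (∀ j, L j ∉ S) → rep ℤ L w = 1 := by
  induction w using FreeGroup.induction_on with
  | C1 => exact ⟨∅, fun c L _ => map_one _⟩
  | of x =>
    refine ⟨{x}, fun c L hL => ?_⟩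
    unfold rep
    rw [FreeGroup.lift_apply_of]
    apply Units.ext
    rw [IsUnit.unit_spec, Units.val_one, add_eq_left]
    funext i j
    unfold em
    by_cases h : (i : ℕ) + 1 = (j : ℕ)
    · rw [dif_pos h, if_neg]
      · rfl
      · intro he
        exact hL _ (Finset.mem_singleton.mpr he)
    · rw [dif_neg h]
      rfl
  | inv_of x ih =>
    obtain ⟨S, hS⟩ := ih
    exact ⟨S, fun c L hL => by rw [map_inv, hS c L hL, inv_one]⟩
  | mul x y hx hy =>
    obtain ⟨S, hS⟩ := hx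
    obtain ⟨S', hS'⟩ := hy
    refine ⟨S ∪ S', fun c L hL => ?_⟩
    rw [map_mul, hS c L (fun j hj => hL j (Finset.mem_union_left _ hj)),
      hS' c L (fun j hj => hL j (Finset.mem_union_right _ hj)), one_mul]

theorem rep_act {Γ ι : Type} [Group Γ] [DecidableEq (Γ × ι)] (g : Γ) {c : ℕ}
    (L : Fin c → Γ × ι) (w : FreeGroup (Γ × ι)) :
    rep ℤ L (act Γ ι g w) = rep ℤ (fun j => (g⁻¹ * (L j).1, (L j).2)) w := by
  have h : (rep ℤ L).comp (act Γ ι g).toMonoidHom =
      rep ℤ (fun j => (g⁻¹ * (L j).1, (L j).2)) := by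
    apply FreeGroup.ext_hom
    intro x
    show rep ℤ L (act Γ ι g (FreeGroup.of x)) = _
    have e : act Γ ι g (FreeGroup.of x) = FreeGroup.of (g * x.1, x.2) := by
      show FreeGroup.freeGroupCongr (perm ι g) (FreeGroup.of x) = _
      simp [perm]
    rw [e]
    unfold rep
    rw [FreeGroup.lift_apply_of, FreeGroup.lift_apply_of]
    apply Units.ext
    rw [IsUnit.unit_spec, IsUnit.unit_spec]
    congr 1
    funext i j
    unfold em
    by_cases h : (i : ℕ) + 1 = (j : ℕ)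
    · rw [dif_pos h, dif_pos h]
      congr 1
      rw [eq_iff_iff]
      constructor
      · intro he
        show (g⁻¹ * (L _).1, (L _).2) = x
        rw [he]
        simp
      · intro he
        rw [← he]
        simp
    · rw [dif_neg h, dif_neg h]
  exact DFunLike.congr_fun h w

theorem part1 {ι Γ : Type} [DecidableEq ι] [Group Γ] (π : FreeGroup ι →* Γ)
    (hπ : Function.Surjective π) (ht : ∀ (g : Γ) (n : ℤ), g ^ n = 1 → g ≠ 1 → n = 0)
    (hu : ∃ u ∈ π.ker, u ∉ ⁅π.ker, π.ker⁆) (z : FreeGroup ι)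
    (hz : ∀ u ∈ π.ker, z * u * z⁻¹ * u⁻¹ ∈ ⁅π.ker, π.ker⁆) : π z = 1 := by
  by_contra hne
  obtain ⟨u, hu, hun⟩ := hu
  apply hun
  apply magnus_ker π hπ
  have h1 := mag_comm π _ (hz u hu)
  have hpu : π u = 1 := MonoidHom.mem_ker.mp hu
  have h2 : mag π z * mag π u = mag π u * mag π z := by
    rw [map_mul, map_mul, map_mul, map_inv, map_inv] at h1
    rw [mul_inv_eq_one] at h1
    rw [mul_inv_eq_iff_eq_mul] at h1
    exact h1
  have h3 := congrArg Wr.v h2
  rw [Wr.mul_v, Wr.mul_v, mag_m, mag_m, hpu, map_one, one_smul, add_comm (mag π u).v] at h3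
  have h4 := add_left_cancel h3
  ext1
  · funext i
    have h5 := congrFun h4 i
    rw [Pi.smul_apply, smul_eq_mul] at h5
    rw [Wr.one_v, Pi.zero_apply]
    apply k2inj (π z) (fun n hn => ht (π z) n hn hne)
    rw [sub_mul, one_mul, sub_eq_zero]
    exact h5
  · rw [mag_m, hpu, Wr.one_m]

end TCENaux

open TCENaux

-- BEGIN TARGET
theorem t_CEN (h1 : S_MAG2) (h2 : S_SHM) : S_CEN := by
  classical
  intro ι Γ _ _ π hπ ht hi hu c hc
  rw [eq_bot_iff]
  intro zz hzz
  rw [Subgroup.mem_bot]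
  obtain ⟨z, rfl⟩ := QuotientGroup.mk_surjective zz
  rw [Subgroup.mem_center_iff] at hzz
  -- commutators lie in `lcs N c`
  have hz : ∀ w : FreeGroup ι, w * z * w⁻¹ * z⁻¹ ∈ lcs π.ker c := by
    intro w
    rw [← QuotientGroup.eq_one_iff]
    have := hzz (w : FreeGroup ι ⧸ lcs π.ker c)
    rw [QuotientGroup.mk_mul, QuotientGroup.mk_mul, QuotientGroup.mk_mul, this,
      QuotientGroup.mk_inv, QuotientGroup.mk_inv, mul_inv_cancel_right, mul_inv_cancel]
  have hle : lcs π.ker c ≤ ⁅π.ker, π.ker⁆ := lcs_anti' π.ker hc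
  have hpz : π z = 1 := by
    apply part1 π hπ ht hu z
    intro u _
    have h := hle (hz u)
    have h' := Subgroup.inv_mem _ h
    have e : (u * z * u⁻¹ * z⁻¹)⁻¹ = z * u * z⁻¹ * u⁻¹ := by group
    rwa [e] at h'
  rw [QuotientGroup.eq_one_iff]
  by_contra hnz
  set φ := (sh π z).left with hφ
  have hφc : φ ∉ lcs (⊤ : Subgroup (FreeGroup (Γ × ι))) c := by
    intro h
    exact hnz ((h2 ι Γ π hπ c z).mpr ⟨hpz, h⟩)
  -- the largest `k`
  have hk : ∃ k, k < c ∧ φ ∈ lcs (⊤ : Subgroup (FreeGroup (Γ × ι))) k ∧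
      φ ∉ lcs (⊤ : Subgroup (FreeGroup (Γ × ι))) (k + 1) := by
    by_contra hcon
    push Not at hcon
    have : ∀ k, k ≤ c → φ ∈ lcs (⊤ : Subgroup (FreeGroup (Γ × ι))) k := by
      intro k
      induction k with
      | zero => exact fun _ => Subgroup.mem_top _
      | succ k ih => exact fun hk => hcon k (by omega) (ih (by omega))
    exact hφc (this c le_rfl)
  obtain ⟨k, hkc, hk1, hk2⟩ := hk
  obtain ⟨i, hi⟩ := hi
  set g := π (FreeGroup.of i) with hg
  set ξ : FreeGroup (Γ × ι) := FreeGroup.of (1, i) with hξ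
  have hshz : sh π z = ⟨φ, 1⟩ := by
    apply SemidirectProduct.ext
    · rfl
    · rw [sh_right, hpz]
  have hshx : sh π (FreeGroup.of i) = ⟨ξ, g⟩ := by
    unfold sh
    rw [FreeGroup.lift_apply_of]
  have hcomp : (sh π (FreeGroup.of i * z * (FreeGroup.of i)⁻¹ * z⁻¹)).left =
      ξ * act Γ ι g φ * ξ⁻¹ * φ⁻¹ := by
    rw [map_mul, map_mul, map_mul, map_inv, map_inv, hshz, hshx]
    simp [SemidirectProduct.mul_left, SemidirectProduct.inv_left]
  have hin : ξ * act Γ ι g φ * ξ⁻¹ * φ⁻¹ ∈ lcs (⊤ : Subgroup (FreeGroup (Γ × ι))) (k + 1) := by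
    have h := ((h2 ι Γ π hπ c _).mp (hz (FreeGroup.of i))).2
    rw [hcomp] at h
    exact lcs_anti' _ (by omega) h
  have hA : act Γ ι g φ ∈ lcs (⊤ : Subgroup (FreeGroup (Γ × ι))) k :=
    lcs_map (act Γ ι g).toMonoidHom k φ hk1
  have hcomm : act Γ ι g φ * ξ * (act Γ ι g φ)⁻¹ * ξ⁻¹ ∈
      lcs (⊤ : Subgroup (FreeGroup (Γ × ι))) (k + 1) :=
    Subgroup.commutator_mem_commutator hA (Subgroup.mem_top ξ)
  have hfin : act Γ ι g φ * φ⁻¹ ∈ lcs (⊤ : Subgroup (FreeGroup (Γ × ι))) (k + 1) := by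
    have h := Subgroup.mul_mem _ hcomm hin
    have e : act Γ ι g φ * ξ * (act Γ ι g φ)⁻¹ * ξ⁻¹ * (ξ * act Γ ι g φ * ξ⁻¹ * φ⁻¹) =
        act Γ ι g φ * φ⁻¹ := by group
    rwa [e] at h
  -- invariance of the coefficients
  have hinv : ∀ L : Fin (k + 1) → Γ × ι,
      rep ℤ (fun j => (g⁻¹ * (L j).1, (L j).2)) φ = rep ℤ L φ := by
    intro L
    have h := (h1 (Γ × ι) (k + 1) _).mp hfin L
    rw [map_mul, map_inv, mul_inv_eq_one, rep_act] at h
    exact h
  have hne : ∃ L : Fin (k + 1) → Γ × ι, rep ℤ L φ ≠ 1 := by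
    by_contra hcon
    push Not at hcon
    exact hk2 ((h1 (Γ × ι) (k + 1) φ).mpr hcon)
  obtain ⟨L, hL⟩ := hne
  have hpow : ∀ n : ℕ, rep ℤ (fun j => ((g⁻¹) ^ n * (L j).1, (L j).2)) φ = rep ℤ L φ := by
    intro n
    induction n with
    | zero => simp
    | succ n ih =>
      rw [← ih, ← hinv (fun j => ((g⁻¹) ^ n * (L j).1, (L j).2))]
      congr 2
      funext j
      simp only [pow_succ', mul_assoc]
  obtain ⟨S, hS⟩ := rep_supp φ
  -- a large power moves all letters out of `S`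
  have hbad : ∃ n : ℕ, ∀ j, (((g⁻¹) ^ n * (L j).1, (L j).2) : Γ × ι) ∉ S := by
    have hfinite : (⋃ j : Fin (k + 1),
        {n : ℕ | (((g⁻¹) ^ n * (L j).1, (L j).2) : Γ × ι) ∈ S}).Finite := by
      apply Set.finite_iUnion
      intro j
      apply Set.Finite.preimage _ S.finite_toSet
      intro a _ b _ hab
      have hab' : (g⁻¹) ^ a * (L j).1 = (g⁻¹) ^ b * (L j).1 := congrArg Prod.fst hab
      have hab2 : (g⁻¹) ^ a = (g⁻¹) ^ b := mul_right_cancel hab'
      have h3 : g ^ ((b : ℤ) - a) = 1 := by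
        rw [zpow_sub, zpow_natCast, zpow_natCast]
        rw [inv_pow, inv_pow, inv_inj] at hab2
        rw [hab2, mul_inv_cancel]
      have h4 := ht g _ h3 hi
      omega
    obtain ⟨n, hn⟩ := hfinite.exists_notMem
    refine ⟨n, fun j hj => hn ?_⟩
    exact Set.mem_iUnion.mpr ⟨j, hj⟩
  obtain ⟨n, hn⟩ := hbad
  apply hL
  rw [← hpow n]
  exact hS _ _ hn
-- END TARGET

end Pool.Agent.H335PN
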