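import Pool.Agent.H335PN.Stmts
import Pool.Agent.Helper777.Prof.P_mag_m

set_option autoImplicit false

/-! CHR: chain rule and fundamental formula for Fox derivatives. -/

namespace Pool.Agent.H335PN

open Pool.Agent.Helper777.Prof

namespace CHR

/-- Two crossed homomorphisms which agree on the generators are equal. -/
theorem crossed {ι R V : Type} [Ring R] [AddCommGroup V] [Module R V] (A : FreeGroup ι →* R)
    (φ ψ : FreeGroup ι → V) (hφ : ∀ u v, φ (u * v) = φ u + A u • φ v)
    (hψ : ∀ u v, ψ (u * v) = ψ u + A u • ψ v)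
    (h : ∀ i, φ (FreeGroup.of i) = ψ (FreeGroup.of i)) : ∀ w, φ w = ψ w := by
  have h1 : ∀ χ : FreeGroup ι → V, (∀ u v, χ (u * v) = χ u + A u • χ v) → χ 1 = 0 := by
    intro χ hχ
    have := hχ 1 1
    rw [mul_one, map_one, one_smul] at this
    exact left_eq_add.mp this
  have h2 : ∀ χ : FreeGroup ι → V, (∀ u v, χ (u * v) = χ u + A u • χ v) → ∀ u,
      χ u⁻¹ = -(A u⁻¹ • χ u) := by
    intro χ hχ u
    have := hχ u⁻¹ u
    rw [inv_mul_cancel, h1 χ hχ] at this
    exact eq_neg_of_add_eq_zero_left this.symm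
  intro w
  induction w using FreeGroup.induction_on with
  | C1 => rw [h1 φ hφ, h1 ψ hψ]
  | of i => exact h i
  | inv_of i _ => rw [h2 φ hφ, h2 ψ hψ, h i]
  | mul u v hu hv => rw [hφ, hψ, hu, hv]

theorem mag_mul_v {ι Γ : Type} [DecidableEq ι] [Group Γ] (π : FreeGroup ι →* Γ)
    (u v : FreeGroup ι) : (mag π (u * v)).v = (mag π u).v +
      (MonoidAlgebra.of ℤ Γ (π u)) • (mag π v).v := by
  rw [map_mul, Wr.mul_v, mag_m]

theorem mag_of_v {ι Γ : Type} [DecidableEq ι] [Group Γ] (π : FreeGroup ι →* Γ)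
    (i : ι) : (mag π (FreeGroup.of i)).v = Pi.single i 1 := by
  simp [mag]

end CHR

-- BEGIN TARGET
theorem t_CHR  : S_CHR := by
  intro ι Γ _ _ _ π
  constructor
  · refine CHR.crossed ((MonoidAlgebra.of ℤ Γ).comp π)
      (fun w => ∑ i, (mag π w).v i * (MonoidAlgebra.single (π (FreeGroup.of i)) 1 - 1))
      (fun w => (MonoidAlgebra.single (π w) 1 - 1 : MonoidAlgebra ℤ Γ)) ?_ ?_ ?_
    · intro u v
      simp only [CHR.mag_mul_v, Pi.add_apply, Pi.smul_apply, smul_eq_mul, add_mul,
        Finset.sum_add_distrib, Finset.mul_sum, mul_assoc]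
      rfl
    · intro u v
      show MonoidAlgebra.of ℤ Γ (π (u * v)) - 1 = MonoidAlgebra.of ℤ Γ (π u) - 1 +
        MonoidAlgebra.of ℤ Γ (π u) * (MonoidAlgebra.of ℤ Γ (π v) - 1)
      rw [map_mul, map_mul, mul_sub, mul_one]
      abel
    · intro j
      show ∑ i, (mag π (FreeGroup.of j)).v i * (MonoidAlgebra.single (π (FreeGroup.of i)) 1 - 1) =
        (MonoidAlgebra.single (π (FreeGroup.of j)) 1 - 1 : MonoidAlgebra ℤ Γ)
      rw [CHR.mag_of_v, Finset.sum_eq_single j]
      · rw [Pi.single_eq_same, one_mul]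
      · intro i _ hij
        rw [Pi.single_eq_of_ne hij, zero_mul]
      · intro h
        exact absurd (Finset.mem_univ j) h
  · intro α β hβ
    have hof : ∀ g : Γ, MonoidAlgebra.mapDomainRingHom ℤ β (MonoidAlgebra.of ℤ Γ g) =
        MonoidAlgebra.of ℤ Γ (β g) := by
      intro g
      simp [MonoidAlgebra.of_apply, MonoidAlgebra.mapDomainRingHom_apply,
        MonoidAlgebra.mapDomain_single]
    refine CHR.crossed ((MonoidAlgebra.of ℤ Γ).comp (π.comp α))
      (fun w => (mag π (α w)).v)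
      (fun w => ∑ i, MonoidAlgebra.mapDomainRingHom ℤ β ((mag π w).v i) •
        (mag π (α (FreeGroup.of i))).v) ?_ ?_ ?_
    · intro u v
      show (mag π (α (u * v))).v = _
      rw [map_mul, CHR.mag_mul_v]
      rfl
    · intro u v
      show ∑ i, MonoidAlgebra.mapDomainRingHom ℤ β ((mag π (u * v)).v i) •
        (mag π (α (FreeGroup.of i))).v = ∑ i, MonoidAlgebra.mapDomainRingHom ℤ β ((mag π u).v i) •
        (mag π (α (FreeGroup.of i))).v + MonoidAlgebra.of ℤ Γ (π (α u)) •
        ∑ i, MonoidAlgebra.mapDomainRingHom ℤ β ((mag π v).v i) • (mag π (α (FreeGroup.of i))).v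
      rw [CHR.mag_mul_v, Finset.smul_sum, ← Finset.sum_add_distrib]
      refine Finset.sum_congr rfl fun i _ => ?_
      rw [Pi.add_apply, Pi.smul_apply, smul_eq_mul, RingHom.map_add, RingHom.map_mul, hof, hβ,
        add_smul, mul_smul]
    · intro j
      show (mag π (α (FreeGroup.of j))).v =
        ∑ i, MonoidAlgebra.mapDomainRingHom ℤ β ((mag π (FreeGroup.of j)).v i) •
        (mag π (α (FreeGroup.of i))).v
      rw [CHR.mag_of_v, Finset.sum_eq_single j]
      · rw [Pi.single_eq_same, map_one, one_smul]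
      · intro i _ hij
        rw [Pi.single_eq_of_ne hij, map_zero, zero_smul]
      · intro h
        exact absurd (Finset.mem_univ j) h
-- END TARGET

end Pool.Agent.H335PN
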