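import Pool.Agent.H335PN.Stmts
import Pool.Agent.Helper777.Prof.P_magnus_ker
import Pool.Agent.Helper777.Prof.P_mag_comm
import Pool.Agent.Helper777.Prof.P_mag_m

set_option autoImplicit false

namespace Pool.Agent.H335PN

open Pool.Agent.Helper777.Prof

namespace CORE

theorem factor {G Γ K : Type} [Group G] [Group Γ] [Group K] (π : G →* Γ)
    (hπ : Function.Surjective π) (f : G →* K) (h : π.ker ≤ f.ker) :
    ∃ β : Γ →* K, ∀ w, β (π w) = f w := by
  refine ⟨MonoidHom.liftOfSurjective π hπ ⟨f, h⟩, fun w => ?_⟩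
  exact MonoidHom.liftOfRightInverse_comp_apply π _ _ ⟨f, h⟩ w

section
variable {Γ : Type} [Group Γ] (π : FreeGroup (Fin 2) →* Γ)

/-- Fox derivatives -/
noncomputable def D (w : FreeGroup (Fin 2)) : Fin 2 → MonoidAlgebra ℤ Γ := (mag π w).v

/-- group elements in the group ring -/
noncomputable def o (g : Γ) : MonoidAlgebra ℤ Γ := MonoidAlgebra.single g 1

theorem o_mul (g h : Γ) : o (g * h) = o g * o h := by
  unfold o
  rw [MonoidAlgebra.single_mul_single, one_mul]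

theorem o_one : o (1 : Γ) = 1 := rfl

theorem o_inv_mul (g : Γ) : o g⁻¹ * o g = 1 := by rw [← o_mul, inv_mul_cancel, o_one]

theorem o_mul_inv (g : Γ) : o g * o g⁻¹ = 1 := by rw [← o_mul, mul_inv_cancel, o_one]

theorem o_sub_ne {g : Γ} (hg : g ≠ 1) : o g - 1 ≠ 0 := by
  intro h
  rw [sub_eq_zero, ← o_one] at h
  exact hg (MonoidAlgebra.of_injective (R := ℤ) (by simpa [o, MonoidAlgebra.of_apply] using h))

theorem D_mul (u v : FreeGroup (Fin 2)) : D π (u * v) = D π u + o (π u) • D π v := by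
  unfold D
  rw [map_mul, Wr.mul_v, mag_m]
  rfl

theorem D_one : D π 1 = 0 := by
  unfold D
  rw [map_one, Wr.one_v]

theorem D_inv (u : FreeGroup (Fin 2)) : D π u⁻¹ = -(o (π u)⁻¹ • D π u) := by
  unfold D
  rw [map_inv, Wr.inv_v, mag_m]
  rfl

theorem D_ker_mul {u v : FreeGroup (Fin 2)} (hu : u ∈ π.ker) : D π (u * v) = D π u + D π v := by
  rw [D_mul, MonoidHom.mem_ker.1 hu, o_one, one_smul]

theorem D_comm (v : FreeGroup (Fin 2)) {w : FreeGroup (Fin 2)} (hw : w ∈ π.ker) :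
    v * w * v⁻¹ * w⁻¹ ∈ π.ker ∧ D π (v * w * v⁻¹ * w⁻¹) = (o (π v) - 1) • D π w := by
  have h1 : v * w * v⁻¹ ∈ π.ker := (inferInstance : π.ker.Normal).conj_mem w hw v
  refine ⟨mul_mem h1 (inv_mem hw), ?_⟩
  rw [D_ker_mul π h1, D_inv, MonoidHom.mem_ker.1 hw, inv_one, o_one, one_smul, D_mul, D_mul, D_inv,
    map_mul, MonoidHom.mem_ker.1 hw, mul_one, smul_neg, ← mul_smul, o_mul_inv, one_smul, sub_smul,
    one_smul]
  abel

theorem D_conj (v : FreeGroup (Fin 2)) {w : FreeGroup (Fin 2)} (hw : w ∈ π.ker) :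
    v * w * v⁻¹ ∈ π.ker ∧ D π (v * w * v⁻¹) = o (π v) • D π w := by
  have h1 : v * w * v⁻¹ ∈ π.ker := (inferInstance : π.ker.Normal).conj_mem w hw v
  refine ⟨h1, ?_⟩
  rw [D_mul, D_mul, D_inv,
    map_mul, MonoidHom.mem_ker.1 hw, mul_one, smul_neg, ← mul_smul, o_mul_inv, one_smul]
  abel

theorem exists_smul (hπ : Function.Surjective π) (r : MonoidAlgebra ℤ Γ) {u : FreeGroup (Fin 2)}
    (hu : u ∈ π.ker) : ∃ s ∈ π.ker, D π s = r • D π u := by
  induction r using MonoidAlgebra.induction_linear with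
  | zero => exact ⟨1, one_mem _, by rw [D_one, zero_smul]⟩
  | add f g hf hg =>
    obtain ⟨s, hs, hs'⟩ := hf
    obtain ⟨t, ht, ht'⟩ := hg
    exact ⟨s * t, mul_mem hs ht, by rw [D_ker_mul π hs, hs', ht', add_smul]⟩
  | single g n =>
    obtain ⟨v, rfl⟩ := hπ g
    have hz : ∀ n : ℤ, D π (u ^ n) = n • D π u := by
      intro n
      induction n using Int.induction_on with
      | zero => rw [zpow_zero, D_one, zero_smul]
      | succ n ih => rw [zpow_add_one, D_ker_mul π (zpow_mem hu _), ih, add_smul, one_smul]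
      | pred n ih =>
        rw [zpow_sub_one, D_ker_mul π (zpow_mem hu _), ih, D_inv, MonoidHom.mem_ker.1 hu, inv_one,
          o_one, one_smul, sub_smul, one_smul]
        abel
    obtain ⟨h1, h2⟩ := D_conj π v (zpow_mem hu n)
    refine ⟨_, h1, ?_⟩
    rw [h2, hz]
    funext i
    simp only [Pi.smul_apply, smul_eq_mul, o]
    rw [mul_smul_comm, ← smul_mul_assoc]
    congr 1
    rw [MonoidAlgebra.smul_single]
    simp

theorem eq_of_D (hπ : Function.Surjective π) {u v : FreeGroup (Fin 2)} (hu : u ∈ π.ker)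
    (hv : v ∈ π.ker) (h : D π u = D π v) : u * v⁻¹ ∈ ⁅π.ker, π.ker⁆ := by
  apply magnus_ker π hπ
  have h1 : mag π u = mag π v := by
    ext1
    · exact h
    · rw [mag_m, mag_m, MonoidHom.mem_ker.1 hu, MonoidHom.mem_ker.1 hv]
  rw [map_mul, map_inv, h1, mul_inv_cancel]

theorem D_of_mem {u v : FreeGroup (Fin 2)} (h : u * v⁻¹ ∈ ⁅π.ker, π.ker⁆) : D π u = D π v := by
  have h1 := mag_comm π _ h
  rw [map_mul, map_inv, mul_inv_eq_one] at h1
  unfold D
  rw [h1]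

end

/-- the semilinear map on the Fox derivatives -/
noncomputable def Lam {Γ : Type} [Group Γ] (π : FreeGroup (Fin 2) →* Γ)
    (α : FreeGroup (Fin 2) →* FreeGroup (Fin 2)) (β : Γ →* Γ) (v : Fin 2 → MonoidAlgebra ℤ Γ) :
    Fin 2 → MonoidAlgebra ℤ Γ :=
  ∑ i, MonoidAlgebra.mapDomainRingHom ℤ β (v i) • (mag π (α (FreeGroup.of i))).v

theorem Lam_smul {Γ : Type} [Group Γ] (π : FreeGroup (Fin 2) →* Γ)
    (α : FreeGroup (Fin 2) →* FreeGroup (Fin 2)) (β : Γ →* Γ) (a : MonoidAlgebra ℤ Γ)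
    (v : Fin 2 → MonoidAlgebra ℤ Γ) :
    Lam π α β (a • v) = MonoidAlgebra.mapDomainRingHom ℤ β a • Lam π α β v := by
  unfold Lam
  rw [Finset.smul_sum]
  apply Finset.sum_congr rfl
  intro i _
  rw [Pi.smul_apply, smul_eq_mul, map_mul, mul_smul]

theorem map_o {Γ : Type} [Group Γ] (β : Γ →* Γ) (g : Γ) :
    MonoidAlgebra.mapDomainRingHom ℤ β (o g) = o (β g) := by
  unfold o
  simp [MonoidAlgebra.mapDomainRingHom_apply, MonoidAlgebra.mapDomain_single]

theorem map_map {Γ : Type} [Group Γ] (β : Γ →* Γ) (h : ∀ g, β (β g) = g)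
    (a : MonoidAlgebra ℤ Γ) :
    MonoidAlgebra.mapDomainRingHom ℤ β (MonoidAlgebra.mapDomainRingHom ℤ β a) = a := by
  induction a using MonoidAlgebra.induction_linear with
  | zero => simp
  | add f g hf hg => rw [map_add, map_add, hf, hg]
  | single g n =>
    simp [MonoidAlgebra.mapDomainRingHom_apply, MonoidAlgebra.mapDomain_single, h]

/-- the possible values of the semilinear map -/
theorem cases {Γ : Type} [Group Γ] (hz : NoZeroDivisors (MonoidAlgebra ℤ Γ)) (X Y g h : Γ)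
    (hX : X ≠ 1) (hY : Y ≠ 1) (r u : MonoidAlgebra ℤ Γ) (hr : r ≠ 0) (hu : u ≠ 0)
    (D1 : ∀ (g : Γ) (a : MonoidAlgebra ℤ Γ), g ≠ 1 →
      (o X - 1) * (o Y - 1) * r * u = (o g - 1) * a → g = X ∨ g = X⁻¹)
    (D2 : ∀ (g : Γ) (a : MonoidAlgebra ℤ Γ), g ≠ 1 →
      (o Y - 1) * r * u = (o g - 1) * a → g = Y ∨ g = Y⁻¹)
    (s s' : Fin 2 → MonoidAlgebra ℤ Γ) (hs : s 0 = r * u)
    (he : (o g - 1) • (o h - 1) • s' = (o X - 1) • (o Y - 1) • s) :
    ∃ (v : Γ) (ε : ℤ), s' = ε • o v • s ∧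
      ((g = X ∧ h = Y ∧ v = 1 ∧ ε = 1) ∨ (g = X ∧ h = Y⁻¹ ∧ v = Y ∧ ε = -1) ∨
        (g = X⁻¹ ∧ h = X * Y * X⁻¹ ∧ v = X ∧ ε = -1) ∨
        (g = X⁻¹ ∧ h = X * Y⁻¹ * X⁻¹ ∧ v = X * Y ∧ ε = 1)) := by
  have hc : ∀ (a : MonoidAlgebra ℤ Γ), a ≠ 0 → ∀ v w : Fin 2 → MonoidAlgebra ℤ Γ,
      a • v = a • w → v = w := by
    intro a ha v w hvw
    funext i
    have h1 := congrFun hvw i
    simp only [Pi.smul_apply, smul_eq_mul] at h1
    exact mul_left_cancel₀ ha h1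
  have hX' : o X - 1 ≠ (0 : MonoidAlgebra ℤ Γ) := o_sub_ne hX
  have hY' : o Y - 1 ≠ (0 : MonoidAlgebra ℤ Γ) := o_sub_ne hY
  have e0 : (o X - 1) * (o Y - 1) * r * u = (o g - 1) * ((o h - 1) * s' 0) := by
    have h1 := congrFun he 0
    simp only [Pi.smul_apply, smul_eq_mul] at h1
    rw [h1, hs]
    simp only [mul_assoc]
  have hg : g ≠ 1 := by
    rintro rfl
    rw [o_one, sub_self, zero_mul] at e0
    exact mul_ne_zero (mul_ne_zero (mul_ne_zero hX' hY') hr) hu e0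
  have hneg : ∀ Z : Γ, o Z⁻¹ - 1 = -((o Z - 1) * o Z⁻¹) := by
    intro Z
    rw [sub_mul, o_mul_inv, one_mul]
    abel
  rcases D1 g _ hg e0 with rfl | rfl
  · have h1 : (o h - 1) • s' = (o Y - 1) • s := hc _ hX' _ _ he
    have e1 : (o Y - 1) * r * u = (o h - 1) * s' 0 := by
      have h2 := congrFun h1 0
      simp only [Pi.smul_apply, smul_eq_mul] at h2
      rw [h2, hs]
      simp only [mul_assoc]
    have hh : h ≠ 1 := by
      rintro rfl
      rw [o_one, sub_self, zero_mul] at e1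
      exact mul_ne_zero (mul_ne_zero hY' hr) hu e1
    rcases D2 h _ hh e1 with rfl | rfl
    · exact ⟨1, 1, by rw [hc _ hY' _ _ h1, o_one, one_smul, one_smul], Or.inl ⟨rfl, rfl, rfl, rfl⟩⟩
    · refine ⟨Y, -1, ?_, Or.inr (Or.inl ⟨rfl, rfl, rfl, rfl⟩)⟩
      have h2 : (o Y - 1) • (-(o Y⁻¹ • s')) = (o Y - 1) • s := by
        rw [← h1, hneg Y, smul_neg, neg_smul, mul_smul]
      have h3 := hc _ hY' _ _ h2
      rw [← h3, smul_neg, ← mul_smul, o_mul_inv, one_smul, neg_smul, one_smul, neg_neg]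
  · have h1 : (o Y - 1) • s = (o (X⁻¹ * h * X) - 1) • (-(o X⁻¹ • s')) := by
      apply hc _ hX'
      rw [← he, hneg X, neg_smul, smul_neg, smul_neg, mul_smul]
      congr 2
      rw [← mul_smul, ← mul_smul]
      congr 1
      rw [sub_mul, mul_sub, mul_one, one_mul, ← o_mul, ← o_mul, mul_assoc, mul_assoc,
        mul_inv_cancel, mul_one]
    set h' := X⁻¹ * h * X with hh'
    have hhe : h = X * h' * X⁻¹ := by rw [hh']; group
    have e1 : (o Y - 1) * r * u = (o h' - 1) * (-(o X⁻¹ • s')) 0 := by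
      have h2 := congrFun h1 0
      simp only [Pi.smul_apply, smul_eq_mul] at h2
      rw [hs] at h2
      rw [mul_assoc, h2]
    have hh : h' ≠ 1 := by
      intro h0
      rw [h0, o_one, sub_self, zero_mul] at e1
      exact mul_ne_zero (mul_ne_zero hY' hr) hu e1
    rcases D2 h' _ hh e1 with h0 | h0
    · refine ⟨X, -1, ?_, Or.inr (Or.inr (Or.inl ⟨rfl, by rw [hhe, h0], rfl, rfl⟩))⟩
      rw [h0] at h1
      have h3 := hc _ hY' _ _ h1
      rw [h3, smul_neg, ← mul_smul, o_mul_inv, one_smul, neg_smul, one_smul, neg_neg]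
    · refine ⟨X * Y, 1, ?_, Or.inr (Or.inr (Or.inr ⟨rfl, by rw [hhe, h0], rfl, rfl⟩))⟩
      rw [h0, hneg Y, neg_smul, smul_neg, neg_neg, mul_smul] at h1
      have h3 := hc _ hY' _ _ h1
      rw [h3, o_mul, one_smul, ← mul_smul, ← mul_smul, mul_assoc, mul_assoc, ← mul_assoc (o Y),
        o_mul_inv, one_mul, o_mul_inv, one_smul]

end CORE

theorem t_CORE (h1 : S_DIV) (h2 : S_CHR) : S_CORE := by
  intro Γ _ π hπ hG hle hnc ⟨u0, hu0, hu0'⟩
  have hz := hG.nz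
  set X := π (FreeGroup.of 0) with hX
  set Y := π (FreeGroup.of 1) with hY
  have hXY : X * Y ≠ Y * X := by
    rw [map_mul, map_mul] at hnc
    exact hnc
  have hX1 : X ≠ 1 := by
    intro h
    rw [h, one_mul, mul_one] at hXY
    exact hXY rfl
  have hY1 : Y ≠ 1 := by
    intro h
    rw [h, one_mul, mul_one] at hXY
    exact hXY rfl
  have hcl : Subgroup.closure {X, Y} = (⊤ : Subgroup Γ) := by
    rw [eq_top_iff]
    intro g _
    obtain ⟨w, rfl⟩ := hπ g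
    induction w using FreeGroup.induction_on with
    | C1 => rw [map_one]; exact one_mem _
    | of i =>
      fin_cases i
      · exact Subgroup.subset_closure (by simp [hX])
      · exact Subgroup.subset_closure (by simp [hY])
    | inv_of i hi => rw [map_inv]; exact inv_mem (hi (by trivial))
    | mul a b ha hb => rw [map_mul]; exact mul_mem (ha (by trivial)) (hb (by trivial))
  obtain ⟨A, hA⟩ := CORE.factor π hπ (FreeGroup.lift
    ![Multiplicative.ofAdd ((1, 0) : ℤ × ℤ), Multiplicative.ofAdd ((0, 1) : ℤ × ℤ)])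
    (hle.trans (Abelianization.commutator_subset_ker _))
  have hAX : A X = Multiplicative.ofAdd (1, 0) := by rw [hX, hA]; simp
  have hAY : A Y = Multiplicative.ofAdd (0, 1) := by rw [hY, hA]; simp
  have hff : ∀ w ∈ π.ker, CORE.D π w 0 * (CORE.o X - 1) + CORE.D π w 1 * (CORE.o Y - 1) = 0 := by
    intro w hw
    have h3 := (h2 (Fin 2) Γ π).1 w
    rw [Fin.sum_univ_two, MonoidHom.mem_ker.1 hw] at h3
    rw [show (MonoidAlgebra.single (1 : Γ) (1 : ℤ) : MonoidAlgebra ℤ Γ) = 1 from rfl, sub_self] at h3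
    exact h3
  have hsnd : ∀ v : Fin 2 → MonoidAlgebra ℤ Γ,
      v 0 * (CORE.o X - 1) + v 1 * (CORE.o Y - 1) = 0 → v 0 = 0 → v = 0 := by
    intro v hv h0
    rw [h0, zero_mul, zero_add] at hv
    have h3 : v 1 = 0 := by
      rcases mul_eq_zero.1 hv with h | h
      · exact h
      · exact absurd h (CORE.o_sub_ne hY1)
    funext i
    fin_cases i
    · exact h0
    · exact h3
  have hu0D : CORE.D π u0 0 ≠ 0 := by
    intro h
    apply hu0'
    have h3 := hsnd _ (hff u0 hu0) h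
    have h4 := CORE.eq_of_D π hπ hu0 (one_mem _) (by rw [h3, CORE.D_one])
    rwa [inv_one, mul_one] at h4
  obtain ⟨r, hr, D1, D2⟩ := h1 Γ X Y A hG hcl hAX hAY hXY (CORE.D π u0 0) hu0D
  obtain ⟨s, hs, hsD⟩ := CORE.exists_smul π hπ r hu0
  have hs0 : CORE.D π s 0 = r * CORE.D π u0 0 := by rw [hsD]; rfl
  have hs0' : CORE.D π s 0 ≠ 0 := by rw [hs0]; exact mul_ne_zero hr hu0D
  set x : FreeGroup (Fin 2) := FreeGroup.of 0 with hx
  set y : FreeGroup (Fin 2) := FreeGroup.of 1 with hy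
  have hD : ∀ a b c : FreeGroup (Fin 2), c ∈ π.ker →
      a * (b * c * b⁻¹ * c⁻¹) * a⁻¹ * (b * c * b⁻¹ * c⁻¹)⁻¹ ∈ π.ker ∧
      CORE.D π (a * (b * c * b⁻¹ * c⁻¹) * a⁻¹ * (b * c * b⁻¹ * c⁻¹)⁻¹) =
        (CORE.o (π a) - 1) • (CORE.o (π b) - 1) • CORE.D π c := by
    intro a b c hc
    obtain ⟨h3, h4⟩ := CORE.D_comm π b hc
    obtain ⟨h5, h6⟩ := CORE.D_comm π a h3
    exact ⟨h5, by rw [h6, h4]⟩
  refine ⟨x * (y * s * y⁻¹ * s⁻¹) * x⁻¹ * (y * s * y⁻¹ * s⁻¹)⁻¹, (hD x y s hs).1, ?_⟩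
  intro α hα hαt
  obtain ⟨β, hβ⟩ := CORE.factor π hπ (π.comp α) (by
    intro w hw
    exact hα w hw)
  have hβ' : ∀ w, β (π w) = π (α w) := hβ
  have hch : ∀ w, CORE.D π (α w) = CORE.Lam π α β (CORE.D π w) := (h2 (Fin 2) Γ π).2 α β hβ'
  have he := CORE.D_of_mem π hαt
  rw [(hD x y s hs).2] at he
  have hαe : α (x * (y * s * y⁻¹ * s⁻¹) * x⁻¹ * (y * s * y⁻¹ * s⁻¹)⁻¹) =
      α x * (α y * α s * (α y)⁻¹ * (α s)⁻¹) * (α x)⁻¹ * (α y * α s * (α y)⁻¹ * (α s)⁻¹)⁻¹ := by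
    simp only [map_mul, map_inv]
  rw [hαe, (hD (α x) (α y) (α s) (hα s hs)).2] at he
  obtain ⟨v, ε, hv, hcase⟩ := CORE.cases hz X Y (π (α x)) (π (α y)) hX1 hY1 r (CORE.D π u0 0) hr
    hu0D D1 D2 (CORE.D π s) (CORE.D π (α s)) hs0 he
  have hβX : β X = π (α x) := by rw [hX, hβ']
  have hβY : β Y = π (α y) := by rw [hY, hβ']
  have hββX : β (β X) = X := by
    rcases hcase with ⟨hg, hh, _, _⟩ | ⟨hg, hh, _, _⟩ | ⟨hg, hh, _, _⟩ | ⟨hg, hh, _, _⟩
    · rw [hβX, hg, hβX, hg]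
    · rw [hβX, hg, hβX, hg]
    · rw [hβX, hg, map_inv, hβX, hg, inv_inv]
    · rw [hβX, hg, map_inv, hβX, hg, inv_inv]
  have hββY : β (β Y) = Y := by
    rcases hcase with ⟨hg, hh, _, _⟩ | ⟨hg, hh, _, _⟩ | ⟨hg, hh, _, _⟩ | ⟨hg, hh, _, _⟩
    · rw [hβY, hh, hβY, hh]
    · rw [hβY, hh, map_inv, hβY, hh, inv_inv]
    · rw [hβY, hh]
      simp only [map_mul, map_inv]
      rw [hβY, hβX, hg, hh]
      group
    · rw [hβY, hh]
      simp only [map_mul, map_inv]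
      rw [hβY, hβX, hg, hh]
      group
  have hvv : β v * v = 1 := by
    rcases hcase with ⟨hg, hh, hv, _⟩ | ⟨hg, hh, hv, _⟩ | ⟨hg, hh, hv, _⟩ | ⟨hg, hh, hv, _⟩
    · rw [hv, map_one, one_mul]
    · rw [hv, hβY, hh, inv_mul_cancel]
    · rw [hv, hβX, hg, inv_mul_cancel]
    · rw [hv, map_mul, hβX, hβY, hg, hh]
      group
  have hεε : ε * ε = 1 := by
    rcases hcase with ⟨_, _, _, h⟩ | ⟨_, _, _, h⟩ | ⟨_, _, _, h⟩ | ⟨_, _, _, h⟩ <;> rw [h] <;> norm_num
  have hπαα : ∀ w, π (α (α w)) = π w := by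
    have h3 : (π.comp α).comp α = π := by
      apply FreeGroup.ext_hom
      intro i
      fin_cases i
      · show π (α (α x)) = X
        rw [← hβ', ← hβX]
        exact hββX
      · show π (α (α y)) = Y
        rw [← hβ', ← hβY]
        exact hββY
    intro w
    exact DFunLike.congr_fun h3 w
  have hββ : ∀ g, β (β g) = g := by
    intro g
    obtain ⟨w, rfl⟩ := hπ g
    rw [hβ', hβ', hπαα]
  have hLL : ∀ (a : MonoidAlgebra ℤ Γ) (v : Fin 2 → MonoidAlgebra ℤ Γ),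
      CORE.Lam π α β (CORE.Lam π α β (a • v)) = a • CORE.Lam π α β (CORE.Lam π α β v) := by
    intro a v
    rw [CORE.Lam_smul, CORE.Lam_smul, CORE.map_map β hββ]
  have hss : CORE.D π (α (α s)) = CORE.D π s := by
    rw [hch (α s), hv]
    have h3 : (ε • CORE.o v • CORE.D π s) = ((ε : MonoidAlgebra ℤ Γ) * CORE.o v) • CORE.D π s := by
      funext i
      simp only [Pi.smul_apply, smul_eq_mul, zsmul_eq_mul, mul_assoc]
    rw [h3, CORE.Lam_smul, ← hch, hv, map_mul, map_intCast, CORE.map_o]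
    funext i
    simp only [Pi.smul_apply, smul_eq_mul, zsmul_eq_mul]
    have h4 : CORE.o (β v) * CORE.o v = 1 := by rw [← CORE.o_mul, hvv, CORE.o_one]
    calc (ε : MonoidAlgebra ℤ Γ) * CORE.o (β v) * ((ε : MonoidAlgebra ℤ Γ) * (CORE.o v * CORE.D π s i))
        = (ε : MonoidAlgebra ℤ Γ) * (CORE.o (β v) * (ε : MonoidAlgebra ℤ Γ)) *
          (CORE.o v * CORE.D π s i) := by simp only [mul_assoc]
      _ = (ε : MonoidAlgebra ℤ Γ) * ((ε : MonoidAlgebra ℤ Γ) * CORE.o (β v)) *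
          (CORE.o v * CORE.D π s i) := by rw [(Int.cast_commute ε (CORE.o (β v))).eq]
      _ = ((ε : MonoidAlgebra ℤ Γ) * (ε : MonoidAlgebra ℤ Γ)) * ((CORE.o (β v) * CORE.o v) *
          CORE.D π s i) := by simp only [mul_assoc]
      _ = CORE.D π s i := by rw [h4, ← Int.cast_mul, hεε, Int.cast_one, one_mul, one_mul]
  refine ⟨?_, ?_⟩
  · intro w hw
    have hαw := hα w hw
    have hααw := hα _ hαw
    apply CORE.eq_of_D π hπ hααw hw
    obtain ⟨p, q, hp, hpq⟩ := hG.ore (CORE.D π w 0) (CORE.D π s 0) hs0'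
    have h3 : p • CORE.D π w = q • CORE.D π s := by
      rw [← sub_eq_zero]
      apply hsnd
      · have h4 := hff w hw
        have h5 := hff s hs
        simp only [Pi.sub_apply, Pi.smul_apply, smul_eq_mul]
        have h6 : (p * CORE.D π w 0 - q * CORE.D π s 0) * (CORE.o X - 1) +
            (p * CORE.D π w 1 - q * CORE.D π s 1) * (CORE.o Y - 1) =
            p * (CORE.D π w 0 * (CORE.o X - 1) + CORE.D π w 1 * (CORE.o Y - 1)) -
            q * (CORE.D π s 0 * (CORE.o X - 1) + CORE.D π s 1 * (CORE.o Y - 1)) := by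
          noncomm_ring
        rw [h6, h4, h5, mul_zero, mul_zero, sub_zero]
      · simp only [Pi.sub_apply, Pi.smul_apply, smul_eq_mul]
        rw [hpq, sub_self]
    have h4 : p • CORE.D π (α (α w)) = p • CORE.D π w := by
      rw [hch (α w), hch w, ← hLL, h3, hLL, ← hch s, ← hch (α s), hss]
    funext i
    have h5 := congrFun h4 i
    simp only [Pi.smul_apply, smul_eq_mul] at h5
    exact mul_left_cancel₀ hp h5
  · intro w
    rw [MonoidHom.mem_ker, map_mul, hπαα, map_inv, mul_inv_cancel]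

end Pool.Agent.H335PN
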