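import Pool.Agent.H335PN.Stmts

set_option autoImplicit false

namespace Pool.Agent.H335PN

open Pool.Agent.Helper777.Prof

namespace DIV737

theorem exists_m0 {Γ : Type} [Group Γ] (T E : Finset Γ) (z : Γ)
    (hz : ∀ e ∈ E, ∀ e' ∈ E, e' ≠ e → ∀ n : ℤ, n ≠ 0 → ¬ Commute (z ^ n) (e' * e⁻¹)) :
    ∃ m₀ : ℕ, ∀ j : ℕ, ∀ τ ∈ T, ∀ τ' ∈ T, ∀ e ∈ E, ∀ e' ∈ E,
      τ * z ^ (m₀ + j) * e = τ' * z ^ (m₀ + j) * e' → τ = τ' ∧ e = e' := by
  classical
  have hfin : (⋃ q ∈ ((T ×ˢ T) ×ˢ (E ×ˢ E) : Finset ((Γ × Γ) × (Γ × Γ))),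
      {m : ℕ | q.2.2 ≠ q.2.1 ∧ q.1.1 * z ^ m * q.2.1 = q.1.2 * z ^ m * q.2.2}).Finite := by
    refine (Finset.finite_toSet _).biUnion ?_
    intro q hq
    have hq' : (q.1.1 ∈ T ∧ q.1.2 ∈ T) ∧ (q.2.1 ∈ E ∧ q.2.2 ∈ E) := by
      simpa [Finset.mem_product] using hq
    apply Set.Subsingleton.finite
    rintro m ⟨hne, hm⟩ m' ⟨_, hm'⟩
    by_contra hmm
    apply hz q.2.1 hq'.2.1 q.2.2 hq'.2.2 hne ((m : ℤ) - m') (by omega)
    have e1 : q.1.2⁻¹ * q.1.1 = z ^ m * (q.2.2 * q.2.1⁻¹) * (z ^ m)⁻¹ := by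
      rw [mul_assoc] at hm
      calc q.1.2⁻¹ * q.1.1 = q.1.2⁻¹ * (q.1.1 * (z ^ m * q.2.1)) * q.2.1⁻¹ * (z ^ m)⁻¹ := by group
        _ = _ := by rw [hm]; group
    have e2 : q.1.2⁻¹ * q.1.1 = z ^ m' * (q.2.2 * q.2.1⁻¹) * (z ^ m')⁻¹ := by
      rw [mul_assoc] at hm'
      calc q.1.2⁻¹ * q.1.1 = q.1.2⁻¹ * (q.1.1 * (z ^ m' * q.2.1)) * q.2.1⁻¹ * (z ^ m')⁻¹ := by
            group
        _ = _ := by rw [hm']; group
    rw [e1] at e2
    set f := q.2.2 * q.2.1⁻¹ with hf
    show z ^ ((m : ℤ) - m') * f = f * z ^ ((m : ℤ) - m')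
    have hzz : z ^ ((m : ℤ) - m') = (z ^ m')⁻¹ * z ^ m := by
      rw [sub_eq_add_neg, add_comm, zpow_add, zpow_neg, zpow_natCast, zpow_natCast]
    rw [hzz]
    have e3 : f * (z ^ m')⁻¹ = (z ^ m')⁻¹ * (z ^ m * f * (z ^ m)⁻¹) := by
      rw [e2]; group
    calc (z ^ m')⁻¹ * z ^ m * f = (z ^ m')⁻¹ * (z ^ m * f * (z ^ m)⁻¹) * z ^ m := by group
      _ = f * (z ^ m')⁻¹ * z ^ m := by rw [e3]
      _ = f * ((z ^ m')⁻¹ * z ^ m) := by group
  obtain ⟨b, hb⟩ := hfin.bddAbove
  refine ⟨b + 1, ?_⟩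
  intro j τ hτ τ' hτ' e he e' he' heq
  by_cases hee : e' = e
  · subst hee
    refine ⟨?_, rfl⟩
    simpa using heq
  · exfalso
    have : b + 1 + j ∈ (⋃ q ∈ ((T ×ˢ T) ×ˢ (E ×ˢ E) : Finset ((Γ × Γ) × (Γ × Γ))),
      {m : ℕ | q.2.2 ≠ q.2.1 ∧ q.1.1 * z ^ m * q.2.1 = q.1.2 * z ^ m * q.2.2}) := by
      simp only [Set.mem_iUnion]
      refine ⟨((τ, τ'), (e, e')), by simp [Finset.mem_product, hτ, hτ', he, he'], hee, heq⟩
    have := hb this
    omega

theorem key (h1 : S_ZEL) (h2 : S_SEP) (h3 : S_LMD) (Γ : Type) [Group Γ] (X Y : Γ)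
    (A : Γ →* Multiplicative (ℤ × ℤ)) (hG : Good Γ)
    (hXY : Subgroup.closure {X, Y} = (⊤ : Subgroup Γ))
    (T₀ : Finset Γ) (C : ℤ) (u : MonoidAlgebra ℤ Γ) (hu : u ≠ 0) :
    ∃ r : MonoidAlgebra ℤ Γ, r ≠ 0 ∧ ∀ w : MonoidAlgebra ℤ Γ, w.coeff.support ⊆ T₀ →
      (∑ τ ∈ w.coeff.support, |w.coeff τ|) ≤ C → (1 : Γ) ∈ w.coeff.support →
      (∀ τ ∈ w.coeff.support, τ ≠ 1 → 0 < (A τ).toAdd.1 + (A τ).toAdd.2) →
      ∀ (g : Γ) (a : MonoidAlgebra ℤ Γ), g ≠ 1 →
        w * r * u = (MonoidAlgebra.single g 1 - 1) * a →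
        ∀ τ ∈ w.coeff.support, ∃ n : ℤ, n ≠ 0 ∧ g ^ n * τ ∈ w.coeff.support := by
  classical
  set E := u.coeff.support with hE
  have hEne : E.Nonempty := by
    rw [hE, Finsupp.support_nonempty_iff]
    intro h
    exact hu (MonoidAlgebra.coeff_eq_zero.mp h)
  obtain ⟨z, hz⟩ := h1 Γ X Y hG.ur hG.ce hXY
    (((E ×ˢ E).filter (fun q => q.2 ≠ q.1)).image (fun q => q.2 * q.1⁻¹)) (by
      intro h
      rw [Finset.mem_image] at h
      obtain ⟨q, hq, hq1⟩ := h
      rw [Finset.mem_filter] at hq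
      exact hq.2 (mul_inv_eq_one.mp hq1))
  have hz' : ∀ e ∈ E, ∀ e' ∈ E, e' ≠ e → ∀ n : ℤ, n ≠ 0 → ¬ Commute (z ^ n) (e' * e⁻¹) := by
    intro e he e' he' hne n hn
    refine hz _ ?_ n hn
    rw [Finset.mem_image]
    refine ⟨(e, e'), ?_, rfl⟩
    rw [Finset.mem_filter, Finset.mem_product]
    exact ⟨⟨he, he'⟩, hne⟩
  obtain ⟨m₀, hm₀⟩ := exists_m0 T₀ E z hz'
  set U : ℤ := ∑ e ∈ E, |u.coeff e| with hU
  have hU0 : 0 ≤ U := Finset.sum_nonneg (fun _ _ => abs_nonneg _)
  set K : ℤ := |C| * U + 1 with hK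
  have hK1 : 1 ≤ K := by
    have : 0 ≤ |C| * U := mul_nonneg (abs_nonneg _) hU0
    omega
  set J : ℕ := T₀.card * E.card + 1 with hJ
  refine ⟨∑ j ∈ Finset.range J, MonoidAlgebra.single (z ^ (m₀ + j)) (K ^ j), ?_, ?_⟩
  · intro h
    have h' := congrArg (MonoidAlgebra.lift ℤ ℤ Γ (1 : Γ →* ℤ)) h
    rw [map_sum, map_zero] at h'
    have : 0 < ∑ j ∈ Finset.range J,
        (MonoidAlgebra.lift ℤ ℤ Γ (1 : Γ →* ℤ)) (MonoidAlgebra.single (z ^ (m₀ + j)) (K ^ j)) := by
      apply Finset.sum_pos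
      · intro j _
        rw [MonoidAlgebra.lift_single]
        simp only [MonoidHom.one_apply, smul_eq_mul, mul_one]
        positivity
      · exact ⟨0, by simp [hJ]⟩
    omega
  · intro w hwT hwC hw1 hwA g a hg hwa
    have hcard : w.coeff.support.card * E.card + 1 ≤ J := by
      have := Nat.mul_le_mul_right E.card (Finset.card_le_card hwT)
      omega
    refine h3 Γ A w.coeff.support E 1 z g m₀ hG.cp hw1 ?_ hEne hz' hg ?_
    · intro τ hτ hne
      simpa using hwA τ hτ hne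
    · intro j hj τ hτ e he
      refine h2 Γ w u a J (fun j => z ^ (m₀ + j)) K g ?_ ?_ hwa j (by omega) τ hτ e he
      · intro j _ τ hτ τ' hτ' e he e' he' heq
        exact hm₀ j τ (hwT hτ) τ' (hwT hτ') e he e' he' heq
      · have h4 : (∑ τ ∈ w.coeff.support, |w.coeff τ|) * U ≤ |C| * U :=
          mul_le_mul_of_nonneg_right (hwC.trans (le_abs_self C)) hU0
        show (∑ τ ∈ w.coeff.support, |w.coeff τ|) * U < K
        omega

end DIV737

open DIV737 in
theorem t_DIV (h1 : S_ZEL) (h2 : S_SEP) (h3 : S_LMD) : S_DIV := by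
  classical
  intro Γ _ X Y A hG hXY hX hY hne u hu
  obtain ⟨r, hr, hkey⟩ := key h1 h2 h3 Γ X Y A hG hXY {1, X, Y, X * Y} 4 u hu
  have hA1 : A 1 = 1 := map_one A
  have hAXY : A (X * Y) = Multiplicative.ofAdd (1, 1) := by
    rw [map_mul, hX, hY]; rfl
  have n1 : X ≠ 1 := by
    intro h
    rw [h, hA1] at hX
    have := congrArg (fun x => (Multiplicative.toAdd x).1) hX
    simp at this
  have n2 : Y ≠ 1 := by
    intro h
    rw [h, hA1] at hY
    have := congrArg (fun x => (Multiplicative.toAdd x).2) hY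
    simp at this
  have n3 : X * Y ≠ 1 := by
    intro h
    rw [h, hA1] at hAXY
    have := congrArg (fun x => (Multiplicative.toAdd x).2) hAXY
    simp at this
  have n4 : X ≠ Y := by
    intro h
    rw [h, hY] at hX
    have := congrArg (fun x => (Multiplicative.toAdd x).2) hX
    simp at this
  have n5 : X ≠ X * Y := by
    intro h
    exact n2 (by simpa using h.symm)
  have n6 : Y ≠ X * Y := by
    intro h
    exact n1 (by simpa using h.symm)
  -- the values of A on integer powers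
  have hpow : ∀ (g : Γ) (n : ℤ), (A (g ^ n)).toAdd = n • (A g).toAdd := by
    intro g n
    rw [map_zpow, toAdd_zpow]
  have hur : ∀ (g : Γ) (n : ℤ), g ≠ 1 → n ≠ 0 → g ^ n ≠ 1 := by
    intro g n hg hn h
    apply hg
    apply hG.ur g 1 n.natAbs (by omega)
    rw [one_pow]
    rcases Int.natAbs_eq n with h' | h'
    · rw [h', zpow_natCast] at h
      exact h
    · rw [h', zpow_neg, zpow_natCast, inv_eq_one] at h
      exact h
  -- the coefficients
  have hw1 : ((MonoidAlgebra.single X 1 - 1) * (MonoidAlgebra.single Y 1 - 1) :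
      MonoidAlgebra ℤ Γ).coeff = Finsupp.single (X * Y) 1 - Finsupp.single X 1 -
        (Finsupp.single Y 1 - Finsupp.single 1 1) := by
    rw [sub_mul, mul_sub, mul_sub, MonoidAlgebra.one_def, MonoidAlgebra.single_mul_single,
      MonoidAlgebra.single_mul_single, MonoidAlgebra.single_mul_single,
      MonoidAlgebra.single_mul_single]
    simp only [one_mul, mul_one]
    rfl
  have hw2 : (MonoidAlgebra.single Y 1 - 1 : MonoidAlgebra ℤ Γ).coeff =
      Finsupp.single Y 1 - Finsupp.single 1 1 := by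
    rw [MonoidAlgebra.one_def]
    rfl
  have hs1 : ((MonoidAlgebra.single X 1 - 1) * (MonoidAlgebra.single Y 1 - 1) :
      MonoidAlgebra ℤ Γ).coeff.support = {1, X, Y, X * Y} := by
    rw [hw1]
    ext τ
    simp only [Finsupp.mem_support_iff, Finsupp.coe_sub, Pi.sub_apply, Finsupp.single_apply,
      Finset.mem_insert, Finset.mem_singleton]
    by_cases c1 : τ = 1
    · subst c1; simp [n1, n2, n3]
    by_cases c2 : τ = X
    · subst c2; simp [n1, n4.symm, n5.symm, c1, Ne.symm c1]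
    by_cases c3 : τ = Y
    · subst c3; simp [n1, n2, n4, n6.symm, Ne.symm c1]
    by_cases c4 : τ = X * Y
    · subst c4; simp [n5, n6, Ne.symm c1]
    · simp [c1, c2, c3, c4, Ne.symm c1, Ne.symm c2, Ne.symm c3, Ne.symm c4]
  have hs2 : (MonoidAlgebra.single Y 1 - 1 : MonoidAlgebra ℤ Γ).coeff.support = {1, Y} := by
    rw [hw2]
    ext τ
    simp only [Finsupp.mem_support_iff, Finsupp.coe_sub, Pi.sub_apply, Finsupp.single_apply,
      Finset.mem_insert, Finset.mem_singleton]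
    by_cases c1 : τ = 1
    · subst c1; simp [n2]
    by_cases c3 : τ = Y
    · subst c3; simp [Ne.symm c1]
    · simp [c1, c3, Ne.symm c1, Ne.symm c3]
  have hsum1 : (∑ τ ∈ ((MonoidAlgebra.single X 1 - 1) * (MonoidAlgebra.single Y 1 - 1) :
      MonoidAlgebra ℤ Γ).coeff.support, |((MonoidAlgebra.single X 1 - 1) *
        (MonoidAlgebra.single Y 1 - 1) : MonoidAlgebra ℤ Γ).coeff τ|) ≤ 4 := by
    rw [hs1, hw1, Finset.sum_insert (by simp [n1.symm, n2.symm, n3.symm]),
      Finset.sum_insert (by simp [n4, n5]), Finset.sum_insert (by simp [n6]),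
      Finset.sum_singleton]
    simp only [Finsupp.coe_sub, Pi.sub_apply, Finsupp.single_apply]
    simp [n1, n2, n3, n4, n5, n6, n1.symm, n2.symm, n3.symm, n4.symm, n5.symm, n6.symm]
  have hsum2 : (∑ τ ∈ (MonoidAlgebra.single Y 1 - 1 : MonoidAlgebra ℤ Γ).coeff.support,
      |(MonoidAlgebra.single Y 1 - 1 : MonoidAlgebra ℤ Γ).coeff τ|) ≤ 4 := by
    rw [hs2, hw2, Finset.sum_insert (by simp [n2.symm]), Finset.sum_singleton]
    simp only [Finsupp.coe_sub, Pi.sub_apply, Finsupp.single_apply]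
    simp [n2, n2.symm]
  have unit_of : ∀ (g : Γ) (n : ℤ), ((A (g ^ n)).toAdd.1 = 1 ∨ (A (g ^ n)).toAdd.2 = 1) →
      n = 1 ∨ n = -1 := by
    intro g n h
    rw [hpow] at h
    simp only [Prod.smul_fst, Prod.smul_snd, smul_eq_mul] at h
    rcases h with h | h
    · exact Int.isUnit_iff.mp (IsUnit.of_mul_eq_one _ h)
    · exact Int.isUnit_iff.mp (IsUnit.of_mul_eq_one _ h)
  have pow_case : ∀ (g t : Γ) (n : ℤ), (n = 1 ∨ n = -1) → g ^ n = t → g = t ∨ g = t⁻¹ := by
    intro g t n hn h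
    rcases hn with rfl | rfl
    · left; simpa using h
    · right; rw [← h]; simp
  refine ⟨r, hr, ?_, ?_⟩
  · intro g a hg ha
    have hk := hkey _ (by rw [hs1]) hsum1 (by rw [hs1]; simp) (by
      rw [hs1]
      intro τ hτ hτ1
      simp only [Finset.mem_insert, Finset.mem_singleton] at hτ
      rcases hτ with rfl | rfl | rfl | rfl
      · exact absurd rfl hτ1
      · rw [hX]; simp
      · rw [hY]; simp
      · rw [hAXY]; simp) g a hg ha
    rw [hs1] at hk
    obtain ⟨n, hn, hn'⟩ := hk 1 (by simp)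
    obtain ⟨m, hm, hm'⟩ := hk X (by simp)
    simp only [mul_one, Finset.mem_insert, Finset.mem_singleton] at hn' hm'
    -- exclusion of Y and XY
    have ex : ∀ (t : Γ) (k : ℤ), k ≠ 0 → (t = Y ∨ t = X * Y) → ¬ (t ^ k * X = 1 ∨ t ^ k * X = X ∨
        t ^ k * X = Y ∨ t ^ k * X = X * Y) := by
      intro t k hk ht hc
      have hAt : (A t).toAdd.2 = 1 := by
        rcases ht with rfl | rfl
        · rw [hY]; rfl
        · rw [hAXY]; rfl
      have hval : (A (t ^ k * X)).toAdd = (k * (A t).toAdd.1 + 1, k) := by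
        rw [map_mul, toAdd_mul, hpow, hX]
        ext
        · simp
        · simp [hAt]
      rcases hc with h | h | h | h
      · rw [h, hA1] at hval
        have := congrArg Prod.snd hval
        simp at this
        exact hk this.symm
      · rw [h, hX] at hval
        have := congrArg Prod.snd hval
        simp at this
        exact hk this.symm
      · rw [h, hY] at hval
        have h5 := congrArg Prod.snd hval
        have h6 := congrArg Prod.fst hval
        simp only [toAdd_ofAdd] at h5 h6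
        rcases ht with rfl | rfl
        · rw [hY] at h6
          simp at h6
        · rw [hAXY] at h6
          simp at h6
          omega
      · rw [h, hAXY] at hval
        have h5 := congrArg Prod.snd hval
        have h6 := congrArg Prod.fst hval
        simp only [toAdd_ofAdd] at h5 h6
        rcases ht with rfl | rfl
        · rw [← h5, zpow_one] at h
          exact hne h.symm
        · rw [hAXY] at h6
          simp at h6
          omega
    have hgc : g = X ∨ g = X⁻¹ ∨ g = Y ∨ g = Y⁻¹ ∨ g = X * Y ∨ g = (X * Y)⁻¹ := by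
      rcases hn' with h | h | h | h
      · exact absurd h (hur g n hg hn)
      · have := pow_case g X n (unit_of g n (by rw [h, hX]; left; rfl)) h
        tauto
      · have := pow_case g Y n (unit_of g n (by rw [h, hY]; right; rfl)) h
        tauto
      · have := pow_case g (X * Y) n (unit_of g n (by rw [h, hAXY]; right; rfl)) h
        tauto
    rcases hgc with h | h | h | h | h | h
    · exact Or.inl h
    · exact Or.inr h
    · exact absurd hm' (by rw [h]; exact ex Y m hm (Or.inl rfl))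
    · exact absurd hm' (by rw [h, inv_zpow']; exact ex Y (-m) (by omega) (Or.inl rfl))
    · exact absurd hm' (by rw [h]; exact ex (X * Y) m hm (Or.inr rfl))
    · exact absurd hm' (by rw [h, inv_zpow']; exact ex (X * Y) (-m) (by omega) (Or.inr rfl))
  · intro g a hg ha
    have hk := hkey _ (by
      rw [hs2]; intro τ; simp only [Finset.mem_insert, Finset.mem_singleton]; tauto) hsum2
      (by rw [hs2]; simp) (by
      rw [hs2]
      intro τ hτ hτ1
      simp only [Finset.mem_insert, Finset.mem_singleton] at hτ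
      rcases hτ with rfl | rfl
      · exact absurd rfl hτ1
      · rw [hY]; simp) g a hg ha
    rw [hs2] at hk
    obtain ⟨n, hn, hn'⟩ := hk 1 (by simp)
    simp only [mul_one, Finset.mem_insert, Finset.mem_singleton] at hn'
    rcases hn' with h | h
    · exact absurd h (hur g n hg hn)
    · exact pow_case g Y n (unit_of g n (by rw [h, hY]; right; rfl)) h

end Pool.Agent.H335PN

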