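import Pool.Agent.H335PN.Stmts

set_option autoImplicit false

/-! EAS: retracts are algebraically closed, algebraically closed subgroups are verbally closed. -/

namespace Pool.Agent.H335PN

theorem eas_retract {G : Type} [Group G] {H : Subgroup G} (h : IsRetract H) : AlgClosed H := by
  obtain ⟨ρ, hρ⟩ := h
  rintro n S - ⟨g, hg⟩
  refine ⟨fun i => ρ (g i), fun s hs => ?_⟩
  have h1 : Monoid.Coprod.lift (FreeGroup.lift fun i => ρ (g i)) (MonoidHom.id H) =
      ρ.comp (Monoid.Coprod.lift (FreeGroup.lift g) H.subtype) := by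
    apply Monoid.Coprod.hom_ext
    · apply FreeGroup.ext_hom
      intro i
      simp
    · ext x
      simp [hρ]
  rw [h1, MonoidHom.comp_apply, hg s hs, map_one]

theorem eas_alg {G : Type} [Group G] {H : Subgroup G} (h : AlgClosed H) : VerbClosed H := by
  rintro n w x ⟨g, hg⟩
  obtain ⟨k, hk⟩ := h n {Monoid.Coprod.inl w * Monoid.Coprod.inr x⁻¹} (Set.finite_singleton _)
    ⟨g, fun s hs => by
      rw [Set.mem_singleton_iff.1 hs, map_mul, Monoid.Coprod.lift_apply_inl,
        Monoid.Coprod.lift_apply_inr, hg, map_inv, Subgroup.coe_subtype, mul_inv_cancel]⟩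
  refine ⟨k, ?_⟩
  have h1 := hk _ rfl
  rw [map_mul, Monoid.Coprod.lift_apply_inl, Monoid.Coprod.lift_apply_inr, MonoidHom.id_apply,
    mul_inv_eq_one] at h1
  exact h1

theorem t_EAS : S_EAS := fun _ _ _ => ⟨eas_retract, eas_alg⟩

end Pool.Agent.H335PN
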