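import Pool.Agent.H335PN.Stmts

set_option autoImplicit false

namespace Pool.Agent.H335PN

open Pool.Agent.Helper777.Prof

namespace GoodAux

theorem lcs_le {G : Type} [Group G] (N : Subgroup G) [hN : N.Normal] (k : ℕ) : lcs N k ≤ N := by
  cases k with
  | zero => exact le_rfl
  | succ k => exact Subgroup.commutator_le_right (lcs N k) N

theorem NN_le (G : Type) [Group G] (c : ℕ → ℕ) (l : ℕ) : NN G c l ≤ commutator G := by
  induction l with
  | zero => exact le_rfl
  | succ l ih => exact (lcs_le (NN G c l) (c l)).trans ih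

theorem der_lcs {G : Type} [Group G] (N : Subgroup G) (n : ℕ) (h : derivedSeries G n ≤ N) (k : ℕ) :
    derivedSeries G (n + k) ≤ lcs N k := by
  induction k with
  | zero => exact h
  | succ k ih =>
    rw [← add_assoc, derivedSeries_succ]
    exact Subgroup.commutator_mono ih ((derivedSeries_antitone G (Nat.le_add_right n k)).trans h)

theorem der_NN (G : Type) [Group G] (c : ℕ → ℕ) (l : ℕ) : ∃ n, derivedSeries G n ≤ NN G c l := by
  induction l with
  | zero => exact ⟨1, (derivedSeries_one G).le⟩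
  | succ l ih =>
    obtain ⟨n, hn⟩ := ih
    exact ⟨n + c l, der_lcs _ n hn _⟩

theorem solv (G : Type) [Group G] (c : ℕ → ℕ) (l : ℕ) : Group.IsSolvable (G ⧸ NN G c l) := by
  obtain ⟨n, hn⟩ := der_NN G c l
  refine ⟨n, ?_⟩
  rw [← map_derivedSeries_eq (QuotientGroup.mk'_surjective (NN G c l)) n, Subgroup.map_eq_bot_iff,
    QuotientGroup.ker_mk']
  exact hn

theorem cen_cast (c : ℕ → ℕ) (l : ℕ) (K : Subgroup (FreeGroup (Fin 2))) [hK : K.Normal]
    (h : K = NN (FreeGroup (Fin 2)) c l)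
    (hc : Subgroup.center (FreeGroup (Fin 2) ⧸ lcs K (c l)) = ⊥) :
    Subgroup.center (PN 2 c (l + 1)) = ⊥ := by
  subst h
  exact hc

theorem of_notMem (c : ℕ → ℕ) (l : ℕ) :
    (FreeGroup.of (0 : Fin 2)) ∉ NN (FreeGroup (Fin 2)) c l := by
  intro h
  have h1 : FreeGroup.of (0 : Fin 2) ∈ commutator (FreeGroup (Fin 2)) := NN_le _ _ _ h
  have h2 : commutator (FreeGroup (Fin 2)) ≤
      (FreeGroup.lift (fun _ : Fin 2 => Multiplicative.ofAdd (1 : ℤ))).ker :=
    Abelianization.commutator_subset_ker _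
  have h3 := h2 h1
  rw [MonoidHom.mem_ker, FreeGroup.lift_apply_of] at h3
  have h4 := congrArg Multiplicative.toAdd h3
  simp at h4

end GoodAux

open GoodAux in
-- BEGIN TARGET
theorem t_GOOD (h1 : S_UPN) (h2 : S_RFN) (h3 : S_R12) (h4 : S_CEN) (h5 : S_NTR) (h6 : S_ORE3) (h7 : S_ORE4) : S_GOOD := by
  intro c l hc
  obtain ⟨hur, hcp⟩ := h3 (PN 2 c (l + 1)) (fun p hp => h2 2 c (l + 1) p hp)
  have hup : UniqueProds (PN 2 c (l + 1)) := h1 2 c (l + 1)
  have hnz : NoZeroDivisors (MonoidAlgebra ℤ (PN 2 c (l + 1))) := inferInstance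
  have hsol : Group.IsSolvable (PN 2 c (l + 1)) := solv _ c (l + 1)
  have hore := h7 (PN 2 c (l + 1)) (h6 (PN 2 c (l + 1))) hnz
  refine ⟨hur, hcp, ?_, hnz, hore⟩
  have hker : (QuotientGroup.mk' (NN (FreeGroup (Fin 2)) c l)).ker = NN (FreeGroup (Fin 2)) c l :=
    QuotientGroup.ker_mk' _
  refine cen_cast c l _ hker ?_
  refine h4 (Fin 2) (PN 2 c l) (QuotientGroup.mk' (NN (FreeGroup (Fin 2)) c l))
    (QuotientGroup.mk'_surjective _) ?_ ?_ ?_ (c l) (hc l (Nat.lt_succ_self l))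
  · intro g n hn hg
    by_contra hn0
    obtain ⟨hur', -⟩ := h3 (PN 2 c l) (fun p hp => h2 2 c l p hp)
    have hna : n.natAbs ≠ 0 := by simpa using hn0
    refine hg (hur' g 1 n.natAbs hna ?_)
    rw [one_pow]
    rcases Int.natAbs_eq n with h | h
    · rw [h, zpow_natCast] at hn
      exact hn
    · rw [h, zpow_neg, zpow_natCast, inv_eq_one] at hn
      exact hn
  · refine ⟨0, fun h => of_notMem c l ?_⟩
    rw [QuotientGroup.mk'_apply, QuotientGroup.eq_one_iff] at h
    exact h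
  · obtain ⟨u, hu, hu'⟩ := h5 c l
    rw [hker]
    exact ⟨u, hu, hu'⟩
-- END TARGET

end Pool.Agent.H335PN
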