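import Pool.Agent.H335PN.Stmts

set_option autoImplicit false

namespace Pool.Agent.H335PN

open Pool.Agent.Helper777.Prof

namespace IAE602

theorem comm_le_coatom {R : Type} [Group R] [Group.IsNilpotent R] {M : Subgroup R}
    (hM : IsCoatom M) : commutator R ≤ M := by
  have : M.Normal :=
    Subgroup.NormalizerCondition.normal_of_coatom M Group.normalizerCondition_of_isNilpotent hM
  by_contra h
  have h1 : M ⊔ commutator R = ⊤ := by
    apply hM.2
    exact left_lt_sup.mpr h
  have : Nontrivial (R ⧸ M) := by
    rw [QuotientGroup.nontrivial_iff]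
    exact hM.1
  have h2 := Group.IsSolvable.commutator_lt_top_of_nontrivial (R ⧸ M)
  apply h2.ne
  have h3 : Subgroup.map (QuotientGroup.mk' M) (commutator R) = commutator (R ⧸ M) := by
    rw [commutator_def, commutator_def, Subgroup.map_commutator]
    rw [Subgroup.map_top_of_surjective _ (QuotientGroup.mk'_surjective M)]
  rw [← h3]
  rw [eq_top_iff]
  intro x _
  obtain ⟨y, rfl⟩ := QuotientGroup.mk'_surjective M x
  have hy : y ∈ M ⊔ commutator R := by rw [h1]; trivial
  rw [Subgroup.mem_sup_of_normal_left] at hy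
  obtain ⟨m, hm, c, hc, rfl⟩ := hy
  refine ⟨c, hc, ?_⟩
  rw [map_mul]
  have : QuotientGroup.mk' M m = 1 := by
    rw [QuotientGroup.mk'_apply, QuotientGroup.eq_one_iff]
    exact hm
  rw [this, one_mul]

theorem top_of_sup_comm {R : Type} [Group R] [Finite R] [Group.IsNilpotent R] (H : Subgroup R)
    (h : H ⊔ commutator R = ⊤) : H = ⊤ := by
  by_contra hne
  obtain ⟨M, hM, hHM⟩ := (eq_top_or_exists_le_coatom H).resolve_left hne
  have h1 := comm_le_coatom hM
  exact hM.1 (top_unique (h ▸ sup_le hHM h1))

theorem finite_hom (G Q : Type) [Group G] [Group.FG G] [Group Q] [Finite Q] :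
    Finite (G →* Q) := by
  obtain ⟨S, hS⟩ := (Group.fg_iff'.mp (inferInstance : Group.FG G))
  obtain ⟨T, -, hT⟩ := hS
  refine Finite.of_injective (fun (f : G →* Q) (s : T) => f s) ?_
  intro f g hfg
  refine MonoidHom.eq_of_eqOn_dense hT ?_
  intro x hx
  exact congrFun hfg ⟨x, hx⟩

/-- the evaluation homomorphism -/
def ev (G Q : Type) [Group G] [Group Q] : G →* ((G →* Q) → Q) where
  toFun g := fun f => f g
  map_one' := by funext f; simp
  map_mul' a b := by funext f; simp

/-- precomposition -/
def pre {G Q : Type} [Group G] [Group Q] (α : G →* G) : ((G →* Q) → Q) →* ((G →* Q) → Q) where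
  toFun φ := fun f => φ (f.comp α)
  map_one' := rfl
  map_mul' a b := rfl

theorem pre_ev {G Q : Type} [Group G] [Group Q] (α : G →* G) (g : G) :
    pre (Q := Q) α (ev G Q g) = ev G Q (α g) := rfl

/-- the endomorphism of the image -/
def rs {G Q : Type} [Group G] [Group Q] (α : G →* G) : (ev G Q).range →* (ev G Q).range where
  toFun x := ⟨pre α x.1, by
    obtain ⟨g, hg⟩ := x.2
    exact ⟨α g, by rw [← pre_ev, hg]⟩⟩
  map_one' := by
    apply Subtype.ext
    exact map_one (pre (Q := Q) α)
  map_mul' a b := by
    apply Subtype.ext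
    exact map_mul (pre (Q := Q) α) a.1 b.1

theorem rs_ev {G Q : Type} [Group G] [Group Q] (α : G →* G) (g : G) :
    rs (Q := Q) α ((ev G Q).rangeRestrict g) = (ev G Q).rangeRestrict (α g) := rfl

theorem key (G : Type) [Group G] [Group.FG G] (hG : RFp 2 G) (α : G →* G)
    (h : ∀ (Q : Type) [Group Q] [Finite Q], IsPGroup 2 Q →
      Function.Surjective (rs (Q := Q) α)) : Function.Injective α := by
  rw [injective_iff_map_eq_one]
  intro g hg
  by_contra hne
  obtain ⟨Q, iQ, iF, f0, hQ, hf⟩ := hG g hne
  have := finite_hom G Q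
  have h1 := h Q hQ
  have h2 : Function.Injective (rs (Q := Q) α) := Finite.injective_iff_surjective.mpr h1
  have h3 : (ev G Q).rangeRestrict g = 1 := by
    apply h2
    rw [rs_ev, hg, map_one, map_one]
  have h4 : ev G Q g = 1 := congrArg Subtype.val h3
  exact hf (congrFun h4 f0)

end IAE602

open IAE602 in
theorem t_IAE  : S_IAE := by
  intro G _ _ hG α
  constructor
  · intro hα
    apply key G hG α
    intro Q _ _ hQ
    have := finite_hom G Q
    have : Fact (Nat.Prime 2) := ⟨Nat.prime_two⟩
    have hP : IsPGroup 2 ((G →* Q) → Q) := by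
      classical
      have := Fintype.ofFinite (G →* Q)
      have hcard := hQ.exists_card_eq
      obtain ⟨n, hn⟩ := hcard
      apply IsPGroup.of_card (n := n * Nat.card (G →* Q))
      rw [Nat.card_fun, hn, ← pow_mul]
    have hR : IsPGroup 2 (ev G Q).range := hP.to_subgroup _
    have : Group.IsNilpotent (ev G Q).range := hR.isNilpotent
    rw [← MonoidHom.range_eq_top]
    apply top_of_sup_comm
    rw [eq_top_iff]
    rintro x -
    obtain ⟨g, rfl⟩ := (ev G Q).rangeRestrict_surjective x
    have h1 : (ev G Q).rangeRestrict g =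
        (ev G Q).rangeRestrict (α g) * ((ev G Q).rangeRestrict (g⁻¹ * α g))⁻¹ := by
      rw [← map_inv, ← map_mul]
      congr 1
      group
    rw [h1]
    apply Subgroup.mul_mem
    · apply Subgroup.mem_sup_left
      exact ⟨(ev G Q).rangeRestrict g, rs_ev α g⟩
    · apply Subgroup.mem_sup_right
      apply Subgroup.inv_mem
      have h2 : g⁻¹ * α g ∈ commutator G := by
        have := hα g
        have h3 : (commutator G).Normal := inferInstance
        have h4 := h3.conj_mem _ this g⁻¹
        have h5 : g⁻¹ * (α g * g⁻¹) * g⁻¹⁻¹ = g⁻¹ * α g := by group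
        rwa [h5] at h4
      have h6 : Subgroup.map (ev G Q).rangeRestrict (commutator G) ≤
          commutator (ev G Q).range := by
        rw [commutator_def, commutator_def, Subgroup.map_commutator]
        exact Subgroup.commutator_mono le_top le_top
      exact h6 ⟨_, h2, rfl⟩
  · intro hα
    apply key G hG α
    intro Q _ _ hQ x
    obtain ⟨g, rfl⟩ := (ev G Q).rangeRestrict_surjective x
    obtain ⟨g', rfl⟩ := hα g
    exact ⟨(ev G Q).rangeRestrict g', rs_ev α g'⟩

end Pool.Agent.H335PN
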