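import Pool.Agent.H335PN.Stmts

set_option autoImplicit false

/-! LEM1: a homomorphism of free groups which is injective on abelianizations is injective on the
lower central quotients. Method: two homomorphisms to the unitriangular matrices with the same
superdiagonals agree on `γ_k` modulo the `k + 1`-st term of the filtration; the coordinate functions
of the abelianization of the source extend to the abelianization of the target (`ℚ` is injective). -/

namespace Pool.Agent.H335PN.LE1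

open scoped commutatorElement

section JJ

variable {K : Type} [CommRing K] {n : ℕ}

/-- matrices supported on the diagonals `≥ m` -/
def JJ (m : ℕ) (M : Matrix (Fin n) (Fin n) K) : Prop :=
  ∀ a b : Fin n, (b : ℕ) < a + m → M a b = 0

theorem JJ.mono {i j : ℕ} (h : i ≤ j) {M : Matrix (Fin n) (Fin n) K} (hM : JJ j M) : JJ i M :=
  fun a b hab => hM a b (by omega)

theorem JJ.zero (i : ℕ) : JJ i (0 : Matrix (Fin n) (Fin n) K) := fun _ _ _ => rfl

theorem JJ.one : JJ 0 (1 : Matrix (Fin n) (Fin n) K) := fun a b hab =>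
  Matrix.one_apply_ne (by rintro rfl; omega)

theorem JJ.add {i : ℕ} {M N : Matrix (Fin n) (Fin n) K} (hM : JJ i M) (hN : JJ i N) :
    JJ i (M + N) := fun a b hab => by
  rw [Matrix.add_apply, hM a b hab, hN a b hab, add_zero]

theorem JJ.neg {i : ℕ} {M : Matrix (Fin n) (Fin n) K} (hM : JJ i M) : JJ i (-M) :=
  fun a b hab => by rw [Matrix.neg_apply, hM a b hab, neg_zero]

theorem JJ.sub {i : ℕ} {M N : Matrix (Fin n) (Fin n) K} (hM : JJ i M) (hN : JJ i N) :
    JJ i (M - N) := fun a b hab => by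
  rw [Matrix.sub_apply, hM a b hab, hN a b hab, sub_zero]

theorem JJ.mul {i j : ℕ} {M N : Matrix (Fin n) (Fin n) K} (hM : JJ i M) (hN : JJ j N) :
    JJ (i + j) (M * N) := fun a b hab => by
  rw [Matrix.mul_apply]
  refine Finset.sum_eq_zero fun t _ => ?_
  by_cases h : (t : ℕ) < a + i
  · rw [hM a t h, zero_mul]
  · rw [hN t b (by omega), mul_zero]

theorem JJ.mul' {i j k : ℕ} (h : k ≤ i + j) {M N : Matrix (Fin n) (Fin n) K} (hM : JJ i M)
    (hN : JJ j N) : JJ k (M * N) := (hM.mul hN).mono h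

theorem JJ.pow {M : Matrix (Fin n) (Fin n) K} (hM : JJ 1 M) (i : ℕ) : JJ i (M ^ i) := by
  induction i with
  | zero => rw [pow_zero]; exact JJ.one
  | succ i ih => rw [pow_succ]; exact ih.mul hM

theorem JJ.eq_zero {m : ℕ} (h : n ≤ m) {M : Matrix (Fin n) (Fin n) K} (hM : JJ m M) : M = 0 := by
  ext a b
  exact hM a b (by omega)

/-- the inverse of a unitriangular matrix -/
theorem JJ.inv {u v : Matrix (Fin n) (Fin n) K} (huv : u * v = 1) (hu : JJ 1 (u - 1)) :
    JJ 1 (v - 1) := by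
  have h : ∀ i : ℕ, ∃ Q R : Matrix (Fin n) (Fin n) K, JJ 1 Q ∧ v - 1 = Q + (u - 1) ^ i * R := by
    intro i
    induction i with
    | zero => exact ⟨0, v - 1, JJ.zero 1, by simp⟩
    | succ i ih =>
      obtain ⟨Q, R, hQ, hR⟩ := ih
      refine ⟨-(u - 1) - (u - 1) * Q, -R, hu.neg.sub (JJ.mul' (by omega) hu hQ), ?_⟩
      have e : v - 1 = -(u - 1) - (u - 1) * (v - 1) := by
        rw [sub_mul, mul_sub, huv]
        simp
      rw [e, hR, pow_succ']
      noncomm_ring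
  obtain ⟨Q, R, hQ, hR⟩ := h n
  rw [hR, (hu.pow n).eq_zero le_rfl, zero_mul, add_zero]
  exact hQ

end JJ

section Cmp

variable {K : Type} [CommRing K] {n : ℕ} {G : Type} [Group G]


/-- the elements on which the homomorphisms `α`, `β` to the unitriangular matrices are in the
`k`-th term of the filtration and agree modulo the `k + 1`-st one -/
def SS (α β : G →* (Matrix (Fin n) (Fin n) K)ˣ) (k : ℕ) : Subgroup G where
  carrier := {w | (JJ k ((α w : (Matrix (Fin n) (Fin n) K)) - 1) ∧ JJ k ((α w⁻¹ : (Matrix (Fin n) (Fin n) K)) - 1)) ∧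
    (JJ k ((β w : (Matrix (Fin n) (Fin n) K)) - 1) ∧ JJ k ((β w⁻¹ : (Matrix (Fin n) (Fin n) K)) - 1)) ∧
    (JJ (k + 1) ((α w : (Matrix (Fin n) (Fin n) K)) - (β w : (Matrix (Fin n) (Fin n) K))) ∧ JJ (k + 1) ((α w⁻¹ : (Matrix (Fin n) (Fin n) K)) - (β w⁻¹ : (Matrix (Fin n) (Fin n) K))))}
  one_mem' := by
    simp only [Set.mem_ofPred_eq, inv_one, map_one, Units.val_one, sub_self]
    exact ⟨⟨JJ.zero _, JJ.zero _⟩, ⟨JJ.zero _, JJ.zero _⟩, ⟨JJ.zero _, JJ.zero _⟩⟩
  mul_mem' := by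
    have key : ∀ a b : (Matrix (Fin n) (Fin n) K), JJ k (a - 1) → JJ k (b - 1) → JJ k (a * b - 1) := by
      intro a b ha hb
      have e : a * b - 1 = (a - 1) * (b - 1) + (a - 1) + (b - 1) := by noncomm_ring
      rw [e]
      exact ((JJ.mul' (by omega) ha hb).add ha).add hb
    have key2 : ∀ a b a' b' : (Matrix (Fin n) (Fin n) K), JJ k (a - 1) → JJ k (b' - 1) → JJ (k + 1) (a - b) →
        JJ (k + 1) (a' - b') → JJ k (b - 1) → JJ k (a' - 1) →
        JJ (k + 1) (a * a' - b * b') := by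
      intro a b a' b' ha hb' hab hab' hb ha'
      have e : a * a' - b * b' = (a - b) * (a' - 1) + (a - b) + ((b - 1) * (a' - b') + (a' - b')) := by
        noncomm_ring
      rw [e]
      exact ((JJ.mul' (by omega) hab ha').add hab).add ((JJ.mul' (by omega) hb hab').add hab')
    rintro x y ⟨⟨hx1, hx2⟩, ⟨hx3, hx4⟩, ⟨hx5, hx6⟩⟩ ⟨⟨hy1, hy2⟩, ⟨hy3, hy4⟩, ⟨hy5, hy6⟩⟩
    simp only [Set.mem_ofPred_eq, mul_inv_rev, map_mul, Units.val_mul]
    exact ⟨⟨key _ _ hx1 hy1, key _ _ hy2 hx2⟩, ⟨key _ _ hx3 hy3, key _ _ hy4 hx4⟩,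
      ⟨key2 _ _ _ _ hx1 hy3 hx5 hy5 hx3 hy1, key2 _ _ _ _ hy2 hx4 hy6 hx6 hy4 hx2⟩⟩
  inv_mem' := by
    rintro x ⟨⟨hx1, hx2⟩, ⟨hx3, hx4⟩, ⟨hx5, hx6⟩⟩
    simp only [Set.mem_ofPred_eq, inv_inv]
    exact ⟨⟨hx2, hx1⟩, ⟨hx4, hx3⟩, ⟨hx6, hx5⟩⟩

theorem SS_comm (α β : G →* (Matrix (Fin n) (Fin n) K)ˣ) (k : ℕ) {u v : G} (hu : u ∈ SS α β k)
    (hv : v ∈ SS α β 1) : ⁅u, v⁆ ∈ SS α β (k + 1) := by
  have half : ∀ (γ : G →* (Matrix (Fin n) (Fin n) K)ˣ) (i j : ℕ) (x y : G),
      JJ i ((γ x : (Matrix (Fin n) (Fin n) K)) - 1) → JJ j ((γ y : (Matrix (Fin n) (Fin n) K)) - 1) →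
      JJ i ((γ x⁻¹ : (Matrix (Fin n) (Fin n) K)) - 1) → JJ j ((γ y⁻¹ : (Matrix (Fin n) (Fin n) K)) - 1) →
      JJ (i + j) ((γ (x * y * x⁻¹ * y⁻¹) : (Matrix (Fin n) (Fin n) K)) - 1) := by
    intro γ i j x y hx hy hx' hy'
    have e : (γ (x * y * x⁻¹ * y⁻¹) : (Matrix (Fin n) (Fin n) K)) - 1 =
        (((γ x : (Matrix (Fin n) (Fin n) K)) - 1) * ((γ y : (Matrix (Fin n) (Fin n) K)) - 1) - ((γ y : (Matrix (Fin n) (Fin n) K)) - 1) * ((γ x : (Matrix (Fin n) (Fin n) K)) - 1)) *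
          ((γ x⁻¹ : (Matrix (Fin n) (Fin n) K)) * (γ y⁻¹ : (Matrix (Fin n) (Fin n) K))) := by
      have e1 : ((γ x : (Matrix (Fin n) (Fin n) K)) - 1) * ((γ y : (Matrix (Fin n) (Fin n) K)) - 1) - ((γ y : (Matrix (Fin n) (Fin n) K)) - 1) * ((γ x : (Matrix (Fin n) (Fin n) K)) - 1) =
        (γ x : (Matrix (Fin n) (Fin n) K)) * γ y - (γ y : (Matrix (Fin n) (Fin n) K)) * γ x := by noncomm_ring
      have e2 : ((γ y : (Matrix (Fin n) (Fin n) K)) * γ x) * ((γ x⁻¹ : (Matrix (Fin n) (Fin n) K)) * (γ y⁻¹ : (Matrix (Fin n) (Fin n) K))) = 1 := by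
        rw [← Units.val_mul, ← Units.val_mul, ← Units.val_mul, ← map_mul, ← map_mul, ← map_mul]
        simp
      rw [e1, sub_mul, e2, map_mul, map_mul, map_mul]
      simp only [Units.val_mul, mul_assoc]
    rw [e]
    have h1 : JJ 0 ((γ x⁻¹ : (Matrix (Fin n) (Fin n) K)) * (γ y⁻¹ : (Matrix (Fin n) (Fin n) K))) := by
      refine JJ.mul' (i := 0) (j := 0) (le_refl _) ?_ ?_
      · have := (hx'.mono (Nat.zero_le _)).add JJ.one
        rwa [sub_add_cancel] at this
      · have := (hy'.mono (Nat.zero_le _)).add JJ.one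
        rwa [sub_add_cancel] at this
    refine JJ.mul' (i := i + j) (j := 0) (le_refl _) (((hx.mul hy)).sub (JJ.mul' (by omega) hy hx)) h1
  have dif : ∀ (i j : ℕ) (x y : G),
      JJ i ((α x : (Matrix (Fin n) (Fin n) K)) - 1) → JJ j ((α y : (Matrix (Fin n) (Fin n) K)) - 1) →
      JJ i ((α x⁻¹ : (Matrix (Fin n) (Fin n) K)) - 1) → JJ j ((α y⁻¹ : (Matrix (Fin n) (Fin n) K)) - 1) →
      JJ i ((β x : (Matrix (Fin n) (Fin n) K)) - 1) → JJ j ((β y : (Matrix (Fin n) (Fin n) K)) - 1) →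
      JJ i ((β x⁻¹ : (Matrix (Fin n) (Fin n) K)) - 1) → JJ j ((β y⁻¹ : (Matrix (Fin n) (Fin n) K)) - 1) →
      JJ (i + 1) ((α x : (Matrix (Fin n) (Fin n) K)) - (β x : (Matrix (Fin n) (Fin n) K))) → JJ (j + 1) ((α y : (Matrix (Fin n) (Fin n) K)) - (β y : (Matrix (Fin n) (Fin n) K))) →
      JJ (i + 1) ((α x⁻¹ : (Matrix (Fin n) (Fin n) K)) - (β x⁻¹ : (Matrix (Fin n) (Fin n) K))) → JJ (j + 1) ((α y⁻¹ : (Matrix (Fin n) (Fin n) K)) - (β y⁻¹ : (Matrix (Fin n) (Fin n) K))) →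
      JJ (i + j + 1) ((α (x * y * x⁻¹ * y⁻¹) : (Matrix (Fin n) (Fin n) K)) - (β (x * y * x⁻¹ * y⁻¹) : (Matrix (Fin n) (Fin n) K))) := by
    intro i j x y ax ay ax' ay' bx bye bx' by' dx dy dx' dy'
    have e : ∀ γ : G →* (Matrix (Fin n) (Fin n) K)ˣ, (γ (x * y * x⁻¹ * y⁻¹) : (Matrix (Fin n) (Fin n) K)) =
        1 + (((γ x : (Matrix (Fin n) (Fin n) K)) - 1) * ((γ y : (Matrix (Fin n) (Fin n) K)) - 1) - ((γ y : (Matrix (Fin n) (Fin n) K)) - 1) * ((γ x : (Matrix (Fin n) (Fin n) K)) - 1)) *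
          ((γ x⁻¹ : (Matrix (Fin n) (Fin n) K)) * (γ y⁻¹ : (Matrix (Fin n) (Fin n) K))) := by
      intro γ
      have e1 : ((γ x : (Matrix (Fin n) (Fin n) K)) - 1) * ((γ y : (Matrix (Fin n) (Fin n) K)) - 1) - ((γ y : (Matrix (Fin n) (Fin n) K)) - 1) * ((γ x : (Matrix (Fin n) (Fin n) K)) - 1) =
        (γ x : (Matrix (Fin n) (Fin n) K)) * γ y - (γ y : (Matrix (Fin n) (Fin n) K)) * γ x := by noncomm_ring
      have e2 : ((γ y : (Matrix (Fin n) (Fin n) K)) * γ x) * ((γ x⁻¹ : (Matrix (Fin n) (Fin n) K)) * (γ y⁻¹ : (Matrix (Fin n) (Fin n) K))) = 1 := by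
        rw [← Units.val_mul, ← Units.val_mul, ← Units.val_mul, ← map_mul, ← map_mul, ← map_mul]
        simp
      rw [e1, sub_mul, e2, map_mul, map_mul, map_mul]
      simp only [Units.val_mul, mul_assoc]
      abel
    rw [e α, e β]
    set A := ((α x : (Matrix (Fin n) (Fin n) K)) - 1) with hA
    set A' := ((β x : (Matrix (Fin n) (Fin n) K)) - 1) with hA'
    set B := ((α y : (Matrix (Fin n) (Fin n) K)) - 1) with hB
    set B' := ((β y : (Matrix (Fin n) (Fin n) K)) - 1) with hB'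
    set Y := ((α x⁻¹ : (Matrix (Fin n) (Fin n) K)) * (α y⁻¹ : (Matrix (Fin n) (Fin n) K))) with hY
    set Y' := ((β x⁻¹ : (Matrix (Fin n) (Fin n) K)) * (β y⁻¹ : (Matrix (Fin n) (Fin n) K))) with hY'
    have hAA : JJ (i + 1) (A - A') := by
      have : A - A' = (α x : (Matrix (Fin n) (Fin n) K)) - (β x : (Matrix (Fin n) (Fin n) K)) := by rw [hA, hA']; abel
      rw [this]; exact dx
    have hBB : JJ (j + 1) (B - B') := by
      have : B - B' = (α y : (Matrix (Fin n) (Fin n) K)) - (β y : (Matrix (Fin n) (Fin n) K)) := by rw [hB, hB']; abel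
      rw [this]; exact dy
    have h0 : ∀ {m : ℕ} {M : (Matrix (Fin n) (Fin n) K)}, JJ m (M - 1) → JJ 0 M := by
      intro m M h
      have := (h.mono (Nat.zero_le _)).add JJ.one
      rwa [sub_add_cancel] at this
    have hY0 : JJ 0 Y := JJ.mul' (i := 0) (j := 0) (le_refl _) (h0 ax') (h0 ay')
    have hYY : JJ 1 (Y - Y') := by
      have : Y - Y' = ((α x⁻¹ : (Matrix (Fin n) (Fin n) K)) - (β x⁻¹ : (Matrix (Fin n) (Fin n) K))) * (α y⁻¹ : (Matrix (Fin n) (Fin n) K)) +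
          (β x⁻¹ : (Matrix (Fin n) (Fin n) K)) * ((α y⁻¹ : (Matrix (Fin n) (Fin n) K)) - (β y⁻¹ : (Matrix (Fin n) (Fin n) K))) := by
        rw [hY, hY']; noncomm_ring
      rw [this]
      exact (JJ.mul' (by omega) dx' (h0 ay')).add (JJ.mul' (by omega) (h0 bx') dy')
    have e3 : 1 + (A * B - B * A) * Y - (1 + (A' * B' - B' * A') * Y') =
        (((A - A') * B + A' * (B - B')) - ((B - B') * A + B' * (A - A'))) * Y +
          (A' * B' - B' * A') * (Y - Y') := by noncomm_ring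
    rw [e3]
    refine JJ.add (JJ.mul' (i := i + j + 1) (j := 0) (by omega) (JJ.sub (JJ.add ?_ ?_)
      (JJ.add ?_ ?_)) hY0) (JJ.mul' (i := i + j) (j := 1) (by omega) (JJ.sub ?_ ?_) hYY)
    · exact JJ.mul' (by omega) hAA ay
    · exact JJ.mul' (by omega) bx hBB
    · exact JJ.mul' (by omega) hBB ax
    · exact JJ.mul' (by omega) bye hAA
    · exact JJ.mul' (by omega) bx bye
    · exact JJ.mul' (by omega) bye bx
  obtain ⟨⟨hx1, hx2⟩, ⟨hx3, hx4⟩, ⟨hx5, hx6⟩⟩ := hu
  obtain ⟨⟨hy1, hy2⟩, ⟨hy3, hy4⟩, ⟨hy5, hy6⟩⟩ := hv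
  have ec : ⁅u, v⁆ = u * v * u⁻¹ * v⁻¹ := rfl
  have ec' : ⁅u, v⁆⁻¹ = v * u * v⁻¹ * u⁻¹ := by rw [ec]; group
  refine ⟨⟨?_, ?_⟩, ⟨?_, ?_⟩, ⟨?_, ?_⟩⟩
  · rw [ec]; exact half α k 1 u v hx1 hy1 hx2 hy2
  · rw [ec', add_comm]; exact half α 1 k v u hy1 hx1 hy2 hx2
  · rw [ec]; exact half β k 1 u v hx3 hy3 hx4 hy4
  · rw [ec', add_comm]; exact half β 1 k v u hy3 hx3 hy4 hx4
  · rw [ec]; exact dif k 1 u v hx1 hy1 hx2 hy2 hx3 hy3 hx4 hy4 hx5 hy5 hx6 hy6
  · rw [ec', add_comm k 1]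
    exact dif 1 k v u hy1 hx1 hy2 hx2 hy3 hx3 hy4 hx4 hy5 hx5 hy6 hx6

/-- if two homomorphisms to the unitriangular matrices agree modulo the second term of the
filtration, they agree on the `k`-th lower central term modulo the `k + 1`-st term -/
theorem lcs_le_SS (α β : G →* (Matrix (Fin n) (Fin n) K)ˣ) (h : SS α β 1 = ⊤) (k : ℕ) :
    lcs (⊤ : Subgroup G) k ≤ SS α β (k + 1) := by
  induction k with
  | zero => rw [h]; exact le_top
  | succ k ih =>
    change ⁅lcs (⊤ : Subgroup G) k, (⊤ : Subgroup G)⁆ ≤ _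
    rw [Subgroup.commutator_le]
    intro u hu v _
    exact SS_comm α β (k + 1) (ih hu) (by rw [h]; trivial)

end Cmp


section Rep

variable {K : Type} [CommRing K] {c : ℕ}

/-- the matrix with the superdiagonal `v` -/
def eml (v : Fin c → K) : Matrix (Fin (c + 1)) (Fin (c + 1)) K :=
  fun i j => if h : (i : ℕ) + 1 = (j : ℕ) then v ⟨i, by have := j.isLt; omega⟩ else 0

theorem eml_JJ (v : Fin c → K) : JJ 1 (eml v) := by
  intro a b hab
  rw [eml, dif_neg (by omega)]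

theorem eml_isUnit (v : Fin c → K) : IsUnit (1 + eml v) := by
  have h : (1 + eml v).BlockTriangular id := by
    intro i j hij
    have hij' : (j : ℕ) < i := hij
    simp only [Matrix.add_apply, eml]
    rw [Matrix.one_apply_ne (by rintro rfl; omega), dif_neg (by omega), add_zero]
  rw [Matrix.isUnit_iff_isUnit_det, Matrix.det_of_isUpperTriangular h]
  have : ∀ i, (1 + eml v) i i = 1 := by
    intro i
    simp [eml]
  simp [this]

/-- the representation `x ↦ 1 + eml (v x)` of the free group -/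
noncomputable def repl {X : Type} (v : X → Fin c → K) :
    FreeGroup X →* (Matrix (Fin (c + 1)) (Fin (c + 1)) K)ˣ :=
  FreeGroup.lift (fun x => (eml_isUnit (v x)).unit)

theorem repl_of {X : Type} (v : X → Fin c → K) (x : X) :
    ((repl v (FreeGroup.of x) : (Matrix (Fin (c + 1)) (Fin (c + 1)) K)ˣ) :
      Matrix (Fin (c + 1)) (Fin (c + 1)) K) = 1 + eml (v x) := by
  rw [repl, FreeGroup.lift_apply_of]
  rfl

theorem sup_mul {M N : Matrix (Fin (c + 1)) (Fin (c + 1)) K} (hM : JJ 1 (M - 1))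
    (hN : JJ 1 (N - 1)) (i : Fin c) :
    (M * N) i.castSucc i.succ = M i.castSucc i.succ + N i.castSucc i.succ := by
  have e : M * N = (M - 1) * (N - 1) + M + N - 1 := by noncomm_ring
  have h : ((M - 1) * (N - 1)) i.castSucc i.succ = 0 :=
    (JJ.mul hM hN) i.castSucc i.succ (by simp)
  rw [e, Matrix.sub_apply, Matrix.add_apply, Matrix.add_apply, h,
    Matrix.one_apply_ne (by intro h0; have := congrArg Fin.val h0; simp at this)]
  ring

/-- the abelianization, written additively -/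
abbrev AB (X : Type) : Type := Additive (Abelianization (FreeGroup X))

/-- the class in the abelianization -/
def ab {X : Type} (g : FreeGroup X) : AB X := Additive.ofMul (Abelianization.of g)

theorem ab_mul {X : Type} (g h : FreeGroup X) : ab (g * h) = ab g + ab h := by
  simp [ab]

theorem ab_inv {X : Type} (g : FreeGroup X) : ab g⁻¹ = -ab g := by
  simp [ab]

theorem repl_sup {X : Type} (ℓ : Fin c → (AB X →+ K)) (g : FreeGroup X) :
    JJ 1 (((repl (fun x i => ℓ i (ab (FreeGroup.of x))) g :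
      (Matrix (Fin (c + 1)) (Fin (c + 1)) K)ˣ) : Matrix (Fin (c + 1)) (Fin (c + 1)) K) - 1) ∧
    ∀ i : Fin c, ((repl (fun x i => ℓ i (ab (FreeGroup.of x))) g :
      (Matrix (Fin (c + 1)) (Fin (c + 1)) K)ˣ) : Matrix (Fin (c + 1)) (Fin (c + 1)) K)
        i.castSucc i.succ = ℓ i (ab g) := by
  set ρ := repl (fun x i => ℓ i (ab (FreeGroup.of x))) with hρ
  have hone : ∀ i : Fin c, (1 : Matrix (Fin (c + 1)) (Fin (c + 1)) K) i.castSucc i.succ = 0 :=
    fun i => Matrix.one_apply_ne (by intro h0; have := congrArg Fin.val h0; simp at this)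
  have hof : ∀ x : X, JJ 1 (((ρ (FreeGroup.of x) : (Matrix (Fin (c + 1)) (Fin (c + 1)) K)ˣ) :
      Matrix (Fin (c + 1)) (Fin (c + 1)) K) - 1) ∧
    ∀ i : Fin c, ((ρ (FreeGroup.of x) : (Matrix (Fin (c + 1)) (Fin (c + 1)) K)ˣ) :
      Matrix (Fin (c + 1)) (Fin (c + 1)) K) i.castSucc i.succ = ℓ i (ab (FreeGroup.of x)) := by
    intro x
    rw [hρ, repl_of]
    refine ⟨?_, fun i => ?_⟩
    · rw [add_sub_cancel_left]; exact eml_JJ _
    · rw [Matrix.add_apply, hone, zero_add, eml, dif_pos (by simp)]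
      rfl
  induction g using FreeGroup.induction_on with
  | C1 =>
    refine ⟨?_, fun i => ?_⟩
    · rw [map_one, Units.val_one, sub_self]; exact JJ.zero _
    · rw [map_one, Units.val_one, hone]
      simp [ab]
  | of x => exact hof x
  | inv_of x _ =>
    obtain ⟨h1, h2⟩ := hof x
    have hinv : JJ 1 (((ρ (FreeGroup.of x)⁻¹ : (Matrix (Fin (c + 1)) (Fin (c + 1)) K)ˣ) :
      Matrix (Fin (c + 1)) (Fin (c + 1)) K) - 1) := by
      refine JJ.inv (u := ((ρ (FreeGroup.of x) : (Matrix (Fin (c + 1)) (Fin (c + 1)) K)ˣ) :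
        Matrix (Fin (c + 1)) (Fin (c + 1)) K)) ?_ h1
      rw [map_inv, Units.mul_inv]
    refine ⟨hinv, fun i => ?_⟩
    have h3 := sup_mul h1 hinv i
    rw [map_inv, Units.mul_inv, hone, h2 i, ← map_inv] at h3
    rw [ab_inv, map_neg]
    exact eq_neg_of_add_eq_zero_right h3.symm
  | mul x y hx hy =>
    obtain ⟨h1, h2⟩ := hx
    obtain ⟨h3, h4⟩ := hy
    rw [map_mul, Units.val_mul]
    refine ⟨?_, fun i => ?_⟩
    · have e : ∀ a b : Matrix (Fin (c + 1)) (Fin (c + 1)) K, a * b - 1 =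
        (a - 1) * (b - 1) + (a - 1) + (b - 1) := by intro a b; noncomm_ring
      rw [e]
      exact ((JJ.mul' (by omega) h1 h3).add h1).add h3
    · rw [sup_mul h1 h3 i, h2, h4, ab_mul, map_add]

end Rep

theorem ab_eq_zero {X : Type} (g : FreeGroup X) : ab g = 0 ↔ g ∈ commutator (FreeGroup X) := by
  rw [← Abelianization.ker_of, MonoidHom.mem_ker, ab]
  exact ofMul_eq_zero

theorem lcs_anti {G : Type} [Group G] (k : ℕ) :
    lcs (⊤ : Subgroup G) (k + 1) ≤ lcs (⊤ : Subgroup G) k :=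
  Subgroup.commutator_le_left _ _

theorem cast_rep {X : Type} [DecidableEq X] {c : ℕ} (L : Fin c → X) (w : FreeGroup X) :
    (Int.castRingHom ℚ).mapMatrix ((rep ℤ L w : (Matrix (Fin (c + 1)) (Fin (c + 1)) ℤ)ˣ) :
      Matrix (Fin (c + 1)) (Fin (c + 1)) ℤ) =
    ((repl (fun x i => if L i = x then (1 : ℚ) else 0) w :
      (Matrix (Fin (c + 1)) (Fin (c + 1)) ℚ)ˣ) : Matrix (Fin (c + 1)) (Fin (c + 1)) ℚ) := by
  have h : (Units.map ((Int.castRingHom ℚ).mapMatrix :
      Matrix (Fin (c + 1)) (Fin (c + 1)) ℤ →+* Matrix (Fin (c + 1)) (Fin (c + 1)) ℚ).toMonoidHom).comp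
      (rep ℤ L) = repl (fun x i => if L i = x then (1 : ℚ) else 0) := by
    refine FreeGroup.ext_hom _ _ fun x => Units.ext ?_
    rw [repl_of]
    rw [MonoidHom.comp_apply, rep, FreeGroup.lift_apply_of]
    ext i j
    simp only [Units.coe_map, RingHom.toMonoidHom_eq_coe, MonoidHom.coe_coe, IsUnit.unit_spec,
      RingHom.mapMatrix_apply, Matrix.map_apply, Matrix.add_apply, em, eml]
    by_cases hij : i = j
    · subst hij; simp
    · rw [Matrix.one_apply_ne hij, Matrix.one_apply_ne hij]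
      by_cases h1 : (i : ℕ) + 1 = (j : ℕ)
      · rw [dif_pos h1, dif_pos h1]
        split_ifs <;> simp
      · rw [dif_neg h1, dif_neg h1]; simp
  rw [← h]
  rfl

theorem lem1 (hM : S_MAG2) : S_LEM1 := by
  intro B X f hf k
  classical
  induction k with
  | zero => intro w _; trivial
  | succ k ih =>
    intro w hw
    have hwk : w ∈ lcs (⊤ : Subgroup (FreeGroup B)) k := ih w (lcs_anti k hw)
    rw [hM B (k + 1) w]
    intro L
    -- extension of the coordinate functions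
    let T : AB B →+ AB X := (Abelianization.map f).toAdditive
    have hT : ∀ g : FreeGroup B, T (ab g) = ab (f g) := fun g => by
      change Additive.ofMul (Abelianization.map f (Abelianization.of g)) = _
      rw [Abelianization.map_of]
      rfl
    have hTi : Function.Injective T := by
      rw [injective_iff_map_eq_zero]
      intro a ha
      obtain ⟨g, hg⟩ : ∃ g, Abelianization.of g = Additive.toMul a := QuotientGroup.mk_surjective _
      have hg' : a = ab g := by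
        rw [ab]
        exact hg.symm
      rw [hg', hT, ab_eq_zero] at ha
      rw [hg', ab_eq_zero]
      exact hf g ha
    let lam : Fin (k + 1) → (AB B →+ ℚ) := fun i =>
      MonoidHom.toAdditiveLeft (Abelianization.lift (FreeGroup.lift
        (fun b => Multiplicative.ofAdd (if L i = b then (1 : ℚ) else 0))))
    have hlam : ∀ i b, lam i (ab (FreeGroup.of b)) = if L i = b then (1 : ℚ) else 0 := by
      intro i b
      simp [lam, ab]
    have hex : ∀ i, ∃ xi : AB X →+ ℚ, xi.comp T = lam i := fun i =>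
      Module.Baer.extension_property_addMonoidHom (Module.Baer.of_divisible ℚ) T hTi (lam i)
    choose xi hxi using hex
    have hxi' : ∀ i g, xi i (ab (f g)) = lam i (ab g) := by
      intro i g
      rw [← hT, ← hxi i]
      rfl
    set ρX := repl (fun x i => xi i (ab (FreeGroup.of x))) with hρX
    set ρB := repl (fun x i => lam i (ab (FreeGroup.of x))) with hρB
    have hα := repl_sup xi
    have hβ := repl_sup lam
    rw [← hρX] at hα
    rw [← hρB] at hβ
    have hSS : SS (ρX.comp f) ρB 1 = ⊤ := by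
      rw [eq_top_iff]
      intro g _
      have hd : ∀ g : FreeGroup B, JJ (1 + 1) ((((ρX.comp f) g :
          (Matrix (Fin (k + 1 + 1)) (Fin (k + 1 + 1)) ℚ)ˣ) :
          Matrix (Fin (k + 1 + 1)) (Fin (k + 1 + 1)) ℚ) -
          ((ρB g : (Matrix (Fin (k + 1 + 1)) (Fin (k + 1 + 1)) ℚ)ˣ) :
          Matrix (Fin (k + 1 + 1)) (Fin (k + 1 + 1)) ℚ)) := by
        intro g a b hab
        rw [Matrix.sub_apply]
        by_cases h1 : (b : ℕ) < a + 1
        · have e1 := (hα (f g)).1 a b h1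
          have e2 := (hβ g).1 a b h1
          rw [Matrix.sub_apply, sub_eq_zero] at e1 e2
          rw [MonoidHom.comp_apply, e1, e2, sub_self]
        · have h2 : (b : ℕ) = a + 1 := by omega
          have ha : (a : ℕ) < k + 1 := by have := b.isLt; omega
          have ea : a = (⟨a, ha⟩ : Fin (k + 1)).castSucc := rfl
          have eb : b = (⟨a, ha⟩ : Fin (k + 1)).succ := by
            apply Fin.ext
            simp [h2]
          rw [ea, eb, MonoidHom.comp_apply, (hα (f g)).2, (hβ g).2, hxi', sub_self]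
      exact ⟨⟨(hα (f g)).1, (hα (f g⁻¹)).1⟩, ⟨(hβ g).1, (hβ g⁻¹).1⟩, ⟨hd g, hd g⁻¹⟩⟩
    have hSX : SS ρX ρX 1 = ⊤ := by
      rw [eq_top_iff]
      intro g _
      refine ⟨⟨(hα g).1, (hα g⁻¹).1⟩, ⟨(hα g).1, (hα g⁻¹).1⟩, ⟨?_, ?_⟩⟩
      · rw [sub_self]; exact JJ.zero _
      · rw [sub_self]; exact JJ.zero _
    have h1 := (lcs_le_SS ρX ρX hSX (k + 1) hw).1.1
    have h2 := (lcs_le_SS (ρX.comp f) ρB hSS k hwk).2.2.1
    have h3 := h1.eq_zero (le_refl _)
    have h4 := h2.eq_zero (le_refl _)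
    rw [MonoidHom.comp_apply, sub_eq_zero] at h4
    rw [sub_eq_zero] at h3
    have h5 : ((ρB w : (Matrix (Fin (k + 1 + 1)) (Fin (k + 1 + 1)) ℚ)ˣ) :
          Matrix (Fin (k + 1 + 1)) (Fin (k + 1 + 1)) ℚ) = 1 := by rw [← h4, h3]
    have h6 : ρB = repl (fun x i => if L i = x then (1 : ℚ) else 0) := by
      rw [hρB]
      congr 1
      funext x i
      exact hlam i x
    rw [h6, ← cast_rep] at h5
    apply Units.ext
    ext i j
    have h7 := congrFun (congrFun h5 i) j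
    rw [RingHom.mapMatrix_apply, Matrix.map_apply] at h7
    rw [Units.val_one]
    have h8 : ((((rep ℤ L w : (Matrix (Fin (k + 1 + 1)) (Fin (k + 1 + 1)) ℤ)ˣ) :
      Matrix (Fin (k + 1 + 1)) (Fin (k + 1 + 1)) ℤ) i j : ℤ) : ℚ) =
        (((1 : Matrix (Fin (k + 1 + 1)) (Fin (k + 1 + 1)) ℤ) i j : ℤ) : ℚ) := by
      rw [Matrix.one_apply] at h7 ⊢
      split_ifs at h7 ⊢ <;> simpa using h7
    exact_mod_cast h8


end Pool.Agent.H335PN.LE1

namespace Pool.Agent.H335PN

open Pool.Agent.Helper777.Prof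

-- BEGIN TARGET
theorem t_LEM1 (h1 : S_MAG2) : S_LEM1 := LE1.lem1 h1
-- END TARGET

end Pool.Agent.H335PN
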