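import Pool.Agent.H335PN.Stmts

set_option autoImplicit false

/-! LEM2: the case of a subgroup of a free group as the source. -/

namespace Pool.Agent.H335PN

open Pool.Agent.Helper777.Prof

theorem lem2_map_lcs {G H : Type} [Group G] [Group H] (φ : G →* H) (N : Subgroup G) (k : ℕ) :
    (lcs N k).map φ = lcs (N.map φ) k := by
  induction k with
  | zero => rfl
  | succ k ih =>
    change (⁅lcs N k, N⁆).map φ = ⁅lcs (N.map φ) k, N.map φ⁆
    rw [Subgroup.map_commutator, ih]

theorem lem2_map_comm {G : Type} [Group G] (N : Subgroup G) :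
    (commutator N).map N.subtype = ⁅N, N⁆ := by
  rw [commutator_def, Subgroup.map_commutator, ← MonoidHom.range_eq_map, Subgroup.range_subtype]

theorem lem2_map_top {G : Type} [Group G] (N : Subgroup G) (k : ℕ) :
    (lcs (⊤ : Subgroup N) k).map N.subtype = lcs N k := by
  rw [lem2_map_lcs, ← MonoidHom.range_eq_map, Subgroup.range_subtype]

theorem t_LEM2 (h1 : S_LEM1) : S_LEM2 := by
  intro ι X N f hf k w hw
  have e : FreeGroup (IsFreeGroup.Generators N) ≃* N := IsFreeGroup.mulEquiv N
  have key := h1 (IsFreeGroup.Generators N) X (f.comp e.toMonoidHom) (by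
    intro v hv
    have h2 := hf (e v) hv
    rw [← lem2_map_comm N] at h2
    obtain ⟨u, hu, hu'⟩ := h2
    have h3 : u = e v := Subtype.ext hu'
    rw [h3] at hu
    have h4 : (commutator N).map e.symm.toMonoidHom ≤ commutator _ := by
      rw [commutator_def, commutator_def, Subgroup.map_commutator]
      exact Subgroup.commutator_mono le_top le_top
    have h5 := h4 (Subgroup.mem_map_of_mem e.symm.toMonoidHom hu)
    have h6 : e.symm.toMonoidHom (e v) = v := e.symm_apply_apply v
    rwa [h6] at h5) k (e.symm w) (by
    have : (f.comp e.toMonoidHom) (e.symm w) = f w := by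
      change f (e (e.symm w)) = f w
      rw [e.apply_symm_apply]
    rw [this]; exact hw)
  have h7 := Subgroup.mem_map_of_mem e.toMonoidHom key
  rw [lem2_map_lcs, Subgroup.map_top_of_surjective _ e.surjective] at h7
  have h8 : e.toMonoidHom (e.symm w) = w := e.apply_symm_apply w
  rw [h8] at h7
  rw [← lem2_map_top N k]
  exact ⟨w, h7, rfl⟩

end Pool.Agent.H335PN
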