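import Pool.Agent.H335PN.Stmts

set_option autoImplicit false

/-! LIN: a pure subgroup of `ℤ ^ r` with two generators. -/

namespace Pool.Agent.H335PN

open Module

/-- a pure submodule with a basis: the coordinates extend to the whole module -/
theorem lin_ext {r : ℕ} {ι : Type} (v : ι → Fin r → ℤ) (hv : LinearIndependent ℤ v)
    (hp : ∀ (x : Fin r → ℤ) (n : ℤ), n ≠ 0 → n • x ∈ Submodule.span ℤ (Set.range v) →
      x ∈ Submodule.span ℤ (Set.range v)) :
    ∃ ψ : (Fin r → ℤ) →ₗ[ℤ] (ι →₀ ℤ), ∀ i, ψ (v i) = Finsupp.single i 1 := by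
  set P := Submodule.span ℤ (Set.range v) with hP
  have htf : IsTorsionFree ℤ ((Fin r → ℤ) ⧸ P) := by
    rw [isTorsionFree_iff_smul_eq_zero]
    intro n q hq
    obtain ⟨x, rfl⟩ := Submodule.Quotient.mk_surjective P q
    by_cases hn : n = 0
    · exact Or.inl hn
    · right
      rw [← Submodule.Quotient.mk_smul, Submodule.Quotient.mk_eq_zero] at hq
      rw [Submodule.Quotient.mk_eq_zero]
      exact hp x n hn hq
  have hfree : Free ℤ ((Fin r → ℤ) ⧸ P) := free_of_finite_type_torsion_free'
  obtain ⟨s, hs⟩ := projective_lifting_property P.mkQ (LinearMap.id) P.mkQ_surjective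
  let T : (Fin r → ℤ) →ₗ[ℤ] (Fin r → ℤ) := LinearMap.id - s ∘ₗ P.mkQ
  have hT : ∀ x, T x = x - s (P.mkQ x) := fun x => rfl
  have hmem : ∀ x, T x ∈ P := by
    intro x
    rw [← Submodule.Quotient.mk_eq_zero, hT]
    have h1 := LinearMap.congr_fun hs (P.mkQ x)
    simp only [LinearMap.comp_apply, LinearMap.id_apply, Submodule.mkQ_apply] at h1
    simp only [Submodule.mkQ_apply, Submodule.Quotient.mk_sub]
    rw [h1, sub_self]
  refine ⟨hv.repr ∘ₗ (LinearMap.codRestrict P T hmem), fun i => ?_⟩
  rw [LinearMap.comp_apply]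
  apply hv.repr_eq_single
  have h0 : P.mkQ (v i) = 0 := by
    rw [Submodule.mkQ_apply, Submodule.Quotient.mk_eq_zero]
    exact Submodule.subset_span ⟨i, rfl⟩
  rw [LinearMap.codRestrict_apply, hT, h0, map_zero, sub_zero]

theorem lin_mem {r : ℕ} (s : Set (Fin r → ℤ)) (x : Fin r → ℤ) :
    x ∈ AddSubgroup.closure s ↔ x ∈ Submodule.span ℤ s := by
  rw [← Submodule.span_int_eq_addSubgroupClosure, Submodule.mem_toAddSubgroup]

theorem lin_int {r : ℕ} {s : Set (Fin r → ℤ)}
    (h : ∀ v : Fin r → ℤ, ∀ n : ℕ, n ≠ 0 → n • v ∈ AddSubgroup.closure s →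
      v ∈ AddSubgroup.closure s) (x : Fin r → ℤ) (n : ℤ) (hn : n ≠ 0)
    (hx : n • x ∈ Submodule.span ℤ s) : x ∈ Submodule.span ℤ s := by
  rw [← lin_mem]
  apply h x n.natAbs (by omega)
  rw [lin_mem]
  rcases Int.natAbs_eq n with h1 | h1
  · rw [h1, natCast_zsmul] at hx
    exact hx
  · rw [h1, neg_smul, natCast_zsmul] at hx
    exact (Submodule.neg_mem_iff _).1 hx

theorem t_LIN : S_LIN := by
  intro r a b hpure
  by_cases hli : LinearIndependent ℤ ![a, b]
  · left
    have hr : Set.range ![a, b] = {a, b} := by simp [Matrix.range_cons, Set.pair_comm]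
    obtain ⟨ψ, hψ⟩ := lin_ext ![a, b] hli (by
      rw [hr]
      exact lin_int hpure)
    have h0 := hψ 0
    have h1 := hψ 1
    simp only [Matrix.cons_val_zero, Matrix.cons_val_one] at h0 h1
    refine ⟨(LinearMap.prod (Finsupp.lapply 0 ∘ₗ ψ) (Finsupp.lapply 1 ∘ₗ ψ)).toAddMonoidHom,
      ?_, ?_⟩
    · simp [h0]
    · simp [h1]
  · right
    rw [LinearIndependent.pair_iff] at hli
    push Not at hli
    obtain ⟨x, y, hxy, hne⟩ := hli
    have hg : (Int.gcd x y : ℤ) ≠ 0 := by
      intro h
      have h1 : Int.gcd x y = 0 := by exact_mod_cast h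
      rw [Int.gcd_eq_zero_iff] at h1
      exact hne h1.1 h1.2
    obtain ⟨x', hx'⟩ := Int.gcd_dvd_left x y
    obtain ⟨y', hy'⟩ := Int.gcd_dvd_right x y
    have hbez := Int.gcd_eq_gcd_ab x y
    set g : ℤ := (Int.gcd x y : ℤ) with hgdef
    set u := Int.gcdA x y
    set w := Int.gcdB x y
    have hone : x' * u + y' * w = 1 := by
      have h1 : g * (x' * u + y' * w) = g * 1 := by
        rw [mul_one, mul_add, ← mul_assoc, ← mul_assoc, ← hx', ← hy']
        exact hbez.symm
      exact mul_left_cancel₀ hg h1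
    have hrel : x' • a + y' • b = 0 := by
      have h1 : g • (x' • a + y' • b) = 0 := by
        rw [smul_add, smul_smul, smul_smul, ← hx', ← hy', hxy]
      exact (smul_eq_zero.1 h1).resolve_left hg
    set d : Fin r → ℤ := w • a - u • b with hd
    have hy'b : y' • b = -(x' • a) := by
      rw [eq_neg_iff_add_eq_zero, add_comm]
      exact hrel
    have ha : a = y' • d := by
      rw [hd, smul_sub, smul_smul, smul_comm y' u b, hy'b, smul_neg, sub_neg_eq_add, smul_smul,
        ← add_smul]
      conv_lhs => rw [← one_smul ℤ a, ← hone]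
      congr 1
      ring
    have hx'a : x' • a = -(y' • b) := by rw [hy'b, neg_neg]
    have hb : b = (-x') • d := by
      rw [hd, smul_sub, neg_smul, neg_smul, smul_comm x' w a, hx'a, smul_neg, neg_neg, smul_smul,
        smul_smul, sub_neg_eq_add, ← add_smul]
      conv_lhs => rw [← one_smul ℤ b, ← hone]
      congr 1
      ring
    have hspan : Submodule.span ℤ {a, b} = Submodule.span ℤ {d} := by
      apply le_antisymm
      · rw [Submodule.span_le]
        rintro z (rfl | hz)
        · rw [ha]
          exact Submodule.smul_mem _ _ (Submodule.mem_span_singleton_self d)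
        · rw [Set.mem_singleton_iff] at hz
          rw [hz, hb]
          exact Submodule.smul_mem _ _ (Submodule.mem_span_singleton_self d)
      · rw [Submodule.span_le, Set.singleton_subset_iff]
        exact Submodule.sub_mem _
          (Submodule.smul_mem _ _ (Submodule.subset_span (Set.mem_insert _ _)))
          (Submodule.smul_mem _ _ (Submodule.subset_span (Set.mem_insert_of_mem _ rfl)))
    refine ⟨d, ?_, ?_⟩
    · rw [← Submodule.span_int_eq_addSubgroupClosure, ← Submodule.span_int_eq_addSubgroupClosure,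
        hspan]
    · by_cases hd0 : d = 0
      · exact Or.inl hd0
      · right
        have hli1 : LinearIndependent ℤ (fun _ : Unit => d) := by
          rw [linearIndependent_unique_iff]
          exact hd0
        obtain ⟨ψ, hψ⟩ := lin_ext (fun _ : Unit => d) hli1 (by
          rw [Set.range_const, ← hspan]
          exact lin_int hpure)
        refine ⟨(Finsupp.lapply () ∘ₗ ψ).toAddMonoidHom, ?_⟩
        have h0 : ψ d = Finsupp.single () 1 := hψ ()
        show (ψ d) () = 1
        rw [h0, Finsupp.single_eq_same]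

end Pool.Agent.H335PN
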