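import Pool.Agent.H335PN.Stmts

set_option autoImplicit false

namespace Pool.Agent.H335PN

open Pool.Agent.Helper777.Prof

namespace LMDaux

/-- two indices with the same partner -/
theorem pigeon {Γ : Type} [Group Γ] (T E : Finset Γ) (τ z g e : Γ) (m₀ : ℕ)
    (h : ∀ j < T.card * E.card + 1, ∃ τ' ∈ T, ∃ e' ∈ E, ∃ n : ℤ, (τ', e') ≠ (τ, e) ∧
      g ^ n * τ * z ^ (m₀ + j) * e = τ' * z ^ (m₀ + j) * e') :
    ∃ τ' ∈ T, ∃ e' ∈ E, ∃ (n n' : ℤ) (a b : ℕ), a < b ∧ (τ', e') ≠ (τ, e) ∧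
      g ^ n * τ * z ^ a * e = τ' * z ^ a * e' ∧ g ^ n' * τ * z ^ b * e = τ' * z ^ b * e' := by
  classical
  choose! t ht e' he' n hn heq using h
  have hcard : (T ×ˢ E).card < (Finset.range (T.card * E.card + 1)).card := by
    rw [Finset.card_product, Finset.card_range]; omega
  obtain ⟨i, hi, j, hj, hij, hf⟩ := Finset.exists_ne_map_eq_of_card_lt_of_maps_to hcard
    (f := fun j => (t j, e' j)) (by
      intro j hj
      have hj' : j < T.card * E.card + 1 := Finset.mem_range.1 hj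
      exact Finset.mem_product.2 ⟨ht j hj', he' j hj'⟩)
  have hi' : i < T.card * E.card + 1 := Finset.mem_range.1 hi
  have hj' : j < T.card * E.card + 1 := Finset.mem_range.1 hj
  have h1 : t i = t j := congrArg Prod.fst hf
  have h2 : e' i = e' j := congrArg Prod.snd hf
  rcases lt_or_gt_of_ne hij with hlt | hlt
  · refine ⟨t i, ht i hi', e' i, he' i hi', n i, n j, m₀ + i, m₀ + j, by omega, hn i hi',
      heq i hi', ?_⟩
    rw [h1, h2]; exact heq j hj'
  · refine ⟨t i, ht i hi', e' i, he' i hi', n j, n i, m₀ + j, m₀ + i, by omega, hn i hi',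
      ?_, heq i hi'⟩
    rw [h1, h2]; exact heq j hj'

/-- equal exponents force commutation -/
theorem comm_of_eq {Γ : Type} [Group Γ] (τ τ' z x e e' : Γ) (a b : ℕ) (hab : a < b)
    (h1 : x * τ * z ^ a * e = τ' * z ^ a * e') (h2 : x * τ * z ^ b * e = τ' * z ^ b * e') :
    Commute (z ^ (((b - a : ℕ) : ℤ))) (e' * e⁻¹) := by
  obtain ⟨d, rfl⟩ : ∃ d, b = a + d := ⟨b - a, by omega⟩
  rw [Nat.add_sub_cancel_left, zpow_natCast]
  have k1 : τ'⁻¹ * x * τ = z ^ a * (e' * e⁻¹) * (z ^ a)⁻¹ := by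
    have : x = τ' * z ^ a * e' * e⁻¹ * (z ^ a)⁻¹ * τ⁻¹ := by
      rw [← h1]; group
    rw [this]; group
  have k2 : τ'⁻¹ * x * τ = z ^ (a + d) * (e' * e⁻¹) * (z ^ (a + d))⁻¹ := by
    have : x = τ' * z ^ (a + d) * e' * e⁻¹ * (z ^ (a + d))⁻¹ * τ⁻¹ := by
      rw [← h2]; group
    rw [this]; group
  have k3 := k1.symm.trans k2
  rw [pow_add, mul_inv_rev] at k3
  have k4 : (e' * e⁻¹) = z ^ d * (e' * e⁻¹) * (z ^ d)⁻¹ := by
    have := congrArg (fun y => (z ^ a)⁻¹ * y * z ^ a) k3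
    simp only [mul_assoc, inv_mul_cancel_left, inv_mul_cancel, mul_one] at this
    simpa only [mul_assoc] using this
  have k5 : (e' * e⁻¹) * z ^ d = z ^ d * (e' * e⁻¹) := by
    calc (e' * e⁻¹) * z ^ d = (z ^ d * (e' * e⁻¹) * (z ^ d)⁻¹) * z ^ d := by rw [← k4]
      _ = z ^ d * (e' * e⁻¹) := by group
  exact k5.symm

theorem deg_eq {Γ : Type} [Group Γ] (A : Γ →* Multiplicative (ℤ × ℤ)) (g τ τ' z e e' : Γ) (n : ℤ)
    (a : ℕ) (h : g ^ n * τ * z ^ a * e = τ' * z ^ a * e') :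
    n • (A g).toAdd = (A τ').toAdd + (A e').toAdd - (A τ).toAdd - (A e).toAdd := by
  have := congrArg (fun y => (A y).toAdd) h
  simp only [map_mul, map_zpow, map_pow, toAdd_mul, toAdd_zpow, toAdd_pow] at this
  rw [eq_sub_iff_add_eq, eq_sub_iff_add_eq]
  have h2 := congrArg (fun y => y - a • (A z).toAdd) this
  calc n • (A g).toAdd + (A e).toAdd + (A τ).toAdd
      = n • (A g).toAdd + (A τ).toAdd + a • (A z).toAdd + (A e).toAdd - a • (A z).toAdd := by abel
    _ = (A τ').toAdd + a • (A z).toAdd + (A e').toAdd - a • (A z).toAdd := h2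
    _ = (A τ').toAdd + (A e').toAdd := by abel

end LMDaux

open LMDaux in
-- BEGIN TARGET
theorem t_LMD  : S_LMD := by
  intro Γ _ A T E τ₀ z g m₀ cp hτ₀ hmin hE hz hg H τ hτ
  classical
  -- the abelian image of g is nonzero
  have hA : (A g).toAdd ≠ 0 := by
    intro hA0
    obtain ⟨e, he, hemin⟩ := Finset.exists_min_image E
      (fun x => (A x).toAdd.1 + (A x).toAdd.2) hE
    obtain ⟨τ', hτ', e', he', n, n', a, b, hab, hne, h1, h2⟩ :=
      pigeon T E τ₀ z g e m₀ (fun j hj => H j hj τ₀ hτ₀ e he)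
    have hd := deg_eq A g τ₀ τ' z e e' n a h1
    rw [hA0, smul_zero] at hd
    have hd1 := congrArg Prod.fst hd
    have hd2 := congrArg Prod.snd hd
    simp only [Prod.fst_zero, Prod.snd_zero, Prod.fst_sub, Prod.snd_sub, Prod.fst_add,
      Prod.snd_add] at hd1 hd2
    have hτe : τ' = τ₀ := by
      by_contra hcon
      have c1 := hmin τ' hτ' hcon
      have c2 := hemin e' he'
      omega
    subst hτe
    have hee : e' ≠ e := fun hcon => hne (by rw [hcon])
    have hn : n = n' := by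
      have hn0 : n ≠ 0 := by
        rintro rfl
        apply hee
        rw [zpow_zero, one_mul] at h1
        exact (mul_left_cancel h1).symm
      refine cp (τ' * z ^ (b - a) * τ'⁻¹) g n n' hg hn0 ?_
      obtain ⟨d, rfl⟩ : ∃ d, b = a + d := ⟨b - a, by omega⟩
      rw [Nat.add_sub_cancel_left]
      have k1 : g ^ n = τ' * z ^ a * (e' * e⁻¹) * (z ^ a)⁻¹ * τ'⁻¹ := by
        have : g ^ n = (τ' * z ^ a * e') * e⁻¹ * (z ^ a)⁻¹ * τ'⁻¹ := by
          rw [← h1]; group
        rw [this]; group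
      have k2 : g ^ n' = τ' * z ^ (a + d) * (e' * e⁻¹) * (z ^ (a + d))⁻¹ * τ'⁻¹ := by
        have : g ^ n' = (τ' * z ^ (a + d) * e') * e⁻¹ * (z ^ (a + d))⁻¹ * τ'⁻¹ := by
          rw [← h2]; group
        rw [this]; group
      rw [k1, k2, add_comm a d, pow_add]
      group
    subst hn
    have hc := comm_of_eq τ' τ' z (g ^ n) e e' a b hab h1 h2
    exact hz e he e' he' hee _ (by omega) hc
  obtain ⟨e, he⟩ := hE
  obtain ⟨τ', hτ', e', he', n, n', a, b, hab, hne, h1, h2⟩ :=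
    pigeon T E τ z g e m₀ (fun j hj => H j hj τ hτ e he)
  have hn : n = n' := by
    have hd := (deg_eq A g τ τ' z e e' n a h1).trans (deg_eq A g τ τ' z e e' n' b h2).symm
    by_contra hcon
    apply hA
    have h3 : (n - n') • (A g).toAdd = 0 := by rw [sub_smul, hd, sub_self]
    rcases smul_eq_zero.1 h3 with h4 | h4
    · omega
    · exact h4
  subst hn
  have hc := comm_of_eq τ τ' z (g ^ n) e e' a b hab h1 h2
  have hee : e' = e := by
    by_contra hcon
    exact hz e he e' he' hcon _ (by omega) hc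
  subst hee
  have hgt : g ^ n * τ = τ' := by
    have := mul_right_cancel h1
    exact mul_right_cancel this
  refine ⟨n, ?_, by rw [hgt]; exact hτ'⟩
  rintro rfl
  apply hne
  rw [zpow_zero, one_mul] at hgt
  rw [hgt]
-- END TARGET

end Pool.Agent.H335PN
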