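import Pool.Agent.H335PN.Stmts
import Pool.Agent.H32CE.All

set_option autoImplicit false

/-! PN job MAG1 (helper809): the `(1 + X)`-version of the Magnus theorem from the `exp`-version. -/

namespace Pool.Agent.H335PN.MAG1Aux

open Pool.Agent.H32CE Pool.Agent.H32CE.TBAS
open PowerSeries (coeff)

variable {r : ℕ}

/-- linear Magnus homomorphism -/
noncomputable def lin (r : ℕ) : FreeGroup (Fin r) →* (PS (T (Fin r)))ˣ :=
  FreeGroup.lift fun i => liU 1 le_rfl (X i)

theorem lin_of (i : Fin r) : ((lin r (FreeGroup.of i) : (PS (T (Fin r)))ˣ) : PS (T (Fin r))) =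
    li 1 (X i) := by
  simp [lin, liU]

theorem lin_of_inv (i : Fin r) :
    ((lin r (FreeGroup.of i)⁻¹ : (PS (T (Fin r)))ˣ) : PS (T (Fin r))) = lii 1 (X i) := by
  rw [map_inv, lin, FreeGroup.lift_apply_of]
  rfl

theorem hom_lin (w : FreeGroup (Fin r)) :
    Hom ((lin r w : (PS (T (Fin r)))ˣ) : PS (T (Fin r))) := by
  induction w using FreeGroup.induction_on with
  | C1 => rw [map_one]; exact Hom_one
  | of i =>
    rw [lin_of]
    intro n
    unfold li
    rw [PowerSeries.coeff_mk]
    split_ifs with h0 h1
    · subst h0; exact IsH_one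
    · subst h1; exact IsH_X i
    · exact IsH_zero n
  | inv_of i _ =>
    rw [lin_of_inv]
    intro n
    unfold lii
    rw [PowerSeries.coeff_mk, if_pos (one_dvd n), Nat.div_one]
    have h1 := IsH_smul (-1) (IsH_X i)
    have h2 := IsH_pow h1 n
    rw [mul_one, neg_one_smul] at h2
    exact h2
  | mul x y hx hy =>
    rw [map_mul, Units.val_mul]
    exact Hom_mul hx hy

theorem c0_lin (w : FreeGroup (Fin r)) :
    coeff 0 ((lin r w : (PS (T (Fin r)))ˣ) : PS (T (Fin r))) = 1 := by
  induction w using FreeGroup.induction_on with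
  | C1 => rw [map_one]; simp
  | of i => rw [lin_of]; simp [li]
  | inv_of i _ => rw [lin_of_inv]; simp [lii]
  | mul x y hx hy =>
    rw [map_mul, Units.val_mul, c0_mul, hx, hy, one_mul]

section gen

variable {R : Type} [Ring R] [Algebra ℝ R]

/-- the truncated substitution -/
noncomputable def F (e : Fin r → R) (c : ℕ) (f : PS (T (Fin r))) : R :=
  ∑ k ∈ Finset.range (c + 1), sub e (coeff k f)

theorem sub_single (e : Fin r → R) (m : FreeMonoid (Fin r)) (a : ℝ) :
    sub e (MonoidAlgebra.single m a) = a • sub e (MonoidAlgebra.single m 1) := by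
  have : (MonoidAlgebra.single m a : T (Fin r)) = a • MonoidAlgebra.single m 1 := by simp
  rw [this, map_smul]

theorem sub_X (e : Fin r → R) (i : Fin r) : sub e (X i) = e i := by
  simp [sub, X]

/-- linear combinations of words satisfying a condition -/
theorem sub_mem (I : AddSubgroup R) (hl : ∀ a b, b ∈ I → a * b ∈ I) (e : Fin r → R)
    (P : FreeMonoid (Fin r) → Prop) (hP : ∀ m, P m → sub e (MonoidAlgebra.single m 1) ∈ I)
    (h : T (Fin r)) (hh : ∀ m, h.coeff m ≠ 0 → P m) : sub e h ∈ I := by
  classical
  have h1 : h = ∑ m ∈ h.coeff.support, MonoidAlgebra.single m (h.coeff m) := by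
    apply MonoidAlgebra.coeff_inj.1
    conv_lhs => rw [← Finsupp.sum_single h.coeff]
    rw [Finsupp.sum]
    simp
  rw [h1, map_sum]
  apply AddSubgroup.sum_mem
  intro m hm
  rw [sub_single, Algebra.smul_def]
  exact hl _ _ (hP m (hh m (Finsupp.mem_support_iff.1 hm)))

theorem sub_hom (I : AddSubgroup R) (hl : ∀ a b, b ∈ I → a * b ∈ I) (e : Fin r → R) (c : ℕ)
    (hnil : ∀ m : FreeMonoid (Fin r), c < (FreeMonoid.toList m).length →
      sub e (MonoidAlgebra.single m 1) ∈ I)
    (d : ℕ) (hd : c < d) (h : T (Fin r)) (hh : IsH (fun _ => 1) d h) : sub e h ∈ I := by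
  refine sub_mem I hl e (fun m => c < (FreeMonoid.toList m).length) hnil h fun m hm => ?_
  have := hh m hm
  unfold wd at this
  simp at this
  omega

theorem F_mul (I : AddSubgroup R) (hl : ∀ a b, b ∈ I → a * b ∈ I) (e : Fin r → R) (c : ℕ)
    (hnil : ∀ m : FreeMonoid (Fin r), c < (FreeMonoid.toList m).length →
      sub e (MonoidAlgebra.single m 1) ∈ I)
    (f g : PS (T (Fin r))) (hf : Hom f) (hg : Hom g) :
    F e c f * F e c g - F e c (f * g) ∈ I := by
  classical
  set φ : ℕ × ℕ → R := fun p => sub e (coeff p.1 f * coeff p.2 g) with hφ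
  have h1 : F e c f * F e c g =
      ∑ p ∈ Finset.range (c + 1) ×ˢ Finset.range (c + 1), φ p := by
    unfold F
    rw [Finset.sum_mul_sum, Finset.sum_product]
    simp only [hφ, map_mul]
  have h2 : F e c (f * g) =
      ∑ p ∈ (Finset.range (c + 1) ×ˢ Finset.range (c + 1)).filter (fun p => p.1 + p.2 < c + 1),
        φ p := by
    have hm : ∀ p ∈ (Finset.range (c + 1) ×ˢ Finset.range (c + 1)).filter
        (fun p => p.1 + p.2 < c + 1), p.1 + p.2 ∈ Finset.range (c + 1) := by
      intro p hp
      exact Finset.mem_range.2 (Finset.mem_filter.1 hp).2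
    rw [← Finset.sum_fiberwise_of_maps_to hm]
    unfold F
    apply Finset.sum_congr rfl
    intro k hk
    rw [PowerSeries.coeff_mul, map_sum]
    apply Finset.sum_congr ?_ (fun _ _ => rfl)
    ext p
    simp only [Finset.HasAntidiagonal.mem_antidiagonal, Finset.mem_filter, Finset.mem_product,
      Finset.mem_range] at hk ⊢
    omega
  rw [h1, h2, ← Finset.sum_filter_add_sum_filter_not _ (fun p : ℕ × ℕ => p.1 + p.2 < c + 1) φ,
    add_sub_cancel_left]
  apply AddSubgroup.sum_mem
  intro p hp
  have hp2 := (Finset.mem_filter.1 hp).2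
  exact sub_hom I hl e c hnil (p.1 + p.2) (by omega) _ (IsH_mul (hf p.1) (hg p.2))

theorem F_one (e : Fin r → R) (c : ℕ) : F e c 1 = 1 := by
  unfold F
  rw [Finset.sum_range_succ', PowerSeries.coeff_one, if_pos rfl, map_one]
  rw [Finset.sum_eq_zero, zero_add]
  intro k _
  rw [PowerSeries.coeff_one, if_neg (by omega), map_zero]

theorem F_of (I : AddSubgroup R) (e : Fin r → R) (c : ℕ)
    (hnil : ∀ m : FreeMonoid (Fin r), c < (FreeMonoid.toList m).length →
      sub e (MonoidAlgebra.single m 1) ∈ I) (i : Fin r) :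
    (1 + e i) - F e c (li 1 (X i)) ∈ I := by
  rcases Nat.eq_zero_or_pos c with h0 | h0
  · subst h0
    have h1 : F e 0 (li 1 (X i)) = 1 := by
      unfold F
      simp [li]
    rw [h1, add_sub_cancel_left]
    have := hnil (FreeMonoid.of i) (by simp)
    have h2 : sub e (MonoidAlgebra.single (FreeMonoid.of i) 1) = e i := sub_X e i
    rwa [h2] at this
  · have h1 : F e c (li 1 (X i)) = 1 + e i := by
      unfold F
      obtain ⟨c', rfl⟩ : ∃ c', c = c' + 1 := ⟨c - 1, by omega⟩
      rw [Finset.sum_range_succ', Finset.sum_range_succ', Finset.sum_eq_zero]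
      · simp [li, sub_X, add_comm]
      · intro k _
        simp [li]
    rw [h1, sub_self]
    exact I.zero_mem

theorem gen (I : AddSubgroup R) (hl : ∀ a b, b ∈ I → a * b ∈ I) (hr : ∀ a b, a ∈ I → a * b ∈ I)
    (e : Fin r → R) (c : ℕ)
    (hnil : ∀ m : FreeMonoid (Fin r), c < (FreeMonoid.toList m).length →
      sub e (MonoidAlgebra.single m 1) ∈ I)
    (u : FreeGroup (Fin r) →* Rˣ) (hu : ∀ i, (u (FreeGroup.of i) : R) = 1 + e i)
    (w : FreeGroup (Fin r)) :
    (u w : R) - F e c ((lin r w : (PS (T (Fin r)))ˣ) : PS (T (Fin r))) ∈ I := by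
  induction w using FreeGroup.induction_on with
  | C1 =>
    rw [map_one, map_one, Units.val_one, Units.val_one, F_one, sub_self]
    exact I.zero_mem
  | of i =>
    rw [lin_of, hu]
    exact F_of I e c hnil i
  | inv_of i ih =>
    set A : R := (u (FreeGroup.of i) : R) with hA
    set B : R := (u (FreeGroup.of i)⁻¹ : R) with hB
    set P := ((lin r (FreeGroup.of i) : (PS (T (Fin r)))ˣ) : PS (T (Fin r))) with hP
    set Q := ((lin r (FreeGroup.of i)⁻¹ : (PS (T (Fin r)))ˣ) : PS (T (Fin r))) with hQ
    have hBA : B * A = 1 := by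
      rw [hA, hB, ← Units.val_mul, ← map_mul, inv_mul_cancel, map_one, Units.val_one]
    have hPQ : P * Q = 1 := by
      rw [hP, hQ, ← Units.val_mul, ← map_mul, mul_inv_cancel, map_one, Units.val_one]
    have h1 := F_mul I hl e c hnil P Q (hom_lin _) (hom_lin _)
    rw [hPQ, F_one] at h1
    have h2 : B * (F e c P * F e c Q - 1) ∈ I := hl _ _ h1
    have h3 : B * ((A - F e c P) * F e c Q) ∈ I := hl _ _ (hr _ _ ih)
    have h4 : B - F e c Q = -(B * ((A - F e c P) * F e c Q)) - B * (F e c P * F e c Q - 1) := by
      have : B * (A * F e c Q) = F e c Q := by rw [← mul_assoc, hBA, one_mul]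
      rw [sub_mul, mul_sub, this]
      noncomm_ring
    rw [h4]
    exact I.sub_mem (I.neg_mem h3) h2
  | mul x y hx hy =>
    rw [map_mul, map_mul, Units.val_mul, Units.val_mul]
    have h1 := F_mul I hl e c hnil _ _ (hom_lin x) (hom_lin y)
    have h2 := hr _ (u y : R) hx
    have h3 := hl (F e c ((lin r x : (PS (T (Fin r)))ˣ) : PS (T (Fin r)))) _ hy
    have := I.add_mem (I.add_mem h2 h3) h1
    refine (congrArg (· ∈ I) ?_).mp this
    noncomm_ring

end gen

theorem word_cons {R : Type} [Ring R] [Algebra ℝ R] (e : Fin r → R) (i : Fin r)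
    (m : FreeMonoid (Fin r)) :
    sub e (MonoidAlgebra.single (FreeMonoid.of i * m) 1) =
      e i * sub e (MonoidAlgebra.single m 1) := by
  have h : (MonoidAlgebra.single (FreeMonoid.of i * m) 1 : T (Fin r)) =
      X i * MonoidAlgebra.single m 1 := by
    rw [X, MonoidAlgebra.single_mul_single, one_mul]
  rw [h, map_mul, sub_X]

theorem word_one {R : Type} [Ring R] [Algebra ℝ R] (e : Fin r → R) :
    sub e (MonoidAlgebra.single 1 1) = 1 := by
  rw [← MonoidAlgebra.one_def, map_one]

/-! ### from the linear to the exponential expansion -/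

theorem ord_word (m : FreeMonoid (Fin r)) :
    ordge (FreeMonoid.toList m).length
      (sub (fun i => ex 1 (X i) - 1 : Fin r → PS (T (Fin r))) (MonoidAlgebra.single m 1)) := by
  induction m using FreeMonoid.recOn with
  | one => exact og_zero _
  | of_mul i m ih =>
    rw [word_cons, FreeMonoid.toList_mul, List.length_append, FreeMonoid.toList_of]
    refine og_mul ?_ ih
    intro k hk
    have : k = 0 := by simpa using hk
    subst this
    rw [map_sub, ex0]
    simp

/-- the ideal of the power series of order `> c` -/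
def II (r c : ℕ) : AddSubgroup (PS (T (Fin r))) where
  carrier := {f | ordge (c + 1) f}
  add_mem' := og_add
  zero_mem' := fun i _ => by simp
  neg_mem' := og_neg

theorem D_of_lin (c : ℕ) (w : FreeGroup (Fin r))
    (h : ∀ k, 1 ≤ k → k ≤ c → coeff k ((lin r w : (PS (T (Fin r)))ˣ) : PS (T (Fin r))) = 0) :
    D (c + 1) w := by
  rw [D_iff]
  have h1 := gen (II r c) (fun a b hb => og_mul_left a hb) (fun a b ha => og_mul_right b ha)
    (fun i => ex 1 (X i) - 1) c (fun m hm => og_mono (by omega) (ord_word m)) (magU (Fin r))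
    (fun i => by
      have := mag_of i
      rw [mag] at this
      rw [this]
      abel) w
  have h2 : F (fun i => ex 1 (X i) - 1 : Fin r → PS (T (Fin r))) c
      ((lin r w : (PS (T (Fin r)))ˣ) : PS (T (Fin r))) = 1 := by
    unfold F
    rw [Finset.sum_range_succ', c0_lin, map_one, Finset.sum_eq_zero, zero_add]
    intro k hk
    rw [h (k + 1) (by omega) (by have := Finset.mem_range.1 hk; omega), map_zero]
  rw [h2] at h1
  exact h1

/-! ### from the matrices to the linear expansion -/

theorem word_em {c : ℕ} (L : Fin c → Fin r) (m : FreeMonoid (Fin r)) (i j : Fin (c + 1)) :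
    sub (em ℝ L) (MonoidAlgebra.single m 1) i j =
      if (i : ℕ) + (FreeMonoid.toList m).length = j ∧
        FreeMonoid.toList m <+: (List.ofFn L).drop i then 1 else 0 := by
  induction m using FreeMonoid.recOn generalizing i with
  | one =>
    rw [word_one, Matrix.one_apply]
    simp only [FreeMonoid.toList_one, List.length_nil, add_zero, List.nil_prefix, and_true]
    apply if_congr _ rfl rfl
    exact Fin.ext_iff
  | of_mul x m ih =>
    rw [word_cons, Matrix.mul_apply]
    by_cases hi : (i : ℕ) < c
    · rw [Finset.sum_eq_single (⟨(i : ℕ) + 1, by omega⟩ : Fin (c + 1))]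
      · rw [ih]
        have hem : em ℝ L x i ⟨(i : ℕ) + 1, by omega⟩ = if L ⟨i, hi⟩ = x then 1 else 0 := by
          unfold em
          rw [dif_pos rfl]
        rw [hem]
        have hdrop : (List.ofFn L).drop i = L ⟨i, hi⟩ :: (List.ofFn L).drop ((i : ℕ) + 1) := by
          rw [List.drop_eq_getElem_cons (by simpa using hi)]
          simp
        have hiff : (x :: FreeMonoid.toList m <+:
            L ⟨i, hi⟩ :: (List.ofFn L).drop ((i : ℕ) + 1)) ↔
            (x = L ⟨i, hi⟩ ∧ FreeMonoid.toList m <+: (List.ofFn L).drop ((i : ℕ) + 1)) :=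
          List.cons_prefix_cons
        rw [hdrop, FreeMonoid.toList_mul, FreeMonoid.toList_of, List.singleton_append,
          List.length_cons]
        by_cases h1 : L ⟨i, hi⟩ = x
        · rw [if_pos h1, one_mul]
          apply if_congr _ rfl rfl
          constructor
          · rintro ⟨a, b⟩
            simp only at a b
            exact ⟨by omega, hiff.2 ⟨h1.symm, b⟩⟩
          · rintro ⟨a, b⟩
            refine ⟨?_, (hiff.1 b).2⟩
            simp only
            omega
        · rw [if_neg h1, zero_mul, if_neg]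
          rintro ⟨-, h2⟩
          exact h1 (hiff.1 h2).1.symm
      · intro k _ hk
        have : em ℝ L x i k = 0 := by
          unfold em
          rw [dif_neg]
          intro h
          apply hk
          apply Fin.ext
          exact h.symm
        rw [this, zero_mul]
      · intro h
        exact absurd (Finset.mem_univ _) h
    · rw [Finset.sum_eq_zero, if_neg]
      · rintro ⟨h1, -⟩
        rw [FreeMonoid.toList_mul, FreeMonoid.toList_of, List.length_append] at h1
        have := j.isLt
        simp at h1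
        omega
      · intro k _
        have : em ℝ L x i k = 0 := by
          unfold em
          rw [dif_neg]
          intro h
          have := k.isLt
          omega
        rw [this, zero_mul]

theorem rep_real {c : ℕ} (L : Fin c → Fin r) (w : FreeGroup (Fin r)) (h : rep ℤ L w = 1) :
    rep ℝ L w = 1 := by
  have h1 : (Units.map (RingHom.mapMatrix (Int.castRingHom ℝ) :
      Matrix (Fin (c + 1)) (Fin (c + 1)) ℤ →+* Matrix (Fin (c + 1)) (Fin (c + 1)) ℝ).toMonoidHom).comp
      (rep ℤ L) = rep ℝ L := by
    apply FreeGroup.ext_hom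
    intro x
    apply Units.ext
    rw [MonoidHom.comp_apply, rep, rep, FreeGroup.lift_apply_of, FreeGroup.lift_apply_of]
    ext i j
    simp only [Units.coe_map, IsUnit.unit_spec, RingHom.toMonoidHom_eq_coe, MonoidHom.coe_coe,
      RingHom.mapMatrix_apply, Matrix.map_apply, Matrix.add_apply, em, Matrix.one_apply]
    split_ifs <;> norm_num
  rw [← h1, MonoidHom.comp_apply, h, map_one]

theorem lin_of_rep (c : ℕ) (w : FreeGroup (Fin r)) (h : ∀ L : Fin c → Fin r, rep ℤ L w = 1) :
    ∀ k, 1 ≤ k → k ≤ c → coeff k ((lin r w : (PS (T (Fin r)))ˣ) : PS (T (Fin r))) = 0 := by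
  classical
  intro k hk1 hkc
  apply MonoidAlgebra.coeff_inj.1
  apply Finsupp.ext
  intro m
  by_contra hne
  have hne' : (coeff k ((lin r w : (PS (T (Fin r)))ˣ) : PS (T (Fin r)))).coeff m ≠ 0 := by
    intro h0
    apply hne
    rw [h0]
    rfl
  have hlen : (FreeMonoid.toList m).length = k := by
    have := hom_lin w k m hne'
    unfold wd at this
    simpa using this
  set l := FreeMonoid.toList m with hl
  let L : Fin c → Fin r := fun t => if ht : (t : ℕ) < l.length then l[(t : ℕ)] else l[0]
  have hpre : ∀ m' : FreeMonoid (Fin r), (FreeMonoid.toList m').length = k →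
      (FreeMonoid.toList m' <+: (List.ofFn L).drop 0 ↔ m' = m) := by
    intro m' hm'
    have htake : (List.ofFn L).take k = l := by
      apply List.ext_getElem
      · simp only [List.length_take, List.length_ofFn]; omega
      · intro t h1 h2
        rw [List.getElem_take, List.getElem_ofFn]
        simp only [L]
        rw [dif_pos h2]
    rw [List.drop_zero, List.prefix_iff_eq_take, hm', htake]
    exact FreeMonoid.toList.injective.eq_iff
  have h1 := gen (⊥ : AddSubgroup (Matrix (Fin (c + 1)) (Fin (c + 1)) ℝ))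
    (fun a b hb => by rw [AddSubgroup.mem_bot] at hb ⊢; rw [hb, mul_zero])
    (fun a b ha => by rw [AddSubgroup.mem_bot] at ha ⊢; rw [ha, zero_mul])
    (em ℝ L) c (fun m' hm' => by
      rw [AddSubgroup.mem_bot]
      ext i j
      rw [word_em, if_neg]
      · rfl
      · rintro ⟨h1, -⟩
        have := j.isLt
        omega) (rep ℝ L) (fun i => by
      rw [rep, FreeGroup.lift_apply_of, IsUnit.unit_spec]) w
  rw [AddSubgroup.mem_bot, rep_real L w (h L), Units.val_one, sub_eq_zero] at h1
  have h2 := congrFun (congrFun h1 0) (⟨k, by omega⟩ : Fin (c + 1))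
  rw [Matrix.one_apply, if_neg (by
    intro h0
    have := congrArg Fin.val h0
    simp at this
    omega)] at h2
  unfold F at h2
  rw [Matrix.sum_apply] at h2
  have hentry : ∀ d (f : T (Fin r)), IsH (fun _ => 1) d f →
      sub (em ℝ L) f 0 (⟨k, by omega⟩ : Fin (c + 1)) = if d = k then f.coeff m else 0 := by
    intro d f hf
    have hf1 : f = ∑ m' ∈ f.coeff.support, MonoidAlgebra.single m' (f.coeff m') := by
      apply MonoidAlgebra.coeff_inj.1
      conv_lhs => rw [← Finsupp.sum_single f.coeff]
      rw [Finsupp.sum]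
      simp
    conv_lhs => rw [hf1]
    rw [map_sum, Matrix.sum_apply]
    have hd : ∀ m' ∈ f.coeff.support, (FreeMonoid.toList m').length = d := by
      intro m' hm'
      have := hf m' (Finsupp.mem_support_iff.1 hm')
      unfold wd at this
      simpa using this
    have hterm : ∀ m' ∈ f.coeff.support,
        sub (em ℝ L) (MonoidAlgebra.single m' (f.coeff m')) 0 (⟨k, by omega⟩ : Fin (c + 1)) =
        if d = k ∧ m' = m then f.coeff m' else 0 := by
      intro m' hm'
      rw [sub_single, Matrix.smul_apply, word_em, hd m' hm']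
      by_cases hdk : d = k
      · subst hdk
        have := hpre m' (hd m' hm')
        simp only [Fin.val_zero, zero_add, true_and, smul_eq_mul]
        by_cases hmm : m' = m
        · rw [if_pos (this.2 hmm), if_pos hmm, mul_one]
        · rw [if_neg (fun h => hmm (this.1 h)), if_neg hmm, mul_zero]
      · rw [if_neg, if_neg (fun h => hdk h.1), smul_zero]
        rintro ⟨h1, -⟩
        apply hdk
        simpa using h1
    rw [Finset.sum_congr rfl hterm]
    by_cases hdk : d = k
    · simp only [hdk, true_and, if_true]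
      rw [Finset.sum_ite_eq' f.coeff.support m (fun m' => f.coeff m')]
      split_ifs with h3
      · rfl
      · rw [Finsupp.notMem_support_iff] at h3
        exact h3.symm
    · simp [hdk]
  rw [Finset.sum_congr rfl (fun d _ => hentry d _ (hom_lin w d)), Finset.sum_ite_eq',
    if_pos (Finset.mem_range.2 (by omega))] at h2
  exact hne' h2.symm

theorem gam_le_lcs {G : Type} [Group G] (n : ℕ) : gam G n = lcs (⊤ : Subgroup G) n := by
  induction n with
  | zero => rfl
  | succ n ih =>
    show ⁅gam G n, (⊤ : Subgroup G)⁆ = ⁅lcs (⊤ : Subgroup G) n, (⊤ : Subgroup G)⁆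
    rw [ih]

end Pool.Agent.H335PN.MAG1Aux

namespace Pool.Agent.H335PN

open Pool.Agent.Helper777.Prof

-- BEGIN TARGET
theorem t_MAG1  : S_MAG1 := by
  intro r c w h
  rw [← MAG1Aux.gam_le_lcs]
  exact (Pool.Agent.H32CE.x_MAG r c w).1 (MAG1Aux.D_of_lin c w (MAG1Aux.lin_of_rep c w h))
-- END TARGET

end Pool.Agent.H335PN
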