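import Pool.Agent.H335PN.Stmts

set_option autoImplicit false

namespace Pool.Agent.H335PN

open Pool.Agent.Helper777.Prof
open scoped commutatorElement

namespace NLPaux

theorem step {G : Type} [Group G] (N : Subgroup G) [N.Normal] (α : G →* G) (k : ℕ)
    (hα : ∀ w ∈ N, α w ∈ N)
    (h0 : ∀ w ∈ N, ∃ v ∈ N, α v * w⁻¹ ∈ lcs N 1)
    (hk : ∀ w ∈ lcs N k, ∃ v ∈ lcs N k, α v * w⁻¹ ∈ lcs N (k + 1)) :
    ∀ w ∈ lcs N (k + 1), ∃ v ∈ lcs N (k + 1), α v * w⁻¹ ∈ lcs N (k + 2) := by
  have hn2 : (lcs N (k + 2)).Normal := lcs_normal N (k + 2)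
  let q : G →* G ⧸ lcs N (k + 2) := QuotientGroup.mk' (lcs N (k + 2))
  have hq1 : ∀ x, x ∈ lcs N (k + 2) → q x = 1 := by
    intro x hx
    exact (QuotientGroup.eq_one_iff x).2 hx
  have hq2 : ∀ x, q x = 1 → x ∈ lcs N (k + 2) := by
    intro x hx
    exact (QuotientGroup.eq_one_iff x).1 hx
  -- the images
  have hbot : ⁅(lcs N (k + 1)).map q, N.map q⁆ = ⊥ := by
    rw [← Subgroup.map_commutator, eq_bot_iff]
    rintro _ ⟨x, hx, rfl⟩
    rw [Subgroup.mem_bot]
    exact hq1 x hx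
  have hL1 : ⁅(lcs N k).map q, N.map q⁆ = (lcs N (k + 1)).map q := by
    rw [← Subgroup.map_commutator]
    rfl
  have hthree : ⁅⁅N.map q, N.map q⁆, (lcs N k).map q⁆ = ⊥ := by
    apply Subgroup.commutator_commutator_eq_bot_of_rotate
    · rw [Subgroup.commutator_comm (N.map q) ((lcs N k).map q), hL1]
      exact hbot
    · rw [hL1]
      exact hbot
  rw [Subgroup.commutator_eq_bot_iff_le_centralizer] at hbot hthree
  have hc1 : ∀ x ∈ lcs N (k + 1), ∀ y ∈ N, q x * q y = q y * q x := by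
    intro x hx y hy
    have := hbot (Subgroup.mem_map_of_mem q hx)
    rw [Subgroup.mem_centralizer_iff] at this
    exact (this (q y) (Subgroup.mem_map_of_mem q hy)).symm
  have hc2 : ∀ x ∈ lcs N 1, ∀ y ∈ lcs N k, q x * q y = q y * q x := by
    intro x hx y hy
    have hx' : q x ∈ ⁅N.map q, N.map q⁆ := by
      rw [← Subgroup.map_commutator]
      exact Subgroup.mem_map_of_mem q hx
    have := hthree hx'
    rw [Subgroup.mem_centralizer_iff] at this
    exact (this (q y) (Subgroup.mem_map_of_mem q hy)).symm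
  have hkN : ∀ j, lcs N j ≤ N := by
    intro j
    induction j with
    | zero => exact le_refl _
    | succ j ih =>
      have := lcs_normal N j
      exact (Subgroup.commutator_le_left (lcs N j) N).trans ih
  -- main inclusion
  have hmain : (lcs N (k + 1)).map q ≤ (lcs N (k + 1)).map (q.comp α) := by
    rw [← hL1, Subgroup.commutator_le]
    rintro _ ⟨a, ha, rfl⟩ _ ⟨b, hb, rfl⟩
    obtain ⟨a', ha', haa⟩ := hk a ha
    obtain ⟨b', hb', hbb⟩ := h0 b hb
    refine ⟨⁅a', b'⁆, Subgroup.commutator_mem_commutator ha' hb', ?_⟩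
    have e1 : q (α a') = q (α a' * a⁻¹) * q a := by
      rw [← map_mul]; congr 1; group
    have e2 : q (α b') = q (α b' * b⁻¹) * q b := by
      rw [← map_mul]; congr 1; group
    have c1 : q (α a' * a⁻¹) * q b = q b * q (α a' * a⁻¹) := hc1 _ haa _ hb
    have c2 : q (α a' * a⁻¹) * q (α b' * b⁻¹) = q (α b' * b⁻¹) * q (α a' * a⁻¹) :=
      hc1 _ haa _ (hkN 1 hbb)
    have c3 : q (α b' * b⁻¹) * q a = q a * q (α b' * b⁻¹) := hc2 _ hbb _ ha
    have hcomm1 : Commute (q (α a' * a⁻¹)) (q (α b')) := by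
      rw [e2]
      exact Commute.mul_right c2 c1
    rw [MonoidHom.comp_apply, map_commutatorElement, map_commutatorElement]
    have s1 : ⁅q (α a'), q (α b')⁆ = ⁅q a, q (α b')⁆ := by
      rw [e1, commutatorElement_mul_left_eq_conj_mul]
      have hh : ⁅q (α a' * a⁻¹), q (α b')⁆ = 1 := hcomm1.commutator_eq
      rw [hh, mul_one]
      have hca : ⁅q a, q (α b')⁆ ∈ N.map q := by
        rw [commutatorElement_def]
        have m1 : q a ∈ N.map q := Subgroup.mem_map_of_mem q (hkN k ha)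
        have m2 : q (α b') ∈ N.map q := Subgroup.mem_map_of_mem q (hα b' hb')
        exact mul_mem (mul_mem (mul_mem m1 m2) (inv_mem m1)) (inv_mem m2)
      obtain ⟨y, hy, hy'⟩ := hca
      have := hc1 _ haa y hy
      rw [hy'] at this
      rw [this, mul_inv_cancel_right]
    have s2 : ⁅q a, q (α b')⁆ = ⁅q a, q b⁆ := by
      have hh : ⁅q a, q (α b' * b⁻¹)⁆ = 1 := by
        exact Commute.commutator_eq c3.symm
      rw [e2, commutatorElement_mul_right_eq_mul_conj, hh, one_mul]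
      have hca : ⁅q a, q b⁆ ∈ (lcs N (k + 1)).map q := by
        rw [← hL1]
        exact Subgroup.commutator_mem_commutator (Subgroup.mem_map_of_mem q ha)
          (Subgroup.mem_map_of_mem q hb)
      obtain ⟨y, hy, hy'⟩ := hca
      have := hc1 y hy _ (hkN 1 hbb)
      rw [hy'] at this
      rw [← this, mul_inv_cancel_right]
    rw [s1, s2]
  intro w hw
  obtain ⟨v, hv, hvw⟩ := hmain (Subgroup.mem_map_of_mem q hw)
  refine ⟨v, hv, hq2 _ ?_⟩
  have hvw' : q (α v) = q w := hvw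
  rw [map_mul, map_inv, hvw', mul_inv_cancel]

theorem all {G : Type} [Group G] (N : Subgroup G) [N.Normal] (α : G →* G)
    (hα : ∀ w ∈ N, α w ∈ N)
    (h0 : ∀ w ∈ N, ∃ v ∈ N, α v * w⁻¹ ∈ lcs N 1) (k : ℕ) :
    ∀ w ∈ lcs N k, ∃ v ∈ lcs N k, α v * w⁻¹ ∈ lcs N (k + 1) := by
  induction k with
  | zero => exact h0
  | succ k ih => exact step N α k hα h0 ih

end NLPaux

-- BEGIN TARGET
theorem t_NLP  : S_NLP := by
  intro G _ N _ α hα h0 hs c
  induction c with
  | zero => exact hs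
  | succ c ih =>
    intro w
    obtain ⟨v, hv⟩ := ih w
    obtain ⟨v', hv', h'⟩ := NLPaux.all N α hα h0 c (α v * w⁻¹)⁻¹ (inv_mem hv)
    refine ⟨v' * v, ?_⟩
    rw [map_mul, mul_assoc]
    rw [inv_inv] at h'
    exact h'
-- END TARGET

end Pool.Agent.H335PN
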