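import Pool.Agent.H335PN.Stmts
import Pool.Agent.Helper677.FreeRTFN

set_option autoImplicit false

/-! NTR: the terms of the series of a free group of rank two are not perfect. -/

namespace Pool.Agent.H335PN

open Pool.Agent.Helper777.Prof

theorem ntr_le_derived {G : Type} [Group G] (N : Subgroup G) (h : N ≤ ⁅N, N⁆) (k : ℕ) :
    N ≤ derivedSeries G k := by
  induction k with
  | zero => exact le_top
  | succ k ih => exact h.trans (Subgroup.commutator_mono ih ih)

theorem ntr_lcs {G : Type} [Group G] (N : Subgroup G) (m : ℕ) (h : derivedSeries G m ≤ N)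
    (k : ℕ) : derivedSeries G (m + k) ≤ lcs N k := by
  induction k with
  | zero => exact h
  | succ k ih =>
    exact Subgroup.commutator_mono ih
      ((derivedSeries_antitone (G := G) (Nat.le_add_right m k)).trans h)

theorem ntr_NN (G : Type) [Group G] (c : ℕ → ℕ) (i : ℕ) :
    ∃ m, derivedSeries G m ≤ NN G c i := by
  induction i with
  | zero => exact ⟨1, by rw [derivedSeries_one]; exact le_rfl⟩
  | succ i ih =>
    obtain ⟨m, hm⟩ := ih
    exact ⟨m + c i, ntr_lcs _ m hm _⟩

theorem ntr_residual (w : FreeGroup (Fin 2)) (h : ∀ k, w ∈ derivedSeries (FreeGroup (Fin 2)) k) :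
    w = 1 := by
  by_contra hw
  obtain ⟨m, φ, hφ⟩ := Pool.Agent.Helper677.RTFN.free_rtfn w hw
  have hs : Group.IsSolvable (Pool.Agent.Helper677.RTFN.UT m) := inferInstance
  obtain ⟨n, hn⟩ := hs.solvable
  have h1 := map_derivedSeries_le_derivedSeries (f := φ) n (Subgroup.mem_map_of_mem φ (h n))
  rw [hn, Subgroup.mem_bot] at h1
  exact hφ h1

theorem ntr_not_solvable : ¬ Group.IsSolvable (FreeGroup (Fin 2)) := by
  intro h
  have hc : Equiv.Perm.IsCycle (finRotate 5) := isCycle_finRotate
  have hs : (finRotate 5).support = Finset.univ := support_finRotate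
  have h1 := Equiv.Perm.closure_cycle_adjacent_swap hc hs 0
  have hsurj : Function.Surjective
      (FreeGroup.lift ![finRotate 5, Equiv.swap 0 (finRotate 5 0)]) := by
    rw [← MonoidHom.range_eq_top, FreeGroup.range_lift_eq_closure, ← h1]
    congr 1
    ext x
    simp
    tauto
  exact Equiv.Perm.not_isSolvable_fin_5 (Group.isSolvable_of_surjective hsurj)

theorem t_NTR : S_NTR := by
  intro c l
  by_contra hcon
  push Not at hcon
  have h1 : NN (FreeGroup (Fin 2)) c l ≤ ⁅NN (FreeGroup (Fin 2)) c l, NN (FreeGroup (Fin 2)) c l⁆ :=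
    fun u hu => hcon u hu
  obtain ⟨m, hm⟩ := ntr_NN (FreeGroup (Fin 2)) c l
  refine ntr_not_solvable ⟨⟨m, ?_⟩⟩
  rw [eq_bot_iff]
  intro w hw
  exact ntr_residual w (fun k => ntr_le_derived _ h1 k (hm hw))

end Pool.Agent.H335PN
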