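import Mathlib

set_option autoImplicit false

/-! Two-generated verbally closed subgroups of free polynilpotent groups: definitions. -/

namespace Pool.Agent.H335PN

/-- `lcs N k` is the term `γ_{k+1}(N)` of the lower central series of the subgroup `N`,
as a subgroup of `G`. -/
def lcs {G : Type} [Group G] (N : Subgroup G) : ℕ → Subgroup G
  | 0 => N
  | k + 1 => ⁅lcs N k, N⁆

instance lcs_normal {G : Type} [Group G] (N : Subgroup G) [hN : N.Normal] (k : ℕ) :
    (lcs N k).Normal := by
  induction k with
  | zero => exact hN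
  | succ k ih => exact @Subgroup.commutator_normal G _ _ _ ih hN

/-- `NN G c 0 = G'` and `NN G c (i + 1) = γ_{c i + 1}(NN G c i)`. -/
def NN (G : Type) [Group G] (c : ℕ → ℕ) : ℕ → Subgroup G
  | 0 => commutator G
  | i + 1 => lcs (NN G c i) (c i)

instance NN_normal (G : Type) [Group G] (c : ℕ → ℕ) (i : ℕ) : (NN G c i).Normal := by
  induction i with
  | zero => exact (inferInstance : (commutator G).Normal)
  | succ i ih => exact lcs_normal _ _

/-- The free polynilpotent group of rank `r` and class `(1, c 0, ..., c (l - 1))`. -/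
abbrev PN (r : ℕ) (c : ℕ → ℕ) (l : ℕ) : Type := FreeGroup (Fin r) ⧸ NN (FreeGroup (Fin r)) c l

/-- `H` is a retract of `G`. -/
def IsRetract {G : Type} [Group G] (H : Subgroup G) : Prop := ∃ ρ : G →* H, ∀ h : H, ρ h = h

/-- `H` is verbally closed in `G`. -/
def VerbClosed {G : Type} [Group G] (H : Subgroup G) : Prop :=
  ∀ (n : ℕ) (w : FreeGroup (Fin n)) (h : H),
    (∃ g : Fin n → G, FreeGroup.lift g w = h) → ∃ g : Fin n → H, FreeGroup.lift g w = h

/-- `H` is algebraically closed in `G`: every finite system of equations `s = 1` with `s` in the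
free product of the free group on the variables with `H`, which has a solution in `G`, has a
solution in `H`. -/
def AlgClosed {G : Type} [Group G] (H : Subgroup G) : Prop :=
  ∀ (n : ℕ) (S : Set (Monoid.Coprod (FreeGroup (Fin n)) H)), S.Finite →
    (∃ g : Fin n → G, ∀ s ∈ S, Monoid.Coprod.lift (FreeGroup.lift g) H.subtype s = 1) →
    ∃ g : Fin n → H, ∀ s ∈ S, Monoid.Coprod.lift (FreeGroup.lift g) (MonoidHom.id H) s = 1

/-- `G` is residually a finite `p`-group. -/
def RFp (p : ℕ) (G : Type) [Group G] : Prop :=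
  ∀ g : G, g ≠ 1 → ∃ (Q : Type) (_ : Group Q) (_ : Finite Q) (f : G →* Q), IsPGroup p Q ∧ f g ≠ 1

/-- The endomorphism `α` is surjective modulo `K`. -/
def SurjMod {G : Type} [Group G] (K : Subgroup G) (α : G →* G) : Prop :=
  ∀ w : G, ∃ v : G, α v * w⁻¹ ∈ K

/-- The strictly upper triangular matrix attached to a word `L` and a letter `x`. -/
def em (k : Type) [CommRing k] {X : Type} [DecidableEq X] {c : ℕ} (L : Fin c → X) (x : X) :
    Matrix (Fin (c + 1)) (Fin (c + 1)) k :=
  fun i j => if h : (i : ℕ) + 1 = (j : ℕ) then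
    (if L ⟨i, by have := j.isLt; omega⟩ = x then 1 else 0) else 0

theorem em_isUnit (k : Type) [CommRing k] {X : Type} [DecidableEq X] {c : ℕ} (L : Fin c → X)
    (x : X) : IsUnit (1 + em k L x) := by
  have h : (1 + em k L x).BlockTriangular id := by
    intro i j hij
    have hij' : (j : ℕ) < i := hij
    simp only [Matrix.add_apply, em]
    rw [Matrix.one_apply_ne (by rintro rfl; omega), dif_neg (by omega), add_zero]
  rw [Matrix.isUnit_iff_isUnit_det, Matrix.det_of_isUpperTriangular h]
  have : ∀ i, (1 + em k L x) i i = 1 := by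
    intro i
    simp [em]
  simp [this]

/-- The representation of the free group by unitriangular matrices attached to a word `L`;
the `(i, j)` entry of the image of `w` is the coefficient of `L_i ... L_{j-1}` in the Magnus
expansion of `w`. -/
noncomputable def rep (k : Type) [CommRing k] {X : Type} [DecidableEq X] {c : ℕ} (L : Fin c → X) :
    FreeGroup X →* (Matrix (Fin (c + 1)) (Fin (c + 1)) k)ˣ :=
  FreeGroup.lift (fun x => (em_isUnit k L x).unit)

/-- Left translation by `g` on the letters `Γ × ι`. -/
def perm {Γ : Type} (ι : Type) [Group Γ] (g : Γ) : (Γ × ι) ≃ (Γ × ι) where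
  toFun x := (g * x.1, x.2)
  invFun x := (g⁻¹ * x.1, x.2)
  left_inv x := by simp
  right_inv x := by simp

/-- `Γ` acts on the free group on `Γ × ι` by left translation of the letters. -/
def act (Γ ι : Type) [Group Γ] : Γ →* MulAut (FreeGroup (Γ × ι)) where
  toFun g := FreeGroup.freeGroupCongr (perm ι g)
  map_one' := by
    apply MulEquiv.ext
    intro x
    induction x using FreeGroup.induction_on with
    | C1 => simp
    | of x => simp [perm]
    | inv_of x _ => simp [perm]
    | mul x y hx hy => rw [map_mul, hx, hy, map_mul]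
  map_mul' g h := by
    apply MulEquiv.ext
    intro x
    induction x using FreeGroup.induction_on with
    | C1 => simp
    | of x => simp [perm, mul_assoc]
    | inv_of x _ => simp [perm, mul_assoc]
    | mul x y hx hy => rw [map_mul, hx, hy, map_mul]

/-- Shmelkin's homomorphism. -/
def sh {Γ ι : Type} [Group Γ] (π : FreeGroup ι →* Γ) :
    FreeGroup ι →* FreeGroup (Γ × ι) ⋊[act Γ ι] Γ :=
  FreeGroup.lift (fun i => ⟨FreeGroup.of (1, i), π (FreeGroup.of i)⟩)

/-- The properties of the group `Γ` used for the test element. -/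
structure Good (Γ : Type) [Group Γ] : Prop where
  ur : ∀ (a b : Γ) (n : ℕ), n ≠ 0 → a ^ n = b ^ n → a = b
  cp : ∀ (h g : Γ) (n m : ℤ), g ≠ 1 → n ≠ 0 → h * g ^ n * h⁻¹ = g ^ m → n = m
  ce : Subgroup.center Γ = ⊥
  nz : NoZeroDivisors (MonoidAlgebra ℤ Γ)
  ore : ∀ a b : MonoidAlgebra ℤ Γ, b ≠ 0 → ∃ p q : MonoidAlgebra ℤ Γ, p ≠ 0 ∧ p * a = q * b

end Pool.Agent.H335PN
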