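import Mathlib
import Pool.Agent.H335PN.Defs
import Pool.Agent.Helper777.Prof.Defs

set_option autoImplicit false

/-! Two-generated verbally closed subgroups of free polynilpotent groups: the list of lemmas. -/

namespace Pool.Agent.H335PN

open Pool.Agent.Helper777.Prof

/-! ### Følner and Ore -/

/-- The Følner condition, with products `F * S`. -/
def Fol (G : Type) [Group G] : Prop :=
  ∀ (S : Finset G) (ε : ℝ), 0 < ε → ∃ F : Finset G, F.Nonempty ∧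
    (Set.ncard {g : G | ∃ f ∈ F, ∃ s ∈ S, g = f * s} : ℝ) ≤ (1 + ε) * F.card

/-- ORE1: abelian groups satisfy the Følner condition -/
def S_ORE1 : Prop := ∀ (G : Type) [CommGroup G], Fol G

/-- ORE2: the Følner condition is closed under extensions -/
def S_ORE2 : Prop := ∀ (G Q : Type) [Group G] [Group Q] (q : G →* Q), Function.Surjective q →
  Fol q.ker → Fol Q → Fol G

/-- ORE3: solvable groups satisfy the Følner condition -/
def S_ORE3 : Prop := ∀ (G : Type) [Group G] [Group.IsSolvable G], Fol G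

/-- ORE4: the Ore condition from the Følner condition -/
def S_ORE4 : Prop := ∀ (G : Type) [Group G], Fol G → NoZeroDivisors (MonoidAlgebra ℤ G) →
  ∀ a b : MonoidAlgebra ℤ G, b ≠ 0 → ∃ p q : MonoidAlgebra ℤ G, p ≠ 0 ∧ p * a = q * b

/-! ### The Magnus theorem for free groups of arbitrary rank -/

/-- MAG1: elements all of whose Magnus coefficients of degree at most `c` vanish, finite rank -/
def S_MAG1 : Prop := ∀ (r c : ℕ) (w : FreeGroup (Fin r)),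
  (∀ L : Fin c → Fin r, rep ℤ L w = 1) → w ∈ lcs (⊤ : Subgroup (FreeGroup (Fin r))) c

/-- MAG2: the Magnus theorem, arbitrary rank -/
def S_MAG2 : Prop := ∀ (X : Type) [DecidableEq X] (c : ℕ) (w : FreeGroup X),
  w ∈ lcs (⊤ : Subgroup (FreeGroup X)) c ↔ ∀ L : Fin c → X, rep ℤ L w = 1

/-- UPM: unique products in free nilpotent groups of arbitrary rank -/
def S_UPM : Prop := ∀ (X : Type) (c : ℕ),
  UniqueProds (FreeGroup X ⧸ lcs (⊤ : Subgroup (FreeGroup X)) c)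

/-- LEM1: a homomorphism of free groups which is injective on abelianizations is injective on all
lower central quotients -/
def S_LEM1 : Prop := ∀ (B X : Type) (f : FreeGroup B →* FreeGroup X),
  (∀ w, f w ∈ commutator (FreeGroup X) → w ∈ commutator (FreeGroup B)) →
  ∀ (k : ℕ) (w : FreeGroup B), f w ∈ lcs (⊤ : Subgroup (FreeGroup X)) k →
    w ∈ lcs (⊤ : Subgroup (FreeGroup B)) k

/-- LEM2: the same for a subgroup of a free group as the source -/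
def S_LEM2 : Prop := ∀ (ι X : Type) (N : Subgroup (FreeGroup ι)) (f : N →* FreeGroup X),
  (∀ w : N, f w ∈ commutator (FreeGroup X) → (w : FreeGroup ι) ∈ ⁅N, N⁆) →
  ∀ (k : ℕ) (w : N), f w ∈ lcs (⊤ : Subgroup (FreeGroup X)) k → (w : FreeGroup ι) ∈ lcs N k

/-- SHM: Shmelkin's embedding -/
def S_SHM : Prop := ∀ (ι Γ : Type) [DecidableEq ι] [Group Γ] (π : FreeGroup ι →* Γ),
  Function.Surjective π → ∀ (c : ℕ) (w : FreeGroup ι),
    w ∈ lcs π.ker c ↔ π w = 1 ∧ (sh π w).left ∈ lcs (⊤ : Subgroup (FreeGroup (Γ × ι))) c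

/-! ### Properties of the groups `F / γ_{c+1}(N)` -/

/-- UP: unique products -/
def S_UP : Prop := ∀ (ι Γ : Type) [DecidableEq ι] [Group Γ] (π : FreeGroup ι →* Γ),
  Function.Surjective π → UniqueProds Γ → ∀ c : ℕ, UniqueProds (FreeGroup ι ⧸ lcs π.ker c)

/-- RF: residually a finite `p`-group -/
def S_RF : Prop := ∀ (ι Γ : Type) [Finite ι] [DecidableEq ι] [Group Γ] (π : FreeGroup ι →* Γ),
  Function.Surjective π → ∀ p : ℕ, p.Prime → RFp p Γ → ∀ c : ℕ, RFp p (FreeGroup ι ⧸ lcs π.ker c)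

/-- CEN: trivial centre -/
def S_CEN : Prop := ∀ (ι Γ : Type) [DecidableEq ι] [Group Γ] (π : FreeGroup ι →* Γ),
  Function.Surjective π → (∀ (g : Γ) (n : ℤ), g ^ n = 1 → g ≠ 1 → n = 0) →
  (∃ i, π (FreeGroup.of i) ≠ 1) → (∃ u ∈ π.ker, u ∉ ⁅π.ker, π.ker⁆) →
  ∀ c : ℕ, 1 ≤ c → Subgroup.center (FreeGroup ι ⧸ lcs π.ker c) = ⊥

/-- NTR: the terms of the series of a free group of rank two are not perfect -/
def S_NTR : Prop := ∀ (c : ℕ → ℕ) (l : ℕ), ∃ u ∈ NN (FreeGroup (Fin 2)) c l,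
  u ∉ ⁅NN (FreeGroup (Fin 2)) c l, NN (FreeGroup (Fin 2)) c l⁆

/-- UPN: unique products in free polynilpotent groups -/
def S_UPN : Prop := ∀ (r : ℕ) (c : ℕ → ℕ) (l : ℕ), UniqueProds (PN r c l)

/-- RFN: free polynilpotent groups are residually finite `p`-groups -/
def S_RFN : Prop := ∀ (r : ℕ) (c : ℕ → ℕ) (l p : ℕ), p.Prime → RFp p (PN r c l)

/-- R12: unique roots and the power-conjugacy property from residual finiteness-`p` -/
def S_R12 : Prop := ∀ (G : Type) [Group G], (∀ p : ℕ, p.Prime → RFp p G) →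
  (∀ (a b : G) (n : ℕ), n ≠ 0 → a ^ n = b ^ n → a = b) ∧
  (∀ (h g : G) (n m : ℤ), g ≠ 1 → n ≠ 0 → h * g ^ n * h⁻¹ = g ^ m → n = m)

/-- GOOD: the groups `PN 2 c (l + 1)` are good -/
def S_GOOD : Prop := ∀ (c : ℕ → ℕ) (l : ℕ), (∀ i, i < l + 1 → 1 ≤ c i) → Good (PN 2 c (l + 1))

/-! ### The test element -/

/-- ZEL: an element none of whose nontrivial powers commutes with any element of a finite set -/
def S_ZEL : Prop := ∀ (Γ : Type) [Group Γ] (X Y : Γ),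
  (∀ (a b : Γ) (n : ℕ), n ≠ 0 → a ^ n = b ^ n → a = b) → Subgroup.center Γ = ⊥ →
  Subgroup.closure {X, Y} = (⊤ : Subgroup Γ) →
  ∀ Φ : Finset Γ, (1 : Γ) ∉ Φ → ∃ z : Γ, ∀ f ∈ Φ, ∀ n : ℤ, n ≠ 0 → ¬ Commute (z ^ n) f

/-- SEP: separation of the summands with the weights `K ^ j` -/
def S_SEP : Prop := ∀ (Γ : Type) [Group Γ] (w u a : MonoidAlgebra ℤ Γ) (J : ℕ) (gs : ℕ → Γ)
  (K : ℤ) (g : Γ),
  (∀ j < J, ∀ τ ∈ w.coeff.support, ∀ τ' ∈ w.coeff.support, ∀ e ∈ u.coeff.support,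
    ∀ e' ∈ u.coeff.support, τ * gs j * e = τ' * gs j * e' → τ = τ' ∧ e = e') →
  (∑ τ ∈ w.coeff.support, |w.coeff τ|) * (∑ e ∈ u.coeff.support, |u.coeff e|) < K →
  w * (∑ j ∈ Finset.range J, MonoidAlgebra.single (gs j) (K ^ j)) * u =
    (MonoidAlgebra.single g 1 - 1) * a →
  ∀ j < J, ∀ τ ∈ w.coeff.support, ∀ e ∈ u.coeff.support,
    ∃ τ' ∈ w.coeff.support, ∃ e' ∈ u.coeff.support, ∃ n : ℤ, (τ', e') ≠ (τ, e) ∧
      g ^ n * τ * gs j * e = τ' * gs j * e'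

/-- LMD: the combinatorial lemma -/
def S_LMD : Prop := ∀ (Γ : Type) [Group Γ] (A : Γ →* Multiplicative (ℤ × ℤ)) (T E : Finset Γ)
  (τ₀ z g : Γ) (m₀ : ℕ),
  (∀ (h g : Γ) (n m : ℤ), g ≠ 1 → n ≠ 0 → h * g ^ n * h⁻¹ = g ^ m → n = m) →
  τ₀ ∈ T → (∀ τ ∈ T, τ ≠ τ₀ → (A τ₀).toAdd.1 + (A τ₀).toAdd.2 < (A τ).toAdd.1 + (A τ).toAdd.2) →
  E.Nonempty →
  (∀ e ∈ E, ∀ e' ∈ E, e' ≠ e → ∀ n : ℤ, n ≠ 0 → ¬ Commute (z ^ n) (e' * e⁻¹)) →
  g ≠ 1 →
  (∀ j < T.card * E.card + 1, ∀ τ ∈ T, ∀ e ∈ E, ∃ τ' ∈ T, ∃ e' ∈ E, ∃ n : ℤ, (τ', e') ≠ (τ, e) ∧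
      g ^ n * τ * z ^ (m₀ + j) * e = τ' * z ^ (m₀ + j) * e') →
  ∀ τ ∈ T, ∃ n : ℤ, n ≠ 0 ∧ g ^ n * τ ∈ T

/-- DIV: an element with few left divisors of the form `g - 1` -/
def S_DIV : Prop := ∀ (Γ : Type) [Group Γ] (X Y : Γ) (A : Γ →* Multiplicative (ℤ × ℤ)),
  Good Γ → Subgroup.closure {X, Y} = (⊤ : Subgroup Γ) → A X = Multiplicative.ofAdd (1, 0) →
  A Y = Multiplicative.ofAdd (0, 1) → X * Y ≠ Y * X →
  ∀ u : MonoidAlgebra ℤ Γ, u ≠ 0 → ∃ r : MonoidAlgebra ℤ Γ, r ≠ 0 ∧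
    (∀ (g : Γ) (a : MonoidAlgebra ℤ Γ), g ≠ 1 →
      (MonoidAlgebra.single X 1 - 1) * (MonoidAlgebra.single Y 1 - 1) * r * u =
        (MonoidAlgebra.single g 1 - 1) * a → g = X ∨ g = X⁻¹) ∧
    (∀ (g : Γ) (a : MonoidAlgebra ℤ Γ), g ≠ 1 →
      (MonoidAlgebra.single Y 1 - 1) * r * u = (MonoidAlgebra.single g 1 - 1) * a →
        g = Y ∨ g = Y⁻¹)

/-- CHR: chain rule and fundamental formula for Fox derivatives -/
def S_CHR : Prop := ∀ (ι Γ : Type) [Fintype ι] [DecidableEq ι] [Group Γ] (π : FreeGroup ι →* Γ),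
  (∀ w : FreeGroup ι, ∑ i, (mag π w).v i * (MonoidAlgebra.single (π (FreeGroup.of i)) 1 - 1) =
      (MonoidAlgebra.single (π w) 1 - 1 : MonoidAlgebra ℤ Γ)) ∧
  (∀ (α : FreeGroup ι →* FreeGroup ι) (β : Γ →* Γ), (∀ w, β (π w) = π (α w)) →
    ∀ w : FreeGroup ι, (mag π (α w)).v =
      ∑ i, MonoidAlgebra.mapDomainRingHom ℤ β ((mag π w).v i) • (mag π (α (FreeGroup.of i))).v)

/-- CORE: the test element modulo the commutator subgroup of `N` -/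
def S_CORE : Prop := ∀ (Γ : Type) [Group Γ] (π : FreeGroup (Fin 2) →* Γ),
  Function.Surjective π → Good Γ → π.ker ≤ commutator (FreeGroup (Fin 2)) →
  (π (FreeGroup.of 0 * FreeGroup.of 1) ≠ π (FreeGroup.of 1 * FreeGroup.of 0)) →
  (∃ u ∈ π.ker, u ∉ ⁅π.ker, π.ker⁆) →
  ∃ t ∈ π.ker, ∀ α : FreeGroup (Fin 2) →* FreeGroup (Fin 2), (∀ w ∈ π.ker, α w ∈ π.ker) →
    α t * t⁻¹ ∈ ⁅π.ker, π.ker⁆ →
    (∀ w ∈ π.ker, α (α w) * w⁻¹ ∈ ⁅π.ker, π.ker⁆) ∧ (∀ w, α (α w) * w⁻¹ ∈ π.ker)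

/-- NLP: lifting surjectivity over a nilpotent kernel -/
def S_NLP : Prop := ∀ (G : Type) [Group G] (N : Subgroup G) [N.Normal] (α : G →* G),
  (∀ w ∈ N, α w ∈ N) → (∀ w ∈ N, ∃ v ∈ N, α v * w⁻¹ ∈ ⁅N, N⁆) → SurjMod N α →
  ∀ c : ℕ, SurjMod (lcs N c) α

/-- BAS: the commutator is a test element of the free (abelian-by-nilpotent)-like group -/
def S_BAS : Prop := ∀ (c : ℕ) (α : FreeGroup (Fin 2) →* FreeGroup (Fin 2)), 1 ≤ c →
  α (FreeGroup.of 0 * FreeGroup.of 1 * (FreeGroup.of 0)⁻¹ * (FreeGroup.of 1)⁻¹) *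
      (FreeGroup.of 0 * FreeGroup.of 1 * (FreeGroup.of 0)⁻¹ * (FreeGroup.of 1)⁻¹)⁻¹ ∈
    lcs (commutator (FreeGroup (Fin 2))) c →
  SurjMod (lcs (commutator (FreeGroup (Fin 2))) c) α

/-- TST: existence of test elements -/
def S_TST : Prop := ∀ (c : ℕ → ℕ) (l : ℕ), 1 ≤ l → (∀ i, i < l → 1 ≤ c i) →
  ∃ t : FreeGroup (Fin 2), ∀ α : FreeGroup (Fin 2) →* FreeGroup (Fin 2),
    α t * t⁻¹ ∈ NN (FreeGroup (Fin 2)) c l → SurjMod (NN (FreeGroup (Fin 2)) c l) α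

/-! ### The reduction -/

/-- HOM: the image of a verbally closed subgroup in the abelianization is pure, and
`H ∩ G' = H'` -/
def S_VC : Prop := ∀ (G : Type) [Group G] (H : Subgroup G), VerbClosed H →
  (∀ h ∈ H, h ∈ commutator G → h ∈ ⁅H, H⁆) ∧
  (∀ h ∈ H, ∀ (n : ℕ) (g : G), g ^ n * h⁻¹ ∈ commutator G →
    ∃ k ∈ H, k ^ n * h⁻¹ ∈ commutator G)

/-- LIN: linear algebra: a pure subgroup of `ℤ ^ r` with two generators -/
def S_LIN : Prop := ∀ (r : ℕ) (a b : Fin r → ℤ),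
  (∀ v : Fin r → ℤ, ∀ n : ℕ, n ≠ 0 → n • v ∈ AddSubgroup.closure {a, b} →
    v ∈ AddSubgroup.closure {a, b}) →
  (∃ φ : (Fin r → ℤ) →+ ℤ × ℤ, φ a = (1, 0) ∧ φ b = (0, 1)) ∨
  (∃ (d : Fin r → ℤ), AddSubgroup.closure {a, b} = AddSubgroup.closure {d} ∧
    (d = 0 ∨ ∃ φ : (Fin r → ℤ) →+ ℤ, φ d = 1))

/-- IAE: endomorphisms inducing the identity on the abelianization are injective, and surjective
endomorphisms are injective, for finitely generated residually finite `p`-groups -/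
def S_IAE : Prop := ∀ (G : Type) [Group G] [Group.FG G], RFp 2 G → ∀ α : G →* G,
  ((∀ g, α g * g⁻¹ ∈ commutator G) → Function.Injective α) ∧
  (Function.Surjective α → Function.Injective α)

/-- RK1: the case of a cyclic image in the abelianization -/
def S_RK1 : Prop := ∀ (r : ℕ) (c : ℕ → ℕ) (l : ℕ) (H : Subgroup (PN r c l)), VerbClosed H →
  (∃ a b, H = Subgroup.closure {a, b}) →
  (∃ (φ : PN r c l →* Multiplicative (Fin r → ℤ)) (d : Fin r → ℤ),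
    (∀ g, φ g = 1 ↔ g ∈ commutator (PN r c l)) ∧
    (∀ h ∈ H, (φ h).toAdd ∈ AddSubgroup.closure {d}) ∧
    (∃ h ∈ H, (φ h).toAdd = d) ∧
    (d = 0 ∨ ∃ ψ : (Fin r → ℤ) →+ ℤ, ψ d = 1)) → IsRetract H

/-- RK2: the case of a noncyclic image in the abelianization -/
def S_RK2 : Prop := ∀ (r : ℕ) (c : ℕ → ℕ) (l : ℕ) (H : Subgroup (PN r c l)), VerbClosed H →
  (∃ t : FreeGroup (Fin 2), ∀ α : FreeGroup (Fin 2) →* FreeGroup (Fin 2),
    α t * t⁻¹ ∈ NN (FreeGroup (Fin 2)) c l → SurjMod (NN (FreeGroup (Fin 2)) c l) α) →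
  ∀ a b, H = Subgroup.closure {a, b} →
  (∃ ψ : PN r c l →* Multiplicative (ℤ × ℤ), ψ a = Multiplicative.ofAdd (1, 0) ∧
    ψ b = Multiplicative.ofAdd (0, 1)) → IsRetract H

/-- RET: verbally closed two-generated subgroups are retracts -/
def S_RET : Prop := ∀ (r : ℕ) (c : ℕ → ℕ) (l : ℕ), 1 ≤ l → (∀ i, i < l → 1 ≤ c i) →
  ∀ H : Subgroup (PN r c l), (∃ a b, H = Subgroup.closure {a, b}) → VerbClosed H → IsRetract H

/-- EAS: retracts are algebraically closed and algebraically closed subgroups are verbally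
closed -/
def S_EAS : Prop := ∀ (G : Type) [Group G] (H : Subgroup G),
  (IsRetract H → AlgClosed H) ∧ (AlgClosed H → VerbClosed H)

/-- The final theorem. -/
def S_FINAL : Prop := ∀ (r l : ℕ) (c : ℕ → ℕ), 2 ≤ r → 1 ≤ l → (∀ i, i < l → 1 ≤ c i) →
  ∀ H : Subgroup (PN r c l), (∃ a b, H = Subgroup.closure {a, b}) →
    (IsRetract H ↔ AlgClosed H) ∧ (AlgClosed H ↔ VerbClosed H)

end Pool.Agent.H335PN
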