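import Mathlib
import Pool.Agent.H335PN.Defs
import Pool.Agent.H335PN.Stmts

set_option autoImplicit false

/-! Følner and Ore: `t_ORE1`, `t_ORE2`, `t_ORE3`, `t_ORE4`. -/

namespace Pool.Agent.H335PN

open Pointwise
open scoped commutatorElement

theorem ore_set_eq {G : Type} [Group G] [DecidableEq G] (F S : Finset G) :
    {g : G | ∃ f ∈ F, ∃ s ∈ S, g = f * s} = ((F * S : Finset G) : Set G) := by
  ext g
  simp only [Set.mem_ofPred_eq, Finset.mem_coe, Finset.mem_mul]
  constructor
  · rintro ⟨f, hf, s, hs, rfl⟩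
    exact ⟨f, hf, s, hs, rfl⟩
  · rintro ⟨f, hf, s, hs, rfl⟩
    exact ⟨f, hf, s, hs, rfl⟩

theorem ore_fol_iff {G : Type} [Group G] [DecidableEq G] : Fol G ↔
    ∀ (S : Finset G) (ε : ℝ), 0 < ε → ∃ F : Finset G, F.Nonempty ∧
      ((F * S).card : ℝ) ≤ (1 + ε) * F.card := by
  unfold Fol
  refine forall_congr' fun S => forall_congr' fun ε => forall_congr' fun _ => exists_congr fun F => ?_
  rw [ore_set_eq, Set.ncard_coe_finset]

theorem ore1_card {G : Type} [CommGroup G] [DecidableEq G] (S : Finset G) (n : ℕ) :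
    (S ^ n).card ≤ (n + 1) ^ S.card := by
  classical
  have h : S ^ n ⊆ (Finset.univ : Finset (S → Fin (n + 1))).image
      fun e => ∏ s : S, (s : G) ^ (e s : ℕ) := by
    induction n with
    | zero =>
      intro g hg
      rw [pow_zero, Finset.mem_one] at hg
      rw [Finset.mem_image]
      exact ⟨fun _ => 0, Finset.mem_univ _, by simp [hg]⟩
    | succ n ih =>
      intro g hg
      rw [pow_succ, Finset.mem_mul] at hg
      obtain ⟨a, ha, s, hs, rfl⟩ := hg
      obtain ⟨e, -, he⟩ := Finset.mem_image.1 (ih ha)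
      rw [Finset.mem_image]
      refine ⟨fun t => if t = ⟨s, hs⟩ then (e t).succ else (e t).castSucc, Finset.mem_univ _, ?_⟩
      have h1 : ∀ t : S, (t : G) ^ ((if t = ⟨s, hs⟩ then (e t).succ else (e t).castSucc :
          Fin (n + 1 + 1)) : ℕ) = (t : G) ^ (e t : ℕ) * (if t = ⟨s, hs⟩ then s else 1) := by
        intro t
        by_cases ht : t = ⟨s, hs⟩
        · rw [if_pos ht, if_pos ht, Fin.val_succ, pow_succ, ht]
        · rw [if_neg ht, if_neg ht, Fin.val_castSucc, mul_one]
      simp only [h1]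
      rw [Finset.prod_mul_distrib, he, Finset.prod_ite_eq']
      simp
  refine (Finset.card_le_card h).trans (Finset.card_image_le.trans ?_)
  rw [Finset.card_univ, Fintype.card_fun, Fintype.card_fin, Fintype.card_coe]

theorem t_ORE1 : S_ORE1 := by
  classical
  intro G _
  rw [ore_fol_iff]
  intro S ε hε
  set S' : Finset G := insert 1 S with hS'
  by_contra hcon
  push Not at hcon
  have hne : ∀ n, (S' ^ n).Nonempty := fun n => by
    refine ⟨1, ?_⟩
    have : (1 : G) ∈ S' := Finset.mem_insert_self _ _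
    exact Finset.one_mem_pow this
  have h1 : ∀ n, (1 + ε) ^ n ≤ ((S' ^ n).card : ℝ) := by
    intro n
    induction n with
    | zero => simp
    | succ n ih =>
      have h2 := hcon (S' ^ n) (hne n)
      have h3 : (((S' ^ n) * S).card : ℝ) ≤ ((S' ^ (n + 1)).card : ℝ) := by
        rw [pow_succ]
        exact_mod_cast Finset.card_le_card (Finset.mul_subset_mul_left (Finset.subset_insert _ _))
      calc (1 + ε) ^ (n + 1) = (1 + ε) * (1 + ε) ^ n := by ring
        _ ≤ (1 + ε) * ((S' ^ n).card : ℝ) := by gcongr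
        _ ≤ _ := h2.le.trans h3
  have h4 : ∀ n : ℕ, (1 + ε) ^ n ≤ ((n : ℝ) + 1) ^ S'.card := fun n => by
    refine (h1 n).trans ?_
    exact_mod_cast ore1_card S' n
  have h5 := tendsto_pow_const_div_const_pow_of_one_lt S'.card (show (1 : ℝ) < 1 + ε by linarith)
  have h6 := (h5.comp (Filter.tendsto_add_atTop_nat 1)).eventually
    (gt_mem_nhds (show (0 : ℝ) < 1 / (1 + ε) by positivity))
  obtain ⟨n, hn⟩ := h6.exists
  simp only [Function.comp] at hn
  have h7 := h4 n
  have hp : (0 : ℝ) < (1 + ε) ^ (n + 1) := by positivity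
  rw [div_lt_div_iff₀ hp (by positivity)] at hn
  push_cast at hn
  have h8 : (1 + ε) ^ (n + 1) = (1 + ε) ^ n * (1 + ε) := pow_succ _ _
  rw [h8, one_mul] at hn
  have h9 : (0 : ℝ) < 1 + ε := by linarith
  have := mul_le_mul_of_nonneg_right h7 h9.le
  linarith

theorem t_ORE2 : S_ORE2 := by
  classical
  intro G Q _ _ q hq hN hQ
  rw [ore_fol_iff] at *
  intro S ε hε
  obtain ⟨δ, hδ, hδε⟩ : ∃ δ : ℝ, 0 < δ ∧ (1 + δ) * (1 + δ) ≤ 1 + ε := by
    refine ⟨min 1 (ε / 3), by positivity, ?_⟩
    have h1 : min 1 (ε / 3) ≤ 1 := min_le_left _ _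
    have h2 : min 1 (ε / 3) ≤ ε / 3 := min_le_right _ _
    have h3 : 0 < min 1 (ε / 3) := by positivity
    nlinarith
  obtain ⟨FQ, hFQ, hcQ⟩ := hQ (S.image q) δ hδ
  obtain ⟨σ, hσ⟩ := hq.hasRightInverse
  -- the elements of the kernel
  have hker : ∀ x : Q, ∀ s : G, σ x * s * (σ (x * q s))⁻¹ ∈ q.ker := fun x s => by
    rw [MonoidHom.mem_ker, map_mul, map_mul, map_inv, hσ, hσ, mul_inv_cancel]
  set SN : Finset q.ker := (FQ ×ˢ S).image fun y => ⟨_, hker y.1 y.2⟩ with hSN
  obtain ⟨FN, hFN, hcN⟩ := hN SN δ hδ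
  set F : Finset G := (FN ×ˢ FQ).image fun y => (y.1 : G) * σ y.2 with hF
  have hinj : Function.Injective fun y : q.ker × Q => (y.1 : G) * σ y.2 := by
    rintro ⟨a, x⟩ ⟨b, y⟩ h
    simp only at h
    have h1 := congrArg q h
    rw [map_mul, map_mul, hσ, hσ, a.2, b.2, one_mul, one_mul] at h1
    subst h1
    rw [mul_left_inj] at h
    rw [Prod.mk.injEq]
    exact ⟨Subtype.ext h, rfl⟩
  have hFc : F.card = FN.card * FQ.card := by
    rw [hF, Finset.card_image_of_injective _ hinj, Finset.card_product]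
  refine ⟨F, (Finset.Nonempty.product hFN hFQ).image _, ?_⟩
  have hsub : F * S ⊆ ((FN * SN) ×ˢ (FQ * S.image q)).image fun y => (y.1 : G) * σ y.2 := by
    intro g hg
    obtain ⟨f, hf, s, hs, rfl⟩ := Finset.mem_mul.1 hg
    obtain ⟨⟨a, x⟩, hax, rfl⟩ := Finset.mem_image.1 hf
    obtain ⟨ha, hx⟩ := Finset.mem_product.1 hax
    refine Finset.mem_image.2 ⟨(a * ⟨_, hker x s⟩, x * q s), ?_, ?_⟩
    · refine Finset.mem_product.2 ⟨Finset.mul_mem_mul ha ?_, Finset.mul_mem_mul hx ?_⟩
      · exact Finset.mem_image.2 ⟨(x, s), Finset.mem_product.2 ⟨hx, hs⟩, rfl⟩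
      · exact Finset.mem_image_of_mem q hs
    · simp only [Subgroup.coe_mul]
      group
  have hc : ((F * S).card : ℝ) ≤ ((FN * SN).card : ℝ) * ((FQ * S.image q).card : ℝ) := by
    refine (Nat.cast_le.2 ((Finset.card_le_card hsub).trans Finset.card_image_le)).trans ?_
    rw [Finset.card_product]
    push_cast
    exact le_rfl
  rw [hFc]
  push_cast
  calc ((F * S).card : ℝ) ≤ ((FN * SN).card : ℝ) * ((FQ * S.image q).card : ℝ) := hc
    _ ≤ ((1 + δ) * FN.card) * ((1 + δ) * FQ.card) := by gcongr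
    _ = ((1 + δ) * (1 + δ)) * (FN.card * FQ.card) := by ring
    _ ≤ (1 + ε) * (FN.card * FQ.card) := by gcongr

theorem ore3_aux (n : ℕ) : ∀ (G : Type) [Group G], derivedSeries G n = ⊥ → Fol G := by
  induction n with
  | zero =>
    intro G _ h
    have h1 : ∀ g : G, g = 1 := fun g => by
      have : g ∈ derivedSeries G 0 := by simp
      rw [h] at this
      exact Subgroup.mem_bot.1 this
    exact @t_ORE1 G { (inferInstance : Group G) with mul_comm := fun a b => by rw [h1 a, h1 b] }
  | succ n ih =>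
    intro G _ h
    set D := derivedSeries G n with hD
    have : D.Normal := derivedSeries_normal G n
    refine t_ORE2 G (G ⧸ D) (QuotientGroup.mk' D) (QuotientGroup.mk'_surjective D) ?_ ?_
    · have hc : ∀ a b : (QuotientGroup.mk' D).ker, a * b = b * a := by
        intro a b
        have ha : (a : G) ∈ D := (QuotientGroup.eq_one_iff _).1 a.2
        have hb : (b : G) ∈ D := (QuotientGroup.eq_one_iff _).1 b.2
        have h1 : ⁅(a : G), (b : G)⁆ ∈ ⁅D, D⁆ := Subgroup.commutator_mem_commutator ha hb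
        rw [← derivedSeries_succ, h, Subgroup.mem_bot, commutatorElement_eq_one_iff_mul_comm] at h1
        exact Subtype.ext h1
      exact @t_ORE1 _ { (inferInstance : Group (QuotientGroup.mk' D).ker) with mul_comm := hc }
    · apply ih
      rw [← map_derivedSeries_eq (QuotientGroup.mk'_surjective D), ← hD]
      rw [Subgroup.map_eq_bot_iff, QuotientGroup.ker_mk']

theorem t_ORE3 : S_ORE3 := by
  intro G _ hs
  obtain ⟨n, hn⟩ := hs.solvable
  exact ore3_aux n G hn

/-- the element of the group ring with the coefficients `t` on `F` -/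
noncomputable def ore4P {G : Type} [Group G] (F : Finset G) (t : F → ℤ) : MonoidAlgebra ℤ G :=
  ∑ f : F, MonoidAlgebra.single (f : G) (t f)

theorem ore4P_coeff {G : Type} [Group G] (F : Finset G) (t : F → ℤ) (f : F) :
    (ore4P F t).coeff f = t f := by
  classical
  unfold ore4P
  rw [MonoidAlgebra.coeff_sum, Finsupp.finsetSum_apply]
  simp only [MonoidAlgebra.coeff_single]
  rw [Finset.sum_eq_single f]
  · simp
  · intro b _ hb
    rw [Finsupp.single_apply, if_neg]
    exact fun h => hb (Subtype.ext h)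
  · intro h
    exact absurd (Finset.mem_univ _) h

theorem ore4P_support {G : Type} [Group G] [DecidableEq G] (F : Finset G) (t : F → ℤ) :
    (ore4P F t).coeff.support ⊆ F := by
  intro g hg
  by_contra hcon
  rw [Finsupp.mem_support_iff] at hg
  apply hg
  unfold ore4P
  rw [MonoidAlgebra.coeff_sum, Finsupp.finsetSum_apply]
  refine Finset.sum_eq_zero fun f _ => ?_
  rw [MonoidAlgebra.coeff_single, Finsupp.single_apply, if_neg]
  rintro rfl
  exact hcon f.2

theorem ore4P_add {G : Type} [Group G] (F : Finset G) (t t' : F → ℤ) :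
    ore4P F (t + t') = ore4P F t + ore4P F t' := by
  unfold ore4P
  rw [← Finset.sum_add_distrib]
  refine Finset.sum_congr rfl fun f _ => ?_
  rw [Pi.add_apply, MonoidAlgebra.single_add]

theorem ore4P_smul {G : Type} [Group G] (F : Finset G) (n : ℤ) (t : F → ℤ) :
    ore4P F (n • t) = n • ore4P F t := by
  unfold ore4P
  rw [Finset.smul_sum]
  refine Finset.sum_congr rfl fun f _ => ?_
  rw [Pi.smul_apply, MonoidAlgebra.smul_single]

/-- the linear map `(p, q) ↦ p a - q b`, restricted to `T` -/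
noncomputable def ore4L {G : Type} [Group G] (F T : Finset G) (a b : MonoidAlgebra ℤ G) :
    ((F → ℤ) × (F → ℤ)) →ₗ[ℤ] (T → ℤ) where
  toFun t := fun g => (ore4P F t.1 * a - ore4P F t.2 * b).coeff g
  map_add' t t' := by
    funext g
    simp only [Prod.fst_add, Prod.snd_add, ore4P_add, add_mul, MonoidAlgebra.coeff_sub,
      MonoidAlgebra.coeff_add, Finsupp.sub_apply, Finsupp.add_apply, Pi.add_apply]
    ring
  map_smul' n t := by
    funext g
    simp only [Prod.smul_fst, Prod.smul_snd, ore4P_smul, smul_mul_assoc, MonoidAlgebra.coeff_sub,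
      MonoidAlgebra.coeff_smul, Finsupp.sub_apply, Finsupp.smul_apply, Pi.smul_apply,
      RingHom.id_apply, smul_sub]

theorem t_ORE4 : S_ORE4 := by
  classical
  intro G _ hF hz a b hb
  rw [ore_fol_iff] at hF
  set S := a.coeff.support ∪ b.coeff.support with hS
  obtain ⟨F, hFne, hFc⟩ := hF S (1 / 2) (by norm_num)
  set T := F * S with hT
  have hFpos : 0 < F.card := hFne.card_pos
  have hlt : T.card < 2 * F.card := by
    have h1 : (0 : ℝ) < F.card := by exact_mod_cast hFpos
    have h2 : (T.card : ℝ) < 2 * F.card := by linarith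
    exact_mod_cast h2
  have hninj : ¬ Function.Injective (ore4L F T a b) := by
    intro hinj
    have h1 := LinearMap.finrank_le_finrank_of_injective hinj
    rw [Module.finrank_prod, Module.finrank_fintype_fun_eq_card,
      Module.finrank_fintype_fun_eq_card, Fintype.card_coe, Fintype.card_coe] at h1
    omega
  rw [← LinearMap.ker_eq_bot, Submodule.eq_bot_iff] at hninj
  push Not at hninj
  obtain ⟨t, ht, ht0⟩ := hninj
  rw [LinearMap.mem_ker] at ht
  have heq : ore4P F t.1 * a = ore4P F t.2 * b := by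
    rw [← sub_eq_zero]
    apply MonoidAlgebra.ext
    ext g
    by_cases hg : g ∈ T
    · exact congrFun ht ⟨g, hg⟩
    · have hp : ∀ (s : F → ℤ) (c : MonoidAlgebra ℤ G), c.coeff.support ⊆ S →
          (ore4P F s * c).coeff g = 0 := by
        intro s c hc
        by_contra hne
        apply hg
        have h1 := MonoidAlgebra.support_coeff_mul_subset (ore4P F s) c (Finsupp.mem_support_iff.2 hne)
        exact Finset.mul_subset_mul (ore4P_support F s) hc h1
      rw [MonoidAlgebra.coeff_sub, Finsupp.sub_apply, hp _ _ Finset.subset_union_left,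
        hp _ _ Finset.subset_union_right]
      rfl
  refine ⟨ore4P F t.1, ore4P F t.2, ?_, heq⟩
  intro h0
  rw [h0, zero_mul] at heq
  have h2 : ore4P F t.2 = 0 := (mul_eq_zero.1 heq.symm).resolve_right hb
  apply ht0
  ext f
  · rw [← ore4P_coeff F t.1 f, h0]
    rfl
  · rw [← ore4P_coeff F t.2 f, h2]
    rfl

end Pool.Agent.H335PN
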