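import Pool.Agent.H335PN.Stmts

set_option autoImplicit false

/-! R12: unique roots and the power-conjugacy property from residual finiteness-`p`. -/

namespace Pool.Agent.H335PN

theorem r12_card {p : ℕ} (hp : p.Prime) {Q : Type} [Group Q] [Finite Q] (hQ : IsPGroup p Q) :
    ∃ k : ℕ, Nat.card Q = p ^ k := by
  have := Fact.mk hp
  exact hQ.exists_card_eq

theorem r12_order {p : ℕ} (hp : p.Prime) {Q : Type} [Group Q] (hQ : IsPGroup p Q) (x : Q) :
    ∃ k : ℕ, orderOf x = p ^ k := by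
  have := Fact.mk hp
  exact IsPGroup.iff_orderOf.1 hQ x

theorem r12_roots (G : Type) [Group G] (hG : ∀ p : ℕ, p.Prime → RFp p G) (a b : G) (n : ℕ)
    (hn : n ≠ 0) (hab : a ^ n = b ^ n) : a = b := by
  by_contra hne
  obtain ⟨p, hpn, hp⟩ := Nat.exists_infinite_primes (n + 1)
  obtain ⟨Q, hQg, hQf, f, hQ, hf⟩ := hG p hp (a * b⁻¹) (fun h => hne (mul_inv_eq_one.1 h))
  obtain ⟨k, hk⟩ := r12_card hp hQ
  have hcop : (Nat.card Q).Coprime n := by
    rw [hk]
    exact Nat.Coprime.pow_left _ ((Nat.Prime.coprime_iff_not_dvd hp).2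
      (fun h => by have := Nat.le_of_dvd (Nat.pos_of_ne_zero hn) h; omega))
  have h1 : f a = f b := by
    apply (powCoprime hcop).injective
    simp only [powCoprime_apply]
    rw [← map_pow, ← map_pow, hab]
  apply hf
  rw [map_mul, map_inv, h1, mul_inv_cancel]

theorem r12_tf (G : Type) [Group G] (hG : ∀ p : ℕ, p.Prime → RFp p G) (g : G) (n : ℤ)
    (hg : g ≠ 1) (hn : n ≠ 0) : g ^ n ≠ 1 := by
  intro h
  apply hg
  apply r12_roots G hG g 1 n.natAbs (by omega)
  rw [one_pow]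
  rcases Int.natAbs_eq n with h1 | h1
  · rw [h1, zpow_natCast] at h
    exact h
  · rw [h1, zpow_neg, zpow_natCast, inv_eq_one] at h
    exact h

theorem r12_orderOf_zpow {Q : Type} [Group Q] (x : Q) (n : ℤ) :
    orderOf (x ^ n) = orderOf (x ^ n.natAbs) := by
  rcases Int.natAbs_eq n with h1 | h1
  · conv_lhs => rw [h1, zpow_natCast]
  · conv_lhs => rw [h1, zpow_neg, zpow_natCast, orderOf_inv]

theorem r12_val (G : Type) [Group G] (hG : ∀ p : ℕ, p.Prime → RFp p G) (h g : G) (n m : ℤ)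
    (hg : g ≠ 1) (hn : n ≠ 0) (hm : m ≠ 0) (hc : h * g ^ n * h⁻¹ = g ^ m) :
    n.natAbs = m.natAbs := by
  apply Nat.eq_of_factorization_eq (by omega) (by omega)
  intro p
  by_cases hp : p.Prime
  swap
  · rw [Nat.factorization_eq_zero_of_not_prime _ hp, Nat.factorization_eq_zero_of_not_prime _ hp]
  set N := n.natAbs with hN
  set M := m.natAbs with hM
  set t := N.factorization p + M.factorization p with ht
  obtain ⟨Q, hQg, hQf, f, hQ, hf⟩ := hG p hp (g ^ (((p ^ t : ℕ)) : ℤ))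
    (r12_tf G hG g _ hg (by exact_mod_cast (pow_pos hp.pos t).ne'))
  obtain ⟨s, hs⟩ := r12_order hp hQ (f g)
  have hts : t ≤ s := by
    by_contra hcon
    apply hf
    rw [zpow_natCast, map_pow, ← orderOf_dvd_iff_pow_eq_one, hs]
    exact pow_dvd_pow p (by omega)
  have hord : orderOf (f g ^ N) = orderOf (f g ^ M) := by
    rw [hN, hM, ← r12_orderOf_zpow, ← r12_orderOf_zpow, ← map_zpow, ← map_zpow, ← hc, map_mul,
      map_mul, map_inv]
    exact (orderOf_injective (MulAut.conj (f h)).toMonoidHom (MulAut.conj (f h)).injective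
      (f (g ^ n))).symm
  have hfin : IsOfFinOrder (f g) := isOfFinOrder_of_finite _
  have hgcd : Nat.gcd (p ^ s) N = Nat.gcd (p ^ s) M := by
    rw [orderOf_pow, orderOf_pow, hs] at hord
    have h1 : 0 < p ^ s := pow_pos hp.pos s
    have h2 := Nat.gcd_dvd_left (p ^ s) N
    have h3 := Nat.gcd_dvd_left (p ^ s) M
    have h4 := Nat.div_mul_cancel h2
    have h5 := Nat.div_mul_cancel h3
    rw [hord] at h4
    have h6 : 0 < p ^ s / Nat.gcd (p ^ s) M := Nat.div_pos (Nat.le_of_dvd h1 h3)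
      (Nat.gcd_pos_of_pos_left _ h1)
    exact Nat.eq_of_mul_eq_mul_left h6 (h4.trans h5.symm)
  have key : ∀ A B : ℕ, A ≠ 0 → B ≠ 0 → A.factorization p ≤ s →
      Nat.gcd (p ^ s) A = Nat.gcd (p ^ s) B → A.factorization p ≤ B.factorization p := by
    intro A B hA hB hAs hgAB
    have h1 : p ^ A.factorization p ∣ Nat.gcd (p ^ s) A :=
      Nat.dvd_gcd (pow_dvd_pow p hAs) (Nat.ordProj_dvd A p)
    rw [hgAB] at h1
    exact (hp.pow_dvd_iff_le_factorization hB).1 (h1.trans (Nat.gcd_dvd_right _ _))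
  exact le_antisymm (key N M (by omega) (by omega) (by omega) hgcd)
    (key M N (by omega) (by omega) (by omega) hgcd.symm)

theorem r12_main (G : Type) [Group G] (hG : ∀ p : ℕ, p.Prime → RFp p G) :
    (∀ (a b : G) (n : ℕ), n ≠ 0 → a ^ n = b ^ n → a = b) ∧
    (∀ (h g : G) (n m : ℤ), g ≠ 1 → n ≠ 0 → h * g ^ n * h⁻¹ = g ^ m → n = m) := by
  refine ⟨r12_roots G hG, ?_⟩
  intro h g n m hg hn hc
  have hm : m ≠ 0 := by
    rintro rfl
    rw [zpow_zero, mul_inv_eq_one, mul_eq_left] at hc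
    exact r12_tf G hG g n hg hn hc
  rcases Int.natAbs_eq_natAbs_iff.1 (r12_val G hG h g n m hg hn hm hc) with h1 | h1
  · exact h1
  exfalso
  have hc' : h * g ^ n * h⁻¹ = (g ^ n)⁻¹ := by
    rw [hc, ← zpow_neg]
    congr 1
    omega
  obtain ⟨Q, hQg, hQf, f, hQ, hf⟩ := hG 3 Nat.prime_three (g ^ (2 * n))
    (r12_tf G hG g _ hg (by omega))
  obtain ⟨s, hs⟩ := r12_order Nat.prime_three hQ (f h)
  have hodd : Odd (orderOf (f h)) := by
    rw [hs]
    exact Odd.pow (by decide)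
  have h2 : Commute (f h ^ 2) (f (g ^ n)) := by
    have h3 : f h * f (g ^ n) = (f (g ^ n))⁻¹ * f h := by
      rw [← map_inv, ← hc', map_mul, map_mul, map_inv]
      group
    have h4 : f h * (f (g ^ n))⁻¹ = f (g ^ n) * f h := by
      rw [mul_inv_eq_iff_eq_mul, mul_assoc, h3]
      group
    show f h ^ 2 * f (g ^ n) = f (g ^ n) * f h ^ 2
    rw [pow_two, mul_assoc, h3, ← mul_assoc, h4, mul_assoc]
  obtain ⟨q, hq⟩ := hodd
  have h5 : f h = (f h ^ 2) ^ (q + 1) := by
    rw [← pow_mul]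
    have h6 : 2 * (q + 1) = orderOf (f h) + 1 := by omega
    rw [h6, pow_succ, pow_orderOf_eq_one, one_mul]
  have h7 : Commute (f h) (f (g ^ n)) := by
    rw [h5]
    exact h2.pow_left _
  have h8 : f (g ^ n) = (f (g ^ n))⁻¹ := by
    rw [← map_inv, ← hc', map_mul, map_mul, map_inv, h7.eq]
    group
  apply hf
  rw [two_mul, zpow_add, map_mul]
  conv_lhs => rw [h8]
  rw [inv_mul_eq_one]
  exact h8

theorem t_R12 : S_R12 := fun G _ hG => r12_main G hG

end Pool.Agent.H335PN
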