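import Pool.Agent.H335PN.Stmts

set_option autoImplicit false

namespace Pool.Agent.H335PN

open Pool.Agent.Helper777.Prof

namespace TRETaux

theorem lcs_le {G : Type} [Group G] (N : Subgroup G) [hN : N.Normal] (k : ℕ) : lcs N k ≤ N := by
  induction k with
  | zero => exact le_rfl
  | succ k ih => exact le_trans (Subgroup.commutator_mono ih le_rfl) (Subgroup.commutator_le_left N N)

theorem NN_le {G : Type} [Group G] (c : ℕ → ℕ) (i : ℕ) : NN G c i ≤ commutator G := by
  induction i with
  | zero => exact le_rfl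
  | succ i ih => exact le_trans (lcs_le _ _) ih

/-- Exponent sums. -/
noncomputable def th (r : ℕ) : FreeGroup (Fin r) →* Multiplicative (Fin r → ℤ) where
  toFun w := Multiplicative.ofAdd
    (⇑(FreeAbelianGroup.toFinsupp (X := Fin r) (Additive.ofMul (Abelianization.of w))))
  map_one' := by
    have h0 : FreeAbelianGroup.toFinsupp (X := Fin r) (0 : FreeAbelianGroup (Fin r)) = 0 :=
      map_zero _
    rw [map_one, ofMul_one]
    exact congrArg (fun x : Fin r →₀ ℤ => Multiplicative.ofAdd (⇑x)) h0
  map_mul' a b := by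
    rw [map_mul, ofMul_mul]
    have : FreeAbelianGroup.toFinsupp (X := Fin r)
        (Additive.ofMul (Abelianization.of a) + Additive.ofMul (Abelianization.of b)) =
        FreeAbelianGroup.toFinsupp (X := Fin r) (Additive.ofMul (Abelianization.of a)) +
        FreeAbelianGroup.toFinsupp (X := Fin r) (Additive.ofMul (Abelianization.of b)) :=
      map_add _ _ _
    rw [this, Finsupp.coe_add, ofAdd_add]

theorem th_ker (r : ℕ) (w : FreeGroup (Fin r)) :
    th r w = 1 ↔ w ∈ commutator (FreeGroup (Fin r)) := by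
  constructor
  · intro h
    have h1 : (⇑(FreeAbelianGroup.toFinsupp (X := Fin r)
        (Additive.ofMul (Abelianization.of w)))) = 0 := by
      have := congrArg Multiplicative.toAdd h
      exact this
    have h2 : FreeAbelianGroup.toFinsupp (X := Fin r)
        (Additive.ofMul (Abelianization.of w)) = 0 := by
      apply DFunLike.coe_injective
      rw [h1]; rfl
    have h3 : (Additive.ofMul (Abelianization.of w) : FreeAbelianGroup (Fin r)) = 0 := by
      apply (FreeAbelianGroup.equivFinsupp (Fin r)).injective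
      have h0 : (FreeAbelianGroup.equivFinsupp (Fin r)) (0 : FreeAbelianGroup (Fin r)) = 0 :=
        map_zero _
      exact h2.trans h0.symm
    have h4 : Abelianization.of w = 1 := congrArg Additive.toMul h3
    exact (QuotientGroup.eq_one_iff w).mp h4
  · intro h
    have h4 : Abelianization.of w = 1 := (QuotientGroup.eq_one_iff w).mpr h
    change Multiplicative.ofAdd
      (⇑(FreeAbelianGroup.toFinsupp (X := Fin r) (Additive.ofMul (Abelianization.of w)))) = 1
    have h0 : FreeAbelianGroup.toFinsupp (X := Fin r) (0 : FreeAbelianGroup (Fin r)) = 0 :=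
      map_zero _
    rw [h4, ofMul_one]
    exact congrArg (fun x : Fin r →₀ ℤ => Multiplicative.ofAdd (⇑x)) h0

theorem th_surj (r : ℕ) : Function.Surjective (th r) := by
  intro v
  obtain ⟨x, hx⟩ := (FreeAbelianGroup.equivFinsupp (Fin r)).surjective
    (Finsupp.equivFunOnFinite.symm v.toAdd)
  obtain ⟨w, hw⟩ := QuotientGroup.mk_surjective (Additive.toMul x)
  refine ⟨w, ?_⟩
  change Multiplicative.ofAdd
      (⇑(FreeAbelianGroup.toFinsupp (X := Fin r) (Additive.ofMul (Abelianization.of w)))) = v
  have h1 : (Additive.ofMul (Abelianization.of w) : FreeAbelianGroup (Fin r)) = x := by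
    have : Abelianization.of w = Additive.toMul x := hw
    rw [this]; rfl
  rw [h1]
  have h2 : FreeAbelianGroup.toFinsupp x = Finsupp.equivFunOnFinite.symm v.toAdd := hx
  rw [h2]
  rfl

/-- Exponent sums on the polynilpotent group. -/
noncomputable def ph (r : ℕ) (c : ℕ → ℕ) (l : ℕ) : PN r c l →* Multiplicative (Fin r → ℤ) :=
  QuotientGroup.lift _ (th r) (fun w hw => (th_ker r w).mpr (NN_le c l hw))

theorem ph_mk (r : ℕ) (c : ℕ → ℕ) (l : ℕ) (w : FreeGroup (Fin r)) :
    ph r c l (QuotientGroup.mk w) = th r w := rfl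

theorem ph_surj (r : ℕ) (c : ℕ → ℕ) (l : ℕ) : Function.Surjective (ph r c l) := by
  intro v
  obtain ⟨w, hw⟩ := th_surj r v
  exact ⟨QuotientGroup.mk w, hw⟩

theorem ph_ker (r : ℕ) (c : ℕ → ℕ) (l : ℕ) (g : PN r c l) :
    ph r c l g = 1 ↔ g ∈ commutator (PN r c l) := by
  have hmap : (commutator (FreeGroup (Fin r))).map
      (QuotientGroup.mk' (NN (FreeGroup (Fin r)) c l)) = commutator (PN r c l) := by
    rw [commutator_def, commutator_def, Subgroup.map_commutator]
    rw [Subgroup.map_top_of_surjective _ (QuotientGroup.mk'_surjective _)]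
  obtain ⟨w, rfl⟩ := QuotientGroup.mk_surjective g
  rw [ph_mk, th_ker, ← hmap]
  constructor
  · intro h
    exact ⟨w, h, rfl⟩
  · rintro ⟨v, hv, hvw⟩
    have h1 : v⁻¹ * w ∈ NN (FreeGroup (Fin r)) c l := QuotientGroup.eq.mp hvw
    have h2 := (commutator (FreeGroup (Fin r))).mul_mem hv (NN_le c l h1)
    rwa [mul_inv_cancel_left] at h2

end TRETaux

-- BEGIN TARGET
theorem t_RET (h1 : S_VC) (h2 : S_LIN) (h3 : S_RK1) (h4 : S_RK2) (h5 : S_TST) : S_RET := by
  intro r c l hl hc H hH hV
  obtain ⟨a, b, hab⟩ := hH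
  obtain ⟨-, hpure⟩ := h1 (PN r c l) H hV
  set φ := TRETaux.ph r c l with hφ
  have haH : a ∈ H := by rw [hab]; exact Subgroup.subset_closure (by simp)
  have hbH : b ∈ H := by rw [hab]; exact Subgroup.subset_closure (by simp)
  -- the image of `H`
  have himg : ∀ h ∈ H, (φ h).toAdd ∈ AddSubgroup.closure {(φ a).toAdd, (φ b).toAdd} := by
    intro h hh
    rw [hab] at hh
    induction hh using Subgroup.closure_induction with
    | mem x hx =>
      rcases hx with rfl | hx
      · exact AddSubgroup.subset_closure (by simp)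
      · rw [Set.mem_singleton_iff] at hx
        subst hx
        exact AddSubgroup.subset_closure (by simp)
    | one => rw [map_one, toAdd_one]; exact AddSubgroup.zero_mem _
    | mul x y _ _ hx hy => rw [map_mul, toAdd_mul]; exact AddSubgroup.add_mem _ hx hy
    | inv x _ hx => rw [map_inv, toAdd_inv]; exact AddSubgroup.neg_mem _ hx
  have hpre : ∀ v ∈ AddSubgroup.closure {(φ a).toAdd, (φ b).toAdd}, ∃ h ∈ H,
      (φ h).toAdd = v := by
    intro v hv
    induction hv using AddSubgroup.closure_induction with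
    | mem x hx =>
      rcases hx with rfl | hx
      · exact ⟨a, haH, rfl⟩
      · rw [Set.mem_singleton_iff] at hx
        exact ⟨b, hbH, hx.symm⟩
    | zero => exact ⟨1, H.one_mem, by rw [map_one, toAdd_one]⟩
    | add x y _ _ hx hy =>
      obtain ⟨p, hp, rfl⟩ := hx
      obtain ⟨q, hq, rfl⟩ := hy
      exact ⟨p * q, H.mul_mem hp hq, by rw [map_mul, toAdd_mul]⟩
    | neg x _ hx =>
      obtain ⟨p, hp, rfl⟩ := hx
      exact ⟨p⁻¹, H.inv_mem hp, by rw [map_inv, toAdd_inv]⟩
  have hpure' : ∀ v : Fin r → ℤ, ∀ n : ℕ, n ≠ 0 →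
      n • v ∈ AddSubgroup.closure {(φ a).toAdd, (φ b).toAdd} →
      v ∈ AddSubgroup.closure {(φ a).toAdd, (φ b).toAdd} := by
    intro v n hn hv
    obtain ⟨h, hh, hφh⟩ := hpre _ hv
    obtain ⟨g, hg⟩ := TRETaux.ph_surj r c l (Multiplicative.ofAdd v)
    have hgv : (φ g).toAdd = v := congrArg Multiplicative.toAdd hg
    have hgn : g ^ n * h⁻¹ ∈ commutator (PN r c l) := by
      rw [← TRETaux.ph_ker]
      apply Multiplicative.toAdd.injective
      change (φ (g ^ n * h⁻¹)).toAdd = (1 : Multiplicative (Fin r → ℤ)).toAdd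
      rw [map_mul, map_pow, map_inv, toAdd_mul, toAdd_pow, toAdd_inv, hgv, hφh, toAdd_one,
        add_neg_cancel]
    obtain ⟨k, hk, hkn⟩ := hpure h hh n g hgn
    rw [← TRETaux.ph_ker] at hkn
    have hkn' : (φ (k ^ n * h⁻¹)).toAdd = 0 := by
      have := congrArg Multiplicative.toAdd hkn
      exact this
    rw [map_mul, map_pow, map_inv, toAdd_mul, toAdd_pow, toAdd_inv, hφh] at hkn'
    have hkv : n • (φ k).toAdd = n • v := by
      rwa [← sub_eq_add_neg, sub_eq_zero] at hkn'
    have hkv' : (φ k).toAdd = v := by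
      funext i
      have := congrFun hkv i
      simp only [Pi.smul_apply, nsmul_eq_mul] at this
      exact mul_left_cancel₀ (by exact_mod_cast hn) this
    rw [← hkv']
    exact himg k hk
  rcases h2 r (φ a).toAdd (φ b).toAdd hpure' with ⟨f, hfa, hfb⟩ | ⟨d, hd, hd'⟩
  · refine h4 r c l H hV (h5 c l hl hc) a b hab ⟨(AddMonoidHom.toMultiplicative f).comp φ, ?_, ?_⟩
    · change Multiplicative.ofAdd (f (φ a).toAdd) = _
      rw [hfa]
    · change Multiplicative.ofAdd (f (φ b).toAdd) = _
      rw [hfb]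
  · refine h3 r c l H hV ⟨a, b, hab⟩ ⟨φ, d, TRETaux.ph_ker r c l, ?_, ?_, hd'⟩
    · intro h hh
      rw [← hd]
      exact himg h hh
    · apply hpre
      rw [hd]
      exact AddSubgroup.subset_closure (by simp)
-- END TARGET

end Pool.Agent.H335PN
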