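import Pool.Agent.H335PN.Stmts

set_option autoImplicit false
set_option linter.all false

namespace Pool.Agent.H335PN.TRF

open Pool.Agent.H335PN

/-! ### lower central series and homomorphisms -/

theorem lcs_le {G : Type} [Group G] (N : Subgroup G) [N.Normal] (k : ℕ) : lcs N k ≤ N := by
  induction k with
  | zero => exact le_rfl
  | succ k ih =>
    show ⁅lcs N k, N⁆ ≤ N
    exact Subgroup.commutator_le_right _ _

theorem lcs_map {G H : Type} [Group G] [Group H] (f : G →* H) (N : Subgroup G) (M : Subgroup H)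
    (h : N.map f ≤ M) (k : ℕ) : (lcs N k).map f ≤ lcs M k := by
  induction k with
  | zero => exact h
  | succ k ih =>
    show (⁅lcs N k, N⁆).map f ≤ ⁅lcs M k, M⁆
    rw [Subgroup.map_commutator]
    exact Subgroup.commutator_mono ih h

theorem lcs_top_map {G H : Type} [Group G] [Group H] (f : G →* H) (k : ℕ) {w : G}
    (hw : w ∈ lcs (⊤ : Subgroup G) k) : f w ∈ lcs (⊤ : Subgroup H) k :=
  lcs_map f ⊤ ⊤ le_top k (Subgroup.mem_map_of_mem f hw)

/-! ### residually finite `p` -/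

theorem pgrp_prod {p : ℕ} {A B : Type} [Group A] [Group B] (hA : IsPGroup p A)
    (hB : IsPGroup p B) : IsPGroup p (A × B) := by
  intro x
  obtain ⟨m, hm⟩ := hA x.1
  obtain ⟨n, hn⟩ := hB x.2
  refine ⟨m + n, ?_⟩
  refine Prod.ext ?_ ?_
  · show x.1 ^ (p ^ (m + n)) = 1
    rw [pow_add, pow_mul, hm, one_pow]
  · show x.2 ^ (p ^ (m + n)) = 1
    rw [pow_add, mul_comm, pow_mul, hn, one_pow]

theorem rfp_fin {p : ℕ} {G : Type} [Group G] (h : RFp p G) (S : Finset G) (hS : (1 : G) ∉ S) :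
    ∃ (Q : Type) (_ : Group Q) (_ : Finite Q) (f : G →* Q), IsPGroup p Q ∧ ∀ s ∈ S, f s ≠ 1 := by
  classical
  induction S using Finset.induction_on with
  | empty =>
    refine ⟨Unit, inferInstance, inferInstance, 1, ?_, by simp⟩
    intro x
    exact ⟨0, Subsingleton.elim _ _⟩
  | insert a S ha ih =>
    obtain ⟨Q, i1, i2, f, hQ, hf⟩ := ih (fun h => hS (Finset.mem_insert_of_mem h))
    obtain ⟨Q', i1', i2', f', hQ', hf'⟩ := h a (fun h => hS (h ▸ Finset.mem_insert_self _ _))
    refine ⟨Q' × Q, inferInstance, inferInstance, f'.prod f, pgrp_prod hQ' hQ, ?_⟩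
    intro s hs h0
    rw [MonoidHom.prod_apply, Prod.mk_eq_one] at h0
    rcases Finset.mem_insert.1 hs with rfl | h1
    · exact hf' h0.1
    · exact hf s h1 h0.2

theorem rfp_inj {p : ℕ} {G : Type} [Group G] (h : RFp p G) (T : Finset G) :
    ∃ (Q : Type) (_ : Group Q) (_ : Finite Q) (f : G →* Q), IsPGroup p Q ∧
      ∀ a ∈ T, ∀ b ∈ T, f a = f b → a = b := by
  classical
  obtain ⟨Q, i1, i2, f, hQ, hf⟩ := rfp_fin h
    (((T ×ˢ T).filter (fun x => x.1 ≠ x.2)).image (fun x => x.1 * x.2⁻¹)) (by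
      intro h1
      obtain ⟨x, hx, hx1⟩ := Finset.mem_image.1 h1
      exact (Finset.mem_filter.1 hx).2 (mul_inv_eq_one.1 hx1))
  refine ⟨Q, i1, i2, f, hQ, ?_⟩
  intro a ha b hb hab
  by_contra hne
  refine hf (a * b⁻¹) ?_ ?_
  · exact Finset.mem_image.2 ⟨(a, b), Finset.mem_filter.2 ⟨Finset.mem_product.2 ⟨ha, hb⟩, hne⟩, rfl⟩
  · rw [map_mul, map_inv, hab, mul_inv_cancel]

/-! ### unitriangular matrices -/

section UT

variable (k : Type) [CommRing k] (c : ℕ)

/-- strictly upper triangular at distance `d` -/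
def SU {k : Type} [CommRing k] {c : ℕ} (d : ℕ) (M : Matrix (Fin (c + 1)) (Fin (c + 1)) k) : Prop :=
  ∀ i j : Fin (c + 1), (j : ℕ) < (i : ℕ) + d → M i j = 0

variable {k c}

theorem SU_mul {d e : ℕ} {M N : Matrix (Fin (c + 1)) (Fin (c + 1)) k} (hM : SU d M) (hN : SU e N) :
    SU (d + e) (M * N) := by
  intro i j hij
  rw [Matrix.mul_apply]
  refine Finset.sum_eq_zero fun l _ => ?_
  by_cases h : (l : ℕ) < (i : ℕ) + d
  · rw [hM i l h, zero_mul]
  · rw [hN l j (by omega), mul_zero]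

theorem SU_add {d : ℕ} {M N : Matrix (Fin (c + 1)) (Fin (c + 1)) k} (hM : SU d M) (hN : SU d N) :
    SU d (M + N) := by
  intro i j hij
  rw [Matrix.add_apply, hM i j hij, hN i j hij, add_zero]

theorem SU_mono {d e : ℕ} (h : e ≤ d) {M : Matrix (Fin (c + 1)) (Fin (c + 1)) k} (hM : SU d M) :
    SU e M := fun i j hij => hM i j (by omega)

theorem SU_pow {M : Matrix (Fin (c + 1)) (Fin (c + 1)) k} (hM : SU 1 M) (n : ℕ) :
    SU n (M ^ n) := by
  induction n with
  | zero =>
    intro i j hij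
    rw [pow_zero, Matrix.one_apply_ne (by rintro rfl; omega)]
  | succ n ih =>
    rw [pow_succ]
    exact SU_mul ih hM

theorem SU_top {M : Matrix (Fin (c + 1)) (Fin (c + 1)) k} {d : ℕ} (hd : c + 1 ≤ d) (hM : SU d M) :
    M = 0 := by
  ext i j
  exact hM i j (by have := j.isLt; omega)

theorem pow_dvd_split {p a b x y : ℕ} (hp : p.Prime) (h : p ^ (a + b + 1) ∣ x * y) :
    p ^ (a + 1) ∣ x ∨ p ^ (b + 1) ∣ y := by
  rcases Nat.eq_zero_or_pos x with rfl | hx
  · exact Or.inl (dvd_zero _)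
  obtain ⟨n, x', hx', hn⟩ := Nat.exists_eq_pow_mul_and_not_dvd hx.ne' p hp.ne_one
  by_cases hna : a + 1 ≤ n
  · left
    rw [hn]
    exact (pow_dvd_pow p hna).trans (dvd_mul_right _ _)
  · right
    have h1 : p ^ n * p ^ (a + b + 1 - n) ∣ p ^ n * (x' * y) := by
      rw [← pow_add, ← mul_assoc, ← hn]
      rwa [show n + (a + b + 1 - n) = a + b + 1 by omega]
    have h2 := Nat.dvd_of_mul_dvd_mul_left (Nat.pow_pos hp.pos) h1
    have h3 := hp.prime.pow_dvd_of_dvd_mul_left _ hx' h2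
    exact (pow_dvd_pow p (by omega)).trans h3

theorem unip_pow {p m : ℕ} (hp : p.Prime) (hk : ((p ^ m : ℕ) : k) = 0)
    {M : Matrix (Fin (c + 1)) (Fin (c + 1)) k} (hM : SU 1 (M - 1)) :
    M ^ (p ^ (m + c)) = 1 := by
  set N := M - 1 with hN
  have hM1 : M = N + 1 := by rw [hN]; abel
  rw [hM1, (Commute.one_right N).add_pow]
  rw [Finset.sum_eq_single 0]
  · simp
  · intro i hi hi0
    rw [one_pow, mul_one]
    by_cases hic : c < i
    · rw [SU_top (by omega) (SU_pow hM i), zero_mul]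
    · have hd : p ^ m ∣ (p ^ (m + c)).choose i := by
        obtain ⟨i', rfl⟩ : ∃ i', i = i' + 1 := ⟨i - 1, by omega⟩
        obtain ⟨n', hn'⟩ : ∃ n', p ^ (m + c) = n' + 1 := ⟨p ^ (m + c) - 1, by
          have := Nat.pow_pos (n := m + c) hp.pos; omega⟩
        have h1 := Nat.add_one_mul_choose_eq n' i'
        rw [← hn'] at h1
        have h2 : p ^ (m + c) ∣ (i' + 1) * (p ^ (m + c)).choose (i' + 1) := by
          rw [mul_comm (i' + 1), ← h1]
          exact dvd_mul_right _ _
        rcases Nat.eq_zero_or_pos m with hm | hm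
        · rw [hm, pow_zero]; exact one_dvd _
        obtain ⟨m', rfl⟩ : ∃ m', m = m' + 1 := ⟨m - 1, by omega⟩
        obtain ⟨c', rfl⟩ : ∃ c', c = c' + 1 := ⟨c - 1, by omega⟩
        have h3 : p ^ (c' + m' + 1) ∣ (i' + 1) * (p ^ (m' + 1 + (c' + 1))).choose (i' + 1) :=
          (pow_dvd_pow p (by omega)).trans h2
        rcases pow_dvd_split hp h3 with h4 | h4
        · exfalso
          have h5 := Nat.le_of_dvd (by omega) h4
          have h6 : c' + 1 < p ^ (c' + 1) := Nat.lt_pow_self hp.one_lt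
          omega
        · exact h4
      obtain ⟨q, hq⟩ := hd
      rw [hq, Nat.cast_mul]
      have : ((p ^ m : ℕ) : Matrix (Fin (c + 1)) (Fin (c + 1)) k) = 0 := by
        ext a b
        rw [Matrix.natCast_apply]
        split_ifs
        · exact hk
        · simp
      rw [this, zero_mul, mul_zero]
  · intro h
    exact absurd (Finset.mem_range.2 (Nat.succ_pos _)) h

/-- the unitriangular group -/
def UT (k : Type) [CommRing k] (c : ℕ) (p m : ℕ) (hp : p.Prime) (hk : ((p ^ m : ℕ) : k) = 0) :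
    Subgroup (Matrix (Fin (c + 1)) (Fin (c + 1)) k)ˣ :=
  let S : Submonoid (Matrix (Fin (c + 1)) (Fin (c + 1)) k)ˣ :=
    { carrier := {u | SU 1 ((u : Matrix (Fin (c + 1)) (Fin (c + 1)) k) - 1)}
      one_mem' := by
        intro i j _
        simp
      mul_mem' := by
        intro a b ha hb
        have h1 : ((a * b : (Matrix (Fin (c + 1)) (Fin (c + 1)) k)ˣ) :
            Matrix (Fin (c + 1)) (Fin (c + 1)) k) - 1 =
            ((a : Matrix (Fin (c + 1)) (Fin (c + 1)) k) - 1) *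
              ((b : Matrix (Fin (c + 1)) (Fin (c + 1)) k) - 1) +
            (((a : Matrix (Fin (c + 1)) (Fin (c + 1)) k) - 1) +
              ((b : Matrix (Fin (c + 1)) (Fin (c + 1)) k) - 1)) := by
          rw [Units.val_mul]
          noncomm_ring
        show SU 1 _
        rw [h1]
        exact SU_add (SU_mono (by omega) (SU_mul ha hb)) (SU_add ha hb) }
  { S with
    inv_mem' := by
      intro u hu
      have h1 : u ^ (p ^ (m + c)) = 1 := Units.ext (by
        rw [Units.val_pow_eq_pow_val, Units.val_one]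
        exact unip_pow hp hk hu)
      have h2 : u⁻¹ = u ^ (p ^ (m + c) - 1) := by
        refine inv_eq_of_mul_eq_one_right ?_
        rw [← pow_succ', Nat.sub_add_cancel (Nat.pow_pos (n := m + c) hp.pos), h1]
      rw [h2]
      exact S.pow_mem hu _ }

theorem mem_UT {p m : ℕ} (hp : p.Prime) (hk : ((p ^ m : ℕ) : k) = 0)
    (u : (Matrix (Fin (c + 1)) (Fin (c + 1)) k)ˣ) :
    u ∈ UT k c p m hp hk ↔ SU 1 ((u : Matrix (Fin (c + 1)) (Fin (c + 1)) k) - 1) := Iff.rfl

theorem rep_mem {p m : ℕ} (hp : p.Prime) (hk : ((p ^ m : ℕ) : k) = 0) {X : Type} [DecidableEq X]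
    (L : Fin c → X) (u : FreeGroup X) : rep k L u ∈ UT k c p m hp hk := by
  induction u using FreeGroup.induction_on with
  | C1 => rw [map_one]; exact one_mem _
  | of x =>
    rw [mem_UT]
    unfold rep
    rw [FreeGroup.lift_apply_of, IsUnit.unit_spec, add_sub_cancel_left]
    intro i j hij
    unfold em
    rw [dif_neg (by omega)]
  | inv_of x h => rw [map_inv]; exact inv_mem h
  | mul x y hx hy => rw [map_mul]; exact mul_mem hx hy

end UT

/-- letters of a word -/
theorem letters {X : Type} (u : FreeGroup X) :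
    ∃ S : Finset X, u ∈ Subgroup.closure (FreeGroup.of '' (S : Set X)) := by
  classical
  induction u using FreeGroup.induction_on with
  | C1 => exact ⟨∅, one_mem _⟩
  | of x => exact ⟨{x}, Subgroup.subset_closure ⟨x, by simp, rfl⟩⟩
  | inv_of x h =>
    obtain ⟨S, hS⟩ := h
    exact ⟨S, inv_mem hS⟩
  | mul x y hx hy =>
    obtain ⟨S, hS⟩ := hx
    obtain ⟨T, hT⟩ := hy
    refine ⟨S ∪ T, mul_mem ?_ ?_⟩
    · refine Subgroup.closure_mono (Set.image_mono ?_) hS
      simp
    · refine Subgroup.closure_mono (Set.image_mono ?_) hT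
      simp

theorem em_eq {k : Type} [CommRing k] {X Y : Type} [DecidableEq X] [DecidableEq Y] {c : ℕ}
    (L : Fin c → X) (L' : Fin c → Y) (x : X) (y : Y) (h : ∀ i, L' i = y ↔ L i = x) :
    em k L' y = em k L x := by
  ext i j
  unfold em
  by_cases hij : (i : ℕ) + 1 = (j : ℕ)
  · rw [dif_pos hij, dif_pos hij]
    by_cases h1 : L ⟨i, by have := j.isLt; omega⟩ = x
    · rw [if_pos h1, if_pos ((h _).2 h1)]
    · rw [if_neg h1, if_neg (fun h2 => h1 ((h _).1 h2))]
  · rw [dif_neg hij, dif_neg hij]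

theorem rep_of {k : Type} [CommRing k] {X : Type} [DecidableEq X] {c : ℕ}
    (L : Fin c → X) (x : X) :
    ((rep k L (FreeGroup.of x) : (Matrix (Fin (c + 1)) (Fin (c + 1)) k)ˣ) :
      Matrix (Fin (c + 1)) (Fin (c + 1)) k) = 1 + em k L x := by
  unfold rep
  rw [FreeGroup.lift_apply_of, IsUnit.unit_spec]

theorem rep_transfer {k : Type} [CommRing k] {X Y : Type} [DecidableEq X] [DecidableEq Y] {c : ℕ}
    (L : Fin c → X) (f : X → Y) (S : Finset X)
    (h : ∀ x ∈ S, ∀ i, f (L i) = f x → L i = x) (u : FreeGroup X)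
    (hu : u ∈ Subgroup.closure (FreeGroup.of '' (S : Set X))) :
    rep k (fun i => f (L i)) (FreeGroup.map f u) = rep k L u := by
  induction hu using Subgroup.closure_induction with
  | mem x hx =>
    obtain ⟨y, hy, rfl⟩ := hx
    refine Units.ext ?_
    rw [FreeGroup.map.of, rep_of, rep_of]
    congr 1
    exact em_eq _ _ _ _ fun i => ⟨fun h1 => h y hy i h1, fun h1 => by rw [h1]⟩
  | one => simp
  | mul x y _ _ hx hy => rw [map_mul, map_mul, map_mul, hx, hy]
  | inv x _ hx => rw [map_inv, map_inv, map_inv, hx]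

theorem rep_base {k : Type} [CommRing k] {X : Type} [DecidableEq X] {c : ℕ}
    (L : Fin c → X) (u : FreeGroup X) :
    rep k L u = Units.map ((Int.castRingHom k).mapMatrix.toMonoidHom) (rep ℤ L u) := by
  have h : rep k L = (Units.map ((Int.castRingHom k).mapMatrix.toMonoidHom)).comp (rep ℤ L) := by
    refine FreeGroup.ext_hom _ _ fun x => ?_
    refine Units.ext ?_
    rw [rep_of, MonoidHom.comp_apply, Units.coe_map, rep_of]
    show 1 + em k L x = (Int.castRingHom k).mapMatrix (1 + em ℤ L x)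
    rw [map_add, map_one]
    congr 1
    ext i j
    rw [RingHom.mapMatrix_apply, Matrix.map_apply]
    unfold em
    by_cases hij : (i : ℕ) + 1 = (j : ℕ)
    · rw [dif_pos hij, dif_pos hij]
      split_ifs <;> simp
    · rw [dif_neg hij, dif_neg hij]
      simp
  rw [h]
  rfl

theorem base_entry (p m : ℕ) (d : ℤ) (h : ¬ ((p ^ m : ℕ) : ℤ) ∣ d) : ((d : ℤ) : ZMod (p ^ m)) ≠ 0 := by
  rw [Ne, ZMod.intCast_zmod_eq_zero_iff_dvd]
  exact h

theorem exists_pow_not_dvd {p : ℕ} (hp : p.Prime) (d : ℤ) (hd : d ≠ 0) :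
    ∃ m : ℕ, ¬ ((p ^ m : ℕ) : ℤ) ∣ d := by
  refine ⟨d.natAbs, fun h => ?_⟩
  have h1 := Int.natAbs_dvd_natAbs.2 h
  rw [Int.natAbs_natCast] at h1
  have h2 := Nat.le_of_dvd (Int.natAbs_pos.2 hd) h1
  exact absurd (Nat.lt_pow_self (n := d.natAbs) hp.one_lt) (by omega)

section target

variable (k : Type) [CommRing k] {c : ℕ} {p m : ℕ} (hp : p.Prime) (hk : ((p ^ m : ℕ) : k) = 0)
variable (Q ι : Type) [Group Q]

/-- translation of words -/
def tr (q : Q) (L : Fin c → Q × ι) : Fin c → Q × ι := fun i => perm ι q (L i)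

theorem tr_mul (q r : Q) (L : Fin c → Q × ι) : tr Q ι (q * r) L = tr Q ι q (tr Q ι r L) := by
  funext i
  simp [tr, perm, mul_assoc]

theorem tr_one (L : Fin c → Q × ι) : tr Q ι 1 L = L := by
  funext i
  simp [tr, perm]

/-- the action on the product -/
def actA (A : Type) [Group A] (c : ℕ) : Q →* MulAut ((Fin c → Q × ι) → A) where
  toFun q :=
    { toFun := fun a L => a (tr Q ι q⁻¹ L)
      invFun := fun a L => a (tr Q ι q L)
      left_inv := by
        intro a
        funext L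
        show a (tr Q ι q⁻¹ (tr Q ι q L)) = a L
        rw [← tr_mul, inv_mul_cancel, tr_one]
      right_inv := by
        intro a
        funext L
        show a (tr Q ι q (tr Q ι q⁻¹ L)) = a L
        rw [← tr_mul, mul_inv_cancel, tr_one]
      map_mul' := fun a b => rfl }
  map_one' := by
    ext a L
    show a (tr Q ι 1⁻¹ L) = a L
    rw [inv_one, tr_one]
  map_mul' q r := by
    ext a L
    show a (tr Q ι (q * r)⁻¹ L) = a (tr Q ι r⁻¹ (tr Q ι q⁻¹ L))
    rw [mul_inv_rev, tr_mul]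

theorem actA_apply (A : Type) [Group A] (c : ℕ) (q : Q) (a : (Fin c → Q × ι) → A)
    (L : Fin c → Q × ι) : actA Q ι A c q a L = a (tr Q ι q⁻¹ L) := rfl

end target

/-- representation with values in the unitriangular group -/
noncomputable def repU (k : Type) [CommRing k] {c : ℕ} {p m : ℕ} (hp : p.Prime)
    (hk : ((p ^ m : ℕ) : k) = 0) {X : Type} [DecidableEq X] (L : Fin c → X) :
    FreeGroup X →* UT k c p m hp hk :=
  (rep k L).codRestrict _ (rep_mem hp hk L)

/-- the map from the free group on `Γ × ι` -/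
noncomputable def fn (k : Type) [CommRing k] (c : ℕ) {p m : ℕ} (hp : p.Prime)
    (hk : ((p ^ m : ℕ) : k) = 0) {Γ Q ι : Type} [Group Γ] [Group Q] [DecidableEq Q]
    [DecidableEq ι] (f : Γ →* Q) :
    FreeGroup (Γ × ι) →* ((Fin c → Q × ι) → UT k c p m hp hk) :=
  MonoidHom.mk' (fun u L => repU k hp hk L (FreeGroup.map (fun x : Γ × ι => (f x.1, x.2)) u)) (by
    intro a b
    funext L
    rw [Pi.mul_apply, map_mul, map_mul])

theorem fn_equiv (k : Type) [CommRing k] (c : ℕ) {p m : ℕ} (hp : p.Prime)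
    (hk : ((p ^ m : ℕ) : k) = 0) {Γ Q ι : Type} [Group Γ] [Group Q] [DecidableEq Q]
    [DecidableEq ι] (f : Γ →* Q) (g : Γ) (u : FreeGroup (Γ × ι)) :
    fn k c hp hk f (act Γ ι g u) =
      actA Q ι (UT k c p m hp hk) c (f g) (fn k c hp hk f u) := by
  funext L
  rw [actA_apply]
  have h : ((repU k hp hk L).comp (FreeGroup.map (fun x : Γ × ι => (f x.1, x.2)))).comp
      (act Γ ι g).toMonoidHom =
      (repU k hp hk (tr Q ι (f g)⁻¹ L)).comp (FreeGroup.map (fun x : Γ × ι => (f x.1, x.2))) := by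
    refine FreeGroup.ext_hom _ _ fun x => ?_
    refine Subtype.ext (Units.ext ?_)
    show ((rep k L (FreeGroup.map _ (FreeGroup.freeGroupCongr (perm ι g) (FreeGroup.of x))) :
      (Matrix (Fin (c + 1)) (Fin (c + 1)) k)ˣ) : Matrix (Fin (c + 1)) (Fin (c + 1)) k) =
      ((rep k (tr Q ι (f g)⁻¹ L) (FreeGroup.map _ (FreeGroup.of x)) :
      (Matrix (Fin (c + 1)) (Fin (c + 1)) k)ˣ) : Matrix (Fin (c + 1)) (Fin (c + 1)) k)
    rw [FreeGroup.freeGroupCongr_apply, FreeGroup.map.of, FreeGroup.map.of, FreeGroup.map.of,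
      rep_of, rep_of]
    congr 1
    refine em_eq _ _ _ _ fun i => ?_
    show L i = (f (g * x.1), x.2) ↔ ((f g)⁻¹ * (L i).1, (L i).2) = (f x.1, x.2)
    rw [map_mul]
    constructor
    · intro h
      rw [h]
      simp
    · intro h
      have h1 := (Prod.ext_iff.1 h).1
      have h2 := (Prod.ext_iff.1 h).2
      refine Prod.ext ?_ h2
      show (L i).1 = f g * f x.1
      have h3 : (f g)⁻¹ * (L i).1 = f x.1 := h1
      rw [← h3, mul_inv_cancel_left]
  exact congrArg (fun φ : FreeGroup (Γ × ι) →* UT k c p m hp hk => φ u) h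

theorem sd_finite {N G : Type} [Group N] [Group G] (φ : G →* MulAut N) [Finite N] [Finite G] :
    Finite (N ⋊[φ] G) :=
  Finite.of_injective (fun x : N ⋊[φ] G => (x.left, x.right)) (by
    intro x y h
    exact SemidirectProduct.ext (Prod.ext_iff.1 h).1 (Prod.ext_iff.1 h).2)

theorem sd_pgroup {p : ℕ} {N G : Type} [Group N] [Group G] (φ : G →* MulAut N)
    (hN : IsPGroup p N) (hG : IsPGroup p G) : IsPGroup p (N ⋊[φ] G) := by
  intro x
  obtain ⟨n, hn⟩ := hG x.right
  have h1 : (x ^ (p ^ n)).right = 1 := by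
    rw [show (x ^ (p ^ n)).right = SemidirectProduct.rightHom (x ^ (p ^ n)) from rfl, map_pow]
    exact hn
  obtain ⟨m, hm⟩ := hN (x ^ (p ^ n)).left
  refine ⟨n + m, ?_⟩
  rw [pow_add, pow_mul]
  have h2 : x ^ (p ^ n) = SemidirectProduct.inl (x ^ (p ^ n)).left := by
    refine SemidirectProduct.ext ?_ ?_
    · simp
    · simpa using h1
  rw [h2, ← map_pow, hm, map_one]

theorem UT_pgroup (k : Type) [CommRing k] (c : ℕ) {p m : ℕ} (hp : p.Prime)
    (hk : ((p ^ m : ℕ) : k) = 0) (Y : Type) :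
    IsPGroup p (Y → UT k c p m hp hk) := by
  intro a
  refine ⟨m + c, ?_⟩
  funext y
  refine Subtype.ext (Units.ext ?_)
  show ((((a y) ^ (p ^ (m + c)) : UT k c p m hp hk) :
    (Matrix (Fin (c + 1)) (Fin (c + 1)) k)ˣ) : Matrix (Fin (c + 1)) (Fin (c + 1)) k) = 1
  rw [Subgroup.coe_pow, Units.val_pow_eq_pow_val]
  exact unip_pow hp hk (a y).2

theorem main (hMAG : S_MAG2) (hSHM : S_SHM) : S_RF := by
  intro ι Γ _ _ _ π hπ p hp hΓ c g hg
  classical
  obtain ⟨w, rfl⟩ := QuotientGroup.mk_surjective g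
  have hw : w ∉ lcs π.ker c := fun h => hg ((QuotientGroup.eq_one_iff w).2 h)
  by_cases h1 : π w = 1
  · have hu : (sh π w).left ∉ lcs (⊤ : Subgroup (FreeGroup (Γ × ι))) c := fun h =>
      hw ((hSHM ι Γ π hπ c w).2 ⟨h1, h⟩)
    set u := (sh π w).left with hu0
    rw [hMAG] at hu
    push Not at hu
    obtain ⟨L, hL⟩ := hu
    -- an entry
    obtain ⟨i, j, hij⟩ : ∃ i j, (rep ℤ L u : Matrix (Fin (c + 1)) (Fin (c + 1)) ℤ) i j ≠
        (1 : Matrix (Fin (c + 1)) (Fin (c + 1)) ℤ) i j := by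
      by_contra hcon
      push Not at hcon
      exact hL (Units.ext (Matrix.ext hcon))
    obtain ⟨m, hm⟩ := exists_pow_not_dvd hp _ (sub_ne_zero.2 hij)
    have hk : ((p ^ m : ℕ) : ZMod (p ^ m)) = 0 := ZMod.natCast_self _
    haveI : NeZero (p ^ m) := ⟨(Nat.pow_pos hp.pos).ne'⟩
    obtain ⟨S, hS⟩ := letters u
    obtain ⟨Q, i1, i2, f, hQ, hf⟩ := rfp_inj hΓ
      ((S.image Prod.fst) ∪ (Finset.univ.image (fun i => (L i).1)))
    haveI := Fintype.ofFinite Q
    haveI := Fintype.ofFinite ι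
    have hrep : rep (ZMod (p ^ m)) L u ≠ 1 := by
      intro h2
      rw [rep_base] at h2
      have h3 := congrArg (fun U : (Matrix (Fin (c + 1)) (Fin (c + 1)) (ZMod (p ^ m)))ˣ =>
        (U : Matrix (Fin (c + 1)) (Fin (c + 1)) (ZMod (p ^ m))) i j) h2
      simp only [Units.coe_map, Units.val_one] at h3
      have h4 : (((rep ℤ L u : Matrix (Fin (c + 1)) (Fin (c + 1)) ℤ) i j : ℤ) : ZMod (p ^ m)) =
        (((1 : Matrix (Fin (c + 1)) (Fin (c + 1)) ℤ) i j : ℤ) : ZMod (p ^ m)) := by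
        refine Eq.trans h3 ?_
        rw [Matrix.one_apply, Matrix.one_apply]
        split_ifs <;> simp
      refine base_entry p m _ hm ?_
      rw [Int.cast_sub, h4, sub_self]
    have htr := rep_transfer (k := ZMod (p ^ m)) L (fun x : Γ × ι => (f x.1, x.2)) S (by
      intro x hx i h
      refine Prod.ext ?_ (Prod.ext_iff.1 h).2
      refine hf _ ?_ _ ?_ (Prod.ext_iff.1 h).1
      · exact Finset.mem_union_right _ (Finset.mem_image.2 ⟨i, Finset.mem_univ _, rfl⟩)
      · exact Finset.mem_union_left _ (Finset.mem_image.2 ⟨x, hx, rfl⟩)) u hS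
    set A := (Fin c → Q × ι) → UT (ZMod (p ^ m)) c p m hp hk with hA
    haveI : Finite A := inferInstance
    let Θ : FreeGroup (Γ × ι) ⋊[act Γ ι] Γ →* A ⋊[actA Q ι (UT (ZMod (p ^ m)) c p m hp hk) c] Q :=
      SemidirectProduct.map (fn (ZMod (p ^ m)) c hp hk f) f (by
        intro g
        ext1 x
        exact fn_equiv (ZMod (p ^ m)) c hp hk f g (FreeGroup.of x))
    have hker : lcs π.ker c ≤ (Θ.comp (sh π)).ker := by
      intro v hv
      have h5 := (hSHM ι Γ π hπ c v).1 hv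
      rw [MonoidHom.mem_ker]
      have hr : (sh π v).right = 1 := by
        have h6 : SemidirectProduct.rightHom.comp (sh π) = π := by
          refine FreeGroup.ext_hom _ _ fun x => ?_
          simp [sh]
        have h7 := congrArg (fun φ : FreeGroup ι →* Γ => φ v) h6
        exact h7.trans h5.1
      refine SemidirectProduct.ext ?_ ?_
      · show fn (ZMod (p ^ m)) c hp hk f (sh π v).left = 1
        funext L'
        refine Subtype.ext ?_
        show rep (ZMod (p ^ m)) L' (FreeGroup.map (fun x : Γ × ι => (f x.1, x.2)) (sh π v).left) = 1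
        rw [rep_base, (hMAG (Q × ι) c _).1 (lcs_top_map _ c h5.2) L', map_one]
      · show f (sh π v).right = 1
        rw [hr, map_one]
    refine ⟨A ⋊[actA Q ι (UT (ZMod (p ^ m)) c p m hp hk) c] Q, inferInstance, sd_finite _,
      QuotientGroup.lift _ (Θ.comp (sh π)) hker, sd_pgroup _ (UT_pgroup _ _ _ _ _) hQ, ?_⟩
    intro h8
    have h9 : Θ (sh π w) = 1 := h8
    have h10 : fn (ZMod (p ^ m)) c hp hk f u = 1 := congrArg SemidirectProduct.left h9
    have h11 := congrFun h10 (fun i => (f (L i).1, (L i).2))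
    have h12 : rep (ZMod (p ^ m)) (fun i => (f (L i).1, (L i).2))
      (FreeGroup.map (fun x : Γ × ι => (f x.1, x.2)) u) = 1 := congrArg Subtype.val h11
    exact hrep (htr.symm.trans h12)
  · obtain ⟨Q, i1, i2, f, hQ, hf⟩ := hΓ (π w) h1
    refine ⟨Q, i1, i2, QuotientGroup.lift _ (f.comp π) ?_, hQ, ?_⟩
    · intro v hv
      have : π v = 1 := lcs_le π.ker c hv
      rw [MonoidHom.mem_ker, MonoidHom.comp_apply, this, map_one]
    · exact hf

end Pool.Agent.H335PN.TRF

namespace Pool.Agent.H335PN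

theorem t_RF (h1 : S_MAG2) (h2 : S_SHM) : S_RF := TRF.main h1 h2

end Pool.Agent.H335PN
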