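import Pool.Agent.H335PN.Stmts

set_option autoImplicit false

namespace Pool.Agent.H335PN

open Pool.Agent.Helper777.Prof

namespace RFNaux

/-- residual finiteness-`p` passes along injective homomorphisms -/
theorem RFp_of_injective {G H : Type} [Group G] [Group H] (p : ℕ) (e : G →* H)
    (he : Function.Injective e) (h : RFp p H) : RFp p G := by
  intro g hg
  have h1 : e g ≠ 1 := by
    intro h0
    exact hg (he (by rw [h0, map_one]))
  obtain ⟨Q, i1, i2, f, hQ, hf⟩ := h (e g) h1
  exact ⟨Q, i1, i2, f.comp e, hQ, hf⟩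

theorem base (r p : ℕ) (hp : p.Prime) : RFp p (FreeGroup (Fin r) ⧸ commutator (FreeGroup (Fin r))) := by
  intro g hg
  obtain ⟨w, rfl⟩ := QuotientGroup.mk_surjective g
  have hw : w ∉ commutator (FreeGroup (Fin r)) := by
    intro h
    exact hg ((QuotientGroup.eq_one_iff w).2 h)
  -- the homomorphism to the free abelian group
  have hA : Abelianization.of w ≠ 1 := by
    intro h
    apply hw
    rw [← Abelianization.ker_of, MonoidHom.mem_ker]
    exact h
  let a : FreeAbelianGroup (Fin r) := Additive.ofMul (Abelianization.of w)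
  have ha : a ≠ 0 := fun h => hA h
  have hb : FreeAbelianGroup.equivFinsupp (Fin r) a ≠ 0 := by
    intro h
    exact ha ((AddEquiv.map_eq_zero_iff _).1 h)
  obtain ⟨i, hi⟩ : ∃ i, FreeAbelianGroup.equivFinsupp (Fin r) a i ≠ 0 := by
    by_contra hcon
    push Not at hcon
    exact hb (Finsupp.ext hcon)
  set z : ℤ := FreeAbelianGroup.equivFinsupp (Fin r) a i with hz
  let m : ℕ := z.natAbs
  have : Fact p.Prime := ⟨hp⟩
  have : NeZero (p ^ m) := ⟨pow_ne_zero _ hp.ne_zero⟩
  let f0 : FreeAbelianGroup (Fin r) →+ ZMod (p ^ m) :=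
    (Int.castAddHom (ZMod (p ^ m))).comp
      ((Finsupp.applyAddHom i).comp (FreeAbelianGroup.equivFinsupp (Fin r)).toAddMonoidHom)
  let f1 : FreeGroup (Fin r) →* Multiplicative (ZMod (p ^ m)) :=
    (AddMonoidHom.toMultiplicative f0).comp (Abelianization.of (G := FreeGroup (Fin r)))
  have hf1 : commutator (FreeGroup (Fin r)) ≤ f1.ker := Abelianization.commutator_subset_ker f1
  refine ⟨Multiplicative (ZMod (p ^ m)), inferInstance, inferInstance,
    QuotientGroup.lift _ f1 hf1, ?_, ?_⟩
  · apply IsPGroup.of_card (n := m)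
    simp
  · change f1 w ≠ 1
    intro h
    have h2 : ((z : ℤ) : ZMod (p ^ m)) = 0 := h
    rw [ZMod.intCast_zmod_eq_zero_iff_dvd] at h2
    have h3 : p ^ m ∣ z.natAbs := by
      have := Int.natAbs_dvd_natAbs.2 h2
      simpa using this
    have h4 : p ^ m ≤ z.natAbs := Nat.le_of_dvd (Int.natAbs_pos.2 hi) h3
    have h5 : m < p ^ m := Nat.lt_pow_self hp.one_lt
    exact absurd h4 (not_le.2 h5)

end RFNaux

-- BEGIN TARGET
theorem t_RFN (h1 : S_RF) : S_RFN := by
  intro r c l p hp
  induction l with
  | zero => exact RFNaux.base r p hp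
  | succ l ih =>
    have h := h1 (Fin r) (PN r c l) (QuotientGroup.mk' (NN (FreeGroup (Fin r)) c l))
      (QuotientGroup.mk'_surjective _) p hp ih (c l)
    have hk : lcs (QuotientGroup.mk' (NN (FreeGroup (Fin r)) c l)).ker (c l) =
        NN (FreeGroup (Fin r)) c (l + 1) := by
      have : (QuotientGroup.mk' (NN (FreeGroup (Fin r)) c l)).ker = NN (FreeGroup (Fin r)) c l :=
        QuotientGroup.ker_mk' _
      simp only [this]
      rfl
    exact RFNaux.RFp_of_injective p (QuotientGroup.quotientMulEquivOfEq hk.symm).toMonoidHom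
      (QuotientGroup.quotientMulEquivOfEq hk.symm).injective h
-- END TARGET

end Pool.Agent.H335PN
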