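import Pool.Agent.H335PN.Stmts

set_option autoImplicit false

namespace Pool.Agent.H335PN

open Pool.Agent.Helper777.Prof
open scoped commutatorElement

namespace RK1

/-- a nilpotent group which is generated by one element and its commutator subgroup is commutative -/
theorem comm_bot (K : Type) [Group K] [hK : Group.IsNilpotent K] (k0 : K)
    (h : ∀ k : K, ∃ n : ℤ, k * k0 ^ n ∈ commutator K) : commutator K = ⊥ := by
  have h1 : commutator K = (⊤ : Subgroup K).lowerCentralSeries 1 := by
    rw [Subgroup.top_lowerCentralSeries_one]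
  have h2 : (⊤ : Subgroup K).lowerCentralSeries 2 = ⁅commutator K, ⊤⁆ := by
    rw [h1]
    rfl
  have h3 : commutator K ≤ (⊤ : Subgroup K).lowerCentralSeries 2 := by
    rw [h2]
    have : (⁅commutator K, (⊤ : Subgroup K)⁆).Normal := inferInstance
    set π := QuotientGroup.mk' (⁅commutator K, (⊤ : Subgroup K)⁆) with hπ
    have hcen : ∀ c ∈ commutator K, ∀ x : K, π c * π x = π x * π c := by
      intro c hc x
      have h4 : ⁅c, x⁆ ∈ ⁅commutator K, (⊤ : Subgroup K)⁆ :=
        Subgroup.commutator_mem_commutator hc (Subgroup.mem_top x)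
      have h5 : π ⁅c, x⁆ = 1 := by
        rw [hπ, QuotientGroup.mk'_apply, QuotientGroup.eq_one_iff]
        exact h4
      rw [map_commutatorElement, commutatorElement_eq_one_iff_mul_comm] at h5
      exact h5
    have hcomm : ∀ x y : K, π x * π y = π y * π x := by
      intro x y
      obtain ⟨n, hn⟩ := h x
      obtain ⟨m, hm⟩ := h y
      have ex : π x = π (x * k0 ^ n) * π k0 ^ (-n) := by
        rw [map_mul, map_zpow, mul_assoc, ← zpow_add]
        simp
      have ey : π y = π (y * k0 ^ m) * π k0 ^ (-m) := by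
        rw [map_mul, map_zpow, mul_assoc, ← zpow_add]
        simp
      have cx : ∀ z : K, Commute (π (x * k0 ^ n)) (π z) := fun z => hcen _ hn z
      have cy : ∀ z : K, Commute (π (y * k0 ^ m)) (π z) := fun z => hcen _ hm z
      have e0 : π k0 ^ (-n) = π (k0 ^ (-n)) := (map_zpow _ _ _).symm
      have e1 : π k0 ^ (-m) = π (k0 ^ (-m)) := (map_zpow _ _ _).symm
      have c1 : Commute (π x) (π y) := by
        rw [ex, ey]
        apply Commute.mul_left
        · rw [e1]
          exact (cx _).mul_right (cx _)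
        · apply Commute.mul_right
          · rw [e0]
            exact (cy _).symm
          · exact (Commute.refl (π k0)).zpow_zpow _ _
      exact c1
    rw [commutator_def, Subgroup.commutator_le]
    intro x _ y _
    have h6 : π ⁅x, y⁆ = 1 := by
      rw [map_commutatorElement, commutatorElement_eq_one_iff_mul_comm]
      exact hcomm x y
    rw [hπ, QuotientGroup.mk'_apply, QuotientGroup.eq_one_iff] at h6
    exact h6
  have h4 : ∀ n, commutator K ≤ (⊤ : Subgroup K).lowerCentralSeries n := by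
    intro n
    induction n with
    | zero => simp
    | succ n ih =>
      refine h3.trans ?_
      rw [h2, Subgroup.lowerCentralSeries_succ]
      exact Subgroup.commutator_mono ih le_rfl
  obtain ⟨n, hn⟩ := Subgroup.nilpotent_iff_lowerCentralSeries.1 hK
  rw [eq_bot_iff, ← hn]
  exact h4 n

end RK1

-- BEGIN TARGET
theorem t_RK1 (h1 : S_RFN) (h2 : S_VC) : S_RK1 := by
  intro r c l H hH _ hφ
  obtain ⟨φ, d, hker, hcl, ⟨h0, hh0, hd⟩, hψ⟩ := hφ
  obtain ⟨hVC, -⟩ := h2 (PN r c l) H hH
  -- representation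
  have hrep : ∀ h ∈ H, ∃ n : ℤ, (φ h).toAdd = n • d := by
    intro h hh
    have h3 := hcl h hh
    rw [AddSubgroup.mem_closure_singleton] at h3
    obtain ⟨n, hn⟩ := h3
    exact ⟨n, hn.symm⟩
  have hcom : ∀ h ∈ H, ∃ n : ℤ, h * h0 ^ n ∈ ⁅H, H⁆ := by
    intro h hh
    obtain ⟨n, hn⟩ := hrep h hh
    refine ⟨-n, hVC _ (H.mul_mem hh (H.zpow_mem hh0 _)) ?_⟩
    rw [← hker, map_mul, map_zpow]
    apply Multiplicative.toAdd.injective
    rw [toAdd_mul, toAdd_zpow, hn, hd, toAdd_one, neg_smul, add_neg_cancel]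
  have hbot : ∀ x ∈ ⁅H, H⁆, x = 1 := by
    intro x hx
    by_contra hx1
    obtain ⟨Q, _, _, f, hQ, hfx⟩ := h1 r c l 2 Nat.prime_two x hx1
    have : Fact (Nat.Prime 2) := ⟨Nat.prime_two⟩
    have : Group.IsNilpotent (H.map f) := (hQ.to_subgroup (H.map f)).isNilpotent
    have h3 := RK1.comm_bot (H.map f) ⟨f h0, Subgroup.mem_map_of_mem f hh0⟩ (by
      rintro ⟨k, hk⟩
      obtain ⟨h, hh, rfl⟩ := Subgroup.mem_map.1 hk
      obtain ⟨n, hn⟩ := hcom h hh
      refine ⟨n, ?_⟩
      have h4 : f (h * h0 ^ n) ∈ ⁅H.map f, H.map f⁆ := by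
        rw [← Subgroup.map_commutator]
        exact Subgroup.mem_map_of_mem f hn
      rw [← Subgroup.map_subtype_commutator, Subgroup.mem_map] at h4
      obtain ⟨y, hy, hy2⟩ := h4
      have h5 : (⟨f h, hk⟩ : H.map f) * ⟨f h0, Subgroup.mem_map_of_mem f hh0⟩ ^ n = y := by
        apply Subtype.ext
        rw [← Subgroup.coe_subtype, hy2, map_mul, map_zpow, map_mul, map_zpow]
        rfl
      rw [h5]
      exact hy)
    have h4 : f x ∈ ⁅H.map f, H.map f⁆ := by
      rw [← Subgroup.map_commutator]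
      exact Subgroup.mem_map_of_mem f hx
    rw [← Subgroup.map_subtype_commutator, h3, Subgroup.map_bot, Subgroup.mem_bot] at h4
    exact hfx h4
  have hinj : ∀ h ∈ H, φ h = 1 → h = 1 := fun h hh h3 => hbot h (hVC h hh ((hker h).1 h3))
  rcases hψ with hd0 | ⟨ψ, hψd⟩
  · refine ⟨1, fun h => ?_⟩
    obtain ⟨n, hn⟩ := hrep h h.2
    have h3 : φ h = 1 := by
      apply Multiplicative.toAdd.injective
      rw [hn, hd0, smul_zero, toAdd_one]
    have h4 := hinj h h.2 h3
    apply Subtype.ext
    rw [h4]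
    rfl
  · set ρ : PN r c l →* H := ((zpowersHom H ⟨h0, hh0⟩).comp
      (AddMonoidHom.toMultiplicative ψ)).comp φ with hρ
    have hρv : ∀ g, ((ρ g : H) : PN r c l) = h0 ^ (ψ (φ g).toAdd) := by
      intro g
      rw [hρ]
      simp [zpowersHom_apply]
    refine ⟨ρ, fun h => ?_⟩
    obtain ⟨n, hn⟩ := hrep h h.2
    apply Subtype.ext
    rw [hρv, hn, map_zsmul, hψd, smul_eq_mul, mul_one]
    have h3 : φ (h0 ^ n * (h : PN r c l)⁻¹) = 1 := by
      apply Multiplicative.toAdd.injective
      rw [map_mul, map_zpow, map_inv, toAdd_mul, toAdd_zpow, toAdd_inv, hn, hd, toAdd_one,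
        add_neg_cancel]
    have h4 := hinj _ (H.mul_mem (H.zpow_mem hh0 n) (H.inv_mem h.2)) h3
    exact mul_inv_eq_one.1 h4
-- END TARGET

end Pool.Agent.H335PN
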