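import Pool.Agent.H335PN.Stmts

set_option autoImplicit false

namespace Pool.Agent.H335PN

open Pool.Agent.Helper777.Prof

namespace RK2

theorem map_lcs {G G' : Type} [Group G] [Group G'] (f : G →* G') (N : Subgroup G)
    (N' : Subgroup G') (h : N.map f ≤ N') (k : ℕ) : (lcs N k).map f ≤ lcs N' k := by
  induction k with
  | zero => exact h
  | succ k ih =>
    show (⁅lcs N k, N⁆).map f ≤ ⁅lcs N' k, N'⁆
    rw [Subgroup.map_commutator]
    exact Subgroup.commutator_mono ih h

theorem map_NN {G G' : Type} [Group G] [Group G'] (f : G →* G') (c : ℕ → ℕ) (i : ℕ) :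
    (NN G c i).map f ≤ NN G' c i := by
  induction i with
  | zero =>
    show (commutator G).map f ≤ commutator G'
    rw [commutator_def, commutator_def, Subgroup.map_commutator]
    exact Subgroup.commutator_mono le_top le_top
  | succ i ih => exact map_lcs f _ _ ih _

theorem NN_le {G G' : Type} [Group G] [Group G'] (f : G →* G') (c : ℕ → ℕ) (i : ℕ) :
    NN G c i ≤ (NN G' c i).comap f := Subgroup.map_le_iff_le_comap.1 (map_NN f c i)

/-- the map of free polynilpotent groups induced by a map of free groups -/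
def pm {m n : ℕ} (c : ℕ → ℕ) (l : ℕ) (f : FreeGroup (Fin m) →* FreeGroup (Fin n)) :
    PN m c l →* PN n c l := QuotientGroup.map _ _ f (NN_le f c l)

/-- the projection -/
def qq (m : ℕ) (c : ℕ → ℕ) (l : ℕ) : FreeGroup (Fin m) →* PN m c l :=
  QuotientGroup.mk' (NN (FreeGroup (Fin m)) c l)

theorem qq_surj (m : ℕ) (c : ℕ → ℕ) (l : ℕ) : Function.Surjective (qq m c l) :=
  QuotientGroup.mk'_surjective _

theorem pm_qq {m n : ℕ} (c : ℕ → ℕ) (l : ℕ) (f : FreeGroup (Fin m) →* FreeGroup (Fin n))
    (w : FreeGroup (Fin m)) : pm c l f (qq m c l w) = qq n c l (f w) := rfl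

theorem hom_ext {m : ℕ} {c : ℕ → ℕ} {l : ℕ} {A : Type} [Group A] (f g : PN m c l →* A)
    (h : ∀ j, f (qq m c l (FreeGroup.of j)) = g (qq m c l (FreeGroup.of j))) : f = g := by
  apply QuotientGroup.monoidHom_ext
  apply FreeGroup.ext_hom
  intro j
  exact h j

theorem qq_eq {m : ℕ} {c : ℕ → ℕ} {l : ℕ} {u v : FreeGroup (Fin m)} :
    qq m c l u = qq m c l v ↔ u * v⁻¹ ∈ NN (FreeGroup (Fin m)) c l := by
  have h : ∀ w, qq m c l w = 1 ↔ w ∈ NN (FreeGroup (Fin m)) c l := fun w =>
    QuotientGroup.eq_one_iff w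
  rw [← h, map_mul, map_inv, mul_inv_eq_one]

/-- the map `(m, n) ↦ x ^ m y ^ n` -/
def kap {A : Type} [CommGroup A] (x y : A) : Multiplicative (ℤ × ℤ) →* A where
  toFun p := x ^ (Multiplicative.toAdd p).1 * y ^ (Multiplicative.toAdd p).2
  map_one' := by simp
  map_mul' p q := by
    simp only [toAdd_mul, Prod.fst_add, Prod.snd_add, zpow_add]
    exact mul_mul_mul_comm _ _ _ _

instance fg_PN (m : ℕ) (c : ℕ → ℕ) (l : ℕ) : Group.FG (PN m c l) :=
  Group.fg_of_surjective (qq_surj m c l)

end RK2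

open RK2

-- BEGIN TARGET
theorem t_RK2 (h1 : S_RFN) (h2 : S_IAE) : S_RK2 := by
  intro r c l H hH ht a b hab hψ
  obtain ⟨t, ht⟩ := ht
  obtain ⟨ψ, ha, hb⟩ := hψ
  obtain ⟨wa, hwa⟩ := qq_surj r c l a
  obtain ⟨wb, hwb⟩ := qq_surj r c l b
  set w2 : Fin 2 → FreeGroup (Fin r) := ![wa, wb] with hw2
  set F : FreeGroup (Fin 2) →* FreeGroup (Fin r) := FreeGroup.lift w2 with hF
  set θ : PN 2 c l →* PN r c l := pm c l F with hθ
  have hθ0 : θ (qq 2 c l (FreeGroup.of 0)) = a := by
    rw [hθ, pm_qq, hF, FreeGroup.lift_apply_of, ← hwa]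
    rfl
  have hθ1 : θ (qq 2 c l (FreeGroup.of 1)) = b := by
    rw [hθ, pm_qq, hF, FreeGroup.lift_apply_of, ← hwb]
    rfl
  -- the range of θ is H
  have hrange : θ.range = H := by
    rw [hab]
    apply le_antisymm
    · rintro _ ⟨z, rfl⟩
      obtain ⟨w, rfl⟩ := qq_surj 2 c l z
      induction w using FreeGroup.induction_on with
      | C1 => rw [map_one, map_one]; exact one_mem _
      | of i =>
        have : θ (qq 2 c l (FreeGroup.of i)) = a ∨ θ (qq 2 c l (FreeGroup.of i)) = b := by
          fin_cases i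
          · exact Or.inl hθ0
          · exact Or.inr hθ1
        rcases this with h | h
        · show θ (qq 2 c l (FreeGroup.of i)) ∈ _
          rw [h]
          exact Subgroup.subset_closure (by simp)
        · show θ (qq 2 c l (FreeGroup.of i)) ∈ _
          rw [h]
          exact Subgroup.subset_closure (by simp)
      | inv_of i hi =>
        rw [map_inv, map_inv]
        exact inv_mem hi
      | mul x y hx hy =>
        rw [map_mul, map_mul]
        exact mul_mem hx hy
    · rw [Subgroup.closure_le]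
      rintro z hz
      rcases hz with rfl | hz
      · exact ⟨_, hθ0⟩
      · rw [Set.mem_singleton_iff] at hz
        rw [hz]
        exact ⟨_, hθ1⟩
  -- the projection
  set v : Fin r → FreeGroup (Fin 2) := fun j =>
    FreeGroup.of 0 ^ (Multiplicative.toAdd (ψ (qq r c l (FreeGroup.of j)))).1 *
      FreeGroup.of 1 ^ (Multiplicative.toAdd (ψ (qq r c l (FreeGroup.of j)))).2 with hv
  set π0 : PN r c l →* PN 2 c l := pm c l (FreeGroup.lift v) with hπ0
  set X : Abelianization (PN 2 c l) := Abelianization.of (qq 2 c l (FreeGroup.of 0)) with hX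
  set Y : Abelianization (PN 2 c l) := Abelianization.of (qq 2 c l (FreeGroup.of 1)) with hY
  have hπκ : (Abelianization.of : PN 2 c l →* _).comp π0 = (kap X Y).comp ψ := by
    apply hom_ext
    intro j
    rw [MonoidHom.comp_apply, MonoidHom.comp_apply, hπ0, pm_qq, FreeGroup.lift_apply_of, hv]
    simp only [map_mul, map_zpow]
    rfl
  have hcomp : (Abelianization.of : PN 2 c l →* _).comp (π0.comp θ) = Abelianization.of := by
    apply hom_ext
    intro j
    have h3 : ∀ g, Abelianization.of (π0 g) = kap X Y (ψ g) := fun g =>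
      DFunLike.congr_fun hπκ g
    rw [MonoidHom.comp_apply, MonoidHom.comp_apply, h3]
    fin_cases j
    · show kap X Y (ψ (θ (qq 2 c l (FreeGroup.of 0)))) = X
      rw [hθ0, ha]
      show X ^ (1 : ℤ) * Y ^ (0 : ℤ) = X
      rw [zpow_one, zpow_zero, mul_one]
    · show kap X Y (ψ (θ (qq 2 c l (FreeGroup.of 1)))) = Y
      rw [hθ1, hb]
      show X ^ (0 : ℤ) * Y ^ (1 : ℤ) = Y
      rw [zpow_one, zpow_zero, one_mul]
  have hinj0 : Function.Injective (π0.comp θ) := by
    refine (h2 (PN 2 c l) (h1 2 c l 2 Nat.prime_two) (π0.comp θ)).1 ?_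
    intro g
    have h3 := DFunLike.congr_fun hcomp g
    rw [MonoidHom.comp_apply] at h3
    rw [← Abelianization.ker_of, MonoidHom.mem_ker, map_mul, map_inv, h3, mul_inv_cancel]
  have hinj : Function.Injective θ := by
    intro x y hxy
    apply hinj0
    rw [MonoidHom.comp_apply, MonoidHom.comp_apply, hxy]
  have hmem : ∀ z, θ z ∈ H := fun z => hrange ▸ ⟨z, rfl⟩
  set E : PN 2 c l ≃* H := MulEquiv.ofBijective (θ.codRestrict H hmem) (by
    constructor
    · intro x y hxy
      exact hinj (congrArg Subtype.val hxy)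
    · rintro ⟨h, hh⟩
      rw [← hrange] at hh
      obtain ⟨z, rfl⟩ := hh
      exact ⟨z, rfl⟩) with hE
  have hEval : ∀ z, ((E z : H) : PN r c l) = θ z := fun z => rfl
  -- the solution in H
  obtain ⟨g', hg'⟩ := hH r (F t) (E (qq 2 c l t)) (by
    refine ⟨fun j => qq r c l (FreeGroup.of j), ?_⟩
    have h3 : FreeGroup.lift (fun j => qq r c l (FreeGroup.of j)) = qq r c l := by
      apply FreeGroup.ext_hom
      intro j
      rw [FreeGroup.lift_apply_of]
    rw [h3, hEval, hθ, pm_qq])
  have hker : ∀ x ∈ NN (FreeGroup (Fin r)) c l, FreeGroup.lift g' x = 1 := by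
    intro x hx
    choose u hu using fun j => qq_surj r c l (g' j : PN r c l)
    have h3 : (H.subtype).comp (FreeGroup.lift g') = (qq r c l).comp (FreeGroup.lift u) := by
      apply FreeGroup.ext_hom
      intro j
      rw [MonoidHom.comp_apply, MonoidHom.comp_apply, FreeGroup.lift_apply_of,
        FreeGroup.lift_apply_of, hu]
      rfl
    have h4 := DFunLike.congr_fun h3 x
    rw [MonoidHom.comp_apply, MonoidHom.comp_apply] at h4
    have h5 : qq r c l (FreeGroup.lift u x) = 1 :=
      (QuotientGroup.eq_one_iff _).2 (NN_le (FreeGroup.lift u) c l hx)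
    rw [h5] at h4
    exact Subtype.ext h4
  set φ : PN r c l →* H := QuotientGroup.lift _ (FreeGroup.lift g') hker with hφ
  have hφq : ∀ w, φ (qq r c l w) = FreeGroup.lift g' w := fun w => rfl
  set α' : PN 2 c l →* PN 2 c l := (E.symm.toMonoidHom).comp (φ.comp θ) with hα'
  have hα'a : ∀ z, α' z = E.symm (φ (θ z)) := fun z => rfl
  have hfix : α' (qq 2 c l t) = qq 2 c l t := by
    rw [hα'a, hθ, pm_qq, hφq, hg', MulEquiv.symm_apply_apply]
  choose u hu using fun j : Fin 2 => qq_surj 2 c l (α' (qq 2 c l (FreeGroup.of j)))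
  have hlift : ∀ w, qq 2 c l (FreeGroup.lift u w) = α' (qq 2 c l w) := by
    have h3 : (qq 2 c l).comp (FreeGroup.lift u) = α'.comp (qq 2 c l) := by
      apply FreeGroup.ext_hom
      intro j
      rw [MonoidHom.comp_apply, MonoidHom.comp_apply, FreeGroup.lift_apply_of, hu]
    exact fun w => DFunLike.congr_fun h3 w
  have hsm := ht (FreeGroup.lift u) (by
    rw [← qq_eq, hlift, hfix])
  have hsurj : Function.Surjective α' := by
    intro z
    obtain ⟨w, rfl⟩ := qq_surj 2 c l z
    obtain ⟨v, hv⟩ := hsm w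
    rw [← qq_eq, hlift] at hv
    exact ⟨_, hv⟩
  have hinj' : Function.Injective α' :=
    (h2 (PN 2 c l) (h1 2 c l 2 Nat.prime_two) α').2 hsurj
  set A : PN 2 c l ≃* PN 2 c l := MulEquiv.ofBijective α' ⟨hinj', hsurj⟩ with hA
  refine ⟨(E.toMonoidHom).comp ((A.symm.toMonoidHom).comp ((E.symm.toMonoidHom).comp φ)), ?_⟩
  intro h
  obtain ⟨z, rfl⟩ := E.surjective h
  show E (A.symm (E.symm (φ (θ z)))) = E z
  have h3 : E.symm (φ (θ z)) = A z := rfl
  rw [h3, MulEquiv.symm_apply_apply]
-- END TARGET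

end Pool.Agent.H335PN
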