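import Pool.Agent.H335PN.Stmts

set_option autoImplicit false

namespace Pool.Agent.H335PN

open Pool.Agent.Helper777.Prof

namespace SEPaux

open Finset

open Classical in
/-- the sum of the coefficients at the elements of `C` -/
noncomputable def LC {Γ : Type} (C : Set Γ) : MonoidAlgebra ℤ Γ →+ ℤ :=
  (Finsupp.liftAddHom (fun h : Γ => if h ∈ C then AddMonoidHom.id ℤ else 0)).comp
    MonoidAlgebra.coeffAddEquiv.toAddMonoidHom

open Classical in
theorem LC_single {Γ : Type} (C : Set Γ) (h : Γ) (c : ℤ) :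
    LC C (MonoidAlgebra.single h c) = if h ∈ C then c else 0 := by
  have : LC C (MonoidAlgebra.single h c) =
      Finsupp.liftAddHom (fun h : Γ => if h ∈ C then AddMonoidHom.id ℤ else 0) (Finsupp.single h c) := rfl
  rw [this, Finsupp.liftAddHom_apply_single]
  split_ifs <;> simp

theorem LC_kill {Γ : Type} [Group Γ] (C : Set Γ) (g : Γ) (hC : ∀ h, g * h ∈ C ↔ h ∈ C)
    (a : MonoidAlgebra ℤ Γ) : LC C ((MonoidAlgebra.single g 1 - 1) * a) = 0 := by
  induction a using MonoidAlgebra.induction_linear with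
  | zero => rw [mul_zero, map_zero]
  | add x y hx hy => rw [mul_add, map_add, hx, hy, add_zero]
  | single h c =>
    rw [sub_mul, one_mul, MonoidAlgebra.single_mul_single, one_mul, map_sub, LC_single, LC_single]
    by_cases hh : h ∈ C
    · rw [if_pos hh, if_pos ((hC h).2 hh), sub_self]
    · rw [if_neg hh, if_neg (fun hc => hh ((hC h).1 hc)), sub_self]

theorem self_sum {Γ : Type} (w : MonoidAlgebra ℤ Γ) :
    w = ∑ τ ∈ w.coeff.support, MonoidAlgebra.single τ (w.coeff τ) := by
  have := MonoidAlgebra.sum_coeff_single w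
  rw [Finsupp.sum] at this
  exact this.symm

theorem prod_sum {Γ : Type} [Group Γ] (w u : MonoidAlgebra ℤ Γ) (J : ℕ) (gs : ℕ → Γ) (K : ℤ) :
    w * (∑ j ∈ range J, MonoidAlgebra.single (gs j) (K ^ j)) * u =
      ∑ j ∈ range J, ∑ τ ∈ w.coeff.support, ∑ e ∈ u.coeff.support,
        MonoidAlgebra.single (τ * gs j * e) (w.coeff τ * K ^ j * u.coeff e) := by
  conv_lhs => rw [self_sum w, self_sum u]
  rw [sum_mul, sum_mul, sum_comm]
  apply sum_congr rfl
  intro τ _
  have e1 : MonoidAlgebra.single τ (w.coeff τ) * (∑ j ∈ range J, MonoidAlgebra.single (gs j) (K ^ j)) =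
      ∑ j ∈ range J, MonoidAlgebra.single (τ * gs j) (w.coeff τ * K ^ j) := by
    rw [mul_sum]
    exact sum_congr rfl fun j _ => MonoidAlgebra.single_mul_single _ _ _ _
  rw [e1, sum_mul]
  apply sum_congr rfl
  intro j _
  rw [mul_sum]
  exact sum_congr rfl fun e _ => MonoidAlgebra.single_mul_single _ _ _ _

theorem digit_bound (K : ℤ) (hK : 0 < K) (S : ℕ → ℤ) (J : ℕ) (hS : ∀ j < J, |S j| ≤ K - 1) :
    |∑ j ∈ range J, K ^ j * S j| ≤ K ^ J - 1 := by
  induction J with
  | zero => simp
  | succ J ih =>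
    rw [sum_range_succ]
    refine (abs_add_le _ _).trans ?_
    have h1 := ih (fun j hj => hS j (by omega))
    have h2 : |K ^ J * S J| ≤ K ^ J * (K - 1) := by
      rw [abs_mul, abs_of_pos (pow_pos hK J)]
      exact mul_le_mul_of_nonneg_left (hS J (by omega)) (pow_pos hK J).le
    rw [pow_succ]
    linarith

theorem digits (K : ℤ) (hK : 0 < K) (S : ℕ → ℤ) (J : ℕ) (hS : ∀ j < J, |S j| ≤ K - 1)
    (h0 : ∑ j ∈ range J, K ^ j * S j = 0) : ∀ j < J, S j = 0 := by
  induction J with
  | zero => intro j hj; omega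
  | succ J ih =>
    have h1 := digit_bound K hK S J (fun j hj => hS j (by omega))
    rw [sum_range_succ] at h0
    have h2 : S J = 0 := by
      by_contra hne
      have h3 : 1 ≤ |S J| := Int.one_le_abs hne
      have h4 : |K ^ J * S J| ≤ K ^ J - 1 := by
        have : K ^ J * S J = -∑ j ∈ range J, K ^ j * S j := by linarith
        rw [this, abs_neg]
        exact h1
      rw [abs_mul, abs_of_pos (pow_pos hK J)] at h4
      have h5 : K ^ J * 1 ≤ K ^ J * |S J| := mul_le_mul_of_nonneg_left h3 (pow_pos hK J).le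
      linarith
    rw [h2, mul_zero, add_zero] at h0
    intro j hj
    rcases Nat.lt_succ_iff_lt_or_eq.1 hj with h | h
    · exact ih (fun j hj => hS j (by omega)) h0 j h
    · rw [h]; exact h2

end SEPaux

open SEPaux in
open Classical in
-- BEGIN TARGET
theorem t_SEP  : S_SEP := by
  intro Γ _ w u a J gs K g _ hK hw j hj τ hτ e he
  by_contra hcon
  push Not at hcon
  have hK0 : 0 < K := lt_of_le_of_lt (mul_nonneg (Finset.sum_nonneg fun _ _ => abs_nonneg _)
    (Finset.sum_nonneg fun _ _ => abs_nonneg _)) hK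
  set C : Set Γ := {h | ∃ n : ℤ, h = g ^ n * (τ * gs j * e)} with hC
  have hCg : ∀ h, g * h ∈ C ↔ h ∈ C := by
    intro h
    constructor
    · rintro ⟨n, hn⟩
      refine ⟨n - 1, ?_⟩
      have h2 : h = g⁻¹ * (g * h) := by group
      rw [h2, hn]
      group
    · rintro ⟨n, hn⟩
      refine ⟨1 + n, ?_⟩
      rw [hn]
      group
  set S : ℕ → ℤ := fun i => ∑ τ' ∈ w.coeff.support, ∑ e' ∈ u.coeff.support,
    if τ' * gs i * e' ∈ C then w.coeff τ' * u.coeff e' else 0 with hS
  have hsum : ∑ i ∈ Finset.range J, K ^ i * S i = 0 := by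
    have h1 := LC_kill C g hCg a
    rw [← hw, prod_sum, map_sum] at h1
    rw [← h1]
    apply Finset.sum_congr rfl
    intro i _
    rw [map_sum, hS]
    simp only
    rw [Finset.mul_sum]
    apply Finset.sum_congr rfl
    intro τ' _
    rw [map_sum, Finset.mul_sum]
    apply Finset.sum_congr rfl
    intro e' _
    rw [LC_single]
    split_ifs
    · ring
    · rw [mul_zero]
  have hSb : ∀ i < J, |S i| ≤ K - 1 := by
    intro i _
    have h2 : |S i| ≤ (∑ τ ∈ w.coeff.support, |w.coeff τ|) * (∑ e ∈ u.coeff.support, |u.coeff e|) := by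
      rw [Finset.sum_mul]
      refine (Finset.abs_sum_le_sum_abs _ _).trans (Finset.sum_le_sum fun τ' _ => ?_)
      rw [Finset.mul_sum]
      refine (Finset.abs_sum_le_sum_abs _ _).trans (Finset.sum_le_sum fun e' _ => ?_)
      split_ifs
      · rw [abs_mul]
      · rw [abs_zero]
        positivity
    omega
  have hSj : S j = 0 := digits K hK0 S J hSb hsum j hj
  have hSj2 : S j = w.coeff τ * u.coeff e := by
    rw [hS]
    simp only
    rw [Finset.sum_eq_single_of_mem τ hτ, Finset.sum_eq_single_of_mem e he]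
    · rw [if_pos]
      exact ⟨0, by rw [zpow_zero, one_mul]⟩
    · intro e' he' hne
      rw [if_neg]
      rintro ⟨n, hn⟩
      refine hcon τ hτ e' he' n ?_ ?_
      · intro h
        exact hne (Prod.ext_iff.1 h).2
      · rw [hn]
        group
    · intro τ' hτ' hne
      apply Finset.sum_eq_zero
      intro e' he'
      rw [if_neg]
      rintro ⟨n, hn⟩
      refine hcon τ' hτ' e' he' n ?_ ?_
      · intro h
        exact hne (Prod.ext_iff.1 h).1
      · rw [hn]
        group
  rw [hSj] at hSj2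
  rcases mul_eq_zero.1 hSj2.symm with h | h
  · exact (Finsupp.mem_support_iff.1 hτ) h
  · exact (Finsupp.mem_support_iff.1 he) h
-- END TARGET

end Pool.Agent.H335PN
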