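import Pool.Agent.H335PN.Stmts
import Pool.Agent.Helper777.Prof.P_magnus_ker
import Pool.Agent.Helper777.Prof.P_mag_m

set_option autoImplicit false

namespace Pool.Agent.H335PN

open Pool.Agent.Helper777.Prof

open scoped commutatorElement

namespace SHMaux

/-- a hom from `N` maps `lcs N k` to `lcs ⊤ k` -/
theorem lcs_map {G P : Type} [Group G] [Group P] (N : Subgroup G) (f : N →* P) (k : ℕ) :
    lcs N k ≤ ((lcs (⊤ : Subgroup P) k).comap f).map N.subtype := by
  induction k with
  | zero =>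
    intro w hw
    exact ⟨⟨w, hw⟩, Subgroup.mem_top _, rfl⟩
  | succ k ih =>
    change ⁅lcs N k, N⁆ ≤ _
    rw [Subgroup.commutator_le]
    intro g1 h1 g2 h2
    obtain ⟨a, ha, rfl⟩ := ih h1
    refine ⟨⁅a, ⟨g2, h2⟩⁆, ?_, rfl⟩
    change f ⁅a, ⟨g2, h2⟩⁆ ∈ ⁅lcs (⊤ : Subgroup P) k, (⊤ : Subgroup P)⁆
    rw [map_commutatorElement]
    exact Subgroup.commutator_mem_commutator ha (Subgroup.mem_top _)

theorem lcs_le {G : Type} [Group G] (N : Subgroup G) (k : ℕ) : lcs N k ≤ N := by
  intro w hw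
  obtain ⟨a, -, rfl⟩ := lcs_map N (MonoidHom.id N) k hw
  exact a.2

variable {Γ ι : Type} [Group Γ] [DecidableEq ι]

/-- abelianisation of the free group on `Γ × ι` -/
noncomputable def chi (Γ ι : Type) [Group Γ] [DecidableEq ι] :
    FreeGroup (Γ × ι) →* Multiplicative (ι → MonoidAlgebra ℤ Γ) :=
  FreeGroup.lift (fun x => Multiplicative.ofAdd (Pi.single x.2 (MonoidAlgebra.single x.1 1)))

theorem chi_act (g : Γ) (u : FreeGroup (Γ × ι)) :
    (chi Γ ι (act Γ ι g u)).toAdd = (MonoidAlgebra.of ℤ Γ g) • (chi Γ ι u).toAdd := by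
  induction u using FreeGroup.induction_on with
  | C1 => simp
  | of x =>
    have h : act Γ ι g (FreeGroup.of x) = FreeGroup.of (g * x.1, x.2) := by
      simp [act, perm]
    rw [h]
    simp only [chi, FreeGroup.lift_apply_of, toAdd_ofAdd]
    funext i
    rw [Pi.smul_apply]
    by_cases hi : i = x.2
    · subst hi
      rw [Pi.single_eq_same, Pi.single_eq_same, smul_eq_mul, MonoidAlgebra.of_apply,
        MonoidAlgebra.single_mul_single, one_mul]
    · rw [Pi.single_eq_of_ne hi, Pi.single_eq_of_ne hi, smul_zero]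
  | inv_of x hx =>
    rw [map_inv (act Γ ι g), map_inv (chi Γ ι), toAdd_inv, hx, map_inv (chi Γ ι), toAdd_inv, smul_neg]
  | mul x y hx hy =>
    rw [map_mul, map_mul, toAdd_mul, hx, hy, map_mul, toAdd_mul, smul_add]

/-- the map from the semidirect product to the Magnus group -/
noncomputable def theta (Γ ι : Type) [Group Γ] [DecidableEq ι] :
    FreeGroup (Γ × ι) ⋊[act Γ ι] Γ →* Wr ℤ Γ ι where
  toFun a := ⟨(chi Γ ι a.left).toAdd, a.right⟩
  map_one' := by
    ext1
    · simp [Wr.one_v]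
    · simp [Wr.one_m]
  map_mul' a b := by
    ext1
    · rw [Wr.mul_v]
      simp only
      rw [SemidirectProduct.mul_left, map_mul, toAdd_mul, chi_act]
    · rw [Wr.mul_m]
      simp only
      rw [SemidirectProduct.mul_right]

theorem theta_sh (π : FreeGroup ι →* Γ) (w : FreeGroup ι) : theta Γ ι (sh π w) = mag π w := by
  have h : (theta Γ ι).comp (sh π) = mag π := by
    ext1 i
    simp only [MonoidHom.comp_apply, sh, mag, FreeGroup.lift_apply_of]
    ext1
    · simp [theta, chi, MonoidAlgebra.one_def]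
    · simp [theta]
  exact DFunLike.congr_fun h w

omit [DecidableEq ι] in
theorem sh_right (π : FreeGroup ι →* Γ) (w : FreeGroup ι) : (sh π w).right = π w := by
  have h : (SemidirectProduct.rightHom).comp (sh π) = π := by
    ext1 i
    simp [sh]
  exact DFunLike.congr_fun h w

/-- the hom on the kernel -/
def rho (π : FreeGroup ι →* Γ) : π.ker →* FreeGroup (Γ × ι) where
  toFun w := (sh π w).left
  map_one' := by simp
  map_mul' a b := by
    have ha : (sh π (a : FreeGroup ι)).right = 1 := by rw [sh_right]; exact a.2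
    rw [Subgroup.coe_mul, map_mul, SemidirectProduct.mul_left, ha, map_one]
    rfl

theorem rho_mem (π : FreeGroup ι →* Γ) (hπ : Function.Surjective π) (w : π.ker)
    (h : rho π w ∈ commutator (FreeGroup (Γ × ι))) : (w : FreeGroup ι) ∈ ⁅π.ker, π.ker⁆ := by
  apply magnus_ker π hπ
  rw [← theta_sh]
  have h1 : chi Γ ι (rho π w) = 1 := Abelianization.commutator_subset_ker (chi Γ ι) h
  have h2 : (sh π (w : FreeGroup ι)).right = 1 := by rw [sh_right]; exact w.2
  ext1
  · rw [Wr.one_v]
    change (chi Γ ι (rho π w)).toAdd = 0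
    rw [h1, toAdd_one]
  · rw [Wr.one_m]
    exact h2

end SHMaux

open SHMaux in
-- BEGIN TARGET
theorem t_SHM (h1 : S_LEM2) : S_SHM := by
  intro ι Γ _ _ π hπ c w
  constructor
  · intro hw
    obtain ⟨a, ha, rfl⟩ := lcs_map π.ker (rho π) c hw
    exact ⟨a.2, ha⟩
  · rintro ⟨hw, hl⟩
    exact h1 ι (Γ × ι) π.ker (rho π) (rho_mem π hπ) c ⟨w, hw⟩ hl
-- END TARGET

end Pool.Agent.H335PN
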