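import Pool.Agent.H335PN.Stmts

set_option autoImplicit false

namespace Pool.Agent.H335PN.TSTAux

open Pool.Agent.H335PN

theorem lcs_succ_le {G : Type} [Group G] (N : Subgroup G) [N.Normal] (k : ℕ) :
    lcs N (k + 1) ≤ lcs N k :=
  Subgroup.commutator_le_left (lcs N k) N

theorem lcs_anti {G : Type} [Group G] (N : Subgroup G) [N.Normal] {j k : ℕ} (h : j ≤ k) :
    lcs N k ≤ lcs N j :=
  antitone_nat_of_succ_le (f := lcs N) (lcs_succ_le N) h

theorem NN_anti {G : Type} [Group G] (c : ℕ → ℕ) {j k : ℕ} (h : j ≤ k) :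
    NN G c k ≤ NN G c j :=
  antitone_nat_of_succ_le (f := NN G c) (fun i => lcs_anti (NN G c i) (Nat.zero_le (c i))) h

theorem map_lcs_le {G : Type} [Group G] (N : Subgroup G) (α : G →* G)
    (h : N.map α ≤ N) (k : ℕ) : (lcs N k).map α ≤ lcs N k := by
  induction k with
  | zero => exact h
  | succ k ih =>
    show (⁅lcs N k, N⁆).map α ≤ ⁅lcs N k, N⁆
    rw [Subgroup.map_commutator]
    exact Subgroup.commutator_mono ih h

theorem map_NN_le {G : Type} [Group G] (c : ℕ → ℕ) (α : G →* G) (i : ℕ) :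
    (NN G c i).map α ≤ NN G c i := by
  induction i with
  | zero =>
    show (commutator G).map α ≤ commutator G
    rw [commutator_def, Subgroup.map_commutator]
    exact Subgroup.commutator_mono le_top le_top
  | succ i ih => exact map_lcs_le _ α ih _

/-- a homomorphism to `S₃` -/
noncomputable def toS : FreeGroup (Fin 2) →* Equiv.Perm (Fin 3) :=
  FreeGroup.lift ![Equiv.swap 0 1, Equiv.swap 1 2]

theorem toS_comm (w : FreeGroup (Fin 2)) (hw : w ∈ commutator (FreeGroup (Fin 2))) :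
    Equiv.Perm.sign (toS w) = 1 := by
  have h : commutator (FreeGroup (Fin 2)) ≤ (Equiv.Perm.sign.comp toS).ker :=
    Abelianization.commutator_subset_ker _
  exact h hw

theorem alt_comm : ∀ a b : Equiv.Perm (Fin 3), Equiv.Perm.sign a = 1 → Equiv.Perm.sign b = 1 →
    a * b = b * a := by
  decide

theorem toS_one (w : FreeGroup (Fin 2))
    (hw : w ∈ ⁅commutator (FreeGroup (Fin 2)), commutator (FreeGroup (Fin 2))⁆) : toS w = 1 := by
  have h : ⁅commutator (FreeGroup (Fin 2)), commutator (FreeGroup (Fin 2))⁆ ≤ toS.ker := by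
    rw [Subgroup.commutator_le]
    intro a ha b hb
    rw [MonoidHom.mem_ker, map_commutatorElement, commutatorElement_eq_one_iff_mul_comm]
    exact alt_comm _ _ (toS_comm a ha) (toS_comm b hb)
  exact h hw

theorem toS_ne : toS ((FreeGroup.of 0 * FreeGroup.of 1)⁻¹ * (FreeGroup.of 1 * FreeGroup.of 0)) ≠ 1 := by
  simp only [toS, map_mul, map_inv, FreeGroup.lift_apply_of]
  decide

end Pool.Agent.H335PN.TSTAux

namespace Pool.Agent.H335PN

open Pool.Agent.Helper777.Prof

-- BEGIN TARGET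
theorem t_TST (h1 : S_CORE) (h2 : S_GOOD) (h3 : S_BAS) (h4 : S_NLP) (h5 : S_NTR) : S_TST := by
  intro c l hl hc
  obtain rfl | ⟨l', rfl⟩ : l = 1 ∨ ∃ l', l = l' + 2 := by
    rcases l with _ | _ | l'
    · omega
    · exact Or.inl rfl
    · exact Or.inr ⟨l', rfl⟩
  · exact ⟨_, fun α hα => h3 (c 0) α (hc 0 (by omega)) hα⟩
  · have hker : (QuotientGroup.mk' (NN (FreeGroup (Fin 2)) c (l' + 1))).ker =
        NN (FreeGroup (Fin 2)) c (l' + 1) := QuotientGroup.ker_mk' _
    have hcomm : NN (FreeGroup (Fin 2)) c (l' + 1) ≤ commutator (FreeGroup (Fin 2)) :=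
      TSTAux.NN_anti c (Nat.zero_le _)
    have hmeta : NN (FreeGroup (Fin 2)) c (l' + 1) ≤
        ⁅commutator (FreeGroup (Fin 2)), commutator (FreeGroup (Fin 2))⁆ :=
      le_trans (TSTAux.NN_anti c (Nat.le_add_left 1 l'))
        (TSTAux.lcs_anti (NN (FreeGroup (Fin 2)) c 0) (hc 0 (by omega)))
    have hcore := h1 (PN 2 c (l' + 1)) (QuotientGroup.mk' (NN (FreeGroup (Fin 2)) c (l' + 1)))
      (QuotientGroup.mk'_surjective _) (h2 c l' (fun i hi => hc i (by omega)))
      (by rw [hker]; exact hcomm)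
      (by
        intro h
        have h' := (QuotientGroup.eq (s := NN (FreeGroup (Fin 2)) c (l' + 1))).1 h
        exact TSTAux.toS_ne (TSTAux.toS_one _ (hmeta h')))
      (by rw [hker]; exact h5 c (l' + 1))
    obtain ⟨t, -, ht⟩ := hcore
    rw [hker] at ht
    refine ⟨t, fun α hα => ?_⟩
    have hinv : ∀ w ∈ NN (FreeGroup (Fin 2)) c (l' + 1), α w ∈ NN (FreeGroup (Fin 2)) c (l' + 1) :=
      fun w hw => TSTAux.map_NN_le c α (l' + 1) (Subgroup.mem_map_of_mem α hw)
    have hα' : α t * t⁻¹ ∈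
        ⁅NN (FreeGroup (Fin 2)) c (l' + 1), NN (FreeGroup (Fin 2)) c (l' + 1)⁆ :=
      TSTAux.lcs_anti (NN (FreeGroup (Fin 2)) c (l' + 1)) (hc (l' + 1) (by omega)) hα
    obtain ⟨ha, hb⟩ := ht α hinv hα'
    exact h4 (FreeGroup (Fin 2)) (NN (FreeGroup (Fin 2)) c (l' + 1)) α hinv
      (fun w hw => ⟨α w, hinv w hw, ha w hw⟩) (fun w => ⟨α w, hb w⟩) (c (l' + 1))
-- END TARGET

end Pool.Agent.H335PN
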