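import Pool.Agent.H335PN.Stmts
import Pool.Agent.H577R3.TaskNZD

set_option autoImplicit false

namespace Pool.Agent.H335PN

open Pool.Agent.Helper777.Prof

namespace H988_UP

theorem sh_right {Γ ι : Type} [Group Γ] (π : FreeGroup ι →* Γ) (w : FreeGroup ι) :
    (sh π w).right = π w := by
  have h : (SemidirectProduct.rightHom (φ := act Γ ι)).comp (sh π) = π := by
    apply FreeGroup.ext_hom
    intro i
    simp [sh]
  exact DFunLike.congr_fun h w

/-- the left component, a homomorphism on the kernel -/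
def rho {Γ ι : Type} [Group Γ] (π : FreeGroup ι →* Γ) : π.ker →* FreeGroup (Γ × ι) where
  toFun w := (sh π w).left
  map_one' := by simp
  map_mul' a b := by
    have ha : (sh π (a : FreeGroup ι)).right = 1 := by rw [sh_right]; exact a.2
    rw [Subgroup.coe_mul, map_mul, SemidirectProduct.mul_left, ha, map_one]
    rfl

theorem rho_apply {Γ ι : Type} [Group Γ] (π : FreeGroup ι →* Γ) (w : π.ker) :
    rho π w = (sh π w).left := rfl

theorem mem_iff (h2 : S_SHM) {Γ ι : Type} [DecidableEq ι] [Group Γ] (π : FreeGroup ι →* Γ)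
    (hπ : Function.Surjective π) (c : ℕ) (w : π.ker) :
    (w : FreeGroup ι) ∈ lcs π.ker c ↔ rho π w ∈ lcs (⊤ : Subgroup (FreeGroup (Γ × ι))) c := by
  rw [h2 ι Γ π hπ c w, rho_apply]
  exact ⟨fun h => h.2, fun h => ⟨w.2, h⟩⟩

end H988_UP

open H988_UP in
-- BEGIN TARGET
theorem t_UP (h1 : S_UPM) (h2 : S_SHM) : S_UP := by
  intro ι Γ _ _ π hπ hΓ c
  have hle : ∀ x ∈ lcs π.ker c, π x = 1 := fun x hx => ((h2 ι Γ π hπ c x).1 hx).1
  let q : FreeGroup ι ⧸ lcs π.ker c →* Γ := QuotientGroup.lift (lcs π.ker c) π hle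
  have hU := h1 (Γ × ι) c
  apply Pool.Agent.H577R3.NZD.uniqueProds_ext q hΓ
  have hrep : ∀ k : q.ker, ∃ w : π.ker, (QuotientGroup.mk (w : FreeGroup ι) :
      FreeGroup ι ⧸ lcs π.ker c) = k := by
    rintro ⟨k, hk⟩
    obtain ⟨w, rfl⟩ := QuotientGroup.mk_surjective k
    exact ⟨⟨w, hk⟩, rfl⟩
  choose r hr using hrep
  let φ : q.ker →ₙ* FreeGroup (Γ × ι) ⧸ lcs (⊤ : Subgroup (FreeGroup (Γ × ι))) c :=
    { toFun := fun k => QuotientGroup.mk (rho π (r k))
      map_mul' := fun a b => by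
        rw [← QuotientGroup.mk_mul, ← map_mul, QuotientGroup.eq, ← map_inv, ← map_mul,
          ← mem_iff h2 π hπ c]
        have e : (QuotientGroup.mk ((r (a * b) : π.ker) : FreeGroup ι) :
            FreeGroup ι ⧸ lcs π.ker c) =
            QuotientGroup.mk (((r a * r b : π.ker)) : FreeGroup ι) := by
          rw [hr, Subgroup.coe_mul, Subgroup.coe_mul, QuotientGroup.mk_mul, hr, hr]
        exact (QuotientGroup.eq (s := lcs π.ker c)).1 e }
  have hφ : Function.Injective φ := by
    intro a b hab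
    have e : rho π ((r a)⁻¹ * r b) ∈ lcs (⊤ : Subgroup (FreeGroup (Γ × ι))) c := by
      rw [map_mul, map_inv]
      exact QuotientGroup.eq.1 hab
    rw [← mem_iff h2 π hπ c] at e
    apply Subtype.ext
    rw [← hr a, ← hr b]
    exact QuotientGroup.eq.2 e
  exact UniqueProds.of_injective_mulHom φ hφ hU
-- END TARGET

end Pool.Agent.H335PN
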