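import Pool.Agent.H335PN.Stmts
import Pool.Agent.H577R3.TaskNZD

set_option autoImplicit false

namespace Pool.Agent.H335PN

open Pool.Agent.Helper777.Prof

namespace UPMAux

/-- pairs of a matrix and its upper left block -/
def PU (c : ℕ) : Subgroup ((Matrix (Fin (c + 1 + 1)) (Fin (c + 1 + 1)) ℤ)ˣ ×
    (Matrix (Fin (c + 1)) (Fin (c + 1)) ℤ)ˣ) where
  carrier := {p | p.1.1 (Fin.last _) (Fin.last _) = 1 ∧
    (∀ j : Fin (c + 1), p.1.1 (Fin.last _) j.castSucc = 0) ∧
    ∀ i j : Fin (c + 1), p.1.1 i.castSucc j.castSucc = p.2.1 i j}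
  one_mem' := by
    refine ⟨by simp, fun j => ?_, fun i j => ?_⟩
    · simp only [Prod.fst_one, Units.val_one]
      exact Matrix.one_apply_ne (Fin.castSucc_lt_last j).ne'
    · simp only [Prod.fst_one, Prod.snd_one, Units.val_one, Matrix.one_apply, Fin.castSucc_inj]
  mul_mem' := by
    rintro ⟨A, A'⟩ ⟨B, B'⟩ ⟨a1, a2, a3⟩ ⟨b1, b2, b3⟩
    simp only at a1 a2 a3 b1 b2 b3
    refine ⟨?_, fun j => ?_, fun i j => ?_⟩
    · simp [Matrix.mul_apply, Fin.sum_univ_castSucc, a1, a2, b1]
    · simp [Matrix.mul_apply, Fin.sum_univ_castSucc, a1, a2, b2]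
    · simp [Matrix.mul_apply, Fin.sum_univ_castSucc (n := c + 1), a3, b2, b3]
  inv_mem' := by
    rintro ⟨A, A'⟩ ⟨a1, a2, a3⟩
    simp only at a1 a2 a3
    have h1 : A.1 * A⁻¹.1 = 1 := A.mul_inv
    show A⁻¹.1 (Fin.last _) (Fin.last _) = 1 ∧
      (∀ j : Fin (c + 1), A⁻¹.1 (Fin.last _) j.castSucc = 0) ∧
      ∀ i j : Fin (c + 1), A⁻¹.1 i.castSucc j.castSucc = A'⁻¹.1 i j
    generalize A⁻¹.1 = B at h1 ⊢
    have h2 : ∀ j, B (Fin.last _) j = (1 : Matrix (Fin (c + 1 + 1)) (Fin (c + 1 + 1)) ℤ)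
        (Fin.last _) j := by
      intro j
      rw [← h1]
      simp [Matrix.mul_apply, Fin.sum_univ_castSucc (n := c + 1), a1, a2]
    have h3 : ∀ j : Fin (c + 1), B (Fin.last _) j.castSucc = 0 := by
      intro j
      rw [h2]
      exact Matrix.one_apply_ne (Fin.castSucc_lt_last j).ne'
    refine ⟨by rw [h2]; simp, h3, ?_⟩
    have h4 : A'.1 * (Matrix.of fun i j : Fin (c + 1) => B i.castSucc j.castSucc) = 1 := by
      ext i j
      have h5 : (1 : Matrix (Fin (c + 1 + 1)) (Fin (c + 1 + 1)) ℤ) i.castSucc j.castSucc =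
          (1 : Matrix (Fin (c + 1)) (Fin (c + 1)) ℤ) i j := by
        simp only [Matrix.one_apply, Fin.castSucc_inj]
      rw [← h5, ← h1]
      simp [Matrix.mul_apply, Fin.sum_univ_castSucc (n := c + 1), a3, h3]
    intro i j
    have h6 : A'⁻¹.1 = Matrix.of fun i j : Fin (c + 1) => B i.castSucc j.castSucc := by
      calc A'⁻¹.1 = A'⁻¹.1 * (A'.1 * (Matrix.of fun i j : Fin (c + 1) =>
            B i.castSucc j.castSucc)) := by rw [h4, mul_one]
        _ = _ := by rw [← mul_assoc, A'.inv_mul, one_mul]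
    rw [h6]
    rfl

/-- pairs of a matrix and its lower right block -/
def PL (c : ℕ) : Subgroup ((Matrix (Fin (c + 1 + 1)) (Fin (c + 1 + 1)) ℤ)ˣ ×
    (Matrix (Fin (c + 1)) (Fin (c + 1)) ℤ)ˣ) where
  carrier := {p | p.1.1 0 0 = 1 ∧
    (∀ i : Fin (c + 1), p.1.1 i.succ 0 = 0) ∧
    ∀ i j : Fin (c + 1), p.1.1 i.succ j.succ = p.2.1 i j}
  one_mem' := by
    refine ⟨by simp, fun j => ?_, fun i j => ?_⟩
    · simp only [Prod.fst_one, Units.val_one]
      exact Matrix.one_apply_ne (Fin.succ_ne_zero j)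
    · simp only [Prod.fst_one, Prod.snd_one, Units.val_one, Matrix.one_apply, Fin.succ_inj]
  mul_mem' := by
    rintro ⟨A, A'⟩ ⟨B, B'⟩ ⟨a1, a2, a3⟩ ⟨b1, b2, b3⟩
    simp only at a1 a2 a3 b1 b2 b3
    refine ⟨?_, fun j => ?_, fun i j => ?_⟩
    · simp [Matrix.mul_apply, Fin.sum_univ_succ (n := c + 1), a1, b1, b2]
    · simp [Matrix.mul_apply, Fin.sum_univ_succ (n := c + 1), a2, b2]
    · simp [Matrix.mul_apply, Fin.sum_univ_succ (n := c + 1), a2, a3, b3]
  inv_mem' := by
    rintro ⟨A, A'⟩ ⟨a1, a2, a3⟩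
    simp only at a1 a2 a3
    have h1 : A⁻¹.1 * A.1 = 1 := A.inv_mul
    show A⁻¹.1 0 0 = 1 ∧ (∀ i : Fin (c + 1), A⁻¹.1 i.succ 0 = 0) ∧
      ∀ i j : Fin (c + 1), A⁻¹.1 i.succ j.succ = A'⁻¹.1 i j
    generalize A⁻¹.1 = B at h1 ⊢
    have h2 : ∀ i, B i 0 = (1 : Matrix (Fin (c + 1 + 1)) (Fin (c + 1 + 1)) ℤ) i 0 := by
      intro i
      rw [← h1]
      simp [Matrix.mul_apply, Fin.sum_univ_succ (n := c + 1), a1, a2]
    have h3 : ∀ i : Fin (c + 1), B i.succ 0 = 0 := by
      intro i
      rw [h2]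
      exact Matrix.one_apply_ne (Fin.succ_ne_zero i)
    refine ⟨by rw [h2]; simp, h3, ?_⟩
    have h4 : (Matrix.of fun i j : Fin (c + 1) => B i.succ j.succ) * A'.1 = 1 := by
      ext i j
      have h5 : (1 : Matrix (Fin (c + 1 + 1)) (Fin (c + 1 + 1)) ℤ) i.succ j.succ =
          (1 : Matrix (Fin (c + 1)) (Fin (c + 1)) ℤ) i j := by
        simp only [Matrix.one_apply, Fin.succ_inj]
      rw [← h5, ← h1]
      simp [Matrix.mul_apply, Fin.sum_univ_succ (n := c + 1), a3, h3]
    intro i j
    have h6 : A'⁻¹.1 = Matrix.of fun i j : Fin (c + 1) => B i.succ j.succ := by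
      calc A'⁻¹.1 = ((Matrix.of fun i j : Fin (c + 1) =>
            B i.succ j.succ) * A'.1) * A'⁻¹.1 := by rw [h4, one_mul]
        _ = _ := by rw [mul_assoc, A'.mul_inv, mul_one]
    rw [h6]
    rfl

section

variable {X : Type} [DecidableEq X] {c : ℕ}

theorem rep_of (L : Fin c → X) (x : X) : (rep ℤ L (FreeGroup.of x)).1 = 1 + em ℤ L x := by
  unfold rep
  rw [FreeGroup.lift_apply_of]
  rfl

theorem mem_PU (L : Fin (c + 1) → X) (w : FreeGroup X) :
    (rep ℤ L w, rep ℤ (fun i : Fin c => L i.castSucc) w) ∈ PU c := by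
  induction w using FreeGroup.induction_on with
  | C1 =>
    rw [map_one, map_one]
    exact (PU c).one_mem
  | of x =>
    refine ⟨?_, fun j => ?_, fun i j => ?_⟩
    · simp only [rep_of]
      simp [em]
    · simp only [rep_of]
      rw [Matrix.add_apply, Matrix.one_apply_ne (Fin.castSucc_lt_last j).ne', em, dif_neg, add_zero]
      simp
      omega
    · simp only [rep_of]
      rw [Matrix.add_apply, Matrix.add_apply]
      congr 1
      simp only [Matrix.one_apply, Fin.castSucc_inj]
  | inv_of x h =>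
    rw [map_inv, map_inv]
    exact (PU c).inv_mem h
  | mul x y hx hy =>
    rw [map_mul, map_mul]
    exact (PU c).mul_mem hx hy

theorem mem_PL (L : Fin (c + 1) → X) (w : FreeGroup X) :
    (rep ℤ L w, rep ℤ (fun i : Fin c => L i.succ) w) ∈ PL c := by
  induction w using FreeGroup.induction_on with
  | C1 =>
    rw [map_one, map_one]
    exact (PL c).one_mem
  | of x =>
    refine ⟨?_, fun j => ?_, fun i j => ?_⟩
    · simp only [rep_of]
      simp [em]
    · simp only [rep_of]
      rw [Matrix.add_apply, Matrix.one_apply_ne (Fin.succ_ne_zero j), em, dif_neg, add_zero]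
      simp
    · simp only [rep_of]
      rw [Matrix.add_apply, Matrix.add_apply]
      congr 1
      · simp only [Matrix.one_apply, Fin.succ_inj]
      · unfold em
        by_cases h : (i : ℕ) + 1 = j
        · rw [dif_pos h, dif_pos (by simp; omega)]
          rfl
        · rw [dif_neg h, dif_neg (by simp; omega)]
  | inv_of x h =>
    rw [map_inv, map_inv]
    exact (PL c).inv_mem h
  | mul x y hx hy =>
    rw [map_mul, map_mul]
    exact (PL c).mul_mem hx hy

theorem entries (h1 : S_MAG2) (L : Fin (c + 1) → X) {w : FreeGroup X}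
    (hw : w ∈ lcs (⊤ : Subgroup (FreeGroup X)) c) (i j : Fin (c + 1 + 1))
    (hij : ¬ (i = 0 ∧ j = Fin.last _)) : (rep ℤ L w).1 i j = (1 : Matrix _ _ ℤ) i j := by
  have hL := (h1 X c w).1 hw
  obtain ⟨u1, u2, u3⟩ := mem_PU L w
  obtain ⟨l1, l2, l3⟩ := mem_PL L w
  simp only [hL, Units.val_one] at u1 u2 u3 l1 l2 l3
  cases j using Fin.lastCases with
  | cast j =>
    cases i using Fin.lastCases with
    | last =>
      rw [u2, Matrix.one_apply_ne (Fin.castSucc_lt_last j).ne']
    | cast i =>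
      rw [u3]
      simp only [Matrix.one_apply, Fin.castSucc_inj]
  | last =>
    cases i using Fin.cases with
    | zero => exact absurd ⟨rfl, rfl⟩ hij
    | succ i =>
      rw [← Fin.succ_last, l3]
      simp only [Matrix.one_apply, Fin.succ_inj]

end

end UPMAux

open UPMAux in
-- BEGIN TARGET
theorem t_UPM (h1 : S_MAG2) : S_UPM := by
  classical
  intro X c
  induction c with
  | zero =>
    have hs : Subsingleton (FreeGroup X ⧸ lcs (⊤ : Subgroup (FreeGroup X)) 0) := by
      show Subsingleton (FreeGroup X ⧸ (⊤ : Subgroup (FreeGroup X)))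
      exact QuotientGroup.subsingleton_quotient_top
    let φ : (FreeGroup X ⧸ lcs (⊤ : Subgroup (FreeGroup X)) 0) →ₙ* Multiplicative ℤ :=
      { toFun := fun _ => 1
        map_mul' := fun _ _ => by simp }
    exact UniqueProds.of_injective_mulHom φ (fun a b _ => Subsingleton.elim a b) inferInstance
  | succ c ih =>
    have hle : lcs (⊤ : Subgroup (FreeGroup X)) (c + 1) ≤ lcs ⊤ c := by
      show ⁅lcs (⊤ : Subgroup (FreeGroup X)) c, (⊤ : Subgroup (FreeGroup X))⁆ ≤ _
      exact Subgroup.commutator_le_left _ _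
    let q : (FreeGroup X ⧸ lcs (⊤ : Subgroup (FreeGroup X)) (c + 1)) →*
        (FreeGroup X ⧸ lcs (⊤ : Subgroup (FreeGroup X)) c) :=
      QuotientGroup.map _ _ (MonoidHom.id _) (by simpa using hle)
    refine Pool.Agent.H577R3.NZD.uniqueProds_ext q ih ?_
    have hU : UniqueSums ((Fin (c + 1) → X) → ℤ) := UniqueSums.instForall _
    let R : ∀ L : Fin (c + 1) → X, (FreeGroup X ⧸ lcs (⊤ : Subgroup (FreeGroup X)) (c + 1)) →*
        (Matrix (Fin (c + 1 + 1)) (Fin (c + 1 + 1)) ℤ)ˣ := fun L =>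
      QuotientGroup.lift _ (rep ℤ L) (fun w hw => (h1 X (c + 1) w).1 hw L)
    have hR : ∀ (k : q.ker) (L : Fin (c + 1) → X) (i j : Fin (c + 1 + 1)),
        ¬ (i = 0 ∧ j = Fin.last _) → (R L k).1 i j = (1 : Matrix _ _ ℤ) i j := by
      rintro ⟨g, hg⟩ L i j hij
      obtain ⟨w, rfl⟩ := QuotientGroup.mk_surjective g
      have hw : w ∈ lcs (⊤ : Subgroup (FreeGroup X)) c := by
        rw [MonoidHom.mem_ker] at hg
        exact (QuotientGroup.eq_one_iff w).1 hg
      exact entries h1 L hw i j hij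
    let φ : q.ker →ₙ* Multiplicative ((Fin (c + 1) → X) → ℤ) :=
      { toFun := fun k => Multiplicative.ofAdd (fun L => (R L k).1 0 (Fin.last _))
        map_mul' := fun a b => by
          rw [← ofAdd_add]
          congr 1
          funext L
          rw [Subgroup.coe_mul, map_mul, Units.val_mul, Matrix.mul_apply,
            Fin.sum_univ_castSucc, Pi.add_apply, Fin.sum_univ_succ]
          rw [show (0 : Fin (c + 1)).castSucc = 0 from rfl, hR a L 0 0 (by
            rintro ⟨-, h⟩
            have := congrArg Fin.val h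
            simp at this), hR b L (Fin.last _) (Fin.last _) (by
            rintro ⟨h, -⟩
            have := congrArg Fin.val h
            simp at this)]
          have h0 : ∑ i : Fin c, (R L a).1 0 i.succ.castSucc * (R L b).1 i.succ.castSucc (Fin.last _) = 0 := by
            refine Finset.sum_eq_zero fun i _ => ?_
            rw [hR a L 0 _ (by
              rintro ⟨-, h⟩
              exact (Fin.castSucc_lt_last _).ne h), Matrix.one_apply_ne, zero_mul]
            intro h
            have := congrArg Fin.val h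
            simp at this
          rw [h0]
          simp only [Matrix.one_apply_eq]
          ring }
    have hφ : Function.Injective φ := by
      intro a b h
      have h2 : ∀ L, (R L a).1 0 (Fin.last _) = (R L b).1 0 (Fin.last _) := fun L => by
        have := congrArg Multiplicative.toAdd h
        exact congrFun this L
      have h3 : ∀ L, R L a = R L b := by
        intro L
        apply Units.ext
        ext i j
        by_cases hij : i = 0 ∧ j = Fin.last _
        · rw [hij.1, hij.2]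
          exact h2 L
        · rw [hR a L i j hij, hR b L i j hij]
      apply Subtype.ext
      obtain ⟨w, hw⟩ := QuotientGroup.mk_surjective ((a : FreeGroup X ⧸ lcs (⊤ : Subgroup (FreeGroup X)) (c + 1))⁻¹ *
        (b : FreeGroup X ⧸ lcs (⊤ : Subgroup (FreeGroup X)) (c + 1)))
      have h4 : w ∈ lcs (⊤ : Subgroup (FreeGroup X)) (c + 1) := by
        rw [h1 X (c + 1) w]
        intro L
        have h5 : rep ℤ L w = R L (QuotientGroup.mk w) := rfl
        rw [h5, hw, map_mul, map_inv, h3 L, inv_mul_cancel]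
      have h6 : (QuotientGroup.mk w : FreeGroup X ⧸ lcs (⊤ : Subgroup (FreeGroup X)) (c + 1)) = 1 :=
        (QuotientGroup.eq_one_iff w).2 h4
      rw [h6] at hw
      exact (inv_mul_eq_one.1 hw.symm)
    exact UniqueProds.of_injective_mulHom φ hφ inferInstance
-- END TARGET

end Pool.Agent.H335PN
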