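import Pool.Agent.H335PN.Stmts

set_option autoImplicit false

/-! VC: the intersection of a verbally closed subgroup with the commutator subgroup, and purity of
its image in the abelianization. -/

namespace Pool.Agent.H335PN

open scoped commutatorElement

theorem vc_map {A B : Type} [Group A] [Group B] (f : A →* B) {x : A} (hx : x ∈ commutator A) :
    f x ∈ commutator B := by
  have h1 : f x ∈ (commutator A).map f := Subgroup.mem_map_of_mem f hx
  rw [commutator_def, Subgroup.map_commutator] at h1
  rw [commutator_def]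
  exact Subgroup.commutator_mono le_top le_top h1

theorem vc_sub {G : Type} [Group G] {H : Subgroup G} {x : H} (hx : x ∈ commutator H) :
    (x : G) ∈ ⁅H, H⁆ := by
  have h1 : H.subtype x ∈ (commutator H).map H.subtype := Subgroup.mem_map_of_mem _ hx
  rw [commutator_def, Subgroup.map_commutator, ← MonoidHom.range_eq_map,
    Subgroup.range_subtype] at h1
  exact h1

theorem vc_word {G : Type} [Group G] {h : G} (hh : h ∈ commutator G) :
    ∃ (n : ℕ) (w : FreeGroup (Fin n)) (g : Fin n → G), w ∈ commutator (FreeGroup (Fin n)) ∧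
      FreeGroup.lift g w = h := by
  rw [commutator_eq_closure] at hh
  induction hh using Subgroup.closure_induction with
  | mem x hx =>
    obtain ⟨a, b, rfl⟩ := hx
    refine ⟨2, ⁅FreeGroup.of (0 : Fin 2), FreeGroup.of (1 : Fin 2)⁆, ![a, b], ?_, ?_⟩
    · exact Subgroup.commutator_mem_commutator (Subgroup.mem_top _) (Subgroup.mem_top _)
    · rw [map_commutatorElement]
      simp
  | one => exact ⟨0, 1, Fin.elim0, Subgroup.one_mem _, map_one _⟩
  | mul x y _ _ hx hy =>
    obtain ⟨n, w, g, hw, rfl⟩ := hx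
    obtain ⟨m, v, k, hv, rfl⟩ := hy
    refine ⟨n + m, FreeGroup.map (Fin.castAdd m) w * FreeGroup.map (Fin.natAdd n) v,
      Fin.append g k, Subgroup.mul_mem _ (vc_map _ hw) (vc_map _ hv), ?_⟩
    have h1 : (FreeGroup.lift (Fin.append g k)).comp (FreeGroup.map (Fin.castAdd m)) =
        FreeGroup.lift g := by
      apply FreeGroup.ext_hom
      intro i
      simp
    have h2 : (FreeGroup.lift (Fin.append g k)).comp (FreeGroup.map (Fin.natAdd n)) =
        FreeGroup.lift k := by
      apply FreeGroup.ext_hom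
      intro i
      simp
    rw [map_mul, ← h1, ← h2]
    rfl
  | inv x _ hx =>
    obtain ⟨n, w, g, hw, rfl⟩ := hx
    exact ⟨n, w⁻¹, g, Subgroup.inv_mem _ hw, map_inv _ _⟩

theorem t_VC : S_VC := by
  intro G _ H hH
  constructor
  · intro h hh hc
    obtain ⟨n, w, g, hw, hg⟩ := vc_word hc
    obtain ⟨k, hk⟩ := hH n w ⟨h, hh⟩ ⟨g, hg⟩
    have h1 : FreeGroup.lift k w ∈ commutator H := vc_map _ hw
    rw [hk] at h1
    exact vc_sub h1
  · intro h hh n g hc
    obtain ⟨m, w, g0, hw, hg⟩ := vc_word (Subgroup.inv_mem _ hc)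
    have e1 : (FreeGroup.lift (Fin.snoc g0 g : Fin (m + 1) → G)).comp
        (FreeGroup.map Fin.castSucc) = FreeGroup.lift g0 := by
      apply FreeGroup.ext_hom
      intro i
      simp
    obtain ⟨k, hk⟩ := hH (m + 1) (FreeGroup.map Fin.castSucc w * FreeGroup.of (Fin.last m) ^ n)
      ⟨h, hh⟩ ⟨Fin.snoc g0 g, by
        rw [map_mul, map_pow, FreeGroup.lift_apply_of, Fin.snoc_last, ← MonoidHom.comp_apply, e1,
          hg]
        group⟩
    have h1 : FreeGroup.lift k (FreeGroup.map Fin.castSucc w) ∈ commutator H :=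
      vc_map _ (vc_map _ hw)
    refine ⟨(k (Fin.last m) : G), (k (Fin.last m)).2, ?_⟩
    rw [map_mul, map_pow, FreeGroup.lift_apply_of] at hk
    have h2 : ((k (Fin.last m) : G)) ^ n * h⁻¹ =
        ((FreeGroup.lift k (FreeGroup.map Fin.castSucc w) : H) : G)⁻¹ := by
      have h3 := congrArg (fun x : H => (x : G)) hk
      simp only [Subgroup.coe_mul, Subgroup.coe_pow] at h3
      rw [← h3]
      group
    rw [h2]
    have h4 : H.subtype (FreeGroup.lift k (FreeGroup.map Fin.castSucc w)) ∈ commutator G :=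
      vc_map _ h1
    exact Subgroup.inv_mem _ h4

end Pool.Agent.H335PN
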