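import Pool.Agent.H335PN.Stmts

set_option autoImplicit false

namespace Pool.Agent.H335PN

open Pool.Agent.Helper777.Prof

namespace ZEL

theorem comm_of_pow {Γ : Type} [Group Γ]
    (hur : ∀ (a b : Γ) (n : ℕ), n ≠ 0 → a ^ n = b ^ n → a = b) {z f : Γ} {n : ℤ} (hn : n ≠ 0)
    (h : Commute (z ^ n) f) : Commute z f := by
  have h1 : Commute (z ^ n.natAbs) f := by
    rcases Int.natAbs_eq n with h2 | h2
    · rw [h2, zpow_natCast] at h
      exact h
    · rw [h2, zpow_neg, zpow_natCast] at h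
      exact Commute.inv_left_iff.1 h
  have h2 : (f * z * f⁻¹) ^ n.natAbs = z ^ n.natAbs := by
    rw [conj_pow, ← h1.eq, mul_inv_cancel_right]
  have h3 := hur _ _ n.natAbs (Int.natAbs_ne_zero.2 hn) h2
  show z * f = f * z
  rw [mul_inv_eq_iff_eq_mul] at h3
  exact h3.symm

theorem comm_Y {Γ : Type} [Group Γ]
    (hur : ∀ (a b : Γ) (n : ℕ), n ≠ 0 → a ^ n = b ^ n → a = b) {X Y f : Γ} {k m : ℕ}
    (hkm : k < m) (h1 : Commute (X * Y ^ k) f) (h2 : Commute (X * Y ^ m) f) :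
    Commute X f ∧ Commute Y f := by
  have h3 : Commute ((X * Y ^ k)⁻¹ * (X * Y ^ m)) f := (h1.inv_left).mul_left h2
  have h4 : (X * Y ^ k)⁻¹ * (X * Y ^ m) = Y ^ (m - k) := by
    have : Y ^ m = Y ^ k * Y ^ (m - k) := by rw [← pow_add]; congr 1; omega
    rw [this]; group
  rw [h4] at h3
  have h5 : Commute Y f := by
    apply comm_of_pow hur (n := ((m - k : ℕ) : ℤ))
    · have : m - k ≠ 0 := by omega
      exact_mod_cast this
    · rw [zpow_natCast]; exact h3
  refine ⟨?_, h5⟩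
  have h6 : Commute (X * Y ^ k * (Y ^ k)⁻¹) f := h1.mul_left (h5.pow_left k).inv_left
  rwa [mul_inv_cancel_right] at h6

theorem eq_one {Γ : Type} [Group Γ] {X Y f : Γ} (hc : Subgroup.center Γ = ⊥)
    (hXY : Subgroup.closure {X, Y} = (⊤ : Subgroup Γ)) (h1 : Commute X f) (h2 : Commute Y f) :
    f = 1 := by
  have h3 : Subgroup.closure {X, Y} ≤ Subgroup.centralizer {f} := by
    rw [Subgroup.closure_le]
    intro g hg
    rw [SetLike.mem_coe, Subgroup.mem_centralizer_singleton_iff]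
    rcases hg with rfl | hg
    · exact h1.eq
    · rw [Set.mem_singleton_iff] at hg
      rw [hg]; exact h2.eq
  have h4 : f ∈ Subgroup.center Γ := by
    rw [Subgroup.mem_center_iff]
    intro g
    have h5 : g ∈ Subgroup.centralizer {f} := h3 (by rw [hXY]; trivial)
    rw [Subgroup.mem_centralizer_singleton_iff] at h5
    exact h5
  rw [hc, Subgroup.mem_bot] at h4
  exact h4

end ZEL

-- BEGIN TARGET
theorem t_ZEL  : S_ZEL := by
  intro Γ _ X Y hur hc hXY Φ hΦ
  by_contra hcon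
  push Not at hcon
  choose F hF using hcon
  obtain ⟨k, _, m, _, hkm, heq⟩ := Finset.exists_ne_map_eq_of_card_lt_of_maps_to
    (s := Finset.range (Φ.card + 1)) (t := Φ) (f := fun k : ℕ => F (X * Y ^ k))
    (by simp) (fun k _ => (hF _).1)
  obtain ⟨hf, n1, hn1, hc1⟩ := hF (X * Y ^ k)
  obtain ⟨_, n2, hn2, hc2⟩ := hF (X * Y ^ m)
  have heq' : F (X * Y ^ k) = F (X * Y ^ m) := heq
  rw [← heq'] at hc2
  have c1 := ZEL.comm_of_pow hur hn1 hc1
  have c2 := ZEL.comm_of_pow hur hn2 hc2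
  have hone : F (X * Y ^ k) = 1 := by
    rcases lt_or_gt_of_ne hkm with h | h
    · obtain ⟨a, b⟩ := ZEL.comm_Y hur h c1 c2
      exact ZEL.eq_one hc hXY a b
    · obtain ⟨a, b⟩ := ZEL.comm_Y hur h c2 c1
      exact ZEL.eq_one hc hXY a b
  rw [hone] at hf
  exact hΦ hf
-- END TARGET

end Pool.Agent.H335PN
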