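import Pool.Agent.H335PN.Stmts
import Pool.Agent.H335PN.TBAS
import Pool.Agent.H335PN.TCEN
import Pool.Agent.H335PN.TCHR
import Pool.Agent.H335PN.TCORE
import Pool.Agent.H335PN.TDIV
import Pool.Agent.H335PN.TEAS
import Pool.Agent.H335PN.TGOOD
import Pool.Agent.H335PN.TIAE
import Pool.Agent.H335PN.TLEM1
import Pool.Agent.H335PN.TLEM2
import Pool.Agent.H335PN.TLIN
import Pool.Agent.H335PN.TLMD
import Pool.Agent.H335PN.TMAG1
import Pool.Agent.H335PN.TMAG2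
import Pool.Agent.H335PN.TNLP
import Pool.Agent.H335PN.TNTR
import Pool.Agent.H335PN.TORE
import Pool.Agent.H335PN.TR12
import Pool.Agent.H335PN.TRET
import Pool.Agent.H335PN.TRF
import Pool.Agent.H335PN.TRFN
import Pool.Agent.H335PN.TRK1
import Pool.Agent.H335PN.TRK2
import Pool.Agent.H335PN.TSEP
import Pool.Agent.H335PN.TSHM
import Pool.Agent.H335PN.TTST
import Pool.Agent.H335PN.TUP
import Pool.Agent.H335PN.TUPM
import Pool.Agent.H335PN.TUPN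
import Pool.Agent.H335PN.TVC
import Pool.Agent.H335PN.TZEL

set_option autoImplicit false

/-! Assembly of the proof for MP_a78553_al. -/

namespace Pool.Agent.H335PN

theorem x_MAG1 : S_MAG1 := t_MAG1
theorem x_MAG2 : S_MAG2 := t_MAG2 x_MAG1
theorem x_LEM1 : S_LEM1 := t_LEM1 x_MAG2
theorem x_LEM2 : S_LEM2 := t_LEM2 x_LEM1
theorem x_SHM : S_SHM := t_SHM x_LEM2
theorem x_RF : S_RF := t_RF x_MAG2 x_SHM
theorem x_UPM : S_UPM := t_UPM x_MAG2
theorem x_UP : S_UP := t_UP x_UPM x_SHM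
theorem x_CEN : S_CEN := t_CEN x_MAG2 x_SHM
theorem x_UPN : S_UPN := t_UPN x_UP
theorem x_RFN : S_RFN := t_RFN x_RF
theorem x_GOOD : S_GOOD := t_GOOD x_UPN x_RFN t_R12 x_CEN t_NTR t_ORE3 t_ORE4
theorem x_DIV : S_DIV := t_DIV t_ZEL t_SEP t_LMD
theorem x_CORE : S_CORE := t_CORE x_DIV t_CHR
theorem x_BAS : S_BAS := t_BAS t_NLP
theorem x_RK1 : S_RK1 := t_RK1 x_RFN t_VC
theorem x_RK2 : S_RK2 := t_RK2 x_RFN t_IAE
theorem x_TST : S_TST := t_TST x_CORE x_GOOD x_BAS t_NLP t_NTR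
theorem x_RET : S_RET := t_RET t_VC t_LIN x_RK1 x_RK2 x_TST

theorem x_FINAL : S_FINAL := fun r l c hr hl hc H hH =>
  ⟨⟨(t_EAS _ H).1, fun h => x_RET r c l hl hc H hH ((t_EAS _ H).2 h)⟩,
    ⟨(t_EAS _ H).2, fun h => (t_EAS _ H).1 (x_RET r c l hl hc H hH h)⟩⟩

end Pool.Agent.H335PN
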