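import Mathlib
import Pool.Agent.H335PN.Stmts
import Pool.Agent.Helper777.Prof.P_magnus_ker
import Pool.Agent.Helper777.Prof.P_mag_comm

set_option autoImplicit false

/-! The core step: the test element modulo the commutator subgroup of the kernel. -/

namespace Pool.Agent.H335PN.Core

open Pool.Agent.Helper777.Prof Pool.Agent.H335PN

section basic

variable {ι Γ : Type} [DecidableEq ι] [Group Γ] (π : FreeGroup ι →* Γ)

theorem D_mul (a b : FreeGroup ι) :
    (mag π (a * b)).v = (mag π a).v + MonoidAlgebra.single (π a) (1 : ℤ) • (mag π b).v := by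
  rw [map_mul, Wr.mul_v, mag_m, MonoidAlgebra.of_apply]

theorem D_inv (a : FreeGroup ι) :
    (mag π (a⁻¹)).v = -(MonoidAlgebra.single (π a)⁻¹ (1 : ℤ) • (mag π a).v) := by
  rw [map_inv, Wr.inv_v, mag_m, MonoidAlgebra.of_apply]

theorem D_one : (mag π 1).v = 0 := by rw [map_one, Wr.one_v]

/-- the map `D` on the kernel -/
noncomputable def Dk : π.ker →* Multiplicative (ι → MonoidAlgebra ℤ Γ) where
  toFun w := Multiplicative.ofAdd (mag π (w : FreeGroup ι)).v
  map_one' := by
    show Multiplicative.ofAdd (mag π 1).v = 1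
    rw [D_one]; rfl
  map_mul' a b := by
    show Multiplicative.ofAdd (mag π ((a : FreeGroup ι) * b)).v = _
    rw [D_mul, show π (a : FreeGroup ι) = 1 from a.2, ← MonoidAlgebra.one_def, one_smul]
    rfl

theorem D_zpow (u : FreeGroup ι) (hu : u ∈ π.ker) (n : ℤ) :
    (mag π (u ^ n)).v = n • (mag π u).v := by
  have h := map_zpow (Dk π) ⟨u, hu⟩ n
  exact h

theorem D_comm (g s : FreeGroup ι) (hs : s ∈ π.ker) :
    (mag π (g * s * g⁻¹ * s⁻¹)).v =
      (MonoidAlgebra.single (π g) (1 : ℤ) - 1) • (mag π s).v := by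
  have hs1 : π s = 1 := hs
  rw [D_mul, D_mul, D_mul, D_inv, D_inv, map_mul, map_mul, map_mul, hs1, map_inv, inv_one,
    mul_one, mul_inv_cancel, ← MonoidAlgebra.one_def, one_smul, one_smul, smul_neg, smul_smul,
    MonoidAlgebra.single_mul_single, mul_inv_cancel, mul_one, ← MonoidAlgebra.one_def, one_smul,
    sub_smul, one_smul]
  abel

theorem D_conj (g s : FreeGroup ι) (hs : s ∈ π.ker) :
    (mag π (g * s * g⁻¹)).v = MonoidAlgebra.single (π g) (1 : ℤ) • (mag π s).v := by
  have hs1 : π s = 1 := hs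
  rw [D_mul, D_mul, D_inv, map_mul, hs1, mul_one, smul_neg, smul_smul,
    MonoidAlgebra.single_mul_single, mul_inv_cancel, mul_one, ← MonoidAlgebra.one_def, one_smul]
  abel

theorem exists_ker (hπ : Function.Surjective π) (u : FreeGroup ι) (hu : u ∈ π.ker)
    (r : MonoidAlgebra ℤ Γ) : ∃ s ∈ π.ker, (mag π s).v = r • (mag π u).v := by
  induction r using MonoidAlgebra.induction_linear with
  | zero => exact ⟨1, one_mem _, by rw [D_one, zero_smul]⟩
  | add f g hf hg =>
    obtain ⟨s, hs, es⟩ := hf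
    obtain ⟨s', hs', es'⟩ := hg
    refine ⟨s * s', mul_mem hs hs', ?_⟩
    rw [D_mul, show π s = 1 from hs, ← MonoidAlgebra.one_def, one_smul, es, es', add_smul]
  | single g n =>
    obtain ⟨a, rfl⟩ := hπ g
    have hk : a * u * a⁻¹ ∈ π.ker := Subgroup.Normal.conj_mem inferInstance u hu a
    refine ⟨(a * u * a⁻¹) ^ n, Subgroup.zpow_mem _ hk n, ?_⟩
    rw [D_zpow π _ hk, D_conj π a u hu, ← smul_assoc, MonoidAlgebra.smul_single, smul_eq_mul,
      mul_one]

theorem mem_of_D (hπ : Function.Surjective π) (a b : FreeGroup ι) (ha : a ∈ π.ker)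
    (hb : b ∈ π.ker) (h : (mag π a).v = (mag π b).v) : a * b⁻¹ ∈ ⁅π.ker, π.ker⁆ := by
  apply magnus_ker π hπ
  have ha1 : π a = 1 := ha
  have hb1 : π b = 1 := hb
  ext1
  · rw [D_mul, D_inv, ha1, hb1, inv_one, ← MonoidAlgebra.one_def, one_smul, one_smul, h,
      Wr.one_v, add_neg_cancel]
  · rw [mag_m, map_mul, map_inv, ha1, hb1, inv_one, mul_one, Wr.one_m]

theorem D_of_mem (a b : FreeGroup ι)
    (h : a * b⁻¹ ∈ ⁅π.ker, π.ker⁆) : (mag π a).v = (mag π b).v := by
  have h1 := mag_comm π _ h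
  have h2 : mag π a = mag π b := by
    rw [map_mul, map_inv] at h1
    exact mul_inv_eq_one.mp h1
  rw [h2]

end basic

theorem core (hDIV : S_DIV) (hCHR : S_CHR) : S_CORE := by
  intro Γ _ π hπ hG hker hXY hu
  set R := MonoidAlgebra ℤ Γ with hR
  have : NoZeroDivisors R := hG.nz
  set X : Γ := π (FreeGroup.of 0) with hX
  set Y : Γ := π (FreeGroup.of 1) with hY
  have hXY' : X * Y ≠ Y * X := by
    rw [map_mul, map_mul] at hXY; exact hXY
  have hX1 : X ≠ 1 := by
    rintro h; apply hXY'; rw [h, one_mul, mul_one]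
  have hY1 : Y ≠ 1 := by
    rintro h; apply hXY'; rw [h, one_mul, mul_one]
  have hsub : ∀ g : Γ, g ≠ 1 → (MonoidAlgebra.single g (1 : ℤ) - 1 : R) ≠ 0 := by
    intro g hg h
    rw [sub_eq_zero, MonoidAlgebra.one_def] at h
    exact hg (MonoidAlgebra.single_left_injective (one_ne_zero) h)
  -- the abelianization map
  have hA : ∃ A : Γ →* Multiplicative (ℤ × ℤ), A X = Multiplicative.ofAdd (1, 0) ∧
      A Y = Multiplicative.ofAdd (0, 1) := by
    let a : FreeGroup (Fin 2) →* Multiplicative (ℤ × ℤ) :=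
      FreeGroup.lift ![Multiplicative.ofAdd (1, 0), Multiplicative.ofAdd (0, 1)]
    have ha : π.ker ≤ a.ker := hker.trans (Abelianization.commutator_subset_ker a)
    refine ⟨π.liftOfSurjective hπ ⟨a, ha⟩, ?_, ?_⟩
    · rw [hX]
      erw [MonoidHom.liftOfRightInverse_comp_apply]
      simp [a]
    · rw [hY]
      erw [MonoidHom.liftOfRightInverse_comp_apply]
      simp [a]
  obtain ⟨A, hAX, hAY⟩ := hA
  have hgen : Subgroup.closure {X, Y} = (⊤ : Subgroup Γ) := by
    have h1 : Subgroup.map π (Subgroup.closure (Set.range FreeGroup.of)) = ⊤ := by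
      rw [FreeGroup.closure_range_of, ← MonoidHom.range_eq_map]
      exact MonoidHom.range_eq_top.mpr hπ
    rw [MonoidHom.map_closure] at h1
    rw [← h1]
    congr 1
    ext g
    constructor
    · rintro (rfl | rfl)
      · exact ⟨FreeGroup.of 0, ⟨0, rfl⟩, rfl⟩
      · exact ⟨FreeGroup.of 1, ⟨1, rfl⟩, rfl⟩
    · rintro ⟨_, ⟨i, rfl⟩, rfl⟩
      fin_cases i
      · left; rfl
      · right; rfl
  obtain ⟨u0, hu0, hu0'⟩ := hu
  -- fundamental formula
  have hfund : ∀ w ∈ π.ker, (mag π w).v 0 * (MonoidAlgebra.single X 1 - 1) +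
      (mag π w).v 1 * (MonoidAlgebra.single Y 1 - 1) = (0 : R) := by
    intro w hw
    have h := (hCHR (Fin 2) Γ π).1 w
    rw [Fin.sum_univ_two, show π w = 1 from hw, ← MonoidAlgebra.one_def, sub_self] at h
    exact h
  have hsnd : ∀ w ∈ π.ker, (mag π w).v 0 = 0 → (mag π w).v = 0 := by
    intro w hw h0
    have h := hfund w hw
    rw [h0, zero_mul, zero_add] at h
    have h1 := (mul_eq_zero.mp h).resolve_right (hsub Y hY1)
    funext i
    fin_cases i
    · exact h0
    · exact h1
  have hu00 : (mag π u0).v 0 ≠ 0 := by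
    intro h0
    apply hu0'
    have h := mem_of_D π hπ u0 1 hu0 (one_mem _) (by rw [hsnd u0 hu0 h0, D_one])
    simpa using h
  obtain ⟨r, hr0, hr1, hr2⟩ := hDIV Γ X Y A hG hgen hAX hAY hXY' _ hu00
  obtain ⟨s, hs, hDs⟩ := exists_ker π hπ u0 hu0 r
  have hs0 : (mag π s).v 0 = r * (mag π u0).v 0 := by rw [hDs]; rfl
  have hs0' : (mag π s).v 0 ≠ 0 := by rw [hs0]; exact mul_ne_zero hr0 hu00
  have hker2 : ∀ (g w : FreeGroup (Fin 2)), w ∈ π.ker → g * w * g⁻¹ * w⁻¹ ∈ π.ker := fun g w hw =>
    mul_mem (Subgroup.Normal.conj_mem inferInstance w hw g) (inv_mem hw)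
  set x : FreeGroup (Fin 2) := FreeGroup.of 0 with hx
  set y : FreeGroup (Fin 2) := FreeGroup.of 1 with hy
  refine ⟨x * (y * s * y⁻¹ * s⁻¹) * x⁻¹ * (y * s * y⁻¹ * s⁻¹)⁻¹, hker2 _ _ (hker2 _ _ hs), ?_⟩
  intro α hα hαt
  -- beta
  obtain ⟨β, hβ⟩ : ∃ β : Γ →* Γ, ∀ w, β (π w) = π (α w) := by
    have ha : π.ker ≤ (π.comp α).ker := fun w hw => hα w hw
    refine ⟨π.liftOfSurjective hπ ⟨π.comp α, ha⟩, fun w => ?_⟩
    erw [MonoidHom.liftOfRightInverse_comp_apply]
    rfl
  have hαs : α s ∈ π.ker := hα s hs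
  have hDt : (mag π (x * (y * s * y⁻¹ * s⁻¹) * x⁻¹ * (y * s * y⁻¹ * s⁻¹)⁻¹)).v =
      (MonoidAlgebra.single X (1 : ℤ) - 1) • (MonoidAlgebra.single Y (1 : ℤ) - 1) •
        (mag π s).v := by
    rw [D_comm π _ _ (hker2 _ _ hs), D_comm π _ _ hs]
  have hDαt : (mag π (α (x * (y * s * y⁻¹ * s⁻¹) * x⁻¹ * (y * s * y⁻¹ * s⁻¹)⁻¹))).v =
      (MonoidAlgebra.single (β X) (1 : ℤ) - 1) • (MonoidAlgebra.single (β Y) (1 : ℤ) - 1) •
        (mag π (α s)).v := by
    have e : α (x * (y * s * y⁻¹ * s⁻¹) * x⁻¹ * (y * s * y⁻¹ * s⁻¹)⁻¹) =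
      α x * (α y * α s * (α y)⁻¹ * (α s)⁻¹) * (α x)⁻¹ * (α y * α s * (α y)⁻¹ * (α s)⁻¹)⁻¹ := by
      simp only [map_mul, map_inv]
    rw [e, D_comm π _ _ (hker2 _ _ hαs), D_comm π _ _ hαs, hX, hY, hβ, hβ]
  have hEQ : (MonoidAlgebra.single (β X) (1 : ℤ) - 1 : R) •
      (MonoidAlgebra.single (β Y) (1 : ℤ) - 1 : R) • (mag π (α s)).v =
      (MonoidAlgebra.single X (1 : ℤ) - 1) • (MonoidAlgebra.single Y (1 : ℤ) - 1) •
        (mag π s).v := by
    rw [← hDt, ← hDαt]
    exact D_of_mem π _ _ hαt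
  -- cancellation for vectors
  have hcanc : ∀ (p : R) (v w : Fin 2 → R), p ≠ 0 → p • v = p • w → v = w := by
    intro p v w hp h
    funext i
    have := congrFun h i
    exact mul_left_cancel₀ hp this
  have hinvX : ∀ g : Γ, (MonoidAlgebra.single g⁻¹ (1 : ℤ) - 1 : R) =
      -((MonoidAlgebra.single g 1 - 1) * MonoidAlgebra.single g⁻¹ 1) := by
    intro g
    rw [sub_mul, MonoidAlgebra.single_mul_single, mul_inv_cancel, mul_one, one_mul,
      ← MonoidAlgebra.one_def, neg_sub]
  -- the four cases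
  have hcase : ∃ c : R, (mag π (α s)).v = c • (mag π s).v ∧
      MonoidAlgebra.mapDomainRingHom ℤ β c * c = 1 ∧ β (β X) = X ∧ β (β Y) = Y := by
    have hLne : ((MonoidAlgebra.single Y 1 - 1 : R)) * r * (mag π u0).v 0 ≠ 0 :=
      mul_ne_zero (mul_ne_zero (hsub Y hY1) hr0) hu00
    have hE0 := congrFun hEQ 0
    simp only [Pi.smul_apply, smul_eq_mul] at hE0
    have hgX : β X = X ∨ β X = X⁻¹ := by
      apply hr1 (β X) ((MonoidAlgebra.single (β Y) (1 : ℤ) - 1) * (mag π (α s)).v 0)
      · intro h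
        rw [h, ← MonoidAlgebra.one_def, sub_self, zero_mul, hs0] at hE0
        exact mul_ne_zero (hsub X hX1) hLne (by simpa only [mul_assoc] using hE0.symm)
      · rw [hE0, hs0]
        simp only [mul_assoc]
    rcases hgX with hgX | hgX
    · rw [hgX] at hEQ
      have h2 := hcanc _ _ _ (hsub X hX1) hEQ
      have h20 := congrFun h2 0
      simp only [Pi.smul_apply, smul_eq_mul] at h20
      have hhY : β Y = Y ∨ β Y = Y⁻¹ := by
        apply hr2 (β Y) ((mag π (α s)).v 0)
        · intro h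
          rw [h, ← MonoidAlgebra.one_def, sub_self, zero_mul, hs0, ← mul_assoc] at h20
          exact hLne h20.symm
        · rw [h20, hs0, mul_assoc]
      rcases hhY with hhY | hhY
      · rw [hhY] at h2
        refine ⟨1, ?_, by rw [map_one, mul_one], by rw [hgX, hgX], by rw [hhY, hhY]⟩
        rw [one_smul]
        exact hcanc _ _ _ (hsub Y hY1) h2
      · rw [hhY, hinvX Y, neg_smul, ← smul_neg, mul_smul] at h2
        have h3 := hcanc _ _ _ (hsub Y hY1) h2
        refine ⟨-MonoidAlgebra.single Y 1, ?_, ?_, by rw [hgX, hgX],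
          by rw [hhY, map_inv, hhY, inv_inv]⟩
        · rw [← h3]
          simp only [smul_neg, neg_smul, neg_neg]
          rw [smul_smul, MonoidAlgebra.single_mul_single,
            mul_inv_cancel, mul_one, ← MonoidAlgebra.one_def, one_smul]
        · rw [map_neg, MonoidAlgebra.mapDomainRingHom_apply, MonoidAlgebra.mapDomain_single, hhY,
            neg_mul_neg, MonoidAlgebra.single_mul_single, inv_mul_cancel, mul_one,
            ← MonoidAlgebra.one_def]
    · rw [hgX, hinvX X, neg_smul, ← smul_neg, mul_smul] at hEQ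
      have h2 := hcanc _ _ _ (hsub X hX1) hEQ
      -- h2 : single X⁻¹ 1 • -(single (β Y) 1 - 1) • D (α s) = (single Y 1 - 1) • D s
      have hk : (MonoidAlgebra.single (X⁻¹ * β Y * X) (1 : ℤ) - 1 : R) •
          -(MonoidAlgebra.single X⁻¹ (1 : ℤ) • (mag π (α s)).v) =
          (MonoidAlgebra.single Y (1 : ℤ) - 1 : R) • (mag π s).v := by
        rw [← h2, smul_neg, smul_neg, smul_smul, smul_smul]
        congr 2
        rw [sub_mul, mul_sub, MonoidAlgebra.single_mul_single, MonoidAlgebra.single_mul_single,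
          mul_one, one_mul, mul_one]
        congr 2
        group
      have hk0 := congrFun hk 0
      simp only [Pi.smul_apply, smul_eq_mul] at hk0
      have hhY : X⁻¹ * β Y * X = Y ∨ X⁻¹ * β Y * X = Y⁻¹ := by
        apply hr2 (X⁻¹ * β Y * X) ((-(MonoidAlgebra.single X⁻¹ (1 : ℤ) • (mag π (α s)).v)) 0)
        · intro h
          rw [h, ← MonoidAlgebra.one_def, sub_self, zero_mul, hs0, ← mul_assoc] at hk0
          exact hLne hk0.symm
        · rw [hk0, hs0, mul_assoc]
      rcases hhY with hhY | hhY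
      · have hY2 : β Y = X * Y * X⁻¹ := by
          have e : β Y = X * (X⁻¹ * β Y * X) * X⁻¹ := by group
          rw [hhY] at e
          exact e
        rw [hhY] at hk
        have h3 := hcanc _ _ _ (hsub Y hY1) hk
        refine ⟨-MonoidAlgebra.single X 1, ?_, ?_, by rw [hgX, map_inv, hgX, inv_inv],
          by
            rw [hY2, map_mul, map_mul, map_inv, hgX, hY2]
            simp only [mul_assoc, inv_mul_cancel_left, inv_inv, inv_mul_cancel, mul_one]⟩
        · rw [← h3]
          simp only [smul_neg, neg_smul, neg_neg]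
          rw [smul_smul, MonoidAlgebra.single_mul_single,
            mul_inv_cancel, mul_one, ← MonoidAlgebra.one_def, one_smul]
        · rw [map_neg, MonoidAlgebra.mapDomainRingHom_apply, MonoidAlgebra.mapDomain_single, hgX,
            neg_mul_neg, MonoidAlgebra.single_mul_single, inv_mul_cancel, mul_one,
            ← MonoidAlgebra.one_def]
      · have hY2 : β Y = X * Y⁻¹ * X⁻¹ := by
          have e : β Y = X * (X⁻¹ * β Y * X) * X⁻¹ := by group
          rw [hhY] at e
          exact e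
        rw [hhY, hinvX Y, neg_smul, ← smul_neg, neg_neg, mul_smul] at hk
        have h3 := hcanc _ _ _ (hsub Y hY1) hk
        refine ⟨MonoidAlgebra.single (X * Y) 1, ?_, ?_, by rw [hgX, map_inv, hgX, inv_inv],
          by
            rw [hY2, map_mul, map_mul, map_inv, map_inv, hgX, hY2]
            simp only [mul_assoc, inv_mul_cancel_left, inv_inv, inv_mul_cancel, mul_one,
              mul_inv_rev]⟩
        · rw [← h3, smul_smul, smul_smul, MonoidAlgebra.single_mul_single,
            MonoidAlgebra.single_mul_single, mul_one, mul_one]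
          rw [show X * Y * Y⁻¹ * X⁻¹ = 1 by group, ← MonoidAlgebra.one_def, one_smul]
        · rw [MonoidAlgebra.mapDomainRingHom_apply, MonoidAlgebra.mapDomain_single, map_mul, hgX,
            hY2, MonoidAlgebra.single_mul_single, mul_one,
            show X⁻¹ * (X * Y⁻¹ * X⁻¹) * (X * Y) = 1 by group, ← MonoidAlgebra.one_def]
  obtain ⟨c, hc1, hc2, hβX, hβY⟩ := hcase
  have hββ : ∀ g, β (β g) = g := by
    have h : (β.comp β) = MonoidHom.id Γ := by
      apply MonoidHom.eq_of_eqOn_dense hgen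
      rintro g (rfl | rfl)
      · exact hβX
      · exact hβY
    intro g
    exact DFunLike.congr_fun h g
  have hker3 : ∀ w, α (α w) * w⁻¹ ∈ π.ker := by
    intro w
    rw [MonoidHom.mem_ker, map_mul, map_inv, ← hβ, ← hβ, hββ, mul_inv_cancel]
  refine ⟨?_, hker3⟩
  -- D (α² s) = D s
  have hchr := (hCHR (Fin 2) Γ π).2 α β hβ
  have hDss : (mag π (α (α s))).v = (mag π s).v := by
    rw [hchr (α s), hc1]
    have e : ∑ i, MonoidAlgebra.mapDomainRingHom ℤ β ((c • (mag π s).v) i) •
        (mag π (α (FreeGroup.of i))).v =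
        MonoidAlgebra.mapDomainRingHom ℤ β c • (mag π (α s)).v := by
      rw [hchr s, Finset.smul_sum]
      apply Finset.sum_congr rfl
      intro i _
      rw [Pi.smul_apply, smul_eq_mul, map_mul, mul_smul]
    rw [e, hc1, smul_smul, hc2, one_smul]
  -- linear formula for α²
  have hchr2 := (hCHR (Fin 2) Γ π).2 (α.comp α) (β.comp β) (fun w => by
    show β (β (π w)) = π (α (α w))
    rw [hβ, hβ])
  have hlin : ∀ w, (mag π (α (α w))).v =
      ∑ i, (mag π w).v i • (mag π (α (α (FreeGroup.of i)))).v := by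
    intro w
    have h := hchr2 w
    have hid : β.comp β = MonoidHom.id Γ := by
      ext g; exact hββ g
    rw [hid, MonoidAlgebra.mapDomainRingHom_id] at h
    exact h
  intro w hw
  apply mem_of_D π hπ _ _ (hα _ (hα w hw)) hw
  obtain ⟨p, q, hp, hpq⟩ := hG.ore ((mag π w).v 0) ((mag π s).v 0) hs0'
  have hpqv : p • (mag π w).v = q • (mag π s).v := by
    have h1 := hfund w hw
    have h2 := hfund s hs
    have h3 : (p * (mag π w).v 1 - q * (mag π s).v 1) * (MonoidAlgebra.single Y 1 - 1) =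
        (0 : R) := by
      have e1 : p * ((mag π w).v 1 * (MonoidAlgebra.single Y 1 - 1)) =
          -(p * ((mag π w).v 0 * (MonoidAlgebra.single X 1 - 1))) := by
        rw [← mul_neg]
        congr 1
        exact eq_neg_of_add_eq_zero_right h1
      have e2 : q * ((mag π s).v 1 * (MonoidAlgebra.single Y 1 - 1)) =
          -(q * ((mag π s).v 0 * (MonoidAlgebra.single X 1 - 1))) := by
        rw [← mul_neg]
        congr 1
        exact eq_neg_of_add_eq_zero_right h2
      rw [sub_mul, mul_assoc, mul_assoc, e1, e2, ← mul_assoc, ← mul_assoc, hpq, sub_self]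
    have h4 := sub_eq_zero.mp ((mul_eq_zero.mp h3).resolve_right (hsub Y hY1))
    funext i
    fin_cases i
    · exact hpq
    · exact h4
  apply hcanc p _ _ hp
  calc p • (mag π (α (α w))).v
      = ∑ i, (p • (mag π w).v) i • (mag π (α (α (FreeGroup.of i)))).v := by
        rw [hlin w, Finset.smul_sum]
        apply Finset.sum_congr rfl
        intro i _
        rw [Pi.smul_apply, smul_eq_mul, mul_smul]
    _ = ∑ i, (q • (mag π s).v) i • (mag π (α (α (FreeGroup.of i)))).v := by rw [hpqv]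
    _ = q • (mag π (α (α s))).v := by
        rw [hlin s, Finset.smul_sum]
        apply Finset.sum_congr rfl
        intro i _
        rw [Pi.smul_apply, smul_eq_mul, mul_smul]
    _ = p • (mag π w).v := by rw [hDss, hpqv]

end Pool.Agent.H335PN.Core
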