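import Pool.Agent.H335PN.Stmts

set_option autoImplicit false

namespace Pool.Agent.H335PN

open Pool.Agent.Helper777.Prof

namespace H954MAG2

/-- matrices vanishing on and below the `k`-th superdiagonal -/
def J (n k : ℕ) : Set (Matrix (Fin n) (Fin n) ℤ) := {A | ∀ i j : Fin n, (j : ℕ) ≤ i + k → A i j = 0}

theorem J_mono {n k m : ℕ} (h : k ≤ m) : J n m ⊆ J n k := by
  intro A hA i j hij
  exact hA i j (by omega)

theorem J_mul {n k m : ℕ} {A B : Matrix (Fin n) (Fin n) ℤ} (hA : A ∈ J n k) (hB : B ∈ J n m) :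
    A * B ∈ J n (k + m + 1) := by
  intro i j hij
  rw [Matrix.mul_apply]
  apply Finset.sum_eq_zero
  intro l _
  by_cases h : (l : ℕ) ≤ i + k
  · rw [hA i l h, zero_mul]
  · rw [hB l j (by omega), mul_zero]

theorem J_add {n k : ℕ} {A B : Matrix (Fin n) (Fin n) ℤ} (hA : A ∈ J n k) (hB : B ∈ J n k) :
    A + B ∈ J n k := by
  intro i j hij
  rw [Matrix.add_apply, hA i j hij, hB i j hij, add_zero]

theorem J_neg {n k : ℕ} {A : Matrix (Fin n) (Fin n) ℤ} (hA : A ∈ J n k) : -A ∈ J n k := by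
  intro i j hij
  rw [Matrix.neg_apply, hA i j hij, neg_zero]

theorem J_sub {n k : ℕ} {A B : Matrix (Fin n) (Fin n) ℤ} (hA : A ∈ J n k) (hB : B ∈ J n k) :
    A - B ∈ J n k := by
  rw [sub_eq_add_neg]
  exact J_add hA (J_neg hB)

/-- right multiplication by `1 + J 0` -/
theorem J_mul_one_add {n k : ℕ} {A B : Matrix (Fin n) (Fin n) ℤ} (hA : A ∈ J n k)
    (hB : B - 1 ∈ J n 0) : A * B ∈ J n k := by
  have : A * B = A * (B - 1) + A := by noncomm_ring
  rw [this]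
  exact J_add (J_mono (by omega) (J_mul hA hB)) hA

/-- the unitriangular subgroups -/
def U (n k : ℕ) : Subgroup (Matrix (Fin n) (Fin n) ℤ)ˣ where
  carrier := {M | (M : Matrix (Fin n) (Fin n) ℤ) - 1 ∈ J n k ∧
    ((M⁻¹ : (Matrix (Fin n) (Fin n) ℤ)ˣ) : Matrix (Fin n) (Fin n) ℤ) - 1 ∈ J n k}
  mul_mem' := by
    rintro M N ⟨hM, hM'⟩ ⟨hN, hN'⟩
    constructor
    · have : ((M * N : (Matrix (Fin n) (Fin n) ℤ)ˣ) : Matrix (Fin n) (Fin n) ℤ) - 1 =
          ((M : Matrix (Fin n) (Fin n) ℤ) - 1) * N + ((N : Matrix (Fin n) (Fin n) ℤ) - 1) := by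
        rw [Units.val_mul]; noncomm_ring
      rw [this]
      exact J_add (J_mul_one_add hM (J_mono (Nat.zero_le _) hN)) hN
    · have : (((M * N)⁻¹ : (Matrix (Fin n) (Fin n) ℤ)ˣ) : Matrix (Fin n) (Fin n) ℤ) - 1 =
          (((N⁻¹ : (Matrix (Fin n) (Fin n) ℤ)ˣ) : Matrix (Fin n) (Fin n) ℤ) - 1) *
            ((M⁻¹ : (Matrix (Fin n) (Fin n) ℤ)ˣ) : Matrix (Fin n) (Fin n) ℤ) +
          (((M⁻¹ : (Matrix (Fin n) (Fin n) ℤ)ˣ) : Matrix (Fin n) (Fin n) ℤ) - 1) := by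
        rw [mul_inv_rev, Units.val_mul]; noncomm_ring
      rw [this]
      exact J_add (J_mul_one_add hN' (J_mono (Nat.zero_le _) hM')) hM'
  one_mem' := by
    constructor
    · rw [Units.val_one, sub_self]
      intro i j _
      rfl
    · rw [inv_one, Units.val_one, sub_self]
      intro i j _
      rfl
  inv_mem' := by
    rintro M ⟨hM, hM'⟩
    exact ⟨hM', by rw [inv_inv]; exact hM⟩

theorem comm_aux {n k : ℕ} {M N : (Matrix (Fin n) (Fin n) ℤ)ˣ} (hM : M ∈ U n k) (hN : N ∈ U n 0) :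
    ((M * N * M⁻¹ * N⁻¹ : (Matrix (Fin n) (Fin n) ℤ)ˣ) : Matrix (Fin n) (Fin n) ℤ) - 1 ∈
      J n (k + 1) := by
  have h1 : ((M * N * M⁻¹ * N⁻¹ : (Matrix (Fin n) (Fin n) ℤ)ˣ) : Matrix (Fin n) (Fin n) ℤ) - 1 =
      (((M : Matrix (Fin n) (Fin n) ℤ) - 1) * ((N : Matrix (Fin n) (Fin n) ℤ) - 1) -
        ((N : Matrix (Fin n) (Fin n) ℤ) - 1) * ((M : Matrix (Fin n) (Fin n) ℤ) - 1)) *
        ((M⁻¹ * N⁻¹ : (Matrix (Fin n) (Fin n) ℤ)ˣ) : Matrix (Fin n) (Fin n) ℤ) := by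
    have h2 : ((M : Matrix (Fin n) (Fin n) ℤ) - 1) * ((N : Matrix (Fin n) (Fin n) ℤ) - 1) -
        ((N : Matrix (Fin n) (Fin n) ℤ) - 1) * ((M : Matrix (Fin n) (Fin n) ℤ) - 1) =
        ((M * N : (Matrix (Fin n) (Fin n) ℤ)ˣ) : Matrix (Fin n) (Fin n) ℤ) -
        ((N * M : (Matrix (Fin n) (Fin n) ℤ)ˣ) : Matrix (Fin n) (Fin n) ℤ) := by
      rw [Units.val_mul, Units.val_mul]; noncomm_ring
    rw [h2, sub_mul, ← Units.val_mul, ← Units.val_mul]
    have h3 : N * M * (M⁻¹ * N⁻¹) = 1 := by group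
    rw [h3, Units.val_one, ← mul_assoc]
  rw [h1]
  apply J_mul_one_add
  · apply J_sub
    · exact J_mono (by omega) (J_mul hM.1 hN.1)
    · exact J_mono (by omega) (J_mul hN.1 hM.1)
  · have : M⁻¹ * N⁻¹ ∈ U n 0 := by
      apply mul_mem
      · exact inv_mem ⟨J_mono (Nat.zero_le _) hM.1, J_mono (Nat.zero_le _) hM.2⟩
      · exact inv_mem hN
    exact this.1

theorem comm_mem {n k : ℕ} : ⁅U n k, U n 0⁆ ≤ U n (k + 1) := by
  rw [Subgroup.commutator_le]
  intro M hM N hN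
  rw [commutatorElement_def]
  refine ⟨comm_aux hM hN, ?_⟩
  have h1 : (M * N * M⁻¹ * N⁻¹)⁻¹ = N * M * N⁻¹ * M⁻¹ := by group
  rw [h1]
  have h4 : ((N * M * N⁻¹ * M⁻¹ : (Matrix (Fin n) (Fin n) ℤ)ˣ) : Matrix (Fin n) (Fin n) ℤ) - 1 =
      (((N : Matrix (Fin n) (Fin n) ℤ) - 1) * ((M : Matrix (Fin n) (Fin n) ℤ) - 1) -
        ((M : Matrix (Fin n) (Fin n) ℤ) - 1) * ((N : Matrix (Fin n) (Fin n) ℤ) - 1)) *
        ((N⁻¹ * M⁻¹ : (Matrix (Fin n) (Fin n) ℤ)ˣ) : Matrix (Fin n) (Fin n) ℤ) := by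
    have h2 : ((N : Matrix (Fin n) (Fin n) ℤ) - 1) * ((M : Matrix (Fin n) (Fin n) ℤ) - 1) -
        ((M : Matrix (Fin n) (Fin n) ℤ) - 1) * ((N : Matrix (Fin n) (Fin n) ℤ) - 1) =
        ((N * M : (Matrix (Fin n) (Fin n) ℤ)ˣ) : Matrix (Fin n) (Fin n) ℤ) -
        ((M * N : (Matrix (Fin n) (Fin n) ℤ)ˣ) : Matrix (Fin n) (Fin n) ℤ) := by
      rw [Units.val_mul, Units.val_mul]; noncomm_ring
    rw [h2, sub_mul, ← Units.val_mul, ← Units.val_mul]
    have h3 : M * N * (N⁻¹ * M⁻¹) = 1 := by group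
    rw [h3, Units.val_one, ← mul_assoc]
  rw [h4]
  apply J_mul_one_add
  · apply J_sub
    · exact J_mono (by omega) (J_mul hN.1 hM.1)
    · exact J_mono (by omega) (J_mul hM.1 hN.1)
  · have : N⁻¹ * M⁻¹ ∈ U n 0 := by
      apply mul_mem
      · exact inv_mem hN
      · exact inv_mem ⟨J_mono (Nat.zero_le _) hM.1, J_mono (Nat.zero_le _) hM.2⟩
    exact this.1

theorem em_mem_J {X : Type} [DecidableEq X] {c : ℕ} (L : Fin c → X) (x : X) :
    em ℤ L x ∈ J (c + 1) 0 := by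
  intro i j hij
  simp only [em]
  rw [dif_neg (by omega)]

theorem gen_mem {X : Type} [DecidableEq X] {c : ℕ} (L : Fin c → X) (x : X) :
    (em_isUnit ℤ L x).unit ∈ U (c + 1) 0 := by
  have hval : (((em_isUnit ℤ L x).unit : (Matrix (Fin (c + 1)) (Fin (c + 1)) ℤ)ˣ) :
      Matrix (Fin (c + 1)) (Fin (c + 1)) ℤ) = 1 + em ℤ L x := IsUnit.unit_spec _
  have h1 : (((em_isUnit ℤ L x).unit : (Matrix (Fin (c + 1)) (Fin (c + 1)) ℤ)ˣ) :
      Matrix (Fin (c + 1)) (Fin (c + 1)) ℤ) - 1 ∈ J (c + 1) 0 := by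
    rw [hval, add_sub_cancel_left]
    exact em_mem_J L x
  refine ⟨h1, ?_⟩
  set M := (em_isUnit ℤ L x).unit with hM
  set V : Matrix (Fin (c + 1)) (Fin (c + 1)) ℤ :=
    ((M⁻¹ : (Matrix (Fin (c + 1)) (Fin (c + 1)) ℤ)ˣ) : Matrix (Fin (c + 1)) (Fin (c + 1)) ℤ)
    with hV
  have hMV : (M : Matrix (Fin (c + 1)) (Fin (c + 1)) ℤ) * V = 1 := by
    rw [hV, ← Units.val_mul, mul_inv_cancel, Units.val_one]
  -- V = 1 - em * V
  have hVeq : V = 1 - em ℤ L x * V := by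
    have : (1 + em ℤ L x) * V = 1 := by rw [← hval]; exact hMV
    rw [add_mul, one_mul] at this
    rw [← this]; abel
  -- by descending induction on the row the rows of V are unitriangular
  have key : ∀ d : ℕ, ∀ i j : Fin (c + 1), (c : ℕ) ≤ i + d → (j : ℕ) ≤ i → V i j = (1 : Matrix (Fin (c + 1)) (Fin (c + 1)) ℤ) i j := by
    intro d
    induction d with
    | zero =>
      intro i j hi hj
      rw [hVeq, Matrix.sub_apply, Matrix.mul_apply]
      rw [Finset.sum_eq_zero, sub_zero]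
      intro l _
      have : em ℤ L x i l = 0 := em_mem_J L x i l (by omega)
      rw [this, zero_mul]
    | succ d ih =>
      intro i j hi hj
      rw [hVeq, Matrix.sub_apply, Matrix.mul_apply]
      rw [Finset.sum_eq_zero, sub_zero]
      intro l _
      by_cases h : (l : ℕ) ≤ i + 0
      · rw [em_mem_J L x i l h, zero_mul]
      · rw [ih l j (by omega) (by omega), Matrix.one_apply_ne, mul_zero]
        rintro rfl
        omega
  intro i j hij
  rw [Matrix.sub_apply, key c i j (by omega) (by omega), sub_self]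

theorem rep_mem {X : Type} [DecidableEq X] {c : ℕ} (L : Fin c → X) (w : FreeGroup X) :
    rep ℤ L w ∈ U (c + 1) 0 := by
  induction w using FreeGroup.induction_on with
  | C1 => rw [map_one]; exact one_mem _
  | of x => simp only [rep, FreeGroup.lift_apply_of]; exact gen_mem L x
  | inv_of x hx => rw [map_inv]; exact inv_mem hx
  | mul x y hx hy => rw [map_mul]; exact mul_mem hx hy

theorem lcs_map {G H : Type} [Group G] [Group H] (φ : G →* H) (A : Subgroup G) (B : Subgroup H)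
    (h : A.map φ ≤ B) (k : ℕ) : (lcs A k).map φ ≤ lcs B k := by
  induction k with
  | zero => exact h
  | succ k ih =>
    change (⁅lcs A k, A⁆ : Subgroup G).map φ ≤ ⁅lcs B k, B⁆
    rw [Subgroup.map_commutator]
    exact Subgroup.commutator_mono ih h

theorem rep_lcs {X : Type} [DecidableEq X] {c : ℕ} (L : Fin c → X) (k : ℕ) :
    (lcs (⊤ : Subgroup (FreeGroup X)) k).map (rep ℤ L) ≤ U (c + 1) k := by
  induction k with
  | zero =>
    rintro _ ⟨w, _, rfl⟩
    exact rep_mem L w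
  | succ k ih =>
    change (⁅lcs (⊤ : Subgroup (FreeGroup X)) k, (⊤ : Subgroup (FreeGroup X))⁆ :
      Subgroup (FreeGroup X)).map (rep ℤ L) ≤ _
    rw [Subgroup.map_commutator]
    refine le_trans (Subgroup.commutator_mono ih ?_) comm_mem
    rintro _ ⟨w, _, rfl⟩
    exact rep_mem L w

theorem U_top {c : ℕ} {M : (Matrix (Fin (c + 1)) (Fin (c + 1)) ℤ)ˣ} (h : M ∈ U (c + 1) c) :
    M = 1 := by
  apply Units.ext
  rw [Units.val_one]
  have h1 := h.1
  ext i j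
  have := h1 i j (by omega)
  rw [Matrix.sub_apply] at this
  exact sub_eq_zero.1 this

theorem exists_letters {X : Type} [DecidableEq X] (w : FreeGroup X) :
    ∃ (S : Finset X) (w0 : FreeGroup S), FreeGroup.map (Subtype.val : S → X) w0 = w := by
  induction w using FreeGroup.induction_on with
  | C1 => exact ⟨∅, 1, map_one _⟩
  | of x => exact ⟨{x}, FreeGroup.of ⟨x, Finset.mem_singleton_self x⟩, by simp⟩
  | inv_of x hx =>
    obtain ⟨S, w0, h⟩ := hx
    exact ⟨S, w0⁻¹, by rw [map_inv, h]⟩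
  | mul x y hx hy =>
    obtain ⟨S, u, hu⟩ := hx
    obtain ⟨T, v, hv⟩ := hy
    refine ⟨S ∪ T, FreeGroup.map (fun s : S => (⟨s.1, Finset.mem_union_left _ s.2⟩ : (S ∪ T : Finset X))) u *
      FreeGroup.map (fun s : T => (⟨s.1, Finset.mem_union_right _ s.2⟩ : (S ∪ T : Finset X))) v, ?_⟩
    rw [map_mul, FreeGroup.map.comp, FreeGroup.map.comp]
    rw [← hu, ← hv]
    rfl

theorem exists_fin {X : Type} [DecidableEq X] (w : FreeGroup X) :
    ∃ (r : ℕ) (f : Fin r → X) (w0 : FreeGroup (Fin r)), Function.Injective f ∧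
      FreeGroup.map f w0 = w := by
  obtain ⟨S, w0, h⟩ := exists_letters w
  refine ⟨S.card, Subtype.val ∘ S.equivFin.symm, FreeGroup.map S.equivFin w0, ?_, ?_⟩
  · exact Subtype.val_injective.comp S.equivFin.symm.injective
  · rw [FreeGroup.map.comp]
    have : (Subtype.val ∘ S.equivFin.symm) ∘ S.equivFin = (Subtype.val : S → X) := by
      funext x
      simp
    rw [this, h]

theorem rep_map {X Y : Type} [DecidableEq X] [DecidableEq Y] {c : ℕ} (f : X → Y)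
    (hf : Function.Injective f) (L : Fin c → X) (w : FreeGroup X) :
    rep ℤ (f ∘ L) (FreeGroup.map f w) = rep ℤ L w := by
  have : (rep ℤ (f ∘ L)).comp (FreeGroup.map f) = rep ℤ L := by
    ext x : 1
    simp only [MonoidHom.comp_apply, FreeGroup.map.of, rep, FreeGroup.lift_apply_of]
    apply Units.ext
    rw [IsUnit.unit_spec, IsUnit.unit_spec]
    congr 1
    ext i j
    simp only [em, Function.comp_apply, hf.eq_iff]
  exact DFunLike.congr_fun this w

end H954MAG2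

open H954MAG2

-- BEGIN TARGET
theorem t_MAG2 (h1 : S_MAG1) : S_MAG2 := by
  intro X _ c w
  constructor
  · intro hw L
    exact U_top (rep_lcs L c ⟨w, hw, rfl⟩)
  · intro h
    obtain ⟨r, f, w0, hf, rfl⟩ := exists_fin w
    have h0 : w0 ∈ lcs (⊤ : Subgroup (FreeGroup (Fin r))) c := by
      apply h1
      intro L
      rw [← rep_map f hf L w0]
      exact h (f ∘ L)
    exact lcs_map (FreeGroup.map f) ⊤ ⊤ le_top c ⟨w0, h0, rfl⟩
-- END TARGET

end Pool.Agent.H335PN
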