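import Pool.Agent.H335PN.Stmts

set_option autoImplicit false

/-! Abelian groups satisfy the Følner condition: the boxes have polynomial growth. -/

namespace Pool.Agent.H335PN.ORE1w

open Filter Topology

/-- the box of the products of powers with exponents at most `n` -/
noncomputable def box {G : Type} [CommGroup G] [DecidableEq G] (S : Finset G) (n : ℕ) : Finset G :=
  Finset.univ.image (fun a : S → Fin (n + 1) => ∏ s : S, (s : G) ^ (a s : ℕ))

theorem box_card {G : Type} [CommGroup G] [DecidableEq G] (S : Finset G) (n : ℕ) :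
    (box S n).card ≤ (n + 1) ^ S.card := by
  refine Finset.card_image_le.trans ?_
  simp

theorem box_nonempty {G : Type} [CommGroup G] [DecidableEq G] (S : Finset G) (n : ℕ) :
    (box S n).Nonempty := by
  unfold box
  rw [Finset.image_nonempty]
  exact Finset.univ_nonempty

theorem box_succ {G : Type} [CommGroup G] [DecidableEq G] (S : Finset G) (n : ℕ) :
    {g : G | ∃ f ∈ box S n, ∃ s ∈ S, g = f * s} ⊆ (box S (n + 1) : Set G) := by
  rintro g ⟨f, hf, s, hs, rfl⟩
  unfold box at hf
  rw [Finset.mem_image] at hf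
  obtain ⟨a, -, rfl⟩ := hf
  rw [Finset.mem_coe]
  unfold box
  rw [Finset.mem_image]
  refine ⟨fun t => ⟨(a t : ℕ) + if t = ⟨s, hs⟩ then 1 else 0, ?_⟩, Finset.mem_univ _, ?_⟩
  · have := (a t).2
    split_ifs <;> omega
  · simp only [pow_add, Finset.prod_mul_distrib]
    congr 1
    rw [Finset.prod_eq_single (⟨s, hs⟩ : S)]
    · simp
    · intro b _ hb
      simp [hb]
    · intro h
      exact absurd (Finset.mem_univ _) h

theorem exists_lt {ε : ℝ} (hε : 0 < ε) (k : ℕ) : ∃ n : ℕ, ((n : ℝ) + 1) ^ k < (1 + ε) ^ n := by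
  have h1 := tendsto_pow_const_div_const_pow_of_one_lt k (r := 1 + ε) (by linarith)
  have h2 := h1.comp (tendsto_add_atTop_nat 1)
  have h3 : (0 : ℝ) < (1 + ε)⁻¹ := by positivity
  obtain ⟨n, hn⟩ := ((tendsto_order.1 h2).2 _ h3).exists
  refine ⟨n, ?_⟩
  simp only [Function.comp_apply, Nat.cast_add, Nat.cast_one] at hn
  rw [div_lt_iff₀ (by positivity), pow_succ', ← mul_assoc, inv_mul_cancel₀ (by positivity),
    one_mul] at hn
  exact hn

end Pool.Agent.H335PN.ORE1w

namespace Pool.Agent.H335PN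

open Pool.Agent.Helper777.Prof

-- BEGIN TARGET
theorem t_ORE1  : S_ORE1 := by
  intro G _ S ε hε
  classical
  by_contra hcon
  push Not at hcon
  have hgrow : ∀ n : ℕ, (1 + ε) ^ n ≤ ((ORE1w.box S n).card : ℝ) := by
    intro n
    induction n with
    | zero =>
      rw [pow_zero]
      exact_mod_cast (ORE1w.box_nonempty S 0).card_pos
    | succ n ih =>
      have h1 := hcon (ORE1w.box S n) (ORE1w.box_nonempty S n)
      have h2 : Set.ncard {g : G | ∃ f ∈ ORE1w.box S n, ∃ s ∈ S, g = f * s} ≤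
          (ORE1w.box S (n + 1)).card := by
        rw [← Set.ncard_coe_finset]
        exact Set.ncard_le_ncard (ORE1w.box_succ S n) (Finset.finite_toSet _)
      have h3 : (Set.ncard {g : G | ∃ f ∈ ORE1w.box S n, ∃ s ∈ S, g = f * s} : ℝ) ≤
          ((ORE1w.box S (n + 1)).card : ℝ) := by exact_mod_cast h2
      rw [pow_succ']
      have h4 : (1 + ε) * (1 + ε) ^ n ≤ (1 + ε) * ((ORE1w.box S n).card : ℝ) :=
        mul_le_mul_of_nonneg_left ih (by linarith)
      linarith
  obtain ⟨n, hn⟩ := ORE1w.exists_lt hε S.card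
  have h1 := hgrow n
  have h2 : ((ORE1w.box S n).card : ℝ) ≤ ((n : ℝ) + 1) ^ S.card := by
    exact_mod_cast ORE1w.box_card S n
  linarith
-- END TARGET

end Pool.Agent.H335PN
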