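import Pool.Agent.H335PN.Stmts

set_option autoImplicit false

namespace Pool.Agent.H335PN

open Pool.Agent.Helper777.Prof

-- BEGIN TARGET
theorem t_ORE2  : S_ORE2 := by
  classical
  intro G Q _ _ q hq hN hQ S ε hε
  obtain ⟨δ, hδ, hδ2⟩ : ∃ δ : ℝ, 0 < δ ∧ (1 + δ) * (1 + δ) ≤ 1 + ε := by
    refine ⟨min 1 (ε / 3), lt_min one_pos (by positivity), ?_⟩
    have h1 : min 1 (ε / 3) ≤ 1 := min_le_left _ _
    have h2 : min 1 (ε / 3) ≤ ε / 3 := min_le_right _ _
    have h3 : 0 < min 1 (ε / 3) := lt_min one_pos (by positivity)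
    nlinarith
  obtain ⟨FQ, hFQ, hFQc⟩ := hQ (S.image q) δ hδ
  choose t ht using hq
  have hk : ∀ (x : Q) (s : G), t x * s * (t (x * q s))⁻¹ ∈ q.ker := by
    intro x s
    rw [MonoidHom.mem_ker, map_mul, map_mul, map_inv, ht, ht, mul_inv_cancel]
  let kk : Q × G → q.ker := fun p => ⟨t p.1 * p.2 * (t (p.1 * q p.2))⁻¹, hk p.1 p.2⟩
  let K : Finset q.ker := (FQ ×ˢ S).image kk
  obtain ⟨FN, hFN, hFNc⟩ := hN K δ hδ
  let F : Finset G := (FN ×ˢ FQ).image (fun p => (p.1 : G) * t p.2)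
  have hinj : Function.Injective (fun p : q.ker × Q => (p.1 : G) * t p.2) := by
    rintro ⟨n, x⟩ ⟨m, y⟩ h
    simp only at h
    have hx : x = y := by
      have := congrArg q h
      rw [map_mul, map_mul, ht, ht, (MonoidHom.mem_ker).1 n.2, (MonoidHom.mem_ker).1 m.2, one_mul,
        one_mul] at this
      exact this
    subst hx
    have hn : (n : G) = m := mul_right_cancel h
    rw [Subtype.ext hn]
  have hFc : F.card = FN.card * FQ.card := by
    rw [← Finset.card_product]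
    exact Finset.card_image_of_injective _ hinj
  refine ⟨F, ?_, ?_⟩
  · exact (hFN.product hFQ).image _
  · set A : Set q.ker := {g | ∃ f ∈ FN, ∃ s ∈ K, g = f * s} with hA
    set B : Set Q := {g | ∃ f ∈ FQ, ∃ s ∈ S.image q, g = f * s} with hB
    have hAf : A.Finite := by
      refine ((FN ×ˢ K).image (fun p => p.1 * p.2)).finite_toSet.subset ?_
      rintro g ⟨f, hf, s, hs, rfl⟩
      simp only [Finset.coe_image, Set.mem_image]
      exact ⟨(f, s), by simp [hf, hs], rfl⟩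
    have hBf : B.Finite := by
      refine ((FQ ×ˢ S.image q).image (fun p => p.1 * p.2)).finite_toSet.subset ?_
      rintro g ⟨f, hf, s, hs, rfl⟩
      simp only [Finset.coe_image, Set.mem_image]
      refine ⟨(f, s), ?_, rfl⟩
      rw [Finset.mem_coe, Finset.mem_product]
      exact ⟨hf, hs⟩
    have hsub : {g : G | ∃ f ∈ F, ∃ s ∈ S, g = f * s} ⊆
        (fun p : q.ker × Q => (p.1 : G) * t p.2) '' (A ×ˢ B) := by
      rintro g ⟨f, hf, s, hs, rfl⟩
      obtain ⟨⟨n, x⟩, hnx, rfl⟩ := Finset.mem_image.1 hf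
      rw [Finset.mem_product] at hnx
      refine ⟨(n * kk (x, s), x * q s), ⟨⟨n, hnx.1, kk (x, s), ?_, rfl⟩, ?_⟩, ?_⟩
      · exact Finset.mem_image.2 ⟨(x, s), by rw [Finset.mem_product]; exact ⟨hnx.2, hs⟩, rfl⟩
      · exact ⟨x, hnx.2, q s, Finset.mem_image_of_mem _ hs, rfl⟩
      · simp only [kk, Subgroup.coe_mul]
        group
    have hcard : Set.ncard {g : G | ∃ f ∈ F, ∃ s ∈ S, g = f * s} ≤ A.ncard * B.ncard := by
      calc _ ≤ ((fun p : q.ker × Q => (p.1 : G) * t p.2) '' (A ×ˢ B)).ncard :=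
            Set.ncard_le_ncard hsub ((hAf.prod hBf).image _)
        _ ≤ (A ×ˢ B).ncard := Set.ncard_image_le (hAf.prod hBf)
        _ = A.ncard * B.ncard := Set.ncard_prod
    have h1 : (Set.ncard {g : G | ∃ f ∈ F, ∃ s ∈ S, g = f * s} : ℝ) ≤ (A.ncard : ℝ) * B.ncard := by
      exact_mod_cast hcard
    have h2 : (A.ncard : ℝ) ≤ (1 + δ) * FN.card := hFNc
    have h3 : (B.ncard : ℝ) ≤ (1 + δ) * FQ.card := hFQc
    calc _ ≤ (A.ncard : ℝ) * B.ncard := h1
      _ ≤ ((1 + δ) * FN.card) * ((1 + δ) * FQ.card) := by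
          apply mul_le_mul h2 h3 (by positivity) (by positivity)
      _ = ((1 + δ) * (1 + δ)) * (FN.card * FQ.card) := by ring
      _ ≤ (1 + ε) * (FN.card * FQ.card) := by
          apply mul_le_mul_of_nonneg_right hδ2 (by positivity)
      _ = (1 + ε) * F.card := by rw [hFc]; push_cast; ring
-- END TARGET

end Pool.Agent.H335PN
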