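/- PN job ORE3 (MP_a78553_al, owner helper335). -/
import Pool.Agent.H335PN.Stmts

set_option autoImplicit false

namespace Pool.Agent.H335PN

open Pool.Agent.Helper777.Prof

namespace TORE3

theorem fol_of_subsingleton (G : Type) [Group G] [Subsingleton G] : Fol G := by
  intro S ε hε
  refine ⟨{1}, Finset.singleton_nonempty 1, ?_⟩
  have h1 : Set.ncard {g : G | ∃ f ∈ ({1} : Finset G), ∃ s ∈ S, g = f * s} ≤ 1 := by
    have h2 : {g : G | ∃ f ∈ ({1} : Finset G), ∃ s ∈ S, g = f * s} ⊆ {1} := by
      intro g _
      exact Subsingleton.elim g 1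
    calc Set.ncard _ ≤ Set.ncard ({1} : Set G) := Set.ncard_le_ncard h2 (Set.finite_singleton 1)
      _ = 1 := Set.ncard_singleton 1
  have h3 : (Set.ncard {g : G | ∃ f ∈ ({1} : Finset G), ∃ s ∈ S, g = f * s} : ℝ) ≤ 1 := by
    exact_mod_cast h1
  simp only [Finset.card_singleton, Nat.cast_one, mul_one]
  linarith

theorem map_derived_le {G : Type} [Group G] (H : Subgroup G) (hH : H ≤ commutator G) (m : ℕ) :
    (derivedSeries H m).map H.subtype ≤ derivedSeries G (m + 1) := by
  induction m with
  | zero =>
    intro x hx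
    obtain ⟨y, _, rfl⟩ := Subgroup.mem_map.1 hx
    have : (y : G) ∈ commutator G := hH y.2
    change (y : G) ∈ derivedSeries G 1
    rw [derivedSeries_one]
    exact this
  | succ m ih =>
    rw [derivedSeries_succ (G := H), Subgroup.map_commutator, derivedSeries_succ (G := G) (n := m + 1)]
    exact Subgroup.commutator_mono ih ih

theorem fol_of_derived (h1 : S_ORE1) (h2 : S_ORE2) (n : ℕ) :
    ∀ (G : Type) [Group G], derivedSeries G n = ⊥ → Fol G := by
  induction n with
  | zero =>
    intro G _ hG
    have : Subsingleton G := by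
      rw [derivedSeries_zero] at hG
      refine ⟨fun a b => ?_⟩
      have ha : a ∈ (⊥ : Subgroup G) := hG ▸ Subgroup.mem_top a
      have hb : b ∈ (⊥ : Subgroup G) := hG ▸ Subgroup.mem_top b
      rw [Subgroup.mem_bot] at ha hb
      rw [ha, hb]
    exact fol_of_subsingleton G
  | succ n ih =>
    intro G _ hG
    have hker : (Abelianization.of : G →* Abelianization G).ker ≤ commutator G := by
      intro x hx
      rw [MonoidHom.mem_ker] at hx
      exact (QuotientGroup.eq_one_iff x).1 hx
    refine h2 G (Abelianization G) Abelianization.of (QuotientGroup.mk_surjective) ?_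
      (h1 (Abelianization G))
    apply ih
    have h3 := map_derived_le _ hker n
    rw [hG] at h3
    have h4 := le_bot_iff.1 h3
    exact (Subgroup.map_eq_bot_iff_of_injective _ (Subgroup.subtype_injective _)).1 h4

end TORE3

-- BEGIN TARGET
theorem t_ORE3 (h1 : S_ORE1) (h2 : S_ORE2) : S_ORE3 := by
  intro G _ hG
  obtain ⟨n, hn⟩ := hG.solvable
  exact TORE3.fol_of_derived h1 h2 n G hn
-- END TARGET

end Pool.Agent.H335PN
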