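import Pool.Agent.H335PN.Stmts

set_option autoImplicit false

namespace Pool.Agent.H335PN

open Pool.Agent.Helper777.Prof

namespace UPNaux

theorem transport (F : Type) [Group F] (K N : Subgroup F) [K.Normal] [N.Normal] (h : K = N)
    (c : ℕ) (hu : UniqueProds (F ⧸ lcs K c)) : UniqueProds (F ⧸ lcs N c) := by
  subst h
  exact hu

theorem base (r : ℕ) : UniqueProds (FreeGroup (Fin r) ⧸ commutator (FreeGroup (Fin r))) := by
  have h1 : UniqueSums (FreeAbelianGroup (Fin r)) := by
    refine UniqueSums.of_injective_addHom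
      ((FreeAbelianGroup.equivFinsupp (Fin r)).toAddMonoidHom : _ →+ (Fin r →₀ ℤ)).toAddHom
      (FreeAbelianGroup.equivFinsupp (Fin r)).injective inferInstance
  have h2 : UniqueProds (Abelianization (FreeGroup (Fin r))) := by
    refine ⟨fun {A B} hA hB => ?_⟩
    exact h1.uniqueAdd_of_nonempty hA hB
  exact h2

end UPNaux

-- BEGIN TARGET
theorem t_UPN (h1 : S_UP) : S_UPN := by
  intro r c l
  induction l with
  | zero => exact UPNaux.base r
  | succ l ih =>
    have h2 := h1 (Fin r) (PN r c l) (QuotientGroup.mk' (NN (FreeGroup (Fin r)) c l))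
      (QuotientGroup.mk'_surjective _) ih (c l)
    exact UPNaux.transport _ _ _ (QuotientGroup.ker_mk' _) (c l) h2
-- END TARGET

end Pool.Agent.H335PN
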